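import Mathlib

/-!
# Abstract induction over the places

`O` is a commutative ring (think of `ℤ` or `ℤ[i]`), `J` the finite `O`-module of global two-torsion
points.  At each place we have a family of `O`-modules `M d` (`d` in the set `D` of twists), with a
filtration, the two-torsion `tor d : J → M d`, and a relation `Sig` between local data.
-/

namespace Pool.Agent.Helper1.FT.Abs

/-- local modules with filtration and torsion -/
structure PrePlace (O J : Type) [CommRing O] [AddCommGroup J] [Module O J] where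
  /-- twists -/
  D : Type
  /-- module of local points of the twist -/
  M : D → Type
  [grp : ∀ d, AddCommGroup (M d)]
  [mod : ∀ d, Module O (M d)]
  /-- filtration -/
  fil : ∀ d, ℕ → Submodule O (M d)
  /-- two-torsion -/
  tor : ∀ d, J →ₗ[O] M d

attribute [instance] PrePlace.grp PrePlace.mod

variable {O J : Type} [CommRing O] [AddCommGroup J] [Module O J]

/-- a local datum -/
structure Loc (P : PrePlace O J) where
  d : P.D
  Q : P.M d
  R : P.M d

/-- local theory at a place -/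
structure Place (O J : Type) [CommRing O] [AddCommGroup J] [Module O J] extends PrePlace O J where
  /-- local data exchanged by the involution -/
  Sig : Loc toPrePlace → Loc toPrePlace → Prop

namespace Loc

variable {P : PrePlace O J}

/-- `(Q, R) ↦ (Q + a R, R)` -/
def sh1 (a : O) (l : Loc P) : Loc P := ⟨l.d, l.Q + a • l.R, l.R⟩

/-- `(Q, R) ↦ (Q, R + a Q)` -/
def sh2 (a : O) (l : Loc P) : Loc P := ⟨l.d, l.Q, l.R + a • l.Q⟩

/-- `(Q, R) ↦ (Q + tor j, R)` -/
def tr1 (j : J) (l : Loc P) : Loc P := ⟨l.d, l.Q + P.tor l.d j, l.R⟩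

/-- `(Q, R) ↦ (Q, R + tor j)` -/
def tr2 (j : J) (l : Loc P) : Loc P := ⟨l.d, l.Q, l.R + P.tor l.d j⟩

/-- `(Q, R) ↦ (ε Q, R)` -/
def un1 (ε : Oˣ) (l : Loc P) : Loc P := ⟨l.d, (ε : O) • l.Q, l.R⟩

/-- `(Q, R) ↦ (Q, ε R)` -/
def un2 (ε : Oˣ) (l : Loc P) : Loc P := ⟨l.d, l.Q, (ε : O) • l.R⟩

theorem sh1_sh1 (a b : O) (l : Loc P) : (l.sh1 a).sh1 b = l.sh1 (a + b) := by
  change (⟨l.d, (l.Q + a • l.R) + b • l.R, l.R⟩ : Loc P) = ⟨l.d, l.Q + (a + b) • l.R, l.R⟩
  rw [add_smul, add_assoc]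

theorem sh2_sh2 (a b : O) (l : Loc P) : (l.sh2 a).sh2 b = l.sh2 (a + b) := by
  change (⟨l.d, l.Q, (l.R + a • l.Q) + b • l.Q⟩ : Loc P) = ⟨l.d, l.Q, l.R + (a + b) • l.Q⟩
  rw [add_smul, add_assoc]

theorem sh1_zero (l : Loc P) : l.sh1 0 = l := by simp [sh1]

theorem sh2_zero (l : Loc P) : l.sh2 0 = l := by simp [sh2]

theorem tr1_tr1 (a b : J) (l : Loc P) : (l.tr1 a).tr1 b = l.tr1 (a + b) := by
  change (⟨l.d, (l.Q + P.tor l.d a) + P.tor l.d b, l.R⟩ : Loc P) =
    ⟨l.d, l.Q + P.tor l.d (a + b), l.R⟩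
  rw [map_add, add_assoc]

theorem tr2_tr2 (a b : J) (l : Loc P) : (l.tr2 a).tr2 b = l.tr2 (a + b) := by
  change (⟨l.d, l.Q, (l.R + P.tor l.d a) + P.tor l.d b⟩ : Loc P) =
    ⟨l.d, l.Q, l.R + P.tor l.d (a + b)⟩
  rw [map_add, add_assoc]

theorem tr1_zero (l : Loc P) : l.tr1 0 = l := by simp [tr1]

theorem tr2_zero (l : Loc P) : l.tr2 0 = l := by simp [tr2]

theorem un1_un1 (a b : Oˣ) (l : Loc P) : (l.un1 a).un1 b = l.un1 (b * a) := by
  change (⟨l.d, (b : O) • ((a : O) • l.Q), l.R⟩ : Loc P) = ⟨l.d, ((b * a : Oˣ) : O) • l.Q, l.R⟩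
  rw [Units.val_mul, mul_smul]

theorem un2_un2 (a b : Oˣ) (l : Loc P) : (l.un2 a).un2 b = l.un2 (b * a) := by
  change (⟨l.d, l.Q, (b : O) • ((a : O) • l.R)⟩ : Loc P) = ⟨l.d, l.Q, ((b * a : Oˣ) : O) • l.R⟩
  rw [Units.val_mul, mul_smul]

theorem un1_one (l : Loc P) : l.un1 1 = l := by simp [un1]

theorem un2_one (l : Loc P) : l.un2 1 = l := by simp [un2]

/-- closeness -/
def Near (n : ℕ) (l' l : Loc P) : Prop :=
  ∃ Q' R' : P.M l.d, l' = ⟨l.d, Q', R'⟩ ∧ Q' - l.Q ∈ P.fil l.d n ∧ R' - l.R ∈ P.fil l.d n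

theorem Near.refl (n : ℕ) (l : Loc P) : Near n l l :=
  ⟨l.Q, l.R, rfl, by simp, by simp⟩

/-- near the node `(i, j)` -/
def Ty (i j : J) (l : Loc P) : Prop :=
  l.Q - P.tor l.d i ∈ P.fil l.d 0 ∧ l.R - P.tor l.d j ∈ P.fil l.d 0

/-- near one of the nodes -/
def NN (l : Loc P) : Prop := ∃ i j, Ty i j l

theorem Ty.sh1 {i j : J} {l : Loc P} (h : Ty i j l) (a : O) : Ty (i + a • j) j (l.sh1 a) := by
  refine ⟨?_, h.2⟩
  change (l.Q + a • l.R) - P.tor l.d (i + a • j) ∈ P.fil l.d 0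
  have e : (l.Q + a • l.R) - P.tor l.d (i + a • j) =
      (l.Q - P.tor l.d i) + a • (l.R - P.tor l.d j) := by
    rw [map_add, map_smul, smul_sub]; abel
  rw [e]
  exact Submodule.add_mem _ h.1 (Submodule.smul_mem _ _ h.2)

theorem Ty.sh2 {i j : J} {l : Loc P} (h : Ty i j l) (a : O) : Ty i (j + a • i) (l.sh2 a) := by
  refine ⟨h.1, ?_⟩
  change (l.R + a • l.Q) - P.tor l.d (j + a • i) ∈ P.fil l.d 0
  have e : (l.R + a • l.Q) - P.tor l.d (j + a • i) =
      (l.R - P.tor l.d j) + a • (l.Q - P.tor l.d i) := by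
    rw [map_add, map_smul, smul_sub]; abel
  rw [e]
  exact Submodule.add_mem _ h.2 (Submodule.smul_mem _ _ h.1)

theorem Ty.tr1 {i j : J} {l : Loc P} (h : Ty i j l) (k : J) : Ty (i + k) j (l.tr1 k) := by
  refine ⟨?_, h.2⟩
  change (l.Q + P.tor l.d k) - P.tor l.d (i + k) ∈ P.fil l.d 0
  have e : (l.Q + P.tor l.d k) - P.tor l.d (i + k) = (l.Q - P.tor l.d i) := by
    rw [map_add]; abel
  rw [e]
  exact h.1

theorem Ty.tr2 {i j : J} {l : Loc P} (h : Ty i j l) (k : J) : Ty i (j + k) (l.tr2 k) := by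
  refine ⟨h.1, ?_⟩
  change (l.R + P.tor l.d k) - P.tor l.d (j + k) ∈ P.fil l.d 0
  have e : (l.R + P.tor l.d k) - P.tor l.d (j + k) = (l.R - P.tor l.d j) := by
    rw [map_add]; abel
  rw [e]
  exact h.2

theorem Ty.un1 {i j : J} {l : Loc P} (h : Ty i j l) (ε : Oˣ) : Ty ((ε : O) • i) j (l.un1 ε) := by
  refine ⟨?_, h.2⟩
  change (ε : O) • l.Q - P.tor l.d ((ε : O) • i) ∈ P.fil l.d 0
  rw [map_smul, ← smul_sub]
  exact Submodule.smul_mem _ _ h.1

theorem Ty.un2 {i j : J} {l : Loc P} (h : Ty i j l) (ε : Oˣ) : Ty i ((ε : O) • j) (l.un2 ε) := by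
  refine ⟨h.1, ?_⟩
  change (ε : O) • l.R - P.tor l.d ((ε : O) • j) ∈ P.fil l.d 0
  rw [map_smul, ← smul_sub]
  exact Submodule.smul_mem _ _ h.2

end Loc

/-! ### predicates at one place -/

/-- closed and stable predicates at a single place -/
structure Stable1 (P : Place O J) (H : Loc P.toPrePlace → Prop) : Prop where
  cl : ∀ l, (∀ n, ∃ l', H l' ∧ Loc.Near n l' l) → H l
  sh1 : ∀ l (a : O), H l → H (l.sh1 a)
  sh2 : ∀ l (a : O), H l → H (l.sh2 a)
  tr1 : ∀ l (j : J), H l → H (l.tr1 j)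
  tr2 : ∀ l (j : J), H l → H (l.tr2 j)
  un1 : ∀ l (ε : Oˣ), H l → H (l.un1 ε)
  un2 : ∀ l (ε : Oˣ), H l → H (l.un2 ε)
  sig : ∀ l l', H l → P.Sig l l' → H l'

/-- topological generator of the `c`-th step of the filtration, by even multiples -/
def Lev (P : PrePlace O J) (d : P.D) (c : ℕ) (x : P.M d) : Prop :=
  x ∈ P.fil d c ∧ ∀ ξ ∈ P.fil d c, ∀ k, ∃ a : O, ξ - (2 * a) • x ∈ P.fil d k

/-- the pair has content `c` -/
def Cont (P : PrePlace O J) (d : P.D) (c : ℕ) (x y : P.M d) : Prop :=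
  x ∈ P.fil d c ∧ y ∈ P.fil d c ∧ (Lev P d c x ∨ Lev P d c y)

/-- `Sig` maps some points near the node `(i, j)` to points of every twist and content near the
node `(i', j')` -/
def NLink (P : Place O J) (i j i' j' : J) : Prop :=
  ∀ (d : P.D) (c : ℕ), ∃ (l₀ : Loc P.toPrePlace) (η₁ η₂ : P.M d), Loc.Ty i j l₀ ∧
    Cont P.toPrePlace d c η₁ η₂ ∧ P.Sig l₀ ⟨d, P.tor d i' + η₁, P.tor d j' + η₂⟩

/-- axioms needed at every (finite) place -/
structure Weak (P : Place O J) (a ϖ : O) : Prop where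
  anti : ∀ d, Antitone (P.fil d)
  exp : ∀ d (x : P.M d) n, (a * ϖ ^ n) • x ∈ P.fil d n
  sig_base : ∀ d (Q : P.M d) n, ∃ (d₀ : P.D) (Q₀ : P.M d₀) (m : ℕ), (∀ a : O, a ≠ 0 → a • Q₀ ≠ 0) ∧
    ∀ R₀ : P.M d₀, R₀ ≠ 0 → R₀ ∈ P.fil d₀ m →
      ∃ l', P.Sig ⟨d₀, Q₀, R₀⟩ l' ∧ Loc.Near n l' ⟨d, Q, 0⟩
  dense : ∀ (l : Loc P.toPrePlace) n, ∃ l₀ l', P.Sig l₀ l' ∧ Loc.Near n l' l

/-- axioms needed at the places which are added -/
structure Strong (P : Place O J) (a ϖ : O) : Prop extends Weak P a ϖ where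
  content : ∀ d (x y : P.M d), x ∈ P.fil d 0 → y ∈ P.fil d 0 → (x = 0 ∧ y = 0) ∨
    ∃ c, Cont P.toPrePlace d c x y
  lev : ∀ d c, ∃ x, Lev P.toPrePlace d c x
  fil_pow : ∀ d (x : P.M d) n, x ∈ P.fil d 0 → ϖ ^ n • x ∈ P.fil d n
  nlink : ∀ i' j', ∃ i j, NLink P i j i' j'
  nodes : ∀ H : J → Prop, H 0 → (∀ i j i' j', NLink P i j i' j' → H j → H j') → ∀ j, H j
  trans : ∀ H, Stable1 P H → (∀ l, Loc.NN l → H l) → ∀ l, H l

/-! ### systems -/

variable {ι : Type} [DecidableEq ι] (P : ι → Place O J)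

/-- systems of local data -/
abbrev Sys := ∀ v, Loc (P v).toPrePlace

/-- closed and stable predicates on systems, depending on the places in `S` -/
structure Stable (S : Finset ι) (F : Sys P → Prop) : Prop where
  cl : ∀ s, (∀ n, ∃ s', F s' ∧ ∀ v ∈ S, Loc.Near n (s' v) (s v)) → F s
  sh1 : ∀ s (a : O), F s → F (fun v => (s v).sh1 a)
  sh2 : ∀ s (a : O), F s → F (fun v => (s v).sh2 a)
  tr1 : ∀ s (j : J), F s → F (fun v => (s v).tr1 j)
  tr2 : ∀ s (j : J), F s → F (fun v => (s v).tr2 j)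
  un1 : ∀ s (ε : Oˣ), F s → F (fun v => (s v).un1 ε)
  un2 : ∀ s (ε : Oˣ), F s → F (fun v => (s v).un2 ε)
  sig : ∀ s s', F s → (∀ v ∈ S, (P v).Sig (s v) (s' v)) → F s'
  base : ∀ s, (∀ v ∈ S, (s v).R = 0) → F s

/-- every stable predicate is true -/
def Ind (S : Finset ι) : Prop := ∀ F, Stable P S F → ∀ s, F s

omit [DecidableEq ι] in
theorem ind_empty : Ind P ∅ := fun _ hF s => hF.base s (by simp)

variable {P} {S : Finset ι} {F : Sys P → Prop}

omit [DecidableEq ι] in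
theorem Stable.congr (hF : Stable P S F) {s s' : Sys P} (h : ∀ v ∈ S, s v = s' v) (hs : F s) :
    F s' := by
  apply hF.cl
  intro n
  refine ⟨s, hs, fun v hv => ?_⟩
  rw [h v hv]
  exact Loc.Near.refl n _

theorem update_map {α : ι → Type} (g : ∀ v, α v → α v) (s : ∀ v, α v) (v : ι) (t : α v) :
    (fun w => g w (Function.update s v t w)) = Function.update (fun w => g w (s w)) v (g v t) := by
  funext w
  by_cases h : w = v
  · subst h; simp
  · simp [h]

section step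

variable {v : ι} (hv : v ∉ S) (hF : Stable P (insert v S) F) {a ϖ : ι → O}

include hF in
theorem cl_update {s : Sys P} {t : Loc (P v).toPrePlace}
    (h : ∀ n, ∃ s' t', F (Function.update s' v t') ∧ (∀ w ∈ S, Loc.Near n (s' w) (s w)) ∧
      Loc.Near n t' t) : F (Function.update s v t) := by
  apply hF.cl
  intro n
  obtain ⟨s', t', h1, h2, h3⟩ := h n
  refine ⟨_, h1, fun w hw => ?_⟩
  by_cases hwv : w = v
  · subst hwv
    rw [Function.update_self, Function.update_self]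
    exact h3
  · rw [Function.update_of_ne hwv, Function.update_of_ne hwv]
    exact h2 w ((Finset.mem_insert.1 hw).resolve_left hwv)

include hF in
theorem congr_update {s s' : Sys P} {t : Loc (P v).toPrePlace} (h : ∀ w ∈ S, s w = s' w)
    (hs : F (Function.update s v t)) : F (Function.update s' v t) := by
  apply hF.congr _ hs
  intro w hw
  by_cases hwv : w = v
  · subst hwv; rw [Function.update_self, Function.update_self]
  · rw [Function.update_of_ne hwv, Function.update_of_ne hwv]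
    exact h w ((Finset.mem_insert.1 hw).resolve_left hwv)

include hF in
theorem sh1_update {s : Sys P} {t : Loc (P v).toPrePlace} (b : O)
    (h : F (Function.update s v t)) :
    F (Function.update (fun w => (s w).sh1 b) v (t.sh1 b)) := by
  have := hF.sh1 _ b h
  rwa [update_map (α := fun w => Loc (P w).toPrePlace) (fun w l => l.sh1 b)] at this

include hF in
theorem sh2_update {s : Sys P} {t : Loc (P v).toPrePlace} (b : O)
    (h : F (Function.update s v t)) :
    F (Function.update (fun w => (s w).sh2 b) v (t.sh2 b)) := by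
  have := hF.sh2 _ b h
  rwa [update_map (α := fun w => Loc (P w).toPrePlace) (fun w l => l.sh2 b)] at this

include hF in
theorem tr1_update {s : Sys P} {t : Loc (P v).toPrePlace} (b : J)
    (h : F (Function.update s v t)) :
    F (Function.update (fun w => (s w).tr1 b) v (t.tr1 b)) := by
  have := hF.tr1 _ b h
  rwa [update_map (α := fun w => Loc (P w).toPrePlace) (fun w l => l.tr1 b)] at this

include hF in
theorem tr2_update {s : Sys P} {t : Loc (P v).toPrePlace} (b : J)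
    (h : F (Function.update s v t)) :
    F (Function.update (fun w => (s w).tr2 b) v (t.tr2 b)) := by
  have := hF.tr2 _ b h
  rwa [update_map (α := fun w => Loc (P w).toPrePlace) (fun w l => l.tr2 b)] at this

include hF in
theorem un1_update {s : Sys P} {t : Loc (P v).toPrePlace} (b : Oˣ)
    (h : F (Function.update s v t)) :
    F (Function.update (fun w => (s w).un1 b) v (t.un1 b)) := by
  have := hF.un1 _ b h
  rwa [update_map (α := fun w => Loc (P w).toPrePlace) (fun w l => l.un1 b)] at this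

include hF in
theorem un2_update {s : Sys P} {t : Loc (P v).toPrePlace} (b : Oˣ)
    (h : F (Function.update s v t)) :
    F (Function.update (fun w => (s w).un2 b) v (t.un2 b)) := by
  have := hF.un2 _ b h
  rwa [update_map (α := fun w => Loc (P w).toPrePlace) (fun w l => l.un2 b)] at this

include hF in
theorem sig_update {s s' : Sys P} {t t' : Loc (P v).toPrePlace}
    (h : F (Function.update s v t)) (hs : ∀ w ∈ S, (P w).Sig (s w) (s' w)) (ht : (P v).Sig t t') :
    F (Function.update s' v t') := by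
  apply hF.sig _ _ h
  intro w hw
  by_cases hwv : w = v
  · subst hwv; rw [Function.update_self, Function.update_self]; exact ht
  · rw [Function.update_of_ne hwv, Function.update_of_ne hwv]
    exact hs w ((Finset.mem_insert.1 hw).resolve_left hwv)

/-- hypotheses at the other places -/
structure Others (P : ι → Place O J) (S : Finset ι) (v : ι) (a ϖ : ι → O) : Prop where
  weak : ∀ w ∈ S, Weak (P w) (a w) (ϖ w)
  cop : ∀ w ∈ S, IsCoprime (a w * ϖ w) (ϖ v)
  a0 : ∀ w ∈ S, a w ≠ 0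
  ϖ0 : ∀ w ∈ S, ϖ w ≠ 0

variable (hO : Others P S v a ϖ)

include hO in
/-- an element divisible by a given product and congruent to a given element at `v` -/
theorem exists_mult (n : ℕ) (b : O) : ∃ m c : O,
    (∀ w ∈ S, ∀ (d : (P w).D) (x : (P w).M d), m • x ∈ (P w).fil d n) ∧ m - b = c * ϖ v ^ n := by
  have h1 : IsCoprime (∏ w ∈ S, (a w * ϖ w ^ n)) (ϖ v ^ n) := by
    apply IsCoprime.prod_left
    intro w hw
    have h2 := hO.cop w hw
    have h3 : IsCoprime (a w) (ϖ v) := (IsCoprime.mul_left_iff.1 h2).1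
    have h4 : IsCoprime (ϖ w) (ϖ v) := (IsCoprime.mul_left_iff.1 h2).2
    exact IsCoprime.mul_left h3.pow_right (IsCoprime.pow h4)
  obtain ⟨x, y, hxy⟩ := h1
  refine ⟨b * x * ∏ w ∈ S, (a w * ϖ w ^ n), - b * y, ?_, ?_⟩
  · intro w hw d z
    rw [← Finset.prod_erase_mul S _ hw]
    have e : b * x * ((∏ u ∈ S.erase w, (a u * ϖ u ^ n)) * (a w * ϖ w ^ n)) =
      (b * x * (∏ u ∈ S.erase w, (a u * ϖ u ^ n))) * (a w * ϖ w ^ n) := by ring
    rw [e, mul_smul]
    exact Submodule.smul_mem _ _ ((hO.weak w hw).exp d z n)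
  · linear_combination b * hxy

include hO hF in
/-- moving the first point by the closure of the even multiples of the second point -/
theorem move1 (hp : ∀ d (x : (P v).M d) n, x ∈ (P v).fil d 0 → ϖ v ^ n • x ∈ (P v).fil d n)
    {s : Sys P} {d : (P v).D} {Q R ξ : (P v).M d} (hR : (2 : O) • R ∈ (P v).fil d 0)
    (hξ : ∀ k, ∃ a : O, ξ - (2 * a) • R ∈ (P v).fil d k)
    (h : F (Function.update s v ⟨d, Q, R⟩)) : F (Function.update s v ⟨d, Q + ξ, R⟩) := by
  apply cl_update hF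
  intro n
  obtain ⟨b, hb⟩ := hξ n
  obtain ⟨m, c, hm, hmc⟩ := exists_mult hO n b
  refine ⟨_, _, sh1_update hF (2 * m) h, ?_, ?_⟩
  · intro w hw
    refine ⟨(s w).Q + (2 * m) • (s w).R, (s w).R, rfl, ?_, by simp⟩
    rw [add_sub_cancel_left, mul_comm, mul_smul]
    exact hm w hw _ _
  · refine ⟨Q + (2 * m) • R, R, rfl, ?_, by simp⟩
    change Q + (2 * m) • R - (Q + ξ) ∈ _
    have e : Q + (2 * m) • R - (Q + ξ) = c • (ϖ v ^ n • ((2 : O) • R)) - (ξ - (2 * b) • R) := by
      have e1 : (2 * m) • R = (2 * b) • R + c • (ϖ v ^ n • ((2 : O) • R)) := by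
        rw [← mul_smul, ← mul_smul, ← add_smul]
        congr 1
        linear_combination 2 * hmc
      rw [e1]; abel
    rw [e]
    exact Submodule.sub_mem _ (Submodule.smul_mem _ _ (hp _ _ _ hR)) hb

include hO hF in
theorem move2 (hp : ∀ d (x : (P v).M d) n, x ∈ (P v).fil d 0 → ϖ v ^ n • x ∈ (P v).fil d n)
    {s : Sys P} {d : (P v).D} {Q R ξ : (P v).M d} (hR : (2 : O) • Q ∈ (P v).fil d 0)
    (hξ : ∀ k, ∃ a : O, ξ - (2 * a) • Q ∈ (P v).fil d k)
    (h : F (Function.update s v ⟨d, Q, R⟩)) : F (Function.update s v ⟨d, Q, R + ξ⟩) := by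
  apply cl_update hF
  intro n
  obtain ⟨b, hb⟩ := hξ n
  obtain ⟨m, c, hm, hmc⟩ := exists_mult hO n b
  refine ⟨_, _, sh2_update hF (2 * m) h, ?_, ?_⟩
  · intro w hw
    refine ⟨(s w).Q, (s w).R + (2 * m) • (s w).Q, rfl, by simp, ?_⟩
    rw [add_sub_cancel_left, mul_comm, mul_smul]
    exact hm w hw _ _
  · refine ⟨Q, R + (2 * m) • Q, rfl, by simp, ?_⟩
    change R + (2 * m) • Q - (R + ξ) ∈ _
    have e : R + (2 * m) • Q - (R + ξ) = c • (ϖ v ^ n • ((2 : O) • Q)) - (ξ - (2 * b) • Q) := by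
      have e1 : (2 * m) • Q = (2 * b) • Q + c • (ϖ v ^ n • ((2 : O) • Q)) := by
        rw [← mul_smul, ← mul_smul, ← add_smul]
        congr 1
        linear_combination 2 * hmc
      rw [e1]; abel
    rw [e]
    exact Submodule.sub_mem _ (Submodule.smul_mem _ _ (hp _ _ _ hR)) hb

variable (hJ : ∀ j : J, (2 : O) • j = 0) (hS : Strong (P v) (a v) (ϖ v))

include hJ in
omit [DecidableEq ι] in
theorem two_mul_tor {d : (P v).D} (j : J) (b : O) (y : (P v).M d) :
    (2 * b) • ((P v).tor d j + y) = (2 * b) • y := by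
  rw [smul_add, ← map_smul, mul_comm, mul_smul b 2 j, hJ, smul_zero, map_zero, zero_add]

include hJ in
omit [DecidableEq ι] in
theorem two_tor {d : (P v).D} (j : J) (y : (P v).M d) :
    (2 : O) • ((P v).tor d j + y) = (2 : O) • y := by
  rw [smul_add, ← map_smul, hJ, map_zero, zero_add]

include hJ hS hO hF in
theorem mv1 {s : Sys P} {d : (P v).D} {c : ℕ} {i j : J} {x y x' : (P v).M d}
    (hy : Lev (P v).toPrePlace d c y) (hx : x ∈ (P v).fil d c) (hx' : x' ∈ (P v).fil d c)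
    (h : F (Function.update s v ⟨d, (P v).tor d i + x, (P v).tor d j + y⟩)) :
    F (Function.update s v ⟨d, (P v).tor d i + x', (P v).tor d j + y⟩) := by
  have h1 := move1 hF hO hS.fil_pow (ξ := x' - x) (s := s) (d := d) (Q := (P v).tor d i + x)
    (R := (P v).tor d j + y) ?_ ?_ h
  · have e : (P v).tor d i + x + (x' - x) = (P v).tor d i + x' := by abel
    rwa [e] at h1
  · rw [two_tor hJ]
    exact Submodule.smul_mem _ _ (hS.anti d (Nat.zero_le c) hy.1)
  · intro k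
    obtain ⟨b, hb⟩ := hy.2 (x' - x) (Submodule.sub_mem _ hx' hx) k
    refine ⟨b, ?_⟩
    rwa [two_mul_tor hJ]

include hJ hS hO hF in
theorem mv2 {s : Sys P} {d : (P v).D} {c : ℕ} {i j : J} {x y y' : (P v).M d}
    (hx : Lev (P v).toPrePlace d c x) (hy : y ∈ (P v).fil d c) (hy' : y' ∈ (P v).fil d c)
    (h : F (Function.update s v ⟨d, (P v).tor d i + x, (P v).tor d j + y⟩)) :
    F (Function.update s v ⟨d, (P v).tor d i + x, (P v).tor d j + y'⟩) := by
  have h1 := move2 hF hO hS.fil_pow (ξ := y' - y) (s := s) (d := d) (Q := (P v).tor d i + x)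
    (R := (P v).tor d j + y) ?_ ?_ h
  · have e : (P v).tor d j + y + (y' - y) = (P v).tor d j + y' := by abel
    rwa [e] at h1
  · rw [two_tor hJ]
    exact Submodule.smul_mem _ _ (hS.anti d (Nat.zero_le c) hx.1)
  · intro k
    obtain ⟨b, hb⟩ := hx.2 (y' - y) (Submodule.sub_mem _ hy' hy) k
    refine ⟨b, ?_⟩
    rwa [two_mul_tor hJ]

include hJ hS hO hF in
theorem node_move {s : Sys P} {d : (P v).D} {c : ℕ} {i j : J} {x y x' y' : (P v).M d}
    (h1 : Cont (P v).toPrePlace d c x y) (h2 : Cont (P v).toPrePlace d c x' y')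
    (h : F (Function.update s v ⟨d, (P v).tor d i + x, (P v).tor d j + y⟩)) :
    F (Function.update s v ⟨d, (P v).tor d i + x', (P v).tor d j + y'⟩) := by
  obtain ⟨z, hz⟩ := hS.lev d c
  have key : F (Function.update s v ⟨d, (P v).tor d i + z, (P v).tor d j + z⟩) := by
    obtain ⟨hx, hy, hl | hl⟩ := h1
    · exact mv1 hF hO hJ hS hz hx hz.1 (mv2 hF hO hJ hS hl hy hz.1 h)
    · exact mv2 hF hO hJ hS hz hy hz.1 (mv1 hF hO hJ hS hl hx hz.1 h)
  obtain ⟨hx, hy, hl | hl⟩ := h2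
  · exact mv2 hF hO hJ hS hl hz.1 hy (mv1 hF hO hJ hS hz hz.1 hx key)
  · exact mv1 hF hO hJ hS hl hz.1 hx (mv2 hF hO hJ hS hz hz.1 hy key)

include hJ hS hO hF in
/-- all data near a node follow from one datum for every twist and content -/
theorem node_all {s : Sys P} {i j : J}
    (h : ∀ d c, ∃ x y, Cont (P v).toPrePlace d c x y ∧
      F (Function.update s v ⟨d, (P v).tor d i + x, (P v).tor d j + y⟩))
    {t : Loc (P v).toPrePlace} (ht : Loc.Ty i j t) : F (Function.update s v t) := by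
  obtain ⟨d, Q, R⟩ := t
  obtain ⟨h1, h2⟩ := ht
  change Q - (P v).tor d i ∈ (P v).fil d 0 at h1
  change R - (P v).tor d j ∈ (P v).fil d 0 at h2
  have e1 : Q = (P v).tor d i + (Q - (P v).tor d i) := by abel
  have e2 : R = (P v).tor d j + (R - (P v).tor d j) := by abel
  rcases hS.content d _ _ h1 h2 with ⟨h3, h4⟩ | ⟨c, hc⟩
  · rw [e1, e2, h3, h4]
    apply cl_update hF
    intro n
    obtain ⟨x, y, hxy, hF'⟩ := h d n
    refine ⟨s, _, hF', fun w _ => Loc.Near.refl n _, ?_⟩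
    refine ⟨_, _, rfl, ?_, ?_⟩
    · change (P v).tor d i + x - ((P v).tor d i + 0) ∈ (P v).fil d n
      rw [add_zero, add_sub_cancel_left]; exact hxy.1
    · change (P v).tor d j + y - ((P v).tor d j + 0) ∈ (P v).fil d n
      rw [add_zero, add_sub_cancel_left]; exact hxy.2.1
  · obtain ⟨x, y, hxy, hF'⟩ := h d c
    rw [e1, e2]
    exact node_move hF hO hJ hS hxy hc hF'

/-- the derived predicate on the other places -/
def Der (F : Sys P → Prop) (v : ι) (s : Sys P) : Prop :=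
  ∀ t : Loc (P v).toPrePlace, Loc.NN t → F (Function.update s v t)

variable [IsDomain O] (h2O : (2 : O) ≠ 0)

include hJ hS hO hF in
theorem base_zero (i : J) : ∀ s : Sys P, (∀ w ∈ S, (s w).R = 0) →
    ∀ t : Loc (P v).toPrePlace, Loc.Ty i 0 t → F (Function.update s v t) := by
  intro s hs t ht
  refine node_all hF hO hJ hS (i := i) (j := 0) ?_ ht
  intro d c
  obtain ⟨z, hz⟩ := hS.lev d c
  refine ⟨z, 0, ⟨hz.1, Submodule.zero_mem _, Or.inl hz⟩, ?_⟩
  apply hF.base
  intro w hw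
  by_cases hwv : w = v
  · subst hwv
    rw [Function.update_self]
    change (P w).tor d 0 + 0 = 0
    rw [map_zero, add_zero]
  · rw [Function.update_of_ne hwv]
    exact hs w ((Finset.mem_insert.1 hw).resolve_left hwv)

include hF in
theorem base_tr {j : J} (i i' : J) (ih : ∀ s : Sys P, (∀ w ∈ S, (s w).R = 0) →
    ∀ t : Loc (P v).toPrePlace, Loc.Ty i j t → F (Function.update s v t)) :
    ∀ s : Sys P, (∀ w ∈ S, (s w).R = 0) →
    ∀ t : Loc (P v).toPrePlace, Loc.Ty i' j t → F (Function.update s v t) := by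
  intro s hs t ht
  have h1 := ih (fun w => (s w).tr1 (i - i')) (fun w hw => hs w hw) (t.tr1 (i - i')) (by
    have := ht.tr1 (i - i')
    rwa [add_sub_cancel] at this)
  have h2 := tr1_update hF (-(i - i')) h1
  simp only [Loc.tr1_tr1, add_neg_cancel, Loc.tr1_zero] at h2
  exact h2

include hJ hS hO hF h2O in
theorem base_link {i j i' j' : J} (hl : NLink (P v) i j i' j')
    (ih : ∀ s : Sys P, (∀ w ∈ S, (s w).R = 0) →
    ∀ t : Loc (P v).toPrePlace, Loc.Ty i j t → F (Function.update s v t)) :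
    ∀ s : Sys P, (∀ w ∈ S, (s w).R = 0) →
    ∀ t : Loc (P v).toPrePlace, Loc.Ty i' j' t → F (Function.update s v t) := by
  intro s hs t ht
  apply cl_update hF
  intro n
  -- data at the other places
  have key : ∀ w, ∃ (l₀ : Loc (P w).toPrePlace) (m : ℕ), w ∈ S →
      ((∀ b : O, b ≠ 0 → b • l₀.Q ≠ 0) ∧
      ∀ R₀ : (P w).M l₀.d, R₀ ≠ 0 → R₀ ∈ (P w).fil l₀.d m →
        ∃ l', (P w).Sig ⟨l₀.d, l₀.Q, R₀⟩ l' ∧ Loc.Near n l' (s w)) := by
    intro w
    by_cases hw : w ∈ S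
    · have h0 := hs w hw
      rcases hsw : s w with ⟨d, Q, R⟩
      rw [hsw] at h0
      change R = 0 at h0
      subst h0
      obtain ⟨d₀, Q₀, m, h1, h2⟩ := (hO.weak w hw).sig_base d Q n
      exact ⟨⟨d₀, Q₀, 0⟩, m, fun _ => ⟨h1, h2⟩⟩
    · exact ⟨s w, 0, fun h => absurd h hw⟩
  choose l₁ m hkey using key
  set M := S.sup m with hM
  set γ : O := 2 * ∏ w ∈ S, (a w * ϖ w ^ M) with hγ
  have hγ0 : γ ≠ 0 := by
    refine mul_ne_zero h2O (Finset.prod_ne_zero_iff.2 fun w hw => ?_)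
    exact mul_ne_zero (hO.a0 w hw) (pow_ne_zero _ (hO.ϖ0 w hw))
  have hγm : ∀ w ∈ S, γ • (l₁ w).Q ∈ (P w).fil (l₁ w).d (m w) := by
    intro w hw
    have h3 : m w ≤ M := Finset.le_sup hw
    apply (hO.weak w hw).anti _ h3
    rw [hγ, ← Finset.prod_erase_mul S _ hw, ← mul_assoc, mul_smul]
    exact Submodule.smul_mem _ _ ((hO.weak w hw).exp _ _ M)
  have hl' : ∀ w, ∃ l', w ∈ S →
      ((P w).Sig ⟨(l₁ w).d, (l₁ w).Q, γ • (l₁ w).Q⟩ l' ∧ Loc.Near n l' (s w)) := by
    intro w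
    by_cases hw : w ∈ S
    · obtain ⟨l', h⟩ := (hkey w hw).2 _ ((hkey w hw).1 γ hγ0) (hγm w hw)
      exact ⟨l', fun _ => h⟩
    · exact ⟨s w, fun h => absurd h hw⟩
  choose l' hl1 using hl'
  -- the system `(Q₀, γ Q₀)`
  set s₀ : Sys P := fun w => ⟨(l₁ w).d, (l₁ w).Q, 0⟩ with hs₀
  have h4 : ∀ t₀ : Loc (P v).toPrePlace, Loc.Ty i j t₀ →
      F (Function.update (fun w => (s₀ w).sh2 γ) v t₀) := by
    intro t₀ ht₀
    have h5 := ih s₀ (fun w _ => rfl) (t₀.sh2 (-γ)) (by
      have := ht₀.sh2 (-γ)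
      have e : j + -γ • i = j := by
        rw [hγ, neg_smul, mul_comm, mul_smul, hJ, smul_zero, neg_zero, add_zero]
      rwa [e] at this)
    have h6 := sh2_update hF γ h5
    rwa [Loc.sh2_sh2, neg_add_cancel, Loc.sh2_zero] at h6
  refine ⟨l', t, ?_, fun w hw => (hl1 w hw).2, Loc.Near.refl n t⟩
  refine node_all hF hO hJ hS (i := i') (j := j') ?_ ht
  intro d c
  obtain ⟨t₀, x, y, ht₀, hc, hsg⟩ := hl d c
  refine ⟨x, y, hc, ?_⟩
  refine sig_update hF (h4 t₀ ht₀) (fun w hw => ?_) hsg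
  have h7 := (hl1 w hw).1
  have e : (s₀ w).sh2 γ = ⟨(l₁ w).d, (l₁ w).Q, γ • (l₁ w).Q⟩ := by
    change (⟨(l₁ w).d, (l₁ w).Q, 0 + γ • (l₁ w).Q⟩ : Loc (P w).toPrePlace) = _
    rw [zero_add]
  rw [e]
  exact h7

include hJ hS hO hF h2O in
theorem base_nodes (i j : J) : ∀ s : Sys P, (∀ w ∈ S, (s w).R = 0) →
    ∀ t : Loc (P v).toPrePlace, Loc.Ty i j t → F (Function.update s v t) := by
  revert i
  apply hS.nodes (H := fun j => ∀ i, ∀ s : Sys P, (∀ w ∈ S, (s w).R = 0) →
    ∀ t : Loc (P v).toPrePlace, Loc.Ty i j t → F (Function.update s v t))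
  · exact fun i => base_zero hF hO hJ hS i
  · intro i j i' j' hl ih i''
    exact base_tr hF i' i'' (base_link hF hO hJ hS h2O hl (ih i))

include hJ hS hO hF h2O in
/-- step 1: the derived predicate is stable -/
theorem der_stable : Stable P S (Der F v) where
  cl := by
    intro s hs t ht
    apply cl_update hF
    intro n
    obtain ⟨s', h1, h2⟩ := hs n
    exact ⟨s', t, h1 t ht, h2, Loc.Near.refl n t⟩
  sh1 := by
    intro s b hs t ht
    obtain ⟨i, j, hij⟩ := ht
    have h1 := sh1_update hF b (hs (t.sh1 (-b)) ⟨_, _, hij.sh1 (-b)⟩)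
    rwa [Loc.sh1_sh1, neg_add_cancel, Loc.sh1_zero] at h1
  sh2 := by
    intro s b hs t ht
    obtain ⟨i, j, hij⟩ := ht
    have h1 := sh2_update hF b (hs (t.sh2 (-b)) ⟨_, _, hij.sh2 (-b)⟩)
    rwa [Loc.sh2_sh2, neg_add_cancel, Loc.sh2_zero] at h1
  tr1 := by
    intro s b hs t ht
    obtain ⟨i, j, hij⟩ := ht
    have h1 := tr1_update hF b (hs (t.tr1 (-b)) ⟨_, _, hij.tr1 (-b)⟩)
    rwa [Loc.tr1_tr1, neg_add_cancel, Loc.tr1_zero] at h1
  tr2 := by
    intro s b hs t ht
    obtain ⟨i, j, hij⟩ := ht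
    have h1 := tr2_update hF b (hs (t.tr2 (-b)) ⟨_, _, hij.tr2 (-b)⟩)
    rwa [Loc.tr2_tr2, neg_add_cancel, Loc.tr2_zero] at h1
  un1 := by
    intro s b hs t ht
    obtain ⟨i, j, hij⟩ := ht
    have h1 := un1_update hF b (hs (t.un1 b⁻¹) ⟨_, _, hij.un1 b⁻¹⟩)
    rwa [Loc.un1_un1, mul_inv_cancel, Loc.un1_one] at h1
  un2 := by
    intro s b hs t ht
    obtain ⟨i, j, hij⟩ := ht
    have h1 := un2_update hF b (hs (t.un2 b⁻¹) ⟨_, _, hij.un2 b⁻¹⟩)
    rwa [Loc.un2_un2, mul_inv_cancel, Loc.un2_one] at h1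
  sig := by
    intro s s' hs hss t ht
    obtain ⟨i', j', hij⟩ := ht
    obtain ⟨i, j, hl⟩ := hS.nlink i' j'
    refine node_all hF hO hJ hS (i := i') (j := j') ?_ hij
    intro d c
    obtain ⟨t₀, x, y, ht₀, hc, hsg⟩ := hl d c
    exact ⟨x, y, hc, sig_update hF (hs t₀ ⟨i, j, ht₀⟩) hss hsg⟩
  base := by
    intro s hs t ht
    obtain ⟨i, j, hij⟩ := ht
    exact base_nodes hF hO hJ hS h2O i j s hs t hij

include hO hF in
theorem all_of_der (htr : ∀ H, Stable1 (P v) H → (∀ l, Loc.NN l → H l) → ∀ l, H l)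
    (h : ∀ s, Der F v s) : ∀ s, F s := by
  set H : Loc (P v).toPrePlace → Prop := fun t => ∀ s, F (Function.update s v t) with hH
  have key : ∀ t, H t := by
    apply htr
    · refine ⟨?_, ?_, ?_, ?_, ?_, ?_, ?_, ?_⟩
      · intro t ht s
        apply cl_update hF
        intro n
        obtain ⟨t', h1, h2⟩ := ht n
        exact ⟨s, t', h1 s, fun w _ => Loc.Near.refl n _, h2⟩
      · intro t b ht s
        have h1 := sh1_update hF b (ht (fun w => (s w).sh1 (-b)))
        simpa only [Loc.sh1_sh1, neg_add_cancel, Loc.sh1_zero] using h1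
      · intro t b ht s
        have h1 := sh2_update hF b (ht (fun w => (s w).sh2 (-b)))
        simpa only [Loc.sh2_sh2, neg_add_cancel, Loc.sh2_zero] using h1
      · intro t b ht s
        have h1 := tr1_update hF b (ht (fun w => (s w).tr1 (-b)))
        simpa only [Loc.tr1_tr1, neg_add_cancel, Loc.tr1_zero] using h1
      · intro t b ht s
        have h1 := tr2_update hF b (ht (fun w => (s w).tr2 (-b)))
        simpa only [Loc.tr2_tr2, neg_add_cancel, Loc.tr2_zero] using h1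
      · intro t b ht s
        have h1 := un1_update hF b (ht (fun w => (s w).un1 b⁻¹))
        simpa only [Loc.un1_un1, mul_inv_cancel, Loc.un1_one] using h1
      · intro t b ht s
        have h1 := un2_update hF b (ht (fun w => (s w).un2 b⁻¹))
        simpa only [Loc.un2_un2, mul_inv_cancel, Loc.un2_one] using h1
      · intro t t' ht htt s
        apply cl_update hF
        intro n
        have h1 : ∀ w, ∃ l₀ l', w ∈ S → ((P w).Sig l₀ l' ∧ Loc.Near n l' (s w)) := by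
          intro w
          by_cases hw : w ∈ S
          · obtain ⟨l₀, l', h⟩ := (hO.weak w hw).dense (s w) n
            exact ⟨l₀, l', fun _ => h⟩
          · exact ⟨s w, s w, fun h => absurd h hw⟩
        choose l₀ l' h2 using h1
        exact ⟨l', t', sig_update hF (ht l₀) (fun w hw => (h2 w hw).1) htt,
          fun w hw => (h2 w hw).2, Loc.Near.refl n t'⟩
    · intro t ht s
      exact h s t ht
  intro s
  have h1 := key (s v) s
  rwa [Function.update_eq_self] at h1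

include hO hJ hS h2O in
/-- the induction step -/
theorem Ind.insert (hI : Ind P S) : Ind P (insert v S) := by
  intro F hF
  exact all_of_der hF hO hS.trans (hI _ (der_stable hF hO hJ hS h2O))

end step

end Pool.Agent.Helper1.FT.Abs
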