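import Pool.Agent.Helper1.FT.Iota
import Pool.Agent.Helper10.K3.XRep

/-!
# FT: the group of points of a twist
-/

namespace Pool.Agent.Helper1.FT

open Pool.Agent.Helper10.K3 WeierstrassCurve.Affine

section

variable {K : Type*} [Field K] {A B d : K}

@[simp] theorem xc_zero : xc (0 : E A B d) = 0 := rfl

@[simp] theorem yc_zero : yc (0 : E A B d) = 0 := rfl

@[simp] theorem xc_neg (P : E A B d) : xc (-P) = xc P := by
  cases P <;> rfl

@[simp] theorem yc_neg (P : E A B d) : yc (-P) = - yc P := by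
  cases P with
  | zero => exact neg_zero.symm
  | some x y h =>
    change (TW (-(A + B)) (A * B) d).negY x y = - y
    exact tw_negY _ _ _ _ _

theorem curve_eq (P : E A B d) : yc P ^ 2 = xc P * (xc P - A * d) * (xc P - B * d) := by
  cases P with
  | zero => change (0 : K) ^ 2 = 0 * (0 - A * d) * (0 - B * d); ring
  | some x y h => exact (e_equation x y).1 h.1

theorem mkP_ne (h : Ok A B) (hd : d ≠ 0) (x y : K)
    (e : y ^ 2 = x * (x - A * d) * (x - B * d)) : mkP h hd x y e ≠ 0 :=
  Point.some_ne_zero _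

theorem pt_ext {P Q : E A B d} (hP : P ≠ 0) (hQ : Q ≠ 0) (hx : xc P = xc Q)
    (hy : yc P = yc Q) : P = Q := by
  cases P with
  | zero => exact absurd rfl hP
  | some x y h =>
    cases Q with
    | zero => exact absurd rfl hQ
    | some x' y' h' =>
      have h1 : x = x' := hx
      have h2 : y = y' := hy
      subst h1 h2
      rfl

theorem xc_eq_iff {P Q : E A B d} (hP : P ≠ 0) (hQ : Q ≠ 0) :
    xc P = xc Q ↔ P = Q ∨ P = -Q := by
  constructor
  · intro h
    have h1 := curve_eq P
    have h2 := curve_eq Q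
    rw [h, ← h2] at h1
    rcases sq_eq_sq_iff_eq_or_eq_neg.1 h1 with h3 | h3
    · exact Or.inl (pt_ext hP hQ h h3)
    · right
      have hQ' : -Q ≠ 0 := by
        intro h0
        apply hQ
        cases Q with
        | zero => rfl
        | some x y h' => exact absurd h0 (Point.some_ne_zero _)
      exact pt_ext hP hQ' (by rw [xc_neg, h]) (by rw [yc_neg, h3])
  · rintro (h | h)
    · rw [h]
    · rw [h, xc_neg]

end

section

variable {K : Type*} [Field K] [DecidableEq K] {A B d : K}

theorem add_self_of_yc {P : E A B d} (h : yc P = 0) : P + P = 0 := by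
  cases P with
  | zero => exact add_zero _
  | some x y h' =>
    have : y = 0 := h
    apply Point.add_self_of_Y_eq
    rw [tw_negY, this, neg_zero]

theorem yc_of_add_self (h : Ok A B) {P : E A B d} (hP : P + P = 0) : yc P = 0 := by
  have h1 : P = -P := eq_neg_iff_add_eq_zero.2 hP
  have h2 : yc P = - yc P := by
    conv_lhs => rw [h1]
    exact yc_neg P
  have h3 : 2 * yc P = 0 := by linear_combination h2
  exact (mul_eq_zero.1 h3).resolve_left h.h2

/-- points with `y = 0` -/
theorem eq_torP (h : Ok A B) (hd : d ≠ 0) {P : E A B d} (hy : yc P = 0) :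
    ∃ j, P = torP h hd j := by
  by_cases hP : P = 0
  · exact ⟨0, by rw [hP, torP, if_pos rfl]⟩
  have e := curve_eq P
  rw [hy] at e
  have e' : xc P * (xc P - A * d) * (xc P - B * d) = 0 := by rw [← e]; ring
  rcases mul_eq_zero.1 e' with h1 | h1
  · rcases mul_eq_zero.1 h1 with h2 | h2
    · refine ⟨(1, 1), ?_⟩
      rw [torP, if_neg (by decide)]
      refine pt_ext hP (mkP_ne h hd _ _ _) ?_ hy
      rw [xc_mkP, rt, if_neg (by decide), if_neg (by decide), h2, zero_mul]
    · refine ⟨(1, 0), ?_⟩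
      rw [torP, if_neg (by decide)]
      refine pt_ext hP (mkP_ne h hd _ _ _) ?_ hy
      rw [xc_mkP, rt, if_pos rfl]
      linear_combination h2
  · refine ⟨(0, 1), ?_⟩
    rw [torP, if_neg (by decide)]
    refine pt_ext hP (mkP_ne h hd _ _ _) ?_ hy
    rw [xc_mkP, rt, if_neg (by decide), if_pos rfl]
    linear_combination h1

omit [DecidableEq K] in
theorem torP_zero (h : Ok A B) (hd : d ≠ 0) : torP h hd (0 : J) = 0 := by
  rw [torP, if_pos rfl]

omit [DecidableEq K] in
theorem torP_ne (h : Ok A B) (hd : d ≠ 0) {j : J} (hj : j ≠ 0) : torP h hd j ≠ 0 := by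
  rw [torP, if_neg hj]
  exact mkP_ne h hd _ _ _

omit [DecidableEq K] in
theorem xc_torP (h : Ok A B) (hd : d ≠ 0) {j : J} (hj : j ≠ 0) :
    xc (torP h hd j) = rt A B j * d := by
  rw [torP, if_neg hj, xc_mkP]

omit [DecidableEq K] in
theorem yc_torP (h : Ok A B) (hd : d ≠ 0) (j : J) : yc (torP h hd j) = 0 := by
  by_cases hj : j = 0
  · rw [hj, torP_zero, yc_zero]
  · rw [torP, if_neg hj, yc_mkP]

theorem torP_self (h : Ok A B) (hd : d ≠ 0) (j : J) : torP h hd j + torP h hd j = 0 :=
  add_self_of_yc (yc_torP h hd j)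

/-- derivative of the cubic polynomial -/
def df {K : Type*} [Field K] (A B t : K) : K := (t - A) * (t - B) + t * (t - B) + t * (t - A)

omit [DecidableEq K] in
theorem rt_root (A B : K) (j : J) : rt A B j * (rt A B j - A) * (rt A B j - B) = 0 := by
  unfold rt
  split_ifs <;> ring

theorem J_add_self : ∀ j : J, j + j = 0 := by decide

theorem J_third : ∀ i j k : J, i ≠ 0 → j ≠ 0 → i ≠ j → k ≠ 0 → k ≠ i → k ≠ j → i + j = k := by
  decide

theorem J_cases (j : J) : j = 0 ∨ j = (1, 0) ∨ j = (0, 1) ∨ j = (1, 1) := by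
  revert j; decide

omit [DecidableEq K] in
@[simp] theorem rt_A (A B : K) : rt A B (1, 0) = A := by rw [rt, if_pos rfl]

omit [DecidableEq K] in
@[simp] theorem rt_B (A B : K) : rt A B (0, 1) = B := by rw [rt, if_neg (by decide), if_pos rfl]

omit [DecidableEq K] in
@[simp] theorem rt_0 (A B : K) : rt A B (1, 1) = 0 := by
  rw [rt, if_neg (by decide), if_neg (by decide)]

omit [DecidableEq K] in
theorem df_ne (h : Ok A B) {j : J} (hj : j ≠ 0) : df A B (rt A B j) ≠ 0 := by
  rcases J_cases j with rfl | rfl | rfl | rfl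
  · exact absurd rfl hj
  · rw [rt_A]
    have : df A B A = A * (A - B) := by unfold df; ring
    rw [this]; exact mul_ne_zero h.hA h.sub_ne
  · rw [rt_B]
    have : df A B B = -(B * (A - B)) := by unfold df; ring
    rw [this]; exact neg_ne_zero.2 (mul_ne_zero h.hB h.sub_ne)
  · rw [rt_0]
    have : df A B 0 = A * B := by unfold df; ring
    rw [this]; exact h.b_ne

/-- adding a point of order two -/
theorem add_torP (h : Ok A B) (hd : d ≠ 0) {j : J} (hj : j ≠ 0) {P : E A B d} (hP : P ≠ 0)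
    (hx : xc P ≠ rt A B j * d) : P + torP h hd j ≠ 0 ∧
    (xc (P + torP h hd j) - rt A B j * d) * (xc P - rt A B j * d) = df A B (rt A B j) * d ^ 2 ∧
    yc (P + torP h hd j) * (xc P - rt A B j * d) =
      - (yc P * (xc (P + torP h hd j) - rt A B j * d)) := by
  have hr := rt_root A B j
  cases P with
  | zero => exact absurd rfl hP
  | some x y hn =>
    have hx' : x ≠ rt A B j * d := hx
    have ht : torP h hd j = Point.some (rt A B j * d) 0 (h.nonsing hd (by
        unfold rt
        split_ifs <;> ring)) := by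
      rw [torP, if_neg hj]
      rfl
    rw [ht]
    obtain ⟨X₃, Y₃, h₃, e1, e2, e3⟩ := tw_add_X_ne hn (h.nonsing hd (x := rt A B j * d) (y := 0) (by
        unfold rt
        split_ifs <;> ring)) hx'
    rw [e1]
    refine ⟨Point.some_ne_zero _, ?_, ?_⟩
    · change (X₃ - rt A B j * d) * (x - rt A B j * d) = df A B (rt A B j) * d ^ 2
      have q := (e_equation x y).1 hn.1
      have hsub : x - rt A B j * d ≠ 0 := sub_ne_zero.2 hx'
      apply mul_right_cancel₀ hsub
      have q2 : rt A B j ^ 3 * d ^ 3 - (A + B) * rt A B j ^ 2 * d ^ 3 +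
          A * B * rt A B j * d ^ 3 = 0 := by linear_combination d ^ 3 * hr
      unfold df
      linear_combination e2 + q + q2
    · change Y₃ * (x - rt A B j * d) = -(y * (X₃ - rt A B j * d))
      linear_combination e3

theorem torP_add (h : Ok A B) (hd : d ≠ 0) (i j : J) :
    torP h hd (i + j) = torP h hd i + torP h hd j := by
  by_cases hi : i = 0
  · rw [hi, torP_zero, zero_add, zero_add]
  by_cases hj : j = 0
  · rw [hj, torP_zero, add_zero, add_zero]
  by_cases hij : i = j
  · rw [hij, torP_self]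
    rw [J_add_self, torP_zero]
  have hne : xc (torP h hd i) ≠ rt A B j * d := by
    rw [xc_torP h hd hi]
    intro he
    have h1 := mul_right_cancel₀ hd he
    have h2 := h.hA
    have h3 := h.hB
    have h4 := h.hAB
    rcases J_cases i with rfl | rfl | rfl | rfl <;> rcases J_cases j with rfl | rfl | rfl | rfl <;>
      simp_all
  obtain ⟨h1, h2, h3⟩ := add_torP h hd hj (torP_ne h hd hi) hne
  have hy : yc (torP h hd i + torP h hd j) = 0 := by
    rw [yc_torP, zero_mul, neg_zero] at h3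
    exact (mul_eq_zero.1 h3).resolve_right (sub_ne_zero.2 hne)
  obtain ⟨k, hk⟩ := eq_torP h hd hy
  have hk0 : k ≠ 0 := by
    rintro rfl
    rw [hk, torP_zero] at h1
    exact h1 rfl
  have hki : k ≠ i := by
    rintro rfl
    have h4 := hk
    rw [add_eq_left] at h4
    exact torP_ne h hd hj h4
  have hkj : k ≠ j := by
    rintro rfl
    have h4 := hk
    rw [add_eq_right] at h4
    exact torP_ne h hd hi h4
  rw [hk, J_third i j k hi hj hij hk0 hki hkj]

/-- the two-torsion as a homomorphism -/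
noncomputable def torHom (h : Ok A B) (hd : d ≠ 0) : J →+ E A B d where
  toFun := torP h hd
  map_zero' := torP_zero h hd
  map_add' := torP_add h hd

@[simp] theorem torHom_apply (h : Ok A B) (hd : d ≠ 0) (j : J) :
    torHom h hd j = torP h hd j := rfl

theorem neg_torP (h : Ok A B) (hd : d ≠ 0) (j : J) : -torP h hd j = torP h hd j :=
  neg_eq_of_add_eq_zero_left (torP_self h hd j)

end

/-! ### representations -/

section

variable {K : Type*} [Field K] {A B d : K}

theorem yc_sq_ff (hd : d ≠ 0) (P : E A B d) : yc P ^ 2 = d ^ 3 * ff A B (xc P / d) := by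
  rw [curve_eq]
  unfold ff
  field_simp

theorem Rep.yc_ne {u : Pt A B} {P Q : E A B d} (h : Rep u d P Q) : yc P ≠ 0 ∧ yc Q ≠ 0 := by
  have h1 : yc P * yc Q ≠ 0 := by
    rw [← h.2.2.2.2.2]
    exact mul_ne_zero u.hz (pow_ne_zero 3 h.1)
  exact ⟨left_ne_zero_of_mul h1, right_ne_zero_of_mul h1⟩

theorem Rep.ffx {u : Pt A B} {P Q : E A B d} (h : Rep u d P Q) :
    d ^ 3 * ff A B u.x = yc P ^ 2 := by
  rw [yc_sq_ff h.1, ← h.2.2.2.1, mul_div_cancel_right₀ _ h.1]

theorem Rep.ffy {u : Pt A B} {P Q : E A B d} (h : Rep u d P Q) :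
    d ^ 3 * ff A B u.y = yc Q ^ 2 := by
  rw [yc_sq_ff h.1, ← h.2.2.2.2.1, mul_div_cancel_right₀ _ h.1]

/-- the point of the surface given by a pair of points of a twist -/
def mkPt (hd : d ≠ 0) (P Q : E A B d) (hyP : yc P ≠ 0) (hyQ : yc Q ≠ 0) : Pt A B :=
  ⟨(xc P / d, xc Q / d, yc P * yc Q / d ^ 3), by
    refine ⟨?_, ?_⟩
    · change (yc P * yc Q / d ^ 3) ^ 2 = ff A B (xc P / d) * ff A B (xc Q / d)
      have h1 := yc_sq_ff hd P
      have h2 := yc_sq_ff hd Q
      rw [div_pow, mul_pow, h1, h2]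
      field_simp
    · exact div_ne_zero (mul_ne_zero hyP hyQ) (pow_ne_zero _ hd)⟩

theorem ne_zero_of_yc {P : E A B d} (hy : yc P ≠ 0) : P ≠ 0 := by
  rintro rfl
  exact hy rfl

theorem rep_mkPt (hd : d ≠ 0) {P Q : E A B d} (hyP : yc P ≠ 0) (hyQ : yc Q ≠ 0) :
    Rep (mkPt hd P Q hyP hyQ) d P Q := by
  refine ⟨hd, ne_zero_of_yc hyP, ne_zero_of_yc hyQ, ?_, ?_, ?_⟩
  · exact div_mul_cancel₀ _ hd
  · exact div_mul_cancel₀ _ hd
  · exact div_mul_cancel₀ _ (pow_ne_zero 3 hd)

theorem Rep.ext {u v : Pt A B} {P Q : E A B d} (h : Rep u d P Q) (h' : Rep v d P Q) : u = v := by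
  have hd := h.1
  apply Pt.ext
  · exact mul_right_cancel₀ hd (h.2.2.2.1.trans h'.2.2.2.1.symm)
  · exact mul_right_cancel₀ hd (h.2.2.2.2.1.trans h'.2.2.2.2.1.symm)
  · exact mul_right_cancel₀ (pow_ne_zero 3 hd) (h.2.2.2.2.2.trans h'.2.2.2.2.2.symm)

/-- every point of the surface is given by a pair of points -/
theorem exists_rep_gen (h : Ok A B) (w : Pt A B) : ∃ (d : K) (P Q : E A B d), Rep w d P Q := by
  have he : ff A B w.x ≠ 0 := w.hfx
  set e := ff A B w.x with hedef
  have hAeq : (e ^ 2) ^ 2 = (e * w.x) * (e * w.x - A * e) * (e * w.x - B * e) := by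
    have : e = w.x * (w.x - A) * (w.x - B) := rfl
    linear_combination e ^ 3 * this
  have hBeq : (e * w.z) ^ 2 = (e * w.y) * (e * w.y - A * e) * (e * w.y - B * e) := by
    have h1 := w.eqn
    have : ff A B w.y = w.y * (w.y - A) * (w.y - B) := rfl
    rw [mul_pow, h1, ← hedef, this]; ring
  refine ⟨e, mkP h he (e * w.x) (e ^ 2) hAeq, mkP h he (e * w.y) (e * w.z) hBeq, he,
    mkP_ne _ _ _ _ _, mkP_ne _ _ _ _ _, ?_, ?_, ?_⟩
  · rw [xc_mkP]; ring
  · rw [xc_mkP]; ring
  · rw [yc_mkP, yc_mkP]; ring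

end

end Pool.Agent.Helper1.FT
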