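import Pool.Agent.Helper10.K3.Basic

/-!
# FT: the Kummer surface of `E × E`, `E : y² = x (x - A) (x - B)`: definitions

`Pt A B` is the set of points `(x, y, z)` of the surface `z² = f(x) f(y)`, `z ≠ 0`,
`f(t) = t (t - A) (t - B)`.
-/

namespace Pool.Agent.Helper1.FT

open Pool.Agent.Helper10.K3

/-- the cubic polynomial `t (t - A) (t - B)` -/
def ff {K : Type*} [Field K] (A B t : K) : K := t * (t - A) * (t - B)

/-- points `(x, y, z)` of the surface `z² = f(x) f(y)` with `z ≠ 0`. -/
def Pt {K : Type*} [Field K] (A B : K) : Type _ :=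
  {u : K × K × K // u.2.2 ^ 2 = ff A B u.1 * ff A B u.2.1 ∧ u.2.2 ≠ 0}

instance {K : Type*} [Field K] [TopologicalSpace K] (A B : K) : TopologicalSpace (Pt A B) :=
  inferInstanceAs (TopologicalSpace
    {u : K × K × K // u.2.2 ^ 2 = ff A B u.1 * ff A B u.2.1 ∧ u.2.2 ≠ 0})

namespace Pt

variable {K : Type*} [Field K] {A B : K}

/-- first coordinate -/
def x (u : Pt A B) : K := u.1.1

/-- second coordinate -/
def y (u : Pt A B) : K := u.1.2.1

/-- third coordinate -/
def z (u : Pt A B) : K := u.1.2.2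

theorem eqn (u : Pt A B) : u.z ^ 2 = ff A B u.x * ff A B u.y := u.2.1

theorem hz (u : Pt A B) : u.z ≠ 0 := u.2.2

theorem hfx (u : Pt A B) : ff A B u.x ≠ 0 := by
  intro h
  have := u.eqn
  rw [h, zero_mul] at this
  exact u.hz (pow_eq_zero_iff (two_ne_zero) |>.1 this)

theorem hfy (u : Pt A B) : ff A B u.y ≠ 0 := by
  intro h
  have := u.eqn
  rw [h, mul_zero] at this
  exact u.hz (pow_eq_zero_iff (two_ne_zero) |>.1 this)

@[ext] theorem ext {u v : Pt A B} (hx : u.x = v.x) (hy : u.y = v.y) (hz : u.z = v.z) : u = v := by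
  apply Subtype.ext
  exact Prod.ext hx (Prod.ext hy hz)

end Pt

theorem map_ff {K L : Type*} [Field K] [Field L] (φ : K →+* L) (A B t : K) :
    φ (ff A B t) = ff (φ A) (φ B) (φ t) := by
  simp [ff]

/-- the map on points induced by a homomorphism of fields -/
def Pt.map {K L : Type*} [Field K] [Field L] {A B : K} (φ : K →+* L) (u : Pt A B) :
    Pt (φ A) (φ B) :=
  ⟨(φ u.1.1, φ u.1.2.1, φ u.1.2.2), by
    refine ⟨?_, ?_⟩
    · change φ u.1.2.2 ^ 2 = ff (φ A) (φ B) (φ u.1.1) * ff (φ A) (φ B) (φ u.1.2.1)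
      rw [← map_ff, ← map_ff, ← map_mul, ← map_pow, u.2.1]
    · exact (map_ne_zero φ).2 u.2.2⟩

section

variable {K L : Type*} [Field K] [Field L] {A B : K} (φ : K →+* L) (u : Pt A B)

@[simp] theorem Pt.map_x : (Pt.map φ u).x = φ u.x := rfl

@[simp] theorem Pt.map_y : (Pt.map φ u).y = φ u.y := rfl

@[simp] theorem Pt.map_z : (Pt.map φ u).z = φ u.z := rfl

end

/-! ### the twists `Y² = X (X - A d) (X - B d)` -/

/-- the group of points of the twist `Y² = X (X - A d) (X - B d)`. -/
abbrev E {K : Type*} [Field K] (A B d : K) : Type _ := (TW (-(A + B)) (A * B) d).Point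

section curve

variable {K : Type*} [Field K] {A B d : K}

/-- x-coordinate (`0` at the point at infinity) -/
def xc : E A B d → K
  | .zero => 0
  | .some x _ _ => x

/-- y-coordinate (`0` at the point at infinity) -/
def yc : E A B d → K
  | .zero => 0
  | .some _ y _ => y

theorem e_equation (x y : K) : (TW (-(A + B)) (A * B) d).Equation x y ↔
    y ^ 2 = x * (x - A * d) * (x - B * d) := by
  rw [tw_equation]
  constructor <;> intro h <;> linear_combination h

/-- the conditions on the parameters -/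
structure Ok {K : Type*} [Field K] (A B : K) : Prop where
  h2 : (2 : K) ≠ 0
  hA : A ≠ 0
  hB : B ≠ 0
  hAB : A ≠ B

theorem Ok.b_ne (h : Ok A B) : A * B ≠ 0 := mul_ne_zero h.hA h.hB

theorem Ok.ab_ne (h : Ok A B) : (-(A + B)) ^ 2 - 4 * (A * B) ≠ 0 := by
  have e : (-(A + B)) ^ 2 - 4 * (A * B) = (A - B) ^ 2 := by ring
  rw [e]
  exact pow_ne_zero 2 (sub_ne_zero.2 h.hAB)

theorem Ok.sub_ne (h : Ok A B) : A - B ≠ 0 := sub_ne_zero.2 h.hAB

theorem Ok.nonsing (h : Ok A B) (hd : d ≠ 0) {x y : K} (e : y ^ 2 = x * (x - A * d) * (x - B * d)) :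
    (TW (-(A + B)) (A * B) d).Nonsingular x y :=
  tw_nonsingular _ _ _ h.h2 h.b_ne hd h.ab_ne (by linear_combination e)

/-- a point from its coordinates -/
def mkP (h : Ok A B) (hd : d ≠ 0) (x y : K) (e : y ^ 2 = x * (x - A * d) * (x - B * d)) : E A B d :=
  .some x y (h.nonsing hd e)

@[simp] theorem xc_mkP (h : Ok A B) (hd : d ≠ 0) (x y : K)
    (e : y ^ 2 = x * (x - A * d) * (x - B * d)) : xc (mkP h hd x y e) = x := rfl

@[simp] theorem yc_mkP (h : Ok A B) (hd : d ≠ 0) (x y : K)
    (e : y ^ 2 = x * (x - A * d) * (x - B * d)) : yc (mkP h hd x y e) = y := rfl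

end curve

/-! ### nodes -/

/-- labels of the two-torsion points: `(0,0)` is the point at infinity, `(1,0)`, `(0,1)`, `(1,1)`
are the points with `x = A`, `x = B`, `x = 0` -/
abbrev J : Type := ZMod 2 × ZMod 2

/-- root attached to a label (only used for `j ≠ 0`) -/
def rt {K : Type*} [Field K] (A B : K) (j : J) : K :=
  if j = (1, 0) then A else if j = (0, 1) then B else 0

/-- two-torsion point attached to a label -/
noncomputable def torP {K : Type*} [Field K] {A B d : K} (h : Ok A B) (hd : d ≠ 0) (j : J) :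
    E A B d :=
  if j = 0 then 0 else mkP h hd (rt A B j * d) 0 (by
    unfold rt
    split_ifs <;> ring)

/-! ### representation of points by pairs of points of a twist -/

/-- the point `u` of the surface is given by the pair `(P, Q)` -/
def Rep {K : Type*} [Field K] {A B : K} (u : Pt A B) (d : K) (P Q : E A B d) : Prop :=
  d ≠ 0 ∧ P ≠ 0 ∧ Q ≠ 0 ∧ u.x * d = xc P ∧ u.y * d = xc Q ∧ u.z * d ^ 3 = yc P * yc Q

/-! ### the involution -/

section iota

variable {K : Type*} [Field K]

/-- numerator, `a = x - A`, `b = y - B` -/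
def nn (A B a b : K) : K := B * a ^ 2 + B * (2 * A - B) * a + A * b ^ 2 + A * (2 * B - A) * b

/-- denominator -/
def dd (A B a b : K) : K :=
  (2 * A - B) * a * b ^ 2 + A * (A - B) * b ^ 2 - (2 * B - A) * a ^ 2 * b + (A - B) * B * a ^ 2

/-- product of the four lines through the nodes -/
def ll (A B a b : K) : K :=
  (a + b) * ((A - B) * b - B * a) * (A * b - B * a) * (A * b + (A - B) * a)

/-- scaling factor -/
def rho (A B x y : K) : K := -((A - B) * nn A B (x - A) (y - B)) / dd A B (x - A) (y - B)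

/-- factor of the third coordinate -/
def kap (A B x y : K) : K :=
  -((A - B) ^ 2 * nn A B (x - A) (y - B) * ll A B (x - A) (y - B)) / dd A B (x - A) (y - B) ^ 3

/-- first coordinate of the image -/
def ix (A B x y : K) : K := A + rho A B x y * (x - A)

/-- second coordinate of the image -/
def iy (A B x y : K) : K := B + rho A B x y * (y - B)

/-- the involution is defined at `u` -/
def IOK {A B : K} (u : Pt A B) : Prop :=
  nn A B (u.x - A) (u.y - B) ≠ 0 ∧ dd A B (u.x - A) (u.y - B) ≠ 0 ∧
    ll A B (u.x - A) (u.y - B) ≠ 0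

theorem ff_ix {A B x y : K} (h : dd A B (x - A) (y - B) ≠ 0) :
    ff A B (ix A B x y) = kap A B x y * ff A B x := by
  unfold ff ix kap rho ll
  field_simp
  unfold dd nn
  ring

theorem ff_iy {A B x y : K} (h : dd A B (x - A) (y - B) ≠ 0) :
    ff A B (iy A B x y) = kap A B x y * ff A B y := by
  unfold ff iy kap rho ll
  field_simp
  unfold dd nn
  ring

end iota

end Pool.Agent.Helper1.FT
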