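import Pool.Agent.Helper1.FT.Iota

/-!
# FT: module FI (continuity of the involution)
-/

namespace Pool.Agent.Helper1.FT

open Topology

theorem iota_nhds {K : Type} [Field K] [TopologicalSpace K] [IsTopologicalDivisionRing K]
    [T1Space K] {A B : K} (h : Ok A B) {v : Pt A B} (hv : IOK v) {U : Set (Pt A B)}
    (hU : U ∈ 𝓝 (iota h v hv)) : ∀ᶠ u : Pt A B in 𝓝 v, ∃ hu : IOK u, iota h u hu ∈ U := by
  obtain ⟨V, hV, hVU⟩ := mem_nhds_subtype _ _ _ |>.1 hU
  have cx : Continuous (fun u : Pt A B => u.x) := continuous_fst.comp continuous_subtype_val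
  have cy : Continuous (fun u : Pt A B => u.y) :=
    (continuous_fst.comp continuous_snd).comp continuous_subtype_val
  have cz : Continuous (fun u : Pt A B => u.z) :=
    (continuous_snd.comp continuous_snd).comp continuous_subtype_val
  have cn : Continuous (fun u : Pt A B => nn A B (u.x - A) (u.y - B)) := by
    unfold nn; fun_prop
  have cd : Continuous (fun u : Pt A B => dd A B (u.x - A) (u.y - B)) := by
    unfold dd; fun_prop
  have cl : Continuous (fun u : Pt A B => ll A B (u.x - A) (u.y - B)) := by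
    unfold ll; fun_prop
  have e1 : ∀ᶠ u in 𝓝 v, nn A B (u.x - A) (u.y - B) ≠ 0 :=
    cn.continuousAt.eventually_ne hv.1
  have e2 : ∀ᶠ u in 𝓝 v, dd A B (u.x - A) (u.y - B) ≠ 0 :=
    cd.continuousAt.eventually_ne hv.2.1
  have e3 : ∀ᶠ u in 𝓝 v, ll A B (u.x - A) (u.y - B) ≠ 0 :=
    cl.continuousAt.eventually_ne hv.2.2
  have crho : ContinuousAt (fun u : Pt A B => rho A B u.x u.y) v := by
    unfold rho
    exact (continuous_const.mul cn).neg.continuousAt.div₀ cd.continuousAt hv.2.1
  have ckap : ContinuousAt (fun u : Pt A B => kap A B u.x u.y) v := by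
    unfold kap
    exact ((continuous_const.mul cn).mul cl).neg.continuousAt.div₀ (cd.pow 3).continuousAt
      (pow_ne_zero _ hv.2.1)
  have c1 : ContinuousAt (fun u : Pt A B => ix A B u.x u.y) v := by
    unfold ix
    exact continuousAt_const.add (crho.mul (cx.continuousAt.sub continuousAt_const))
  have c2 : ContinuousAt (fun u : Pt A B => iy A B u.x u.y) v := by
    unfold iy
    exact continuousAt_const.add (crho.mul (cy.continuousAt.sub continuousAt_const))
  have c3 : ContinuousAt (fun u : Pt A B => kap A B u.x u.y * u.z) v :=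
    ckap.mul cz.continuousAt
  have c4 : ContinuousAt (fun u : Pt A B =>
      ((ix A B u.x u.y, iy A B u.x u.y, kap A B u.x u.y * u.z) : K × K × K)) v :=
    c1.prodMk (c2.prodMk c3)
  have e4 : ∀ᶠ u : Pt A B in 𝓝 v,
      ((ix A B u.x u.y, iy A B u.x u.y, kap A B u.x u.y * u.z) : K × K × K) ∈ V := c4 hV
  filter_upwards [e1, e2, e3, e4] with u h1 h2 h3 h4
  exact ⟨⟨h1, h2, h3⟩, hVU h4⟩

end Pool.Agent.Helper1.FT
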