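import Pool.Agent.Helper1.FT.Curve

/-!
# FT: module MAv (finiteness of the exceptional sets)
-/

namespace Pool.Agent.Helper1.FT

variable {K : Type*} [Field K] {A B d : K}

theorem MAv_finite_xc (a : K) : {P : E A B d | P ≠ 0 ∧ xc P = a}.Finite := by
  by_cases h : ∃ P₀ : E A B d, P₀ ≠ 0 ∧ xc P₀ = a
  · obtain ⟨P₀, h0, h1⟩ := h
    apply (Set.toFinite ({P₀, -P₀} : Set (E A B d))).subset
    rintro P ⟨hP, hx⟩
    have := (xc_eq_iff hP h0).1 (hx.trans h1.symm)
    simpa using this
  · convert Set.finite_empty (α := E A B d)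
    ext P
    simp only [Set.mem_ofPred_eq, Set.mem_empty_iff_false, iff_false]
    exact fun hP => h ⟨P, hP⟩

theorem MAv_finite_root (hd : d ≠ 0) (s : K) {f : Polynomial K} (hf : f ≠ 0) :
    {P : E A B d | P ≠ 0 ∧ f.eval (xc P / d - s) = 0}.Finite := by
  classical
  have h1 : (⋃ a ∈ f.roots.toFinset, {P : E A B d | P ≠ 0 ∧ xc P = (a + s) * d}).Finite :=
    Set.Finite.biUnion (Finset.finite_toSet _) fun a _ => MAv_finite_xc _
  apply h1.subset
  rintro P ⟨hP, hx⟩
  simp only [Set.mem_iUnion, Set.mem_ofPred_eq]
  refine ⟨xc P / d - s, ?_, hP, ?_⟩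
  · rw [Multiset.mem_toFinset, Polynomial.mem_roots hf]
    exact hx
  · field_simp
    ring

theorem MAv_lin {u : K} (hu : u ≠ 0) (w : K) :
    (Polynomial.C u * Polynomial.X + Polynomial.C w : Polynomial K) ≠ 0 := by
  intro h
  have h1 := congrArg (fun g => g.coeff 1) h
  simp only [Polynomial.coeff_add, Polynomial.coeff_C_mul, Polynomial.coeff_X_one, mul_one,
    Polynomial.coeff_C_succ, add_zero, Polynomial.coeff_zero] at h1
  exact hu h1

theorem finite_yc (h : Ok A B) (hd : d ≠ 0) : {P : E A B d | P = 0 ∨ yc P = 0}.Finite := by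
  have h1 := MAv_finite_root (A := A) (B := B) hd 0 (MAv_lin (one_ne_zero (α := K)) 0)
  have h2 := MAv_finite_root (A := A) (B := B) hd 0 (MAv_lin (one_ne_zero (α := K)) (-A))
  have h3 := MAv_finite_root (A := A) (B := B) hd 0 (MAv_lin (one_ne_zero (α := K)) (-B))
  apply (h1.union (h2.union (h3.union (Set.finite_singleton (0 : E A B d))))).subset
  intro P hP
  by_cases h0 : P = 0
  · right; right; right; exact h0
  · have hy : yc P = 0 := hP.resolve_left h0
    have h4 := yc_sq_ff hd P
    rw [hy] at h4
    have h5 : d ^ 3 * ff A B (xc P / d) = 0 := by rw [← h4]; ring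
    have h6 := (mul_eq_zero.1 h5).resolve_left (pow_ne_zero 3 hd)
    unfold ff at h6
    rcases mul_eq_zero.1 h6 with h7 | h7
    · rcases mul_eq_zero.1 h7 with h8 | h8
      · left
        refine ⟨h0, ?_⟩
        simp [h8]
      · right; left
        refine ⟨h0, ?_⟩
        simp only [Polynomial.eval_add, Polynomial.eval_mul, Polynomial.eval_X,
          Polynomial.eval_C]
        linear_combination h8
    · right; right; left
      refine ⟨h0, ?_⟩
      simp only [Polynomial.eval_add, Polynomial.eval_mul, Polynomial.eval_X,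
        Polynomial.eval_C]
      linear_combination h7

/-- for a given first coordinate, the involution is undefined only for finitely many second
points -/
theorem finite_bad (h : Ok A B) (hd : d ≠ 0) {x : K} (hx : x ≠ A) :
    {Q : E A B d | Q ≠ 0 ∧ ¬ (nn A B (x - A) (xc Q / d - B) ≠ 0 ∧
      dd A B (x - A) (xc Q / d - B) ≠ 0 ∧ ll A B (x - A) (xc Q / d - B) ≠ 0)}.Finite := by
  set a := x - A with ha
  have ha0 : a ≠ 0 := sub_ne_zero.2 hx
  have hf1 : (Polynomial.C A * Polynomial.X ^ 2 + Polynomial.C (A * (2 * B - A)) * Polynomial.X +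
      Polynomial.C (B * a ^ 2 + B * (2 * A - B) * a) : Polynomial K) ≠ 0 := by
    intro h0
    have h1 := congrArg (fun g => g.coeff 2) h0
    generalize B * a ^ 2 + B * (2 * A - B) * a = c0 at h1
    generalize A * (2 * B - A) = c1 at h1
    simp only [Polynomial.coeff_add, Polynomial.coeff_C_mul, Polynomial.coeff_X_pow,
      Polynomial.coeff_X, Polynomial.coeff_C, Polynomial.coeff_zero] at h1
    norm_num at h1
    exact h.hA h1
  have hf2 : (Polynomial.C ((2 * A - B) * a + A * (A - B)) * Polynomial.X ^ 2 +
      Polynomial.C (-((2 * B - A) * a ^ 2)) * Polynomial.X +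
      Polynomial.C ((A - B) * B * a ^ 2) : Polynomial K) ≠ 0 := by
    intro h0
    have h1 := congrArg (fun g => g.coeff 0) h0
    simp only [Polynomial.coeff_add, Polynomial.coeff_C_mul, Polynomial.coeff_X_zero, mul_zero,
      Polynomial.coeff_C_zero, Polynomial.coeff_zero, Polynomial.coeff_X_pow] at h1
    norm_num at h1
    rcases h1 with (h1 | h1) | h1
    · exact h.sub_ne h1
    · exact h.hB h1
    · exact ha0 h1
  have g1 := MAv_finite_root (A := A) (B := B) hd B hf1
  have g2 := MAv_finite_root (A := A) (B := B) hd B hf2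
  have g3 := MAv_finite_root (A := A) (B := B) hd B (MAv_lin (one_ne_zero (α := K)) a)
  have g4 := MAv_finite_root (A := A) (B := B) hd B (MAv_lin h.sub_ne (-(B * a)))
  have g5 := MAv_finite_root (A := A) (B := B) hd B (MAv_lin h.hA (-(B * a)))
  have g6 := MAv_finite_root (A := A) (B := B) hd B (MAv_lin h.hA ((A - B) * a))
  apply (g1.union (g2.union (g3.union (g4.union (g5.union g6))))).subset
  rintro Q ⟨hQ, hbad⟩
  have hcases : nn A B a (xc Q / d - B) = 0 ∨ dd A B a (xc Q / d - B) = 0 ∨
      ll A B a (xc Q / d - B) = 0 := by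
    by_contra hcon
    push Not at hcon
    exact hbad hcon
  simp only [Set.mem_union, Set.mem_ofPred_eq, Polynomial.eval_add, Polynomial.eval_mul,
    Polynomial.eval_pow, Polynomial.eval_X, Polynomial.eval_C]
  rcases hcases with h1 | h1 | h1
  · left
    refine ⟨hQ, ?_⟩
    unfold nn at h1
    linear_combination h1
  · right; left
    refine ⟨hQ, ?_⟩
    unfold dd at h1
    linear_combination h1
  · unfold ll at h1
    rcases mul_eq_zero.1 h1 with h1 | h1
    · rcases mul_eq_zero.1 h1 with h1 | h1
      · rcases mul_eq_zero.1 h1 with h1 | h1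
        · right; right; left
          refine ⟨hQ, ?_⟩
          linear_combination h1
        · right; right; right; left
          refine ⟨hQ, ?_⟩
          linear_combination h1
      · right; right; right; right; left
        refine ⟨hQ, ?_⟩
        linear_combination h1
    · right; right; right; right; right
      refine ⟨hQ, ?_⟩
      linear_combination h1

end Pool.Agent.Helper1.FT
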