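import Pool.Agent.Helper1.FT.MLev

/-!
# FT: module MAvP
-/

namespace Pool.Agent.Helper1.FT

open Pool.Agent.Helper10.K3 WeierstrassCurve.Affine Classical

variable {p : ℕ} [hp : Fact p.Prime] {A B d : ℚ_[p]}

/-- every point is a limit of points outside a given finite set -/
theorem exists_near_avoid (h : GB A B) (hd : nd d) {F : Set (E A B d)} (hF : F.Finite)
    (P : E A B d) (n : ℕ) : ∃ P' : E A B d, P' ∉ F ∧ fil n (P' - P) := by
  have hp1 := KumWA.one_lt_p (p := p)
  have hp0 : (p : ℚ_[p]) ≠ 0 := by exact_mod_cast hp.1.ne_zero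
  have hlev : ∀ m : ℕ, ∃ η : E A B d, η ≠ 0 ∧ ‖xc η‖ = (p : ℝ) ^ (2 * (n + m)) := by
    intro m
    have ht : ((p : ℚ_[p]) ^ (n + m)) ≠ 0 := pow_ne_zero _ hp0
    have ht1 : ‖((p : ℚ_[p]) ^ (n + m))‖ ≤ 1 := by
      rw [norm_pow]
      refine pow_le_one₀ (norm_nonneg _) ?_
      rw [Padic.norm_p]
      exact inv_le_one_of_one_le₀ hp1.le
    obtain ⟨η, h1, h2⟩ := exists_eta h hd ht ht1
    refine ⟨η, h1, ?_⟩
    rw [h2, norm_inv, norm_pow, norm_pow, Padic.norm_p, ← pow_mul, inv_pow, inv_inv]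
    congr 1
    ring
  choose η hη0 hη using hlev
  have hinj : Function.Injective fun m => P + η m := by
    intro m m' he
    have he' : η m = η m' := add_left_cancel he
    have h1 := hη m
    rw [he', hη m'] at h1
    have h2 := (pow_right_injective₀ (by linarith) hp1.ne') h1
    omega
  obtain ⟨P', ⟨m, hm⟩, hP'⟩ := (Set.infinite_range_of_injective hinj).exists_notMem_finite hF
  refine ⟨P', hP', ?_⟩
  have h3 : P' - P = η m := by
    rw [← hm]
    show P + η m - P = η m
    abel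
  rw [h3]
  refine fil_mono (Nat.le_add_right n m) ?_
  right
  rw [hη m]

end Pool.Agent.Helper1.FT
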