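import Pool.Agent.Helper1.FT.MNear
import Pool.Agent.Helper10.K3.Reduc2
import Pool.Agent.Helper10.K3.FF

/-!
# FT: module MExp
-/

namespace Pool.Agent.Helper1.FT

open Pool.Agent.Helper10.K3 WeierstrassCurve.Affine Classical

variable {p : ℕ} [hp : Fact p.Prime] {A B d : ℚ_[p]}

private theorem MExp_two_ne (h3 : 3 < p) : (2 : ZMod p) ≠ 0 := by
  intro h0
  have h1 : ((2 : ℕ) : ZMod p) = 0 := by exact_mod_cast h0
  rw [ZMod.natCast_eq_zero_iff] at h1
  have := Nat.le_of_dvd (by norm_num) h1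
  omega

private theorem MExp_torHom_inj {K : Type*} [Field K] [DecidableEq K] {A B d : K} (h : Ok A B)
    (hd : d ≠ 0) : Function.Injective (torHom h hd) := by
  rw [injective_iff_map_eq_zero]
  intro j hj
  by_contra hne
  exact torP_ne h hd hne hj

private theorem MExp_card {A B δ : ZMod p} (h3 : 3 < p) (h : Ok A B) (hδ : δ ≠ 0) :
    Nat.card (E A B δ) ≠ 0 ∧ ∀ q : ℕ, q.Prime → q ∣ Nat.card (E A B δ) → q < p := by
  have hpos : 0 < Nat.card (E A B δ) := Nat.card_pos
  refine ⟨hpos.ne', ?_⟩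
  have h4 : 4 ∣ Nat.card (E A B δ) := by
    have h5 := AddSubgroup.card_dvd_of_injective (torHom h hδ) (MExp_torHom_inj h hδ)
    have h6 : Nat.card J = 4 := by
      rw [Nat.card_prod, Nat.card_zmod]
    rwa [h6] at h5
  have hle : Nat.card (E A B δ) ≤ 1 + 2 * p := by
    have h5 := card_tor_le (-(A + B)) (A * B) δ hδ 0
    have h6 : Nat.card {P : (TW (-(A + B)) (A * B) δ).Point // 0 • P = 0} =
        Nat.card (E A B δ) := by
      apply Nat.card_congr
      exact Equiv.subtypeUnivEquiv (fun P => zero_smul ℕ P)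
    rw [h6] at h5
    have h7 : (torX (-(A + B)) (A * B) δ 0).ncard ≤ p := by
      have h8 := Set.ncard_le_ncard (Set.subset_univ (torX (-(A + B)) (A * B) δ 0))
        (Set.toFinite _)
      rw [Set.ncard_univ, Nat.card_zmod] at h8
      exact h8
    omega
  intro q hq hqd
  obtain ⟨m, hm⟩ := h4
  rw [hm] at hqd hle hpos
  rcases (Nat.Prime.dvd_mul hq).1 hqd with h5 | h5
  · have h6 := Nat.le_of_dvd (by norm_num) h5
    by_contra hc
    have hq4 : q = 4 := by omega
    rw [hq4] at hq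
    exact absurd hq (by norm_num)
  · have h6 := Nat.le_of_dvd (by omega) h5
    omega

private theorem MExp_smul2 {G : Type*} [AddCommGroup G] (x y : G) (M : ℕ) (hy : y + y = 0) :
    (2 * M) • x = (2 * M) • (x - y) := by
  have e2 : (2 * M) • y = 0 := by
    rw [mul_comm, mul_smul, two_smul, hy, smul_zero]
  rw [smul_sub, e2, sub_zero]

private theorem MExp_smul_card {G : Type*} [AddCommGroup G] {M : ℕ} (h : Nat.card G ∣ M) (x : G) :
    (2 * M) • x = 0 := by
  obtain ⟨m, hm⟩ := h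
  have e : 2 * M = (2 * m) * Nat.card G := by rw [hm]; ring
  rw [e, mul_smul, card_nsmul_eq_zero', smul_zero]

private theorem MExp_unr {a b d : ℤ_[p]} (H : GoodRed a b d) {N : ℕ}
    (hN : ∀ R : (TW (PadicInt.toZMod a) (PadicInt.toZMod b) (PadicInt.toZMod d)).Point, N • R = 0)
    (P : (TW (a : ℚ_[p]) b ((d * p ^ 2 : ℤ_[p]) : ℚ_[p])).Point) :
    N • P ∈ Fil a b (d * p ^ 2) 0 := by
  obtain ⟨P', rfl⟩ := scp_surjective H P
  rw [← map_nsmul, ← redHom_eq_zero_iff, map_nsmul]
  exact hN _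

/-- exponent: an integer with small prime factors which kills the group modulo the formal part -/
theorem loc_exp (h : GB A B) : ∃ N : ℕ, N ≠ 0 ∧ (∀ q : ℕ, q.Prime → q ∣ N → q < p) ∧
    ∀ (d : ℚ_[p]) (_ : nd d) (P : E A B d), fil 0 (N • P) := by
  have h3 := h.h3
  have hok := h.ok
  obtain ⟨α, hα⟩ := exists_coe_of_norm_le h.nA.le
  obtain ⟨β, hβ⟩ := exists_coe_of_norm_le h.nB.le
  have hA1 : PadicInt.toZMod α ≠ 0 := by
    rw [toZMod_ne_zero_iff]
    have := h.nA
    rw [← hα] at this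
    exact this
  have hB1 : PadicInt.toZMod β ≠ 0 := by
    rw [toZMod_ne_zero_iff]
    have := h.nB
    rw [← hβ] at this
    exact this
  have hAB1 : PadicInt.toZMod (α - β) ≠ 0 := by
    rw [toZMod_ne_zero_iff]
    have := h.nAB
    rw [← hα, ← hβ] at this
    exact this
  have hokp : Ok (PadicInt.toZMod α) (PadicInt.toZMod β) := by
    refine ⟨MExp_two_ne h3, hA1, hB1, ?_⟩
    intro e
    apply hAB1
    rw [map_sub, e, sub_self]
  set M : ℕ := ∏ δ ∈ (Finset.univ : Finset (ZMod p)).filter (fun δ => δ ≠ 0),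
    Nat.card (E (PadicInt.toZMod α) (PadicInt.toZMod β) δ) with hM
  refine ⟨2 * M, ?_, ?_, ?_⟩
  · apply mul_ne_zero two_ne_zero
    rw [hM, Finset.prod_ne_zero_iff]
    intro δ hδ
    exact (MExp_card h3 hokp (Finset.mem_filter.1 hδ).2).1
  · intro q hq hqd
    rcases (Nat.Prime.dvd_mul hq).1 hqd with h5 | h5
    · have := Nat.le_of_dvd (by norm_num) h5
      omega
    · rw [hM, (Nat.Prime.prime hq).dvd_finsetProd_iff] at h5
      obtain ⟨δ, hδ, h6⟩ := h5
      exact (MExp_card h3 hokp (Finset.mem_filter.1 hδ).2).2 q hq h6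
  · intro d hd P
    rcases id hd with hr | hu
    · obtain ⟨j, hj⟩ := ram_cases h hd hr P
      have e1 : (2 * M) • P = (2 * M) • (P - torP h.ok (nd_ne hd) j) :=
        MExp_smul2 _ _ M (torP_self _ _ _)
      rw [e1]
      exact fil_nsmul h hd hj _
    · subst hα
      subst hβ
      have hp0 : (p : ℚ_[p]) ≠ 0 := by exact_mod_cast hp.1.ne_zero
      have hpr : (p : ℝ) ≠ 0 := by exact_mod_cast hp.1.ne_zero
      have hn : ‖d / (p : ℚ_[p]) ^ 2‖ = 1 := by
        rw [norm_div, hu, norm_pow, Padic.norm_p]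
        field_simp
      obtain ⟨d₀, hd₀⟩ := exists_coe_of_norm_le hn.le
      have hdd : d = ((d₀ * p ^ 2 : ℤ_[p]) : ℚ_[p]) := by
        push_cast
        rw [hd₀]
        field_simp
      subst hdd
      have hn0 : ‖d₀‖ = 1 := by
        rw [← hd₀] at hn
        exact hn
      have hd1 : PadicInt.toZMod d₀ ≠ 0 := (toZMod_ne_zero_iff d₀).2 hn0
      have H : GoodRed (-(α + β)) (α * β) d₀ := by
        refine ⟨MExp_two_ne h3, ?_, hd1, ?_⟩
        · rw [map_mul]
          exact mul_ne_zero hA1 hB1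
        · have e1 : PadicInt.toZMod (-(α + β)) ^ 2 - 4 * PadicInt.toZMod (α * β) =
              PadicInt.toZMod (α - β) ^ 2 := by
            rw [map_neg, map_add, map_mul, map_sub]
            ring
          rw [e1]
          exact pow_ne_zero 2 hAB1
      have hcard : Nat.card (TW (PadicInt.toZMod (-(α + β))) (PadicInt.toZMod (α * β))
          (PadicInt.toZMod d₀)).Point ∣ M := by
        have e1 : PadicInt.toZMod (-(α + β)) = -(PadicInt.toZMod α + PadicInt.toZMod β) := by
          rw [map_neg, map_add]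
        have e2 : PadicInt.toZMod (α * β) = PadicInt.toZMod α * PadicInt.toZMod β := map_mul _ _ _
        rw [e1, e2, hM]
        exact Finset.dvd_prod_of_mem
          (fun δ => Nat.card (E (PadicInt.toZMod α) (PadicInt.toZMod β) δ))
          (Finset.mem_filter.2 ⟨Finset.mem_univ _, hd1⟩)
      have hN : ∀ R : (TW (PadicInt.toZMod (-(α + β))) (PadicInt.toZMod (α * β))
          (PadicInt.toZMod d₀)).Point, (2 * M) • R = 0 := fun R => MExp_smul_card hcard R
      have hdiv : (p : ℤ_[p]) ∣ d₀ * p ^ 2 := ⟨d₀ * p, by ring⟩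
      have hfin : (2 * M) • P ∈ Fil (-(α + β)) (α * β) (d₀ * p ^ 2) 0 := MExp_unr H hN P
      exact (mem_Fil_iff hdiv 0 _).1 hfin

end Pool.Agent.Helper1.FT
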