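import Pool.Agent.Helper1.FT.Curve
import Pool.Agent.Helper10.K3.DivPoly

/-!
# FT: module MFt (finiteness of the coordinates of torsion points)
-/

namespace Pool.Agent.Helper1.FT

open Pool.Agent.Helper10.K3 WeierstrassCurve.Affine Classical

/-- for a given integer `N`, only finitely many normalised first coordinates of points of the
twists are killed by `N` -/
theorem finite_tor_coord {K : Type*} [Field K] [CharZero K] {A B : K} (h : Ok A B) {N : ℕ}
    (hN : N ≠ 0) : {x : K | ∃ (d : K) (P : E A B d), d ≠ 0 ∧ P ≠ 0 ∧ N • P = 0 ∧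
      xc P = x * d}.Finite := by
  obtain ⟨U, V, D⟩ := exists_mulData h.h2 h.b_ne h.ab_ne N (Nat.one_le_iff_ne_zero.2 hN)
  have hV : V ≠ 0 := by
    intro h0
    have h1 := D.topV
    rw [h0, Polynomial.coeff_zero] at h1
    exact pow_ne_zero 2 (Nat.cast_ne_zero.2 hN) h1.symm
  apply ((Finset.finite_toSet V.roots.toFinset).union (Set.finite_singleton (0 : K))).subset
  rintro x ⟨d, P, hd, hP, hNP, hx⟩
  by_cases hx0 : x = 0
  · right; exact hx0
  · left
    cases P with
    | zero => exact absurd rfl hP
    | some X Y hn =>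
      have hX : X = d * x := by rw [mul_comm]; exact hx
      have r := D.rep d hd x hx0 X Y hn hX
      rw [Finset.mem_coe, Multiset.mem_toFinset, Polynomial.mem_roots hV]
      rcases r with ⟨-, hv, -⟩ | ⟨X', Y', h', e, -, -⟩
      · exact hv
      · exact absurd (e.symm.trans hNP) (Point.some_ne_zero _)

end Pool.Agent.Helper1.FT
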