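import Pool.Agent.Helper1.FT.Loc

/-!
# FT: module MRep
-/

namespace Pool.Agent.Helper1.FT

open Pool.Agent.Helper10.K3 WeierstrassCurve.Affine Classical

variable {p : ℕ} [hp : Fact p.Prime] {A B d : ℚ_[p]}

/-- every point of the surface is given by a pair of points of a normalised twist -/
theorem exists_rep_nd (h : GB A B) (v : Pt A B) :
    ∃ l : Loc A B, Rep v l.d l.Q l.R := by
  have hf := v.hfx
  have hp0 : (p : ℚ_[p]) ≠ 0 := by exact_mod_cast hp.1.ne_zero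
  have hpr : (p : ℝ) ≠ 0 := by exact_mod_cast hp.1.ne_zero
  obtain ⟨j, hj⟩ : ∃ j : ℤ, (ff A B v.x).valuation + 2 * j = 1 ∨
      (ff A B v.x).valuation + 2 * j = 2 := by
    rcases Int.even_or_odd' (ff A B v.x).valuation with ⟨k, hk | hk⟩
    · exact ⟨1 - k, Or.inr (by omega)⟩
    · exact ⟨-k, Or.inl (by omega)⟩
  set c : ℚ_[p] := (p : ℚ_[p]) ^ j with hc
  have hc0 : c ≠ 0 := zpow_ne_zero _ hp0
  set d := ff A B v.x * c ^ 2 with hd
  have hd0 : d ≠ 0 := mul_ne_zero hf (pow_ne_zero _ hc0)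
  have hdn : ‖d‖ = (p : ℝ) ^ (-((ff A B v.x).valuation + 2 * j)) := by
    rw [hd, norm_mul, norm_pow, hc, Padic.norm_p_zpow, Padic.norm_eq_zpow_neg_valuation hf,
      ← zpow_natCast, ← zpow_mul, ← zpow_add₀ hpr]
    congr 1; push_cast; ring
  have hnd : nd d := by
    rcases hj with hj | hj
    · left; rw [hdn, hj]; simp
    · right; rw [hdn, hj, zpow_neg]; norm_cast
  have hdc : ff A B v.x = d / c ^ 2 := by rw [hd]; field_simp
  have h1 : (d ^ 2 / c) ^ 2 = (d * v.x) * (d * v.x - A * d) * (d * v.x - B * d) := by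
    have e : (d * v.x) * (d * v.x - A * d) * (d * v.x - B * d) = d ^ 3 * ff A B v.x := by
      unfold ff; ring
    rw [e, hdc]; field_simp
  have h2 : (d * v.z * c) ^ 2 = (d * v.y) * (d * v.y - A * d) * (d * v.y - B * d) := by
    have e : (d * v.y) * (d * v.y - A * d) * (d * v.y - B * d) = d ^ 3 * ff A B v.y := by
      unfold ff; ring
    have e2 := v.eqn
    have e3 : (d * v.z * c) ^ 2 = d ^ 2 * c ^ 2 * v.z ^ 2 := by ring
    rw [e, e3, e2, hdc]; field_simp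
  refine ⟨⟨d, hnd, mkP h.ok hd0 (d * v.x) (d ^ 2 / c) h1,
    mkP h.ok hd0 (d * v.y) (d * v.z * c) h2⟩, hd0, mkP_ne h.ok hd0 _ _ h1, mkP_ne h.ok hd0 _ _ h2, ?_, ?_, ?_⟩
  · show v.x * d = xc (mkP h.ok hd0 (d * v.x) (d ^ 2 / c) h1)
    rw [xc_mkP]; ring
  · show v.y * d = xc (mkP h.ok hd0 (d * v.y) (d * v.z * c) h2)
    rw [xc_mkP]; ring
  · show v.z * d ^ 3 = yc (mkP h.ok hd0 (d * v.x) (d ^ 2 / c) h1) *
      yc (mkP h.ok hd0 (d * v.y) (d * v.z * c) h2)
    rw [yc_mkP, yc_mkP]; field_simp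

end Pool.Agent.Helper1.FT
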