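import Pool.Agent.Helper1.FT.MClo
import Pool.Agent.Helper1.FT.MAvP
import Pool.Agent.Helper1.FT.MAv
import Pool.Agent.Helper1.FT.MRep
import Pool.Agent.Helper1.FT.MExp
import Pool.Agent.Helper1.FT.MFt

/-!
# FT: module MBase (the involution on the line at infinity of the second coordinate)
-/

namespace Pool.Agent.Helper1.FT

open Pool.Agent.Helper10.K3 WeierstrassCurve.Affine Classical

variable {p : ℕ} [hp : Fact p.Prime] {A B d : ℚ_[p]}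

/-! ### torsion -/

private theorem mb_par_zero {a b δ Z w : ℤ_[p]} (h : Par a b δ 0 Z w) : Z = 0 := by
  have hw : w = 0 := by
    rcases h.2 with ⟨h1, -⟩ | ⟨-, X, Y, hn, h1, -⟩
    · exact h1
    · exact absurd h1.symm (Point.some_ne_zero _)
  exact h.w_eq_zero_iff.1 hw

private theorem mb_tf_aux {a b δ : ℤ_[p]} (h1 : (p : ℤ_[p]) ∣ δ) (h3 : 3 < p)
    {P : (TW (a : ℚ_[p]) b δ).Point} {Z w : ℤ_[p]} (hP : Par a b δ P Z w) {i : ℕ}
    (hi : i ≠ 0) (hz : i • P = 0) : P = 0 := by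
  obtain ⟨t, u, hu, hiu⟩ := Nat.exists_eq_pow_mul_and_not_dvd hi p hp.1.ne_one
  obtain ⟨U, w', hP'⟩ := Par.p_pow_smul h1 h3 hP t
  obtain ⟨s, w'', e, c, k1, k2, -⟩ := Par.nsmul h1 two_ne_zero hP' u
  have hz' : u • (p ^ t • P) = 0 := by
    rw [← mul_smul, mul_comm, ← hiu]; exact hz
  rw [hz'] at k1
  have k3 := mb_par_zero k1
  have hs : s ≠ 0 := by
    intro hs0
    rw [hs0] at k2
    obtain ⟨δ', hδ'⟩ := h1
    apply hu
    have h4 : ((p : ℤ_[p])) ∣ (u : ℤ_[p]) := by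
      refine ⟨-(a * δ' * c * ((p : ℤ_[p]) ^ t * U * Z) ^ 2 +
        δ' * δ * ((p : ℤ_[p]) ^ t * U * Z) ^ 2 * e), ?_⟩
      have : (u : ℤ_[p]) = -(a * δ * c * ((p : ℤ_[p]) ^ t * U * Z) ^ 2 +
        δ * δ * ((p : ℤ_[p]) ^ t * U * Z) ^ 2 * e) := by linear_combination -k2
      rw [this]
      linear_combination (-(a * c * ((p : ℤ_[p]) ^ t * U * Z) ^ 2 +
        δ * ((p : ℤ_[p]) ^ t * U * Z) ^ 2 * e)) * hδ'
    have h5 := (PadicInt.norm_lt_one_iff_dvd _).2 h4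
    by_contra hnd
    have h6 := KumWA.norm_natCast_eq_one (p := p) hnd
    have h7 : ‖((u : ℤ_[p]) : ℚ_[p])‖ = ‖(u : ℤ_[p])‖ := rfl
    rw [PadicInt.coe_natCast, h6] at h7
    rw [← h7] at h5
    exact lt_irrefl _ h5
  have hZ : Z = 0 := by
    rcases mul_eq_zero.1 k3 with h4 | h4
    · rcases mul_eq_zero.1 h4 with h5 | h5
      · rcases mul_eq_zero.1 h5 with h6 | h6
        · exact absurd h6 (pow_ne_zero _ (by exact_mod_cast hp.1.ne_zero))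
        · exact absurd h6 U.ne_zero
      · exact h5
    · exact absurd h4 hs
  have hw : w = 0 := hP.w_eq_zero_iff.2 hZ
  rcases hP.2 with ⟨-, h4⟩ | ⟨h4, -⟩
  · exact h4
  · exact absurd hw h4

/-- the formal part is torsion free -/
private theorem mb_torsion_free (h : GB A B) (hd : nd d) {η : E A B d} (h0 : fil 0 η) {i : ℕ}
    (hi : i ≠ 0) (hz : i • η = 0) : η = 0 := by
  obtain ⟨α, rfl⟩ := exists_coe_of_norm_le h.nA.le
  obtain ⟨β, rfl⟩ := exists_coe_of_norm_le h.nB.le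
  obtain ⟨d₀, h1, rfl⟩ := nd_coe hd
  obtain ⟨Z, w, hP, -⟩ := (mem_Fil_iff h1 0 η).2 h0
  exact mb_tf_aux h1 h.h3 hP hi hz

/-! ### lifting -/

private theorem mb_continuous_ff (A B : ℚ_[p]) : Continuous (ff A B : ℚ_[p] → ℚ_[p]) := by
  unfold ff; fun_prop

private theorem mb_sqrt_close (h2 : p ≠ 2) {r : ℚ_[p]} (h : ‖r - 1‖ < 1) :
    ∃ w : ℚ_[p], w ^ 2 = r ∧ ‖w - 1‖ ≤ ‖r - 1‖ ∧ ‖w‖ = 1 := by
  have hr : IsSquare r := KumWA.isSquare_of_close h2 (by simpa using h) IsSquare.one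
  obtain ⟨w, hw⟩ := hr
  have hr1 : ‖r‖ = 1 := by
    have : ‖r - 1‖ < ‖(1 : ℚ_[p])‖ := by simpa using h
    rw [KumWA.neq_of_sub_lt this, norm_one]
  have hw1 : ‖w‖ = 1 := by
    rw [hw, norm_mul] at hr1
    nlinarith [norm_nonneg w]
  have hprod : ‖w - 1‖ * ‖w + 1‖ = ‖r - 1‖ := by
    rw [← norm_mul, hw]; congr 1; ring
  have hm : ‖w - 1‖ ≤ 1 := KumWA.nsub_le hw1.le (by simp)
  have hp' : ‖w + 1‖ ≤ 1 := KumWA.nadd_le hw1.le (by simp)
  by_cases h1 : ‖w + 1‖ = 1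
  · refine ⟨w, by rw [hw, sq], ?_, hw1⟩
    rw [h1, mul_one] at hprod
    exact hprod.le
  · have h3 : ‖w + 1‖ < 1 := lt_of_le_of_ne hp' h1
    have h4 : ‖w - 1‖ = 1 := by
      have e : w - 1 = -(2 - (w + 1)) := by ring
      rw [e, norm_neg, KumWA.nsub_eq (by rw [KumWA.norm_two h2]; exact h3), KumWA.norm_two h2]
    refine ⟨-w, by rw [hw]; ring, ?_, by rw [norm_neg, hw1]⟩
    rw [h4, one_mul] at hprod
    have e : -w - 1 = -(w + 1) := by ring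
    rw [e, norm_neg]
    exact hprod.le

private theorem mb_lift_near (h : GB A B) (hd : nd d) {Q : E A B d} (hy : yc Q ≠ 0) (n : ℕ) :
    ∃ ε : ℝ, 0 < ε ∧ ∀ v : Pt A B, ‖v.x - xc Q / d‖ < ε →
      ∃ Q' R' : E A B d, Rep v d Q' R' ∧ fil n (Q' - Q) := by
  have h2 := h.ne_two
  have hd0 := nd_ne hd
  have hQ0 := ne_zero_of_yc hy
  obtain ⟨ε₁, hε₁, H⟩ := fil_of_close h hd hQ0 hy n
  obtain ⟨x0, hx0⟩ : ∃ x0, x0 = xc Q / d := ⟨_, rfl⟩
  have hff : yc Q ^ 2 = d ^ 3 * ff A B x0 := by rw [hx0]; exact yc_sq_ff hd0 Q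
  have hf0 : ff A B x0 ≠ 0 := by
    intro h
    rw [h, mul_zero] at hff
    exact hy (pow_eq_zero_iff two_ne_zero |>.1 hff)
  have hyn : 0 < ‖yc Q‖ := norm_pos_iff.2 hy
  have hdn : 0 < ‖d‖ := norm_pos_iff.2 hd0
  have hcont : Continuous (fun x : ℚ_[p] => ‖ff A B x / ff A B x0 - 1‖) :=
    (((mb_continuous_ff A B).div_const _).sub continuous_const).norm
  have hz : ‖ff A B x0 / ff A B x0 - 1‖ = 0 := by rw [div_self hf0]; simp
  have hev : ∀ᶠ x in nhds x0, ‖ff A B x / ff A B x0 - 1‖ < min 1 (ε₁ / ‖yc Q‖) :=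
    hcont.continuousAt.eventually_lt continuousAt_const (by
      rw [hz]
      exact lt_min one_pos (by positivity))
  obtain ⟨δ, hδ, hball⟩ := Metric.eventually_nhds_iff.1 hev
  refine ⟨min δ (ε₁ / ‖d‖), lt_min hδ (by positivity), ?_⟩
  intro v hv
  rw [← hx0] at hv
  have hv1 : ‖v.x - x0‖ < δ := lt_of_lt_of_le hv (min_le_left _ _)
  have hv2 : ‖v.x - x0‖ < ε₁ / ‖d‖ := lt_of_lt_of_le hv (min_le_right _ _)
  have hr := hball (y := v.x) (by rw [dist_eq_norm]; exact hv1)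
  have hr1 : ‖ff A B v.x / ff A B x0 - 1‖ < 1 := lt_of_lt_of_le hr (min_le_left _ _)
  have hr2 : ‖ff A B v.x / ff A B x0 - 1‖ < ε₁ / ‖yc Q‖ := lt_of_lt_of_le hr (min_le_right _ _)
  obtain ⟨w, hw, hw1, hwn⟩ := mb_sqrt_close h2 hr1
  have hw0 : w ≠ 0 := by rintro rfl; simp at hwn
  have hwy : (w * yc Q) ^ 2 = d ^ 3 * ff A B v.x := by
    rw [mul_pow, hw, hff]; field_simp
  have hwy0 : w * yc Q ≠ 0 := mul_ne_zero hw0 hy
  have e1 : (w * yc Q) ^ 2 = (d * v.x) * (d * v.x - A * d) * (d * v.x - B * d) := by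
    rw [hwy, ff]; ring
  have e2 : (d ^ 3 * v.z / (w * yc Q)) ^ 2 =
      (d * v.y) * (d * v.y - A * d) * (d * v.y - B * d) := by
    have hfx := v.hfx
    rw [div_pow, hwy, mul_pow, v.eqn]
    have : (d ^ 3) ^ 2 * (ff A B v.x * ff A B v.y) / (d ^ 3 * ff A B v.x) =
        d ^ 3 * ff A B v.y := by
      field_simp
    rw [this, ff]; ring
  refine ⟨mkP h.ok hd0 (d * v.x) (w * yc Q) e1,
    mkP h.ok hd0 (d * v.y) (d ^ 3 * v.z / (w * yc Q)) e2,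
    ⟨hd0, mkP_ne _ _ _ _ _, mkP_ne _ _ _ _ _, ?_, ?_, ?_⟩, ?_⟩
  · rw [xc_mkP]; ring
  · rw [xc_mkP]; ring
  · rw [yc_mkP, yc_mkP]; field_simp
  · apply H _ (mkP_ne _ _ _ _ _)
    · rw [xc_mkP]
      have e : d * v.x - xc Q = d * (v.x - x0) := by rw [hx0]; field_simp
      rw [e, norm_mul]
      rw [lt_div_iff₀ hdn] at hv2
      linarith [mul_comm ‖d‖ ‖v.x - x0‖]
    · rw [yc_mkP]
      have e : w * yc Q - yc Q = (w - 1) * yc Q := by ring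
      rw [e, norm_mul]
      calc ‖w - 1‖ * ‖yc Q‖ ≤ ‖ff A B v.x / ff A B x0 - 1‖ * ‖yc Q‖ := by gcongr
        _ < ε₁ := by rwa [lt_div_iff₀ hyn] at hr2

/-! ### finiteness -/

private theorem mb_finite_xc_eq (x : ℚ_[p]) : {P : E A B d | P ≠ 0 ∧ xc P = x}.Finite := by
  by_cases hne : ∃ P : E A B d, P ≠ 0 ∧ xc P = x
  · obtain ⟨P, hP, hx⟩ := hne
    apply Set.Finite.subset (Set.toFinite {P, -P})
    rintro Q ⟨hQ, hQx⟩
    rcases (xc_eq_iff hQ hP).1 (hQx.trans hx.symm) with h | h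
    · left; exact h
    · right; exact h
  · convert Set.finite_empty
    ext P
    simp only [Set.mem_ofPred_eq, Set.mem_empty_iff_false, iff_false]
    exact fun h => hne ⟨P, h⟩

private theorem mb_finite_xc_mem {S : Set ℚ_[p]} (hS : S.Finite) :
    {P : E A B d | P ≠ 0 ∧ xc P ∈ S}.Finite := by
  have : {P : E A B d | P ≠ 0 ∧ xc P ∈ S} ⊆ ⋃ x ∈ S, {P : E A B d | P ≠ 0 ∧ xc P = x} := by
    rintro P ⟨h1, h2⟩
    simp only [Set.mem_iUnion]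
    exact ⟨xc P, h2, h1, rfl⟩
  exact (Set.Finite.biUnion hS (fun x _ => mb_finite_xc_eq x)).subset this

/-! ### the involution on the line at infinity -/

/-- denominator -/
private noncomputable def mb_D (A B x : ℚ_[p]) : ℚ_[p] := (2 * A - B) * (x - A) + A * (A - B)

/-- the involution -/
private noncomputable def mb_g (A B x : ℚ_[p]) : ℚ_[p] := A - A * (A - B) * (x - A) / mb_D A B x

private theorem mb_D_g {x : ℚ_[p]} (hx : mb_D A B x ≠ 0) :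
    mb_D A B (mb_g A B x) * mb_D A B x = (A * (A - B)) ^ 2 := by
  have e : mb_D A B (mb_g A B x) =
      -((2 * A - B) * (A * (A - B) * (x - A))) / mb_D A B x + A * (A - B) := by
    unfold mb_g
    rw [mb_D]
    ring
  rw [e, add_mul, div_mul_cancel₀ _ hx]
  unfold mb_D
  ring

private theorem mb_D_g_ne (h : Ok A B) {x : ℚ_[p]} (hx : mb_D A B x ≠ 0) :
    mb_D A B (mb_g A B x) ≠ 0 := by
  intro h0
  have h1 := mb_D_g hx
  rw [h0, zero_mul] at h1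
  exact pow_ne_zero 2 (mul_ne_zero h.hA h.sub_ne) h1.symm

private theorem mb_g_g (h : Ok A B) {x : ℚ_[p]} (hx : mb_D A B x ≠ 0) :
    mb_g A B (mb_g A B x) = x := by
  have h1 := mb_D_g hx
  have h2 := mb_D_g_ne h hx
  have h3 := h.hA
  have h4 := h.sub_ne
  have e : mb_g A B (mb_g A B x) = A + A * (A - B) * (A * (A - B) * (x - A)) /
      (mb_D A B (mb_g A B x) * mb_D A B x) := by
    rw [mb_g]
    have e1 : mb_g A B x - A = -(A * (A - B) * (x - A) / mb_D A B x) := by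
      rw [mb_g]; ring
    rw [e1]
    field_simp
    ring
  rw [e, h1]
  field_simp
  ring

private theorem mb_ff_g (h : Ok A B) {x : ℚ_[p]} (hx : mb_D A B x ≠ 0) (hf : ff A B x ≠ 0) :
    ff A B (mb_g A B x) ≠ 0 := by
  have h3 := h.hA
  have h4 := h.sub_ne
  have e : ff A B (mb_g A B x) = (-(A * (A - B)) / mb_D A B x) ^ 3 * ff A B x := by
    have hD : mb_D A B x = (2 * A - B) * (x - A) + A * (A - B) := rfl
    generalize mb_D A B x = D at *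
    unfold mb_g
    have e2 : mb_D A B x = D := by rw [hD, mb_D]
    rw [e2]
    unfold ff
    field_simp
    rw [hD]
    ring
  rw [e]
  exact mul_ne_zero (pow_ne_zero _ (div_ne_zero (neg_ne_zero.2 (mul_ne_zero h3 h4)) hx)) hf

/-- behaviour of the involution for large second coordinate -/
private theorem mb_limit (h : Ok A B) {x : ℚ_[p]} (hx : mb_D A B x ≠ 0) {ε : ℝ} (hε : 0 < ε)
    (C : ℝ) : ∃ M : ℝ, ∀ y : ℚ_[p], M ≤ ‖y‖ → nn A B (x - A) (y - B) ≠ 0 ∧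
      dd A B (x - A) (y - B) ≠ 0 ∧ ll A B (x - A) (y - B) ≠ 0 ∧
      ‖ix A B x y - mb_g A B x‖ < ε ∧ C ≤ ‖iy A B x y‖ := by
  have hA := h.hA
  have hAB := h.sub_ne
  obtain ⟨a, ha⟩ : ∃ a, a = x - A := ⟨_, rfl⟩
  obtain ⟨D, hD⟩ : ∃ D, D = mb_D A B x := ⟨_, rfl⟩
  rw [← hD] at hx
  have hD' : D = (2 * A - B) * a + A * (A - B) := by rw [hD, ha]; rfl
  let N : ℚ_[p] → ℚ_[p] := fun s => A + A * (2 * B - A) * s + (B * a ^ 2 + B * (2 * A - B) * a) * s ^ 2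
  let G : ℚ_[p] → ℚ_[p] := fun s => D - (2 * B - A) * a ^ 2 * s + (A - B) * B * a ^ 2 * s ^ 2
  let L : ℚ_[p] → ℚ_[p] := fun s =>
    (1 + a * s) * ((A - B) - B * a * s) * (A - B * a * s) * (A + (A - B) * a * s)
  have cN : Continuous N := by fun_prop
  have cG : Continuous G := by fun_prop
  have cL : Continuous L := by fun_prop
  have N0 : N 0 = A := by simp [N]
  have G0 : G 0 = D := by simp [G]
  have L0 : L 0 = (A - B) * A * A := by simp [L]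
  have eN : ∀ s : ℚ_[p], s ≠ 0 → nn A B a s⁻¹ = (s⁻¹) ^ 2 * N s := by
    intro s hs
    simp only [N, nn]
    field_simp
    ring
  have eG : ∀ s : ℚ_[p], s ≠ 0 → dd A B a s⁻¹ = (s⁻¹) ^ 2 * G s := by
    intro s hs
    simp only [G, dd, hD']
    field_simp
  have eL : ∀ s : ℚ_[p], s ≠ 0 → ll A B a s⁻¹ = (s⁻¹) ^ 4 * L s := by
    intro s hs
    simp only [L, ll]
    field_simp
    ring
  obtain ⟨r, hr⟩ : ∃ r, r = -((A - B) * A) / D := ⟨_, rfl⟩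
  have hr0 : r ≠ 0 := by
    rw [hr]; exact div_ne_zero (neg_ne_zero.2 (mul_ne_zero hAB hA)) hx
  have hrn : 0 < ‖r‖ := norm_pos_iff.2 hr0
  have cR : ContinuousAt (fun s => ‖-((A - B) * N s) / G s - r‖) 0 := by
    apply ContinuousAt.norm
    apply ContinuousAt.sub _ continuousAt_const
    exact (continuous_const.mul cN).neg.continuousAt.div cG.continuousAt (by rw [G0]; exact hx)
  have v0 : ‖-((A - B) * N 0) / G 0 - r‖ = 0 := by rw [N0, G0, hr, sub_self, norm_zero]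
  have e1 : ∀ᶠ s in nhds (0 : ℚ_[p]), N s ≠ 0 := cN.continuousAt.eventually_ne (by rw [N0]; exact hA)
  have e2 : ∀ᶠ s in nhds (0 : ℚ_[p]), G s ≠ 0 := cG.continuousAt.eventually_ne (by rw [G0]; exact hx)
  have e3 : ∀ᶠ s in nhds (0 : ℚ_[p]), L s ≠ 0 := cL.continuousAt.eventually_ne
    (by rw [L0]; exact mul_ne_zero (mul_ne_zero hAB hA) hA)
  have e4 : ∀ᶠ s in nhds (0 : ℚ_[p]), ‖-((A - B) * N s) / G s - r‖ < min ‖r‖ (ε / (‖a‖ + 1)) :=
    cR.eventually_lt continuousAt_const (by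
      rw [v0]
      exact lt_min hrn (by positivity))
  obtain ⟨δ, hδ, hball⟩ := Metric.eventually_nhds_iff.1 (((e1.and e2).and e3).and e4)
  refine ⟨‖B‖ + (1 / δ + 1) + (‖B‖ / ‖r‖ + |C| / ‖r‖ + 1), fun y hy => ?_⟩
  obtain ⟨b, hb⟩ : ∃ b, b = y - B := ⟨_, rfl⟩
  have hbn : (1 / δ + 1) + (‖B‖ / ‖r‖ + |C| / ‖r‖ + 1) ≤ ‖b‖ := by
    rw [hb]
    have := norm_sub_norm_le y B
    linarith
  have q1 : 0 < 1 / δ := by positivity
  have q2 : 0 ≤ ‖B‖ / ‖r‖ := by positivity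
  have q3 : 0 ≤ |C| / ‖r‖ := by positivity
  have hb0 : b ≠ 0 := by
    rintro rfl
    rw [norm_zero] at hbn
    linarith
  have hbp : 0 < ‖b‖ := norm_pos_iff.2 hb0
  have hs0 : b⁻¹ ≠ 0 := inv_ne_zero hb0
  have hsδ : ‖b⁻¹‖ < δ := by
    rw [norm_inv, inv_lt_comm₀ hbp hδ, ← one_div]
    linarith
  obtain ⟨⟨⟨f1, f2⟩, f3⟩, f4⟩ := hball (y := b⁻¹) (by rw [dist_eq_norm, sub_zero]; exact hsδ)
  have g1 := eN _ hs0
  have g2 := eG _ hs0
  have g3 := eL _ hs0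
  rw [inv_inv] at g1 g2 g3
  rw [← ha, ← hb]
  have hrho : rho A B x y = -((A - B) * N b⁻¹) / G b⁻¹ := by
    rw [rho, ← ha, ← hb, g1, g2]
    field_simp
  have h5 : ‖rho A B x y - r‖ < ‖r‖ := by
    rw [hrho]; exact lt_of_lt_of_le f4 (min_le_left _ _)
  have h6 : ‖rho A B x y - r‖ < ε / (‖a‖ + 1) := by
    rw [hrho]; exact lt_of_lt_of_le f4 (min_le_right _ _)
  have h7 : ‖rho A B x y‖ = ‖r‖ := KumWA.neq_of_sub_lt h5
  refine ⟨?_, ?_, ?_, ?_, ?_⟩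
  · rw [g1]; exact mul_ne_zero (pow_ne_zero _ hb0) f1
  · rw [g2]; exact mul_ne_zero (pow_ne_zero _ hb0) f2
  · rw [g3]; exact mul_ne_zero (pow_ne_zero _ hb0) f3
  · have e : ix A B x y - mb_g A B x = (rho A B x y - r) * a := by
      rw [ix, mb_g, ← ha, ← hD, hr]
      ring
    rw [e, norm_mul]
    calc ‖rho A B x y - r‖ * ‖a‖ ≤ ‖rho A B x y - r‖ * (‖a‖ + 1) := by
          gcongr
          linarith
      _ < ε := by
          rwa [lt_div_iff₀ (by positivity)] at h6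
  · have e : iy A B x y = rho A B x y * b + B := by
      rw [iy, ← hb]; ring
    have h8 : ‖B‖ < ‖rho A B x y * b‖ := by
      rw [norm_mul, h7]
      have : ‖B‖ / ‖r‖ < ‖b‖ := by linarith
      rw [div_lt_iff₀ hrn] at this
      linarith [mul_comm ‖b‖ ‖r‖]
    rw [e, KumWA.nadd_eq h8, norm_mul, h7]
    have : |C| / ‖r‖ < ‖b‖ := by linarith
    rw [div_lt_iff₀ hrn] at this
    have h9 := le_abs_self C
    linarith [mul_comm ‖b‖ ‖r‖]

/-- the involution on the line at infinity of the second coordinate -/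
theorem sig_base (h : GB A B) (hd : nd d) (Q : E A B d) (n : ℕ) :
    ∃ (d₀ : ℚ_[p]) (hd₀ : nd d₀) (Q₀ : E A B d₀) (m : ℕ), (∀ a : ℕ, a ≠ 0 → a • Q₀ ≠ 0) ∧
      ∀ R₀ : E A B d₀, R₀ ≠ 0 → fil m R₀ →
        ∃ l' : Loc A B, SigL h.ok ⟨d₀, hd₀, Q₀, R₀⟩ l' ∧ LNear n l' ⟨d, hd, Q, 0⟩ := by
  have hok := h.ok
  have hd0 := nd_ne hd
  have hdn : 0 < ‖d‖ := norm_pos_iff.2 hd0
  obtain ⟨N, hN0, -, hN⟩ := loc_exp h
  have hT := finite_tor_coord hok hN0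
  set T := {x : ℚ_[p] | ∃ (d : ℚ_[p]) (P : E A B d), d ≠ 0 ∧ P ≠ 0 ∧ N • P = 0 ∧
      xc P = x * d} with hTdef
  -- step 1
  have hS : ((fun x => x * d) '' ({A - A * (A - B) / (2 * A - B)} ∪ mb_g A B '' T)).Finite :=
    ((Set.finite_singleton _).union (hT.image _)).image _
  obtain ⟨Q₁, hQ₁F, hQ₁⟩ := exists_near_avoid h hd
    ((finite_yc hok hd0).union (mb_finite_xc_mem (A := A) (B := B) (d := d) hS)) Q n
  have hyQ₁ : yc Q₁ ≠ 0 := fun h' => hQ₁F (Or.inl (Or.inr h'))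
  have hQ₁0 : Q₁ ≠ 0 := fun h' => hQ₁F (Or.inl (Or.inl h'))
  have hxQ₁ : xc Q₁ / d ∉ ({A - A * (A - B) / (2 * A - B)} ∪ mb_g A B '' T : Set ℚ_[p]) := by
    intro h'
    exact hQ₁F (Or.inr ⟨hQ₁0, xc Q₁ / d, h', div_mul_cancel₀ _ hd0⟩)
  obtain ⟨x₁, hx₁⟩ : ∃ x₁, x₁ = xc Q₁ / d := ⟨_, rfl⟩
  rw [← hx₁] at hxQ₁
  have hD₁ : mb_D A B x₁ ≠ 0 := by
    intro h0
    apply hxQ₁
    left
    have h1 : (2 * A - B) * (x₁ - A) + A * (A - B) = 0 := h0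
    by_cases h2 : 2 * A - B = 0
    · rw [h2, zero_mul, zero_add] at h1
      exact absurd h1 (mul_ne_zero hok.hA hok.sub_ne)
    · rw [Set.mem_singleton_iff, eq_sub_iff_add_eq, ← eq_sub_iff_add_eq', div_eq_iff h2]
      linear_combination h1
  have hf₁ : ff A B x₁ ≠ 0 := by
    intro h0
    have h1 := yc_sq_ff hd0 Q₁
    rw [← hx₁, h0, mul_zero] at h1
    exact hyQ₁ (pow_eq_zero_iff two_ne_zero |>.1 h1)
  obtain ⟨ε, hε, Hlift⟩ := mb_lift_near h hd hyQ₁ n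
  rw [← hx₁] at Hlift
  -- step 2
  obtain ⟨x₀, hx₀⟩ : ∃ x₀, x₀ = mb_g A B x₁ := ⟨_, rfl⟩
  have hD₀ : mb_D A B x₀ ≠ 0 := by rw [hx₀]; exact mb_D_g_ne hok hD₁
  have hg₀ : mb_g A B x₀ = x₁ := by rw [hx₀]; exact mb_g_g hok hD₁
  have hf₀ : ff A B x₀ ≠ 0 := by rw [hx₀]; exact mb_ff_g hok hD₁ hf₁
  have hx₀T : x₀ ∉ T := fun h' => hxQ₁ (Or.inr ⟨x₀, h', hg₀⟩)
  obtain ⟨l, hl⟩ := exists_rep_nd h ⟨(x₀, x₀, ff A B x₀), by
    refine ⟨?_, hf₀⟩
    change ff A B x₀ ^ 2 = ff A B x₀ * ff A B x₀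
    ring⟩
  have hl0 := nd_ne l.hd
  have hln : 0 < ‖l.d‖ := norm_pos_iff.2 hl0
  have hxl : x₀ * l.d = xc l.Q := hl.2.2.2.1
  have hyl := hl.yc_ne.1
  have htors : ∀ a : ℕ, a ≠ 0 → a • l.Q ≠ 0 := by
    intro a ha0 hz
    have h1 : N • l.Q = 0 := by
      apply mb_torsion_free h l.hd (hN l.d l.hd l.Q) ha0
      rw [← mul_smul, Nat.mul_comm a N, mul_smul, hz, smul_zero]
    exact hx₀T ⟨l.d, l.Q, hl0, hl.2.1, h1, hxl.symm⟩
  obtain ⟨M, hM⟩ := mb_limit hok hD₀ hε ((p : ℝ) ^ (2 * n) / ‖d‖)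
  rw [hg₀] at hM
  obtain ⟨m, hm⟩ := pow_unbounded_of_one_lt M (KumWA.one_lt_p (p := p))
  refine ⟨l.d, l.hd, l.Q, m, htors, ?_⟩
  intro R₀ hR₀0 hR₀
  have hxR : (p : ℝ) ^ (2 * m) ≤ ‖xc R₀‖ := hR₀.resolve_left hR₀0
  obtain ⟨y, hy⟩ : ∃ y, y = xc R₀ / l.d := ⟨_, rfl⟩
  have hyM : M ≤ ‖y‖ := by
    rw [hy, norm_div]
    have h3 : (p : ℝ) ^ m ≤ (p : ℝ) ^ (2 * m) :=
      pow_le_pow_right₀ (KumWA.one_lt_p (p := p)).le (by omega)
    have h4 : ‖xc R₀‖ ≤ ‖xc R₀‖ / ‖l.d‖ := by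
      rw [le_div_iff₀ hln]
      exact mul_le_of_le_one_right (norm_nonneg _) (nd_lt l.hd).le
    linarith
  have hyR : yc R₀ ≠ 0 := by
    intro h0
    have h1 := curve_eq R₀
    rw [h0] at h1
    have h2 : xc R₀ * (xc R₀ - A * l.d) * (xc R₀ - B * l.d) = 0 := by rw [← h1]; ring
    have h3 : 1 ≤ ‖xc R₀‖ := le_trans (one_le_pow₀ (KumWA.one_lt_p (p := p)).le) hxR
    have h4 : ∀ C : ℚ_[p], ‖C‖ = 1 → xc R₀ ≠ C * l.d := by
      intro C hC h5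
      rw [h5, norm_mul, hC, one_mul] at h3
      exact absurd (nd_lt l.hd) (not_lt.2 h3)
    rcases mul_eq_zero.1 h2 with h5 | h5
    · rcases mul_eq_zero.1 h5 with h6 | h6
      · rw [h6, norm_zero] at h3
        exact absurd h3 (by norm_num)
      · exact h4 A h.nA (sub_eq_zero.1 h6)
    · exact h4 B h.nB (sub_eq_zero.1 h5)
  obtain ⟨g1, g2, g3, g4, g5⟩ := hM y hyM
  -- the point
  obtain ⟨u, hu⟩ : ∃ u, u = mkPt hl0 l.Q R₀ hyl hyR := ⟨_, rfl⟩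
  have hrepu : Rep u l.d l.Q R₀ := by rw [hu]; exact rep_mkPt hl0 hyl hyR
  have hux : u.x = x₀ := by
    apply mul_right_cancel₀ hl0
    rw [hrepu.2.2.2.1, hxl]
  have huy : u.y = y := by
    rw [hu, hy]; rfl
  have hI : IOK u := by
    refine ⟨?_, ?_, ?_⟩
    · rw [hux, huy]; exact g1
    · rw [hux, huy]; exact g2
    · rw [hux, huy]; exact g3
  obtain ⟨Q', R', hrep', hQ'⟩ := Hlift (iota h.ok u hI) (by
    rw [iota_x, hux, huy]
    exact g4)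
  refine ⟨⟨d, hd, Q', R'⟩, ⟨u, hI, hrepu, hrep'⟩, Q', R', rfl, ?_, ?_⟩
  · change fil n (Q' - Q)
    have e : Q' - Q = (Q' - Q₁) + (Q₁ - Q) := by abel
    rw [e]
    exact fil_add h hd hQ' hQ₁
  · change fil n (R' - 0)
    rw [sub_zero]
    right
    rw [← hrep'.2.2.2.2.1, iota_y, hux, huy, norm_mul]
    rwa [div_le_iff₀ hdn] at g5

end Pool.Agent.Helper1.FT
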