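import Pool.Agent.Helper1.FT.Loc

/-!
# FT: module MC1 (links which always exist)
-/

namespace Pool.Agent.Helper1.FT

open Pool.Agent.Helper10.K3 WeierstrassCurve.Affine Classical

variable {p : ℕ} [hp : Fact p.Prime] {A B d : ℚ_[p]}

/-- `x` is integral with residue `a` -/
def MC1_Cg (x : ℚ_[p]) (a : ZMod p) : Prop := ‖x‖ ≤ 1 ∧ KumWA.res x = a

section MC1_lib

variable {x y : ℚ_[p]} {a b ξ υ : ZMod p}

theorem MC1_Cg.add (hx : MC1_Cg x a) (hy : MC1_Cg y b) : MC1_Cg (x + y) (a + b) :=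
  ⟨KumWA.nadd_le hx.1 hy.1, by rw [KumWA.res_add hx.1 hy.1, hx.2, hy.2]⟩

theorem MC1_Cg.sub (hx : MC1_Cg x a) (hy : MC1_Cg y b) : MC1_Cg (x - y) (a - b) :=
  ⟨KumWA.nsub_le hx.1 hy.1, by rw [KumWA.res_sub hx.1 hy.1, hx.2, hy.2]⟩

theorem MC1_Cg.mul (hx : MC1_Cg x a) (hy : MC1_Cg y b) : MC1_Cg (x * y) (a * b) :=
  ⟨KumWA.norm_mul_le_one hx.1 hy.1, by rw [KumWA.res_mul hx.1 hy.1, hx.2, hy.2]⟩

theorem MC1_Cg.neg (hx : MC1_Cg x a) : MC1_Cg (-x) (-a) :=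
  ⟨by rw [norm_neg]; exact hx.1, by rw [KumWA.res_neg hx.1, hx.2]⟩

theorem MC1_Cg.pow (hx : MC1_Cg x a) (n : ℕ) : MC1_Cg (x ^ n) (a ^ n) :=
  ⟨KumWA.norm_pow_le_one hx.1 n, by rw [KumWA.res_pow hx.1 n, hx.2]⟩

theorem MC1_one : MC1_Cg (1 : ℚ_[p]) 1 := ⟨by simp, KumWA.res_one⟩

theorem MC1_zero : MC1_Cg (0 : ℚ_[p]) 0 := ⟨by simp, KumWA.res_zero⟩

theorem MC1_two : MC1_Cg (2 : ℚ_[p]) 2 := by
  have := (MC1_one (p := p)).add MC1_one
  rwa [one_add_one_eq_two, one_add_one_eq_two] at this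

theorem MC1_self (h : ‖x‖ ≤ 1) : MC1_Cg x (KumWA.res x) := ⟨h, rfl⟩

theorem MC1_small (h : ‖x‖ < 1) : MC1_Cg x 0 := ⟨h.le, (KumWA.res_eq_zero h.le).2 h⟩

theorem MC1_Cg.norm_eq (hx : MC1_Cg x a) (ha : a ≠ 0) : ‖x‖ = 1 :=
  (KumWA.res_ne_zero hx.1).1 (by rwa [hx.2])

theorem MC1_Cg.ne (hx : MC1_Cg x a) (ha : a ≠ 0) : x ≠ 0 := by
  rintro rfl
  have := hx.norm_eq ha
  rw [norm_zero] at this
  exact zero_ne_one this

theorem MC1_Cg.res_ne (hx : MC1_Cg x a) (h : ‖x‖ = 1) : a ≠ 0 := by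
  rw [← hx.2]
  exact (KumWA.res_ne_zero hx.1).2 h

theorem MC1_Cg.inv (hx : MC1_Cg x a) (ha : a ≠ 0) : MC1_Cg x⁻¹ a⁻¹ := by
  have h1 := hx.norm_eq ha
  have h2 : ‖x⁻¹‖ ≤ 1 := by rw [norm_inv, h1, inv_one]
  refine ⟨h2, ?_⟩
  have h3 : KumWA.res (x * x⁻¹) = KumWA.res x * KumWA.res x⁻¹ := KumWA.res_mul hx.1 h2
  rw [mul_inv_cancel₀ (hx.ne ha), KumWA.res_one, hx.2] at h3
  exact (inv_eq_of_mul_eq_one_right h3.symm).symm

theorem MC1_Cg.div (hx : MC1_Cg x a) (hy : MC1_Cg y b) (hb : b ≠ 0) :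
    MC1_Cg (x / y) (a / b) := by
  rw [div_eq_mul_inv, div_eq_mul_inv]
  exact hx.mul (hy.inv hb)

theorem MC1_Cg.close (hx : MC1_Cg x a) (hy : MC1_Cg y a) : ‖x - y‖ < 1 :=
  (KumWA.res_eq_iff hx.1 hy.1).1 (hx.2.trans hy.2.symm)

theorem MC1_nn {A B : ℚ_[p]} (hA : MC1_Cg A a) (hB : MC1_Cg B b) (hx : MC1_Cg x ξ)
    (hy : MC1_Cg y υ) : MC1_Cg (nn A B x y) (nn a b ξ υ) :=
  (((hB.mul (hx.pow 2)).add ((hB.mul ((MC1_two.mul hA).sub hB)).mul hx)).add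
    (hA.mul (hy.pow 2))).add ((hA.mul ((MC1_two.mul hB).sub hA)).mul hy)

theorem MC1_dd {A B : ℚ_[p]} (hA : MC1_Cg A a) (hB : MC1_Cg B b) (hx : MC1_Cg x ξ)
    (hy : MC1_Cg y υ) : MC1_Cg (dd A B x y) (dd a b ξ υ) :=
  (((((((MC1_two.mul hA).sub hB).mul hx).mul (hy.pow 2)).add
    ((hA.mul (hA.sub hB)).mul (hy.pow 2))).sub
    ((((MC1_two.mul hB).sub hA).mul (hx.pow 2)).mul hy))).add
    (((hA.sub hB).mul hB).mul (hx.pow 2))

theorem MC1_rt {A B : ℚ_[p]} (hA : MC1_Cg A a) (hB : MC1_Cg B b) (j : J) :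
    MC1_Cg (rt A B j) (rt a b j) := by
  unfold rt
  split_ifs
  · exact hA
  · exact hB
  · exact MC1_zero

theorem MC1_df {A B : ℚ_[p]} (hA : MC1_Cg A a) (hB : MC1_Cg B b) (hx : MC1_Cg x ξ) :
    MC1_Cg (df A B x) (df a b ξ) :=
  (((hx.sub hA).mul (hx.sub hB)).add (hx.mul (hx.sub hB))).add (hx.mul (hx.sub hA))

theorem MC1_XX {A B : ℚ_[p]} (hA : MC1_Cg A a) (hB : MC1_Cg B b) {j : J} (hj : j ≠ 0)
    {s : ℚ_[p]} (hs : ‖s‖ < 1) : MC1_Cg (XX A B j s) (rt a b j) := by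
  have hs' := MC1_small hs
  have hr := MC1_rt hA hB j
  have h1 := hr.add (((MC1_df hA hB hr).mul hs').div (MC1_one.sub (hr.mul hs'))
    (by rw [mul_zero, sub_zero]; exact one_ne_zero))
  rw [mul_zero, zero_div, add_zero] at h1
  rw [XX, if_neg hj]
  exact h1

theorem MC1_gb {A B : ℚ_[p]} (h : GB A B) : ∃ a b : ZMod p, MC1_Cg A a ∧ MC1_Cg B b ∧ a ≠ 0 ∧
    b ≠ 0 ∧ a - b ≠ 0 ∧ a + b ≠ 0 := by
  have hA := MC1_self h.nA.le
  have hB := MC1_self h.nB.le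
  exact ⟨_, _, hA, hB, hA.res_ne h.nA, hB.res_ne h.nB, (hA.sub hB).res_ne h.nAB,
    (hA.add hB).res_ne h.nS⟩

theorem MC1_norm_t {t : ℚ_[p]} (ht : ‖t - 1‖ < 1) : ‖t‖ = 1 := by
  have := KumWA.neq_of_sub_lt (x := t) (y := 1) (by rwa [norm_one])
  rwa [norm_one] at this

end MC1_lib

theorem MC1_big {C r w : ℚ_[p]} (hC : ‖C‖ ≤ 1) (hr : ‖r‖ = 1) (hw : w ≠ 0) (hw1 : ‖w‖ < 1) :
    1 < ‖C + r * (w⁻¹ - C)‖ := by
  have hwp : 0 < ‖w‖ := norm_pos_iff.2 hw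
  have h1 : 1 < ‖r * w⁻¹‖ := by
    rw [norm_mul, hr, one_mul, norm_inv]
    exact (one_lt_inv₀ hwp).2 hw1
  have h2 : ‖C * (1 - r)‖ ≤ 1 :=
    KumWA.norm_mul_le_one hC (KumWA.nsub_le (by rw [norm_one]) hr.le)
  have e : C + r * (w⁻¹ - C) = r * w⁻¹ + C * (1 - r) := by ring
  rw [e, KumWA.nadd_eq (h2.trans_lt h1)]
  exact h1

theorem MC1_mainX (h : GB A B) {j j' : J} (hj : j ≠ 0) (hj' : j' ≠ 0)
    (H : ∀ a b : ZMod p, a ≠ 0 → b ≠ 0 → a - b ≠ 0 →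
      -(2 * b - a) * (rt a b j' - b) + (a - b) * b ≠ 0 ∧
      b + -((a - b) * b) / (-(2 * b - a) * (rt a b j' - b) + (a - b) * b) * (rt a b j' - b) =
        rt a b j) : CL A B 0 j 0 j' := by
  refine ⟨1, norm_one, ?_⟩
  intro w t hw hw1 ht _ _
  obtain ⟨a, b, hA, hB, ha, hb, hab, _⟩ := MC1_gb h
  have ht1 := MC1_norm_t ht
  have hs : ‖w * t ^ 2‖ < 1 := by rw [norm_mul, norm_pow, ht1, one_pow, mul_one]; exact hw1
  have hwc := MC1_small hw1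
  have hy := MC1_XX hA hB hj' hs
  set y := XX A B j' (w * t ^ 2) with hyd
  have hx : XX A B 0 w = w⁻¹ := by rw [XX, if_pos rfl]
  rw [hx]
  obtain ⟨h1, h2⟩ := H a b ha hb hab
  have hu := (MC1_one (p := p)).sub (hA.mul hwc)
  have hyB := hy.sub hB
  have hN := ((hB.mul (hu.pow 2)).add (((hB.mul ((MC1_two.mul hA).sub hB)).mul hu).mul hwc)).add
    ((hwc.pow 2).mul ((hA.mul (hyB.pow 2)).add ((hA.mul ((MC1_two.mul hB).sub hA)).mul hyB)))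
  have hD := (((((((MC1_two.mul hA).sub hB).mul hu).mul hwc).mul (hyB.pow 2)).add
    (((hA.mul (hA.sub hB)).mul (hyB.pow 2)).mul (hwc.pow 2))).sub
    ((((MC1_two.mul hB).sub hA).mul (hu.pow 2)).mul hyB)).add (((hA.sub hB).mul hB).mul (hu.pow 2))
  set N := B * (1 - A * w) ^ 2 + B * (2 * A - B) * (1 - A * w) * w +
    w ^ 2 * (A * (y - B) ^ 2 + A * (2 * B - A) * (y - B)) with hNd
  set D := (2 * A - B) * (1 - A * w) * w * (y - B) ^ 2 + A * (A - B) * (y - B) ^ 2 * w ^ 2 -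
    (2 * B - A) * (1 - A * w) ^ 2 * (y - B) + (A - B) * B * (1 - A * w) ^ 2 with hDd
  have hN' : MC1_Cg N b := by
    convert! hN using 1
    ring
  have hD' : MC1_Cg D (-(2 * b - a) * (rt a b j' - b) + (a - b) * b) := by
    convert! hD using 1
    ring
  have hDne : D ≠ 0 := hD'.ne h1
  have eN : nn A B (w⁻¹ - A) (y - B) = N / w ^ 2 := by
    rw [hNd]; unfold nn; field_simp; ring
  have eD : dd A B (w⁻¹ - A) (y - B) = D / w ^ 2 := by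
    rw [hDd]; unfold dd; field_simp
  have erho : rho A B w⁻¹ y = -((A - B) * N) / D := by
    rw [rho, eN, eD]
    field_simp
  have hrho : MC1_Cg (rho A B w⁻¹ y)
      (-((a - b) * b) / (-(2 * b - a) * (rt a b j' - b) + (a - b) * b)) := by
    rw [erho]
    exact ((hA.sub hB).mul hN').neg.div hD' h1
  constructor
  · rw [near, if_pos rfl, ix]
    exact MC1_big hA.1 (hrho.norm_eq (div_ne_zero (neg_ne_zero.2 (mul_ne_zero hab hb)) h1)) hw hw1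
  · rw [near, if_neg hj, iy]
    have := hB.add (hrho.mul hyB)
    rw [h2] at this
    exact this.close (MC1_rt hA hB j)

theorem MC1_mainY (h : GB A B) {i i' : J} (hi : i ≠ 0) (hi' : i' ≠ 0)
    (H : ∀ a b : ZMod p, a ≠ 0 → b ≠ 0 → a - b ≠ 0 →
      (2 * a - b) * (rt a b i' - a) + a * (a - b) ≠ 0 ∧
      a + -((a - b) * a) / ((2 * a - b) * (rt a b i' - a) + a * (a - b)) * (rt a b i' - a) =
        rt a b i) : CL A B i 0 i' 0 := by
  refine ⟨1, norm_one, ?_⟩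
  intro w t hw hw1 ht _ _
  obtain ⟨a, b, hA, hB, ha, hb, hab, _⟩ := MC1_gb h
  have ht1 := MC1_norm_t ht
  have hs : ‖w * t ^ 2‖ < 1 := by rw [norm_mul, norm_pow, ht1, one_pow, mul_one]; exact hw1
  have ht0 : t ≠ 0 := by
    rintro rfl
    rw [norm_zero] at ht1
    exact zero_ne_one ht1
  have hs0 : w * t ^ 2 ≠ 0 := mul_ne_zero hw (pow_ne_zero 2 ht0)
  have hx := MC1_XX hA hB hi' hw1
  set x := XX A B i' w with hxd
  have hy : XX A B 0 (w * t ^ 2) = (w * t ^ 2)⁻¹ := by rw [XX, if_pos rfl]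
  rw [hy]
  set s := w * t ^ 2 with hsd
  have hsc := MC1_small hs
  obtain ⟨h1, h2⟩ := H a b ha hb hab
  have hu := (MC1_one (p := p)).sub (hB.mul hsc)
  have hxA := hx.sub hA
  have hN := (((hsc.pow 2).mul ((hB.mul (hxA.pow 2)).add
    ((hB.mul ((MC1_two.mul hA).sub hB)).mul hxA))).add (hA.mul (hu.pow 2))).add
    (((hA.mul ((MC1_two.mul hB).sub hA)).mul hu).mul hsc)
  have hD := (((((((MC1_two.mul hA).sub hB).mul hxA).mul (hu.pow 2))).add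
    ((hA.mul (hA.sub hB)).mul (hu.pow 2))).sub
    (((((MC1_two.mul hB).sub hA).mul (hxA.pow 2)).mul hu).mul hsc)).add
    ((((hA.sub hB).mul hB).mul (hxA.pow 2)).mul (hsc.pow 2))
  set N := s ^ 2 * (B * (x - A) ^ 2 + B * (2 * A - B) * (x - A)) + A * (1 - B * s) ^ 2 +
    A * (2 * B - A) * (1 - B * s) * s with hNd
  set D := (2 * A - B) * (x - A) * (1 - B * s) ^ 2 + A * (A - B) * (1 - B * s) ^ 2 -
    (2 * B - A) * (x - A) ^ 2 * (1 - B * s) * s + (A - B) * B * (x - A) ^ 2 * s ^ 2 with hDd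
  have hN' : MC1_Cg N a := by
    convert! hN using 1
    ring
  have hD' : MC1_Cg D ((2 * a - b) * (rt a b i' - a) + a * (a - b)) := by
    convert! hD using 1
    ring
  have hDne : D ≠ 0 := hD'.ne h1
  have eN : nn A B (x - A) (s⁻¹ - B) = N / s ^ 2 := by
    rw [hNd]; unfold nn; field_simp
  have eD : dd A B (x - A) (s⁻¹ - B) = D / s ^ 2 := by
    rw [hDd]; unfold dd; field_simp
  have erho : rho A B x s⁻¹ = -((A - B) * N) / D := by
    rw [rho, eN, eD]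
    field_simp
  have hrho : MC1_Cg (rho A B x s⁻¹)
      (-((a - b) * a) / ((2 * a - b) * (rt a b i' - a) + a * (a - b))) := by
    rw [erho]
    exact ((hA.sub hB).mul hN').neg.div hD' h1
  constructor
  · rw [near, if_neg hi, ix]
    have := hA.add (hrho.mul hxA)
    rw [h2] at this
    exact this.close (MC1_rt hA hB i)
  · rw [near, if_pos rfl, iy]
    exact MC1_big hB.1 (hrho.norm_eq (div_ne_zero (neg_ne_zero.2 (mul_ne_zero hab ha)) h1)) hs0 hs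

theorem cl_iO_iA (h : GB A B) : CL A B 0 (1, 1) 0 (1, 0) := by
  refine MC1_mainX h (by decide) (by decide) ?_
  intro a b ha hb hab
  rw [rt_A, rt_0]
  have e : -(2 * b - a) * (a - b) + (a - b) * b = (a - b) ^ 2 := by ring
  rw [e]
  refine ⟨pow_ne_zero 2 hab, ?_⟩
  field_simp
  ring

theorem cl_iA_iO (h : GB A B) : CL A B 0 (1, 0) 0 (1, 1) := by
  refine MC1_mainX h (by decide) (by decide) ?_
  intro a b ha hb hab
  rw [rt_A, rt_0]
  have e : -(2 * b - a) * (0 - b) + (a - b) * b = b ^ 2 := by ring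
  rw [e]
  refine ⟨pow_ne_zero 2 hb, ?_⟩
  field_simp
  ring

theorem cl_iB_iB (h : GB A B) : CL A B 0 (0, 1) 0 (0, 1) := by
  refine MC1_mainX h (by decide) (by decide) ?_
  intro a b ha hb hab
  rw [rt_B]
  refine ⟨?_, ?_⟩
  · rw [sub_self, mul_zero, zero_add]
    exact mul_ne_zero hab hb
  · rw [sub_self, mul_zero, add_zero]

theorem cl_Ai_Ai (h : GB A B) : CL A B (1, 0) 0 (1, 0) 0 := by
  refine MC1_mainY h (by decide) (by decide) ?_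
  intro a b ha hb hab
  rw [rt_A]
  refine ⟨?_, ?_⟩
  · rw [sub_self, mul_zero, zero_add]
    exact mul_ne_zero ha hab
  · rw [sub_self, mul_zero, add_zero]

theorem cl_Oi_Bi (h : GB A B) : CL A B (1, 1) 0 (0, 1) 0 := by
  refine MC1_mainY h (by decide) (by decide) ?_
  intro a b ha hb hab
  rw [rt_B, rt_0]
  have e : (2 * a - b) * (b - a) + a * (a - b) = -(a - b) ^ 2 := by ring
  rw [e]
  refine ⟨neg_ne_zero.2 (pow_ne_zero 2 hab), ?_⟩
  field_simp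
  ring

theorem cl_Bi_Oi (h : GB A B) : CL A B (0, 1) 0 (1, 1) 0 := by
  refine MC1_mainY h (by decide) (by decide) ?_
  intro a b ha hb hab
  rw [rt_B, rt_0]
  have e : (2 * a - b) * (0 - a) + a * (a - b) = -a ^ 2 := by ring
  rw [e]
  refine ⟨neg_ne_zero.2 (pow_ne_zero 2 ha), ?_⟩
  field_simp
  ring

end Pool.Agent.Helper1.FT
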