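import Pool.Agent.Helper1.FT.Loc

/-!
# FT: module MC2 (links which always exist)
-/

namespace Pool.Agent.Helper1.FT

open Pool.Agent.Helper10.K3 WeierstrassCurve.Affine Classical

variable {p : ℕ} [hp : Fact p.Prime] {A B d : ℚ_[p]}

/-- `x` is integral with residue `a` -/
def MC2_Cg (x : ℚ_[p]) (a : ZMod p) : Prop := ‖x‖ ≤ 1 ∧ KumWA.res x = a

section MC2_lib

variable {x y : ℚ_[p]} {a b ξ υ : ZMod p}

theorem MC2_Cg.add (hx : MC2_Cg x a) (hy : MC2_Cg y b) : MC2_Cg (x + y) (a + b) :=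
  ⟨KumWA.nadd_le hx.1 hy.1, by rw [KumWA.res_add hx.1 hy.1, hx.2, hy.2]⟩

theorem MC2_Cg.sub (hx : MC2_Cg x a) (hy : MC2_Cg y b) : MC2_Cg (x - y) (a - b) :=
  ⟨KumWA.nsub_le hx.1 hy.1, by rw [KumWA.res_sub hx.1 hy.1, hx.2, hy.2]⟩

theorem MC2_Cg.mul (hx : MC2_Cg x a) (hy : MC2_Cg y b) : MC2_Cg (x * y) (a * b) :=
  ⟨KumWA.norm_mul_le_one hx.1 hy.1, by rw [KumWA.res_mul hx.1 hy.1, hx.2, hy.2]⟩

theorem MC2_Cg.neg (hx : MC2_Cg x a) : MC2_Cg (-x) (-a) :=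
  ⟨by rw [norm_neg]; exact hx.1, by rw [KumWA.res_neg hx.1, hx.2]⟩

theorem MC2_Cg.pow (hx : MC2_Cg x a) (n : ℕ) : MC2_Cg (x ^ n) (a ^ n) :=
  ⟨KumWA.norm_pow_le_one hx.1 n, by rw [KumWA.res_pow hx.1 n, hx.2]⟩

theorem MC2_one : MC2_Cg (1 : ℚ_[p]) 1 := ⟨by simp, KumWA.res_one⟩

theorem MC2_zero : MC2_Cg (0 : ℚ_[p]) 0 := ⟨by simp, KumWA.res_zero⟩

theorem MC2_two : MC2_Cg (2 : ℚ_[p]) 2 := by
  have := (MC2_one (p := p)).add MC2_one
  rwa [one_add_one_eq_two, one_add_one_eq_two] at this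

theorem MC2_self (h : ‖x‖ ≤ 1) : MC2_Cg x (KumWA.res x) := ⟨h, rfl⟩

theorem MC2_small (h : ‖x‖ < 1) : MC2_Cg x 0 := ⟨h.le, (KumWA.res_eq_zero h.le).2 h⟩

theorem MC2_Cg.norm_eq (hx : MC2_Cg x a) (ha : a ≠ 0) : ‖x‖ = 1 :=
  (KumWA.res_ne_zero hx.1).1 (by rwa [hx.2])

theorem MC2_Cg.ne (hx : MC2_Cg x a) (ha : a ≠ 0) : x ≠ 0 := by
  rintro rfl
  have := hx.norm_eq ha
  rw [norm_zero] at this
  exact zero_ne_one this

theorem MC2_Cg.res_ne (hx : MC2_Cg x a) (h : ‖x‖ = 1) : a ≠ 0 := by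
  rw [← hx.2]
  exact (KumWA.res_ne_zero hx.1).2 h

theorem MC2_Cg.inv (hx : MC2_Cg x a) (ha : a ≠ 0) : MC2_Cg x⁻¹ a⁻¹ := by
  have h1 := hx.norm_eq ha
  have h2 : ‖x⁻¹‖ ≤ 1 := by rw [norm_inv, h1, inv_one]
  refine ⟨h2, ?_⟩
  have h3 : KumWA.res (x * x⁻¹) = KumWA.res x * KumWA.res x⁻¹ := KumWA.res_mul hx.1 h2
  rw [mul_inv_cancel₀ (hx.ne ha), KumWA.res_one, hx.2] at h3
  exact (inv_eq_of_mul_eq_one_right h3.symm).symm

theorem MC2_Cg.div (hx : MC2_Cg x a) (hy : MC2_Cg y b) (hb : b ≠ 0) :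
    MC2_Cg (x / y) (a / b) := by
  rw [div_eq_mul_inv, div_eq_mul_inv]
  exact hx.mul (hy.inv hb)

theorem MC2_Cg.close (hx : MC2_Cg x a) (hy : MC2_Cg y a) : ‖x - y‖ < 1 :=
  (KumWA.res_eq_iff hx.1 hy.1).1 (hx.2.trans hy.2.symm)

theorem MC2_nn {A B : ℚ_[p]} (hA : MC2_Cg A a) (hB : MC2_Cg B b) (hx : MC2_Cg x ξ)
    (hy : MC2_Cg y υ) : MC2_Cg (nn A B x y) (nn a b ξ υ) :=
  (((hB.mul (hx.pow 2)).add ((hB.mul ((MC2_two.mul hA).sub hB)).mul hx)).add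
    (hA.mul (hy.pow 2))).add ((hA.mul ((MC2_two.mul hB).sub hA)).mul hy)

theorem MC2_dd {A B : ℚ_[p]} (hA : MC2_Cg A a) (hB : MC2_Cg B b) (hx : MC2_Cg x ξ)
    (hy : MC2_Cg y υ) : MC2_Cg (dd A B x y) (dd a b ξ υ) :=
  (((((((MC2_two.mul hA).sub hB).mul hx).mul (hy.pow 2)).add
    ((hA.mul (hA.sub hB)).mul (hy.pow 2))).sub
    ((((MC2_two.mul hB).sub hA).mul (hx.pow 2)).mul hy))).add
    (((hA.sub hB).mul hB).mul (hx.pow 2))

theorem MC2_rt {A B : ℚ_[p]} (hA : MC2_Cg A a) (hB : MC2_Cg B b) (j : J) :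
    MC2_Cg (rt A B j) (rt a b j) := by
  unfold rt
  split_ifs
  · exact hA
  · exact hB
  · exact MC2_zero

theorem MC2_df {A B : ℚ_[p]} (hA : MC2_Cg A a) (hB : MC2_Cg B b) (hx : MC2_Cg x ξ) :
    MC2_Cg (df A B x) (df a b ξ) :=
  (((hx.sub hA).mul (hx.sub hB)).add (hx.mul (hx.sub hB))).add (hx.mul (hx.sub hA))

theorem MC2_XX {A B : ℚ_[p]} (hA : MC2_Cg A a) (hB : MC2_Cg B b) {j : J} (hj : j ≠ 0)
    {s : ℚ_[p]} (hs : ‖s‖ < 1) : MC2_Cg (XX A B j s) (rt a b j) := by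
  have hs' := MC2_small hs
  have hr := MC2_rt hA hB j
  have h1 := hr.add (((MC2_df hA hB hr).mul hs').div (MC2_one.sub (hr.mul hs'))
    (by rw [mul_zero, sub_zero]; exact one_ne_zero))
  rw [mul_zero, zero_div, add_zero] at h1
  rw [XX, if_neg hj]
  exact h1

theorem MC2_gb {A B : ℚ_[p]} (h : GB A B) : ∃ a b : ZMod p, MC2_Cg A a ∧ MC2_Cg B b ∧ a ≠ 0 ∧
    b ≠ 0 ∧ a - b ≠ 0 ∧ a + b ≠ 0 := by
  have hA := MC2_self h.nA.le
  have hB := MC2_self h.nB.le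
  exact ⟨_, _, hA, hB, hA.res_ne h.nA, hB.res_ne h.nB, (hA.sub hB).res_ne h.nAB,
    (hA.add hB).res_ne h.nS⟩

theorem MC2_norm_t {t : ℚ_[p]} (ht : ‖t - 1‖ < 1) : ‖t‖ = 1 := by
  have := KumWA.neq_of_sub_lt (x := t) (y := 1) (by rwa [norm_one])
  rwa [norm_one] at this

end MC2_lib

theorem MC2_main (h : GB A B) {i j i' j' : J} (hi : i ≠ 0) (hj : j ≠ 0) (hi' : i' ≠ 0)
    (hj' : j' ≠ 0) (H : ∀ a b : ZMod p, a ≠ 0 → b ≠ 0 → a - b ≠ 0 →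
      dd a b (rt a b i' - a) (rt a b j' - b) ≠ 0 ∧
      ix a b (rt a b i') (rt a b j') = rt a b i ∧ iy a b (rt a b i') (rt a b j') = rt a b j) :
    CL A B i j i' j' := by
  refine ⟨1, norm_one, ?_⟩
  intro w t hw hw1 ht _ _
  obtain ⟨a, b, hA, hB, ha, hb, hab, _⟩ := MC2_gb h
  have ht1 := MC2_norm_t ht
  have hs : ‖w * t ^ 2‖ < 1 := by rw [norm_mul, norm_pow, ht1, one_pow, mul_one]; exact hw1
  have hx := MC2_XX hA hB hi' hw1
  have hy := MC2_XX hA hB hj' hs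
  obtain ⟨h1, h2, h3⟩ := H a b ha hb hab
  have hrho : MC2_Cg (rho A B (XX A B i' w) (XX A B j' (w * t ^ 2)))
      (rho a b (rt a b i') (rt a b j')) :=
    ((hA.sub hB).mul (MC2_nn hA hB (hx.sub hA) (hy.sub hB))).neg.div
      (MC2_dd hA hB (hx.sub hA) (hy.sub hB)) h1
  have hix : MC2_Cg (ix A B (XX A B i' w) (XX A B j' (w * t ^ 2)))
      (ix a b (rt a b i') (rt a b j')) := hA.add (hrho.mul (hx.sub hA))
  have hiy : MC2_Cg (iy A B (XX A B i' w) (XX A B j' (w * t ^ 2)))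
      (iy a b (rt a b i') (rt a b j')) := hB.add (hrho.mul (hy.sub hB))
  rw [h2] at hix
  rw [h3] at hiy
  constructor
  · rw [near, if_neg hi]
    exact hix.close (MC2_rt hA hB i)
  · rw [near, if_neg hj]
    exact hiy.close (MC2_rt hA hB j)

theorem cl_AO_AA (h : GB A B) : CL A B (1, 0) (1, 1) (1, 0) (1, 0) := by
  refine MC2_main h (by decide) (by decide) (by decide) (by decide) ?_
  intro a b ha hb hab
  have e1 : dd a b (a - a) (a - b) = a * (a - b) ^ 3 := by unfold dd; ring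
  have e2 : nn a b (a - a) (a - b) = a * b * (a - b) := by unfold nn; ring
  have e3 : a * (a - b) ^ 3 ≠ 0 := mul_ne_zero ha (pow_ne_zero 3 hab)
  simp only [rt_A, rt_0]
  refine ⟨by rw [e1]; exact e3, ?_, ?_⟩
  · rw [ix, sub_self, mul_zero, add_zero]
  · rw [iy, rho, e1, e2]
    field_simp
    ring

theorem cl_AA_AO (h : GB A B) : CL A B (1, 0) (1, 0) (1, 0) (1, 1) := by
  refine MC2_main h (by decide) (by decide) (by decide) (by decide) ?_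
  intro a b ha hb hab
  have e1 : dd a b (a - a) (0 - b) = a * (a - b) * b ^ 2 := by unfold dd; ring
  have e2 : nn a b (a - a) (0 - b) = a * b * (a - b) := by unfold nn; ring
  have e3 : a * (a - b) * b ^ 2 ≠ 0 := mul_ne_zero (mul_ne_zero ha hab) (pow_ne_zero 2 hb)
  simp only [rt_A, rt_0]
  refine ⟨by rw [e1]; exact e3, ?_, ?_⟩
  · rw [ix, sub_self, mul_zero, add_zero]
  · rw [iy, rho, e1, e2]
    field_simp
    ring

theorem cl_OB_BB (h : GB A B) : CL A B (1, 1) (0, 1) (0, 1) (0, 1) := by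
  refine MC2_main h (by decide) (by decide) (by decide) (by decide) ?_
  intro a b ha hb hab
  have e1 : dd a b (b - a) (b - b) = b * (a - b) ^ 3 := by unfold dd; ring
  have e2 : nn a b (b - a) (b - b) = -(a * b * (a - b)) := by unfold nn; ring
  have e3 : b * (a - b) ^ 3 ≠ 0 := mul_ne_zero hb (pow_ne_zero 3 hab)
  simp only [rt_B, rt_0]
  refine ⟨by rw [e1]; exact e3, ?_, ?_⟩
  · rw [ix, rho, e1, e2]
    field_simp
    ring
  · rw [iy, sub_self, mul_zero, add_zero]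

theorem cl_BB_OB (h : GB A B) : CL A B (0, 1) (0, 1) (1, 1) (0, 1) := by
  refine MC2_main h (by decide) (by decide) (by decide) (by decide) ?_
  intro a b ha hb hab
  have e1 : dd a b (0 - a) (b - b) = (a - b) * b * a ^ 2 := by unfold dd; ring
  have e2 : nn a b (0 - a) (b - b) = -(a * b * (a - b)) := by unfold nn; ring
  have e3 : (a - b) * b * a ^ 2 ≠ 0 := mul_ne_zero (mul_ne_zero hab hb) (pow_ne_zero 2 ha)
  simp only [rt_B, rt_0]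
  refine ⟨by rw [e1]; exact e3, ?_, ?_⟩
  · rw [ix, rho, e1, e2]
    field_simp
    ring
  · rw [iy, sub_self, mul_zero, add_zero]

end Pool.Agent.Helper1.FT
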