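import Pool.Agent.Helper1.FT.Loc

/-!
# FT: module MC3 (links at the nodes (O, O) and (B, A))
-/

namespace Pool.Agent.Helper1.FT

open Pool.Agent.Helper10.K3 WeierstrassCurve.Affine Classical

variable {p : ℕ} [hp : Fact p.Prime] {A B d : ℚ_[p]}

/-! #### residues -/

private theorem MC3_lt {x : ℤ_[p]} (h : PadicInt.toZMod x = 0) : ‖(x : ℚ_[p])‖ < 1 :=
  (KumWA.toZMod_eq_zero_iff x).1 h

private theorem MC3_eq {x : ℤ_[p]} (h : PadicInt.toZMod x ≠ 0) : ‖(x : ℚ_[p])‖ = 1 := by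
  have h1 : ‖(x : ℚ_[p])‖ ≤ 1 := PadicInt.norm_le_one x
  have h2 : ¬ ‖(x : ℚ_[p])‖ < 1 := fun h2 => h ((KumWA.toZMod_eq_zero_iff x).2 h2)
  exact le_antisymm h1 (not_lt.1 h2)

private theorem MC3_ne {x : ℤ_[p]} (h : ‖(x : ℚ_[p])‖ = 1) : PadicInt.toZMod x ≠ 0 := by
  intro h1
  have := MC3_lt h1
  rw [h] at this
  exact lt_irrefl _ this

private theorem MC3_intro {α β : ℤ_[p]} {i j i' j' : J} (τ₀ : ℤ_[p]) (h0 : ‖τ₀‖ = 1)
    (H : ∀ ω τ : ℤ_[p], (ω : ℚ_[p]) ≠ 0 → PadicInt.toZMod ω = 0 →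
      PadicInt.toZMod τ = PadicInt.toZMod τ₀ →
      nn (α : ℚ_[p]) β (XX (α : ℚ_[p]) β i' ω - α) (XX (α : ℚ_[p]) β j' (ω * τ ^ 2) - β) ≠ 0 →
      dd (α : ℚ_[p]) β (XX (α : ℚ_[p]) β i' ω - α) (XX (α : ℚ_[p]) β j' (ω * τ ^ 2) - β) ≠ 0 →
      near (α : ℚ_[p]) β i (ix (α : ℚ_[p]) β (XX α β i' ω) (XX α β j' (ω * τ ^ 2))) ∧
      near (α : ℚ_[p]) β j (iy (α : ℚ_[p]) β (XX α β i' ω) (XX α β j' (ω * τ ^ 2)))) :
    CL (α : ℚ_[p]) β i j i' j' := by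
  refine ⟨τ₀, h0, fun w t hw0 hw ht h1 h2 => ?_⟩
  obtain ⟨ω, rfl⟩ := exists_coe_of_norm_le hw.le
  have ht1 : ‖t‖ ≤ 1 := by
    have : t = (t - τ₀) + τ₀ := by ring
    rw [this]
    exact KumWA.nadd_le ht.le (PadicInt.norm_le_one τ₀)
  obtain ⟨τ, rfl⟩ := exists_coe_of_norm_le ht1
  refine H ω τ hw0 ((KumWA.toZMod_eq_zero_iff ω).2 hw) ?_ h1 h2
  have h3 : PadicInt.toZMod (τ - τ₀) = 0 := by
    rw [KumWA.toZMod_eq_zero_iff]
    have h4 : ‖(((τ - τ₀ : ℤ_[p])) : ℚ_[p])‖ < 1 := by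
      rw [PadicInt.coe_sub]
      exact ht
    exact h4
  rw [map_sub, sub_eq_zero] at h3
  exact h3

private theorem MC3_big {x r a : ℚ_[p]} (hx : ‖x‖ ≤ 1) (hr : 1 < ‖r‖) (ha : ‖a‖ = 1) :
    1 < ‖x + r * a‖ := by
  have h1 : ‖r * a‖ = ‖r‖ := by rw [norm_mul, ha, mul_one]
  have h2 : ‖x‖ < ‖r * a‖ := by rw [h1]; exact hx.trans_lt hr
  rw [add_comm, KumWA.nadd_eq h2, h1]
  exact hr

private theorem MC3_small {x r a : ℚ_[p]} (hr : ‖r‖ < 1) (ha : ‖a‖ = 1) :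
    ‖x + r * a - x‖ < 1 := by
  have : x + r * a - x = r * a := by ring
  rw [this, norm_mul, ha, mul_one]
  exact hr

private theorem MC3_near0 {x : ℚ_[p]} : near A B 0 x ↔ 1 < ‖x‖ := by
  unfold near
  rw [if_pos rfl]

private theorem MC3_nearA {x : ℚ_[p]} : near A B (1, 0) x ↔ ‖x - A‖ < 1 := by
  unfold near rt
  rw [if_neg (by decide), if_pos rfl]

private theorem MC3_nearB {x : ℚ_[p]} : near A B (0, 1) x ↔ ‖x - B‖ < 1 := by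
  unfold near rt
  rw [if_neg (by decide), if_neg (by decide), if_pos rfl]

/-! #### the polynomials -/

private def MC3_N {K : Type*} [CommRing K] (A B w t : K) : K :=
  -(B ^ 2 + A ^ 2 * t ^ 2) + A * B * w * (B + A * t ^ 4)

private def MC3_D {K : Type*} [CommRing K] (A B w t : K) : K :=
  A ^ 3 * t ^ 2 - B ^ 3 + w * (2 * A * B * (B ^ 2 - A ^ 2) * t ^ 2 - A ^ 3 * B * t ^ 4 + A * B ^ 3 +
    w * (A ^ 2 * B ^ 2 * ((2 * A - B) * t ^ 4 - (2 * B - A) * t ^ 2)))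

private theorem MC3_XO (w : ℚ_[p]) : XX A B (1, 1) w = A * B * w := by
  unfold XX rt df
  rw [if_neg (by decide), if_neg (by decide), if_neg (by decide)]
  ring

private theorem MC3_XA (w : ℚ_[p]) : XX A B (1, 0) w = A + A * (A - B) * w / (1 - A * w) := by
  unfold XX rt df
  rw [if_neg (by decide), if_pos rfl]
  ring

private theorem MC3_XB (w : ℚ_[p]) : XX A B (0, 1) w = B + B * (B - A) * w / (1 - B * w) := by
  unfold XX rt df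
  rw [if_neg (by decide), if_neg (by decide), if_pos rfl]
  ring

private theorem MC3_nnO (w t : ℚ_[p]) :
    nn A B (A * B * w - A) (A * B * (w * t ^ 2) - B) = A * B * w * MC3_N A B w t := by
  unfold nn MC3_N
  ring

private theorem MC3_ddO (w t : ℚ_[p]) :
    dd A B (A * B * w - A) (A * B * (w * t ^ 2) - B) = A * B * w * MC3_D A B w t := by
  unfold dd MC3_D
  ring

private theorem MC3_rhoO (hA : A ≠ 0) (hB : B ≠ 0) {w : ℚ_[p]} (hw : w ≠ 0) (t : ℚ_[p]) :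
    rho A B (A * B * w) (A * B * (w * t ^ 2)) =
      -((A - B) * MC3_N A B w t) / MC3_D A B w t := by
  unfold rho
  rw [MC3_nnO, MC3_ddO]
  have h : A * B * w ≠ 0 := mul_ne_zero (mul_ne_zero hA hB) hw
  rw [show -((A - B) * (A * B * w * MC3_N A B w t)) =
    A * B * w * (-((A - B) * MC3_N A B w t)) by ring, mul_div_mul_left _ _ h]

private theorem MC3_nnB {w t : ℚ_[p]} (h1 : 1 - B * w ≠ 0) (h2 : 1 - A * (w * t ^ 2) ≠ 0) :
    nn A B (B + B * (B - A) * w / (1 - B * w) - A)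
      (A + A * (A - B) * (w * t ^ 2) / (1 - A * (w * t ^ 2)) - B) =
      (A - B) / ((1 - B * w) ^ 2 * (1 - A * (w * t ^ 2)) ^ 2) * (w * MC3_D A B w t) := by
  unfold nn MC3_D
  have h3 : 1 - A * w * t ^ 2 ≠ 0 := by rwa [mul_assoc]
  field_simp
  ring

private theorem MC3_ddB {w t : ℚ_[p]} (h1 : 1 - B * w ≠ 0) (h2 : 1 - A * (w * t ^ 2) ≠ 0) :
    dd A B (B + B * (B - A) * w / (1 - B * w) - A)
      (A + A * (A - B) * (w * t ^ 2) / (1 - A * (w * t ^ 2)) - B) =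
      (A - B) / ((1 - B * w) ^ 2 * (1 - A * (w * t ^ 2)) ^ 2) * ((A - B) ^ 2 * (w * MC3_N A B w t)) := by
  unfold dd MC3_N
  have h3 : 1 - A * w * t ^ 2 ≠ 0 := by rwa [mul_assoc]
  field_simp
  ring

private theorem MC3_rhoB (hAB : A - B ≠ 0) {w t : ℚ_[p]} (hw : w ≠ 0) (h1 : 1 - B * w ≠ 0)
    (h2 : 1 - A * (w * t ^ 2) ≠ 0) :
    rho A B (B + B * (B - A) * w / (1 - B * w))
      (A + A * (A - B) * (w * t ^ 2) / (1 - A * (w * t ^ 2))) =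
      -MC3_D A B w t / ((A - B) * MC3_N A B w t) := by
  unfold rho
  rw [MC3_nnB h1 h2, MC3_ddB h1 h2]
  have h3 : (A - B) / ((1 - B * w) ^ 2 * (1 - A * (w * t ^ 2)) ^ 2) ≠ 0 :=
    div_ne_zero hAB (mul_ne_zero (pow_ne_zero _ h1) (pow_ne_zero _ h2))
  set c := (A - B) / ((1 - B * w) ^ 2 * (1 - A * (w * t ^ 2)) ^ 2)
  rw [show -((A - B) * (c * (w * MC3_D A B w t))) =
    c * (w * ((A - B) * (-MC3_D A B w t))) by ring,
    show c * ((A - B) ^ 2 * (w * MC3_N A B w t)) =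
      c * (w * ((A - B) * ((A - B) * MC3_N A B w t))) by ring,
    mul_div_mul_left _ _ h3, mul_div_mul_left _ _ hw, mul_div_mul_left _ _ hAB]

private theorem MC3_castN (α β ω τ : ℤ_[p]) :
    MC3_N (α : ℚ_[p]) β ω τ = ((MC3_N α β ω τ : ℤ_[p]) : ℚ_[p]) := by
  unfold MC3_N
  push_cast
  ring

private theorem MC3_castD (α β ω τ : ℤ_[p]) :
    MC3_D (α : ℚ_[p]) β ω τ = ((MC3_D α β ω τ : ℤ_[p]) : ℚ_[p]) := by
  unfold MC3_D
  have h2 : ((2 : ℤ_[p]) : ℚ_[p]) = 2 := rfl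
  push_cast
  rw [h2]

private theorem MC3_resN (α β ω τ : ℤ_[p]) (hω : PadicInt.toZMod ω = 0) :
    PadicInt.toZMod (MC3_N α β ω τ) =
      -(PadicInt.toZMod β ^ 2 + PadicInt.toZMod α ^ 2 * PadicInt.toZMod τ ^ 2) := by
  unfold MC3_N
  simp [hω]

private theorem MC3_resD (α β ω τ : ℤ_[p]) (hω : PadicInt.toZMod ω = 0) :
    PadicInt.toZMod (MC3_D α β ω τ) =
      PadicInt.toZMod α ^ 3 * PadicInt.toZMod τ ^ 2 - PadicInt.toZMod β ^ 3 := by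
  unfold MC3_D
  simp [hω]

/-- lifts of the units and the conditions modulo `p` -/
private theorem MC3_lift (h : GB A B) : ∃ α β : ℤ_[p], (α : ℚ_[p]) = A ∧ (β : ℚ_[p]) = B ∧
    PadicInt.toZMod α ≠ 0 ∧ PadicInt.toZMod β ≠ 0 ∧
    PadicInt.toZMod α - PadicInt.toZMod β ≠ 0 ∧ PadicInt.toZMod α + PadicInt.toZMod β ≠ 0 := by
  obtain ⟨α, rfl⟩ := exists_coe_of_norm_le h.nA.le
  obtain ⟨β, rfl⟩ := exists_coe_of_norm_le h.nB.le
  refine ⟨α, β, rfl, rfl, MC3_ne h.nA, MC3_ne h.nB, ?_, ?_⟩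
  · rw [← map_sub]
    apply MC3_ne
    rw [PadicInt.coe_sub]
    exact h.nAB
  · rw [← map_add]
    apply MC3_ne
    rw [PadicInt.coe_add]
    exact h.nS

/-- square root of `-1` -/
private theorem MC3_t1 {α β : ℤ_[p]} (ha : PadicInt.toZMod α ≠ 0) (hb : PadicInt.toZMod β ≠ 0)
    (hs : IsSquare (-1 : ℚ_[p])) :
    ∃ τ₀ : ℤ_[p], ‖τ₀‖ = 1 ∧
      PadicInt.toZMod α ^ 2 * PadicInt.toZMod τ₀ ^ 2 = -PadicInt.toZMod β ^ 2 := by
  obtain ⟨s, hs⟩ := hs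
  have hα : (α : ℚ_[p]) ≠ 0 := by
    intro h0
    have := MC3_eq ha
    rw [h0, norm_zero] at this
    exact zero_ne_one this
  have h1 : ‖s‖ = 1 := by
    have h2 : ‖s‖ * ‖s‖ = 1 := by rw [← norm_mul, ← hs, norm_neg, norm_one]
    nlinarith [norm_nonneg s]
  have h2 : ‖s * β / α‖ = 1 := by
    rw [norm_div, norm_mul, h1, MC3_eq ha, MC3_eq hb]
    norm_num
  obtain ⟨τ, hτ⟩ := exists_coe_of_norm_le h2.le
  have h3 : α ^ 2 * τ ^ 2 = -β ^ 2 := by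
    apply PadicInt.ext
    push_cast
    rw [hτ]
    field_simp
    linear_combination (-β ^ 2 : ℚ_[p]) * hs
  refine ⟨τ, ?_, ?_⟩
  · have : ‖(τ : ℚ_[p])‖ = 1 := by rw [hτ]; exact h2
    exact this
  · have := congrArg PadicInt.toZMod h3
    simpa using this

/-- square root of `A B` -/
private theorem MC3_t2 {α β : ℤ_[p]} (ha : PadicInt.toZMod α ≠ 0) (hb : PadicInt.toZMod β ≠ 0)
    (hs : IsSquare ((α : ℚ_[p]) * β)) :
    ∃ τ₀ : ℤ_[p], ‖τ₀‖ = 1 ∧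
      PadicInt.toZMod α ^ 3 * PadicInt.toZMod τ₀ ^ 2 = PadicInt.toZMod β ^ 3 := by
  obtain ⟨s, hs⟩ := hs
  have hα : (α : ℚ_[p]) ≠ 0 := by
    intro h0
    have := MC3_eq ha
    rw [h0, norm_zero] at this
    exact zero_ne_one this
  have h1 : ‖s‖ = 1 := by
    have h2 : ‖s‖ * ‖s‖ = 1 := by rw [← norm_mul, ← hs, norm_mul, MC3_eq ha, MC3_eq hb, one_mul]
    nlinarith [norm_nonneg s]
  have h2 : ‖(s / α) ^ 3‖ = 1 := by
    rw [norm_pow, norm_div, h1, MC3_eq ha]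
    norm_num
  obtain ⟨τ, hτ⟩ := exists_coe_of_norm_le h2.le
  have h3 : α ^ 3 * τ ^ 2 = β ^ 3 := by
    apply PadicInt.ext
    push_cast
    rw [hτ]
    have h4 : (α : ℚ_[p]) ^ 3 * ((s / α) ^ 3) ^ 2 = (s * s) ^ 3 / α ^ 3 := by
      field_simp
    rw [h4, ← hs]
    field_simp
  refine ⟨τ, ?_, ?_⟩
  · have : ‖(τ : ℚ_[p])‖ = 1 := by rw [hτ]; exact h2
    exact this
  · have := congrArg PadicInt.toZMod h3
    simpa using this

private theorem MC3_one {x : ℤ_[p]} (ω : ℤ_[p]) (hω : PadicInt.toZMod ω = 0) :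
    ‖(1 : ℚ_[p]) - x * ω‖ = 1 := by
  have h : (1 : ℚ_[p]) - x * ω = ((1 - x * ω : ℤ_[p]) : ℚ_[p]) := by push_cast; ring
  rw [h]
  apply MC3_eq
  simp [hω]

theorem cl_ii_OO (h : GB A B) (hs : IsSquare (A * B)) : CL A B 0 0 (1, 1) (1, 1) := by
  have hA := h.ok.hA
  have hB := h.ok.hB
  obtain ⟨α, β, rfl, rfl, ha, hb, hab, hab'⟩ := MC3_lift h
  obtain ⟨τ₀, h0, hτ0⟩ := MC3_t2 ha hb hs
  refine MC3_intro τ₀ h0 fun ω τ hω0 hω hτ h1 h2 => ?_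
  rw [← hτ] at hτ0
  rw [MC3_XO, MC3_XO] at h1 h2 ⊢
  have hD0 : MC3_D (α : ℚ_[p]) β ω τ ≠ 0 := by
    intro h3
    rw [MC3_ddO, h3, mul_zero] at h2
    exact h2 rfl
  have hN : ‖MC3_N (α : ℚ_[p]) β ω τ‖ = 1 := by
    rw [MC3_castN]
    apply MC3_eq
    rw [MC3_resN _ _ _ _ hω]
    intro h3
    have h4 : PadicInt.toZMod β ^ 2 * (PadicInt.toZMod α + PadicInt.toZMod β) = 0 := by
      linear_combination (-PadicInt.toZMod α) * h3 - hτ0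
    rcases mul_eq_zero.1 h4 with h5 | h5
    · exact pow_ne_zero 2 hb h5
    · exact hab' h5
  have hD : ‖MC3_D (α : ℚ_[p]) β ω τ‖ < 1 := by
    rw [MC3_castD]
    apply MC3_lt
    rw [MC3_resD _ _ _ _ hω, hτ0, sub_self]
  have hr : 1 < ‖rho (α : ℚ_[p]) β (α * β * ω) (α * β * (ω * τ ^ 2))‖ := by
    rw [MC3_rhoO hA hB hω0, norm_div, norm_neg, norm_mul, h.nAB, hN, mul_one,
      one_lt_div (norm_pos_iff.2 hD0)]
    exact hD
  have hx : ‖(α : ℚ_[p]) * β * ω - α‖ = 1 := by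
    rw [show (α : ℚ_[p]) * β * ω - α = -(α * (1 - β * ω)) by ring, norm_neg, norm_mul, h.nA,
      MC3_one ω hω, one_mul]
  have hy : ‖(α : ℚ_[p]) * β * (ω * τ ^ 2) - β‖ = 1 := by
    have h3 := MC3_one (x := α) (ω * τ ^ 2) (by rw [map_mul, hω, zero_mul])
    push_cast at h3
    rw [show (α : ℚ_[p]) * β * (ω * τ ^ 2) - β = -(β * (1 - α * (ω * τ ^ 2))) by ring, norm_neg,
      norm_mul, h.nB, h3, one_mul]
  rw [MC3_near0, MC3_near0]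
  exact ⟨MC3_big h.nA.le hr hx, MC3_big h.nB.le hr hy⟩

theorem cl_AB_OO (h : GB A B) (hs : IsSquare (-1 : ℚ_[p])) :
    CL A B (1, 0) (0, 1) (1, 1) (1, 1) := by
  have hA := h.ok.hA
  have hB := h.ok.hB
  obtain ⟨α, β, rfl, rfl, ha, hb, hab, hab'⟩ := MC3_lift h
  obtain ⟨τ₀, h0, hτ0⟩ := MC3_t1 ha hb hs
  refine MC3_intro τ₀ h0 fun ω τ hω0 hω hτ h1 h2 => ?_
  rw [← hτ] at hτ0
  rw [MC3_XO, MC3_XO] at h1 h2 ⊢
  have hN : ‖MC3_N (α : ℚ_[p]) β ω τ‖ < 1 := by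
    rw [MC3_castN]
    apply MC3_lt
    rw [MC3_resN _ _ _ _ hω, hτ0]
    ring
  have hD : ‖MC3_D (α : ℚ_[p]) β ω τ‖ = 1 := by
    rw [MC3_castD]
    apply MC3_eq
    rw [MC3_resD _ _ _ _ hω]
    intro h3
    have h4 : PadicInt.toZMod β ^ 2 * (PadicInt.toZMod α + PadicInt.toZMod β) = 0 := by
      linear_combination -h3 + (PadicInt.toZMod α) * hτ0
    rcases mul_eq_zero.1 h4 with h5 | h5
    · exact pow_ne_zero 2 hb h5
    · exact hab' h5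
  have hr : ‖rho (α : ℚ_[p]) β (α * β * ω) (α * β * (ω * τ ^ 2))‖ < 1 := by
    rw [MC3_rhoO hA hB hω0, norm_div, norm_neg, norm_mul, h.nAB, hD, one_mul, div_one]
    exact hN
  have hx : ‖(α : ℚ_[p]) * β * ω - α‖ = 1 := by
    rw [show (α : ℚ_[p]) * β * ω - α = -(α * (1 - β * ω)) by ring, norm_neg, norm_mul, h.nA,
      MC3_one ω hω, one_mul]
  have hy : ‖(α : ℚ_[p]) * β * (ω * τ ^ 2) - β‖ = 1 := by
    have h3 := MC3_one (x := α) (ω * τ ^ 2) (by rw [map_mul, hω, zero_mul])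
    push_cast at h3
    rw [show (α : ℚ_[p]) * β * (ω * τ ^ 2) - β = -(β * (1 - α * (ω * τ ^ 2))) by ring, norm_neg,
      norm_mul, h.nB, h3, one_mul]
  rw [MC3_nearA, MC3_nearB]
  exact ⟨MC3_small hr hx, MC3_small hr hy⟩

/-- the parts common to the two cases at the node `(B, A)` -/
private theorem MC3_partB {α β : ℤ_[p]} (h : GB (α : ℚ_[p]) β) {ω τ : ℤ_[p]}
    (hω : PadicInt.toZMod ω = 0) :
    (1 - (β : ℚ_[p]) * ω ≠ 0 ∧ 1 - (α : ℚ_[p]) * (ω * τ ^ 2) ≠ 0) ∧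
    ‖(β : ℚ_[p]) + β * (β - α) * ω / (1 - β * ω) - α‖ = 1 ∧
    ‖(α : ℚ_[p]) + α * (α - β) * (ω * τ ^ 2) / (1 - α * (ω * τ ^ 2)) - β‖ = 1 := by
  have h3 := MC3_one (x := β) ω hω
  have h4 := MC3_one (x := α) (ω * τ ^ 2) (by rw [map_mul, hω, zero_mul])
  push_cast at h4
  have h5 : 1 - (β : ℚ_[p]) * ω ≠ 0 := by
    intro h0
    rw [h0, norm_zero] at h3
    exact zero_ne_one h3
  have h6 : 1 - (α : ℚ_[p]) * (ω * τ ^ 2) ≠ 0 := by
    intro h0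
    rw [h0, norm_zero] at h4
    exact zero_ne_one h4
  refine ⟨⟨h5, h6⟩, ?_, ?_⟩
  · have : (β : ℚ_[p]) + β * (β - α) * ω / (1 - β * ω) - α = -((α - β) / (1 - β * ω)) := by
      field_simp
      ring
    rw [this, norm_neg, norm_div, h.nAB, h3, div_one]
  · have : (α : ℚ_[p]) + α * (α - β) * (ω * τ ^ 2) / (1 - α * (ω * τ ^ 2)) - β =
        (α - β) / (1 - α * (ω * τ ^ 2)) := by
      have h7 : 1 - (α : ℚ_[p]) * ω * τ ^ 2 ≠ 0 := by rwa [mul_assoc]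
      field_simp
      ring
    rw [this, norm_div, h.nAB, h4, div_one]

theorem cl_ii_BA (h : GB A B) (hs : IsSquare (-1 : ℚ_[p])) : CL A B 0 0 (0, 1) (1, 0) := by
  have hAB := h.ok.sub_ne
  obtain ⟨α, β, rfl, rfl, ha, hb, hab, hab'⟩ := MC3_lift h
  obtain ⟨τ₀, h0, hτ0⟩ := MC3_t1 ha hb hs
  refine MC3_intro τ₀ h0 fun ω τ hω0 hω hτ h1 h2 => ?_
  rw [← hτ] at hτ0
  rw [MC3_XB, MC3_XA] at h1 h2 ⊢
  obtain ⟨⟨e1, e2⟩, hx, hy⟩ := MC3_partB (τ := τ) h hω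
  have hN0 : MC3_N (α : ℚ_[p]) β ω τ ≠ 0 := by
    intro h3
    rw [MC3_ddB e1 e2, h3] at h2
    simp at h2
  have hN : ‖MC3_N (α : ℚ_[p]) β ω τ‖ < 1 := by
    rw [MC3_castN]
    apply MC3_lt
    rw [MC3_resN _ _ _ _ hω, hτ0]
    ring
  have hD : ‖MC3_D (α : ℚ_[p]) β ω τ‖ = 1 := by
    rw [MC3_castD]
    apply MC3_eq
    rw [MC3_resD _ _ _ _ hω]
    intro h3
    have h4 : PadicInt.toZMod β ^ 2 * (PadicInt.toZMod α + PadicInt.toZMod β) = 0 := by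
      linear_combination -h3 + (PadicInt.toZMod α) * hτ0
    rcases mul_eq_zero.1 h4 with h5 | h5
    · exact pow_ne_zero 2 hb h5
    · exact hab' h5
  have hr := MC3_rhoB hAB hω0 e1 e2
  have hr' : 1 < ‖rho (α : ℚ_[p]) β (β + β * (β - α) * ω / (1 - β * ω))
      (α + α * (α - β) * (ω * τ ^ 2) / (1 - α * (ω * τ ^ 2)))‖ := by
    rw [hr, norm_div, norm_neg, norm_mul, h.nAB, hD, one_mul, one_lt_div (norm_pos_iff.2 hN0)]
    exact hN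
  rw [MC3_near0, MC3_near0]
  exact ⟨MC3_big h.nA.le hr' hx, MC3_big h.nB.le hr' hy⟩

theorem cl_AB_BA (h : GB A B) (hs : IsSquare (A * B)) :
    CL A B (1, 0) (0, 1) (0, 1) (1, 0) := by
  have hAB := h.ok.sub_ne
  obtain ⟨α, β, rfl, rfl, ha, hb, hab, hab'⟩ := MC3_lift h
  obtain ⟨τ₀, h0, hτ0⟩ := MC3_t2 ha hb hs
  refine MC3_intro τ₀ h0 fun ω τ hω0 hω hτ h1 h2 => ?_
  rw [← hτ] at hτ0
  rw [MC3_XB, MC3_XA] at h1 h2 ⊢
  obtain ⟨⟨e1, e2⟩, hx, hy⟩ := MC3_partB (τ := τ) h hω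
  have hN : ‖MC3_N (α : ℚ_[p]) β ω τ‖ = 1 := by
    rw [MC3_castN]
    apply MC3_eq
    rw [MC3_resN _ _ _ _ hω]
    intro h3
    have h4 : PadicInt.toZMod β ^ 2 * (PadicInt.toZMod α + PadicInt.toZMod β) = 0 := by
      linear_combination (-PadicInt.toZMod α) * h3 - hτ0
    rcases mul_eq_zero.1 h4 with h5 | h5
    · exact pow_ne_zero 2 hb h5
    · exact hab' h5
  have hD : ‖MC3_D (α : ℚ_[p]) β ω τ‖ < 1 := by
    rw [MC3_castD]
    apply MC3_lt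
    rw [MC3_resD _ _ _ _ hω, hτ0, sub_self]
  have hr := MC3_rhoB hAB hω0 e1 e2
  have hr' : ‖rho (α : ℚ_[p]) β (β + β * (β - α) * ω / (1 - β * ω))
      (α + α * (α - β) * (ω * τ ^ 2) / (1 - α * (ω * τ ^ 2)))‖ < 1 := by
    rw [hr, norm_div, norm_neg, norm_mul, h.nAB, hN, one_mul, div_one]
    exact hD
  rw [MC3_nearA, MC3_nearB]
  exact ⟨MC3_small hr' hx, MC3_small hr' hy⟩

end Pool.Agent.Helper1.FT
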