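import Pool.Agent.Helper1.FT.Loc

/-!
# FT: module MC4 (links at the nodes (∞, ∞) and (A, B))
-/

namespace Pool.Agent.Helper1.FT

open Pool.Agent.Helper10.K3 WeierstrassCurve.Affine Classical

variable {p : ℕ} [hp : Fact p.Prime] {A B d : ℚ_[p]}

/-! #### residues -/

private theorem MC4_lt {x : ℤ_[p]} (h : PadicInt.toZMod x = 0) : ‖(x : ℚ_[p])‖ < 1 :=
  (KumWA.toZMod_eq_zero_iff x).1 h

private theorem MC4_eq {x : ℤ_[p]} (h : PadicInt.toZMod x ≠ 0) : ‖(x : ℚ_[p])‖ = 1 := by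
  have h1 : ‖(x : ℚ_[p])‖ ≤ 1 := PadicInt.norm_le_one x
  have h2 : ¬ ‖(x : ℚ_[p])‖ < 1 := fun h2 => h ((KumWA.toZMod_eq_zero_iff x).2 h2)
  exact le_antisymm h1 (not_lt.1 h2)

private theorem MC4_ne {x : ℤ_[p]} (h : ‖(x : ℚ_[p])‖ = 1) : PadicInt.toZMod x ≠ 0 := by
  intro h1
  have := MC4_lt h1
  rw [h] at this
  exact lt_irrefl _ this

private theorem MC4_intro {α β : ℤ_[p]} {i j i' j' : J} (τ₀ : ℤ_[p]) (h0 : ‖τ₀‖ = 1)
    (H : ∀ ω τ : ℤ_[p], (ω : ℚ_[p]) ≠ 0 → PadicInt.toZMod ω = 0 →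
      PadicInt.toZMod τ = PadicInt.toZMod τ₀ →
      nn (α : ℚ_[p]) β (XX (α : ℚ_[p]) β i' ω - α) (XX (α : ℚ_[p]) β j' (ω * τ ^ 2) - β) ≠ 0 →
      dd (α : ℚ_[p]) β (XX (α : ℚ_[p]) β i' ω - α) (XX (α : ℚ_[p]) β j' (ω * τ ^ 2) - β) ≠ 0 →
      near (α : ℚ_[p]) β i (ix (α : ℚ_[p]) β (XX α β i' ω) (XX α β j' (ω * τ ^ 2))) ∧
      near (α : ℚ_[p]) β j (iy (α : ℚ_[p]) β (XX α β i' ω) (XX α β j' (ω * τ ^ 2)))) :
    CL (α : ℚ_[p]) β i j i' j' := by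
  refine ⟨τ₀, h0, fun w t hw0 hw ht h1 h2 => ?_⟩
  obtain ⟨ω, rfl⟩ := exists_coe_of_norm_le hw.le
  have ht1 : ‖t‖ ≤ 1 := by
    have : t = (t - τ₀) + τ₀ := by ring
    rw [this]
    exact KumWA.nadd_le ht.le (PadicInt.norm_le_one τ₀)
  obtain ⟨τ, rfl⟩ := exists_coe_of_norm_le ht1
  refine H ω τ hw0 ((KumWA.toZMod_eq_zero_iff ω).2 hw) ?_ h1 h2
  have h3 : PadicInt.toZMod (τ - τ₀) = 0 := by
    rw [KumWA.toZMod_eq_zero_iff]
    have h4 : ‖(((τ - τ₀ : ℤ_[p])) : ℚ_[p])‖ < 1 := by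
      rw [PadicInt.coe_sub]
      exact ht
    exact h4
  rw [map_sub, sub_eq_zero] at h3
  exact h3

private theorem MC4_big {x r a : ℚ_[p]} (hx : ‖x‖ ≤ 1) (hr : 1 < ‖r‖) (ha : ‖a‖ = 1) :
    1 < ‖x + r * a‖ := by
  have h1 : ‖r * a‖ = ‖r‖ := by rw [norm_mul, ha, mul_one]
  have h2 : ‖x‖ < ‖r * a‖ := by rw [h1]; exact hx.trans_lt hr
  rw [add_comm, KumWA.nadd_eq h2, h1]
  exact hr

private theorem MC4_small {x r a : ℚ_[p]} (hr : ‖r‖ < 1) (ha : ‖a‖ = 1) :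
    ‖x + r * a - x‖ < 1 := by
  have : x + r * a - x = r * a := by ring
  rw [this, norm_mul, ha, mul_one]
  exact hr

private theorem MC4_near0 {x : ℚ_[p]} : near A B 0 x ↔ 1 < ‖x‖ := by
  unfold near
  rw [if_pos rfl]

private theorem MC4_nearA {x : ℚ_[p]} : near A B (1, 0) x ↔ ‖x - A‖ < 1 := by
  unfold near rt
  rw [if_neg (by decide), if_pos rfl]

private theorem MC4_nearB {x : ℚ_[p]} : near A B (0, 1) x ↔ ‖x - B‖ < 1 := by
  unfold near rt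
  rw [if_neg (by decide), if_neg (by decide), if_pos rfl]

/-- lifts of the units and the conditions modulo `p` -/
private theorem MC4_lift (h : GB A B) : ∃ α β : ℤ_[p], (α : ℚ_[p]) = A ∧ (β : ℚ_[p]) = B ∧
    PadicInt.toZMod α ≠ 0 ∧ PadicInt.toZMod β ≠ 0 ∧
    PadicInt.toZMod α - PadicInt.toZMod β ≠ 0 ∧ PadicInt.toZMod α + PadicInt.toZMod β ≠ 0 := by
  obtain ⟨α, rfl⟩ := exists_coe_of_norm_le h.nA.le
  obtain ⟨β, rfl⟩ := exists_coe_of_norm_le h.nB.le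
  refine ⟨α, β, rfl, rfl, MC4_ne h.nA, MC4_ne h.nB, ?_, ?_⟩
  · rw [← map_sub]
    apply MC4_ne
    rw [PadicInt.coe_sub]
    exact h.nAB
  · rw [← map_add]
    apply MC4_ne
    rw [PadicInt.coe_add]
    exact h.nS

private theorem MC4_one {x : ℤ_[p]} (ω : ℤ_[p]) (hω : PadicInt.toZMod ω = 0) :
    ‖(1 : ℚ_[p]) - x * ω‖ = 1 := by
  have h : (1 : ℚ_[p]) - x * ω = ((1 - x * ω : ℤ_[p]) : ℚ_[p]) := by push_cast; ring
  rw [h]
  apply MC4_eq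
  simp [hω]


private theorem MC4_nearO {x : ℚ_[p]} : near A B (1, 1) x ↔ ‖x‖ < 1 := by
  unfold near rt
  rw [if_neg (by decide), if_neg (by decide), if_neg (by decide), sub_zero]

/-! #### the polynomials -/

private def MC4_N {K : Type*} [CommRing K] (A B w t : K) : K :=
  B * t ^ 4 * (1 - A * w) * (1 + (A - B) * w) +
    A * (1 - B * (w * t ^ 2)) * (1 - (A - B) * (w * t ^ 2))

private def MC4_D {K : Type*} [CommRing K] (A B w t : K) : K :=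
  (1 - B * (w * t ^ 2)) ^ 2 * (2 * A - B - A ^ 2 * w) -
    t ^ 2 * (1 - A * w) ^ 2 * (2 * B - A - B ^ 2 * (w * t ^ 2))

private theorem MC4_Xi (w : ℚ_[p]) : XX A B 0 w = w⁻¹ := by
  unfold XX
  rw [if_pos rfl]

private theorem MC4_XA (w : ℚ_[p]) : XX A B (1, 0) w = A + A * (A - B) * w / (1 - A * w) := by
  unfold XX rt df
  rw [if_neg (by decide), if_pos rfl]
  ring

private theorem MC4_XB (w : ℚ_[p]) : XX A B (0, 1) w = B + B * (B - A) * w / (1 - B * w) := by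
  unfold XX rt df
  rw [if_neg (by decide), if_neg (by decide), if_pos rfl]
  ring

private theorem MC4_nni {w t : ℚ_[p]} (hw : w ≠ 0) (ht : t ≠ 0) :
    nn A B (w⁻¹ - A) ((w * t ^ 2)⁻¹ - B) = MC4_N A B w t / (w ^ 2 * t ^ 4) := by
  unfold nn MC4_N
  field_simp
  ring

private theorem MC4_ddi {w t : ℚ_[p]} (hw : w ≠ 0) (ht : t ≠ 0) :
    dd A B (w⁻¹ - A) ((w * t ^ 2)⁻¹ - B) = MC4_D A B w t / (w ^ 3 * t ^ 4) := by
  unfold dd MC4_D
  field_simp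
  ring

private theorem MC4_ixi {w t : ℚ_[p]} (hw : w ≠ 0) (ht : t ≠ 0) (hD : MC4_D A B w t ≠ 0) :
    ix A B w⁻¹ (w * t ^ 2)⁻¹ = (A * MC4_D A B w t - (A - B) * (1 - A * w) * MC4_N A B w t) /
      MC4_D A B w t := by
  unfold ix rho
  rw [MC4_nni hw ht, MC4_ddi hw ht]
  field_simp
  ring

private theorem MC4_iyi {w t : ℚ_[p]} (hw : w ≠ 0) (ht : t ≠ 0) (hD : MC4_D A B w t ≠ 0) :
    iy A B w⁻¹ (w * t ^ 2)⁻¹ = (B * t ^ 2 * MC4_D A B w t -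
      (A - B) * (1 - B * (w * t ^ 2)) * MC4_N A B w t) / (t ^ 2 * MC4_D A B w t) := by
  unfold iy rho
  rw [MC4_nni hw ht, MC4_ddi hw ht]
  field_simp
  ring

private theorem MC4_nnA {w t : ℚ_[p]} (h1 : 1 - A * w ≠ 0) (h2 : 1 - B * (w * t ^ 2) ≠ 0) :
    nn A B (A + A * (A - B) * w / (1 - A * w) - A)
      (B + B * (B - A) * (w * t ^ 2) / (1 - B * (w * t ^ 2)) - B) =
      A * B * (A - B) * w / ((1 - A * w) ^ 2 * (1 - B * (w * t ^ 2)) ^ 2) * MC4_D A B w t := by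
  unfold nn MC4_D
  have h3 : 1 - B * w * t ^ 2 ≠ 0 := by rwa [mul_assoc]
  field_simp
  ring

private theorem MC4_ddA {w t : ℚ_[p]} (h1 : 1 - A * w ≠ 0) (h2 : 1 - B * (w * t ^ 2) ≠ 0) :
    dd A B (A + A * (A - B) * w / (1 - A * w) - A)
      (B + B * (B - A) * (w * t ^ 2) / (1 - B * (w * t ^ 2)) - B) =
      A * B * (A - B) * w / ((1 - A * w) ^ 2 * (1 - B * (w * t ^ 2)) ^ 2) *
        ((A - B) ^ 2 * w * MC4_N A B w t) := by
  unfold dd MC4_N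
  have h3 : 1 - B * w * t ^ 2 ≠ 0 := by rwa [mul_assoc]
  field_simp
  ring

private theorem MC4_rhoA (hA : A ≠ 0) (hB : B ≠ 0) (hAB : A - B ≠ 0) {w t : ℚ_[p]} (hw : w ≠ 0)
    (h1 : 1 - A * w ≠ 0) (h2 : 1 - B * (w * t ^ 2) ≠ 0) :
    rho A B (A + A * (A - B) * w / (1 - A * w))
      (B + B * (B - A) * (w * t ^ 2) / (1 - B * (w * t ^ 2))) =
      -MC4_D A B w t / ((A - B) * w * MC4_N A B w t) := by
  unfold rho
  rw [MC4_nnA h1 h2, MC4_ddA h1 h2]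
  have h3 : A * B * (A - B) * w / ((1 - A * w) ^ 2 * (1 - B * (w * t ^ 2)) ^ 2) ≠ 0 :=
    div_ne_zero (mul_ne_zero (mul_ne_zero (mul_ne_zero hA hB) hAB) hw)
      (mul_ne_zero (pow_ne_zero _ h1) (pow_ne_zero _ h2))
  set c := A * B * (A - B) * w / ((1 - A * w) ^ 2 * (1 - B * (w * t ^ 2)) ^ 2)
  rw [show -((A - B) * (c * MC4_D A B w t)) =
    c * ((A - B) * (-MC4_D A B w t)) by ring,
    show c * ((A - B) ^ 2 * w * MC4_N A B w t) =
      c * ((A - B) * ((A - B) * w * MC4_N A B w t)) by ring,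
    mul_div_mul_left _ _ h3, mul_div_mul_left _ _ hAB]

private theorem MC4_ixA (hA : A ≠ 0) (hB : B ≠ 0) (hAB : A - B ≠ 0) {w t : ℚ_[p]} (hw : w ≠ 0)
    (h1 : 1 - A * w ≠ 0) (h2 : 1 - B * (w * t ^ 2) ≠ 0) (hN : MC4_N A B w t ≠ 0) :
    ix A B (A + A * (A - B) * w / (1 - A * w))
      (B + B * (B - A) * (w * t ^ 2) / (1 - B * (w * t ^ 2))) =
      (A * (1 - A * w) * MC4_N A B w t - A * MC4_D A B w t) / ((1 - A * w) * MC4_N A B w t) := by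
  unfold ix
  rw [MC4_rhoA hA hB hAB hw h1 h2]
  field_simp
  ring

private theorem MC4_iyA (hA : A ≠ 0) (hB : B ≠ 0) (hAB : A - B ≠ 0) {w t : ℚ_[p]} (hw : w ≠ 0)
    (h1 : 1 - A * w ≠ 0) (h2 : 1 - B * (w * t ^ 2) ≠ 0) (hN : MC4_N A B w t ≠ 0) :
    iy A B (A + A * (A - B) * w / (1 - A * w))
      (B + B * (B - A) * (w * t ^ 2) / (1 - B * (w * t ^ 2))) =
      (B * (1 - B * (w * t ^ 2)) * MC4_N A B w t + B * t ^ 2 * MC4_D A B w t) /
        ((1 - B * (w * t ^ 2)) * MC4_N A B w t) := by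
  unfold iy
  rw [MC4_rhoA hA hB hAB hw h1 h2]
  have h3 : 1 - B * w * t ^ 2 ≠ 0 := by rwa [mul_assoc]
  field_simp
  ring

private theorem MC4_castN (α β ω τ : ℤ_[p]) :
    MC4_N (α : ℚ_[p]) β ω τ = ((MC4_N α β ω τ : ℤ_[p]) : ℚ_[p]) := by
  unfold MC4_N
  push_cast
  ring

private theorem MC4_castD (α β ω τ : ℤ_[p]) :
    MC4_D (α : ℚ_[p]) β ω τ = ((MC4_D α β ω τ : ℤ_[p]) : ℚ_[p]) := by
  unfold MC4_D
  have h2 : ((2 : ℤ_[p]) : ℚ_[p]) = 2 := rfl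
  push_cast
  rw [h2]

private theorem MC4_resN (α β ω τ : ℤ_[p]) (hω : PadicInt.toZMod ω = 0) :
    PadicInt.toZMod (MC4_N α β ω τ) =
      PadicInt.toZMod β * PadicInt.toZMod τ ^ 4 + PadicInt.toZMod α := by
  unfold MC4_N
  simp [hω]

private theorem MC4_resD (α β ω τ : ℤ_[p]) (hω : PadicInt.toZMod ω = 0) :
    PadicInt.toZMod (MC4_D α β ω τ) =
      2 * PadicInt.toZMod α - PadicInt.toZMod β -
        PadicInt.toZMod τ ^ 2 * (2 * PadicInt.toZMod β - PadicInt.toZMod α) := by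
  unfold MC4_D
  have h2 : PadicInt.toZMod (2 : ℤ_[p]) = 2 := map_ofNat _ 2
  simp [hω, h2]

/-- square root of `-1` -/
private theorem MC4_t1 (hs : IsSquare (-1 : ℚ_[p])) :
    ∃ τ₀ : ℤ_[p], ‖τ₀‖ = 1 ∧ PadicInt.toZMod τ₀ ^ 2 = -1 := by
  obtain ⟨s, hs⟩ := hs
  have h1 : ‖s‖ = 1 := by
    have h2 : ‖s‖ * ‖s‖ = 1 := by rw [← norm_mul, ← hs, norm_neg, norm_one]
    nlinarith [norm_nonneg s]
  obtain ⟨τ, rfl⟩ := exists_coe_of_norm_le h1.le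
  have h3 : τ ^ 2 = -1 := by
    apply PadicInt.ext
    push_cast
    rw [hs]
    ring
  refine ⟨τ, h1, ?_⟩
  have := congrArg PadicInt.toZMod h3
  simpa using this

/-- square root of `A B` -/
private theorem MC4_t2 {α β : ℤ_[p]} (ha : PadicInt.toZMod α ≠ 0) (hb : PadicInt.toZMod β ≠ 0)
    (hs : IsSquare ((α : ℚ_[p]) * β)) :
    ∃ τ₀ : ℤ_[p], ‖τ₀‖ = 1 ∧
      PadicInt.toZMod β * PadicInt.toZMod τ₀ ^ 2 = PadicInt.toZMod α := by
  obtain ⟨s, hs⟩ := hs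
  have hβ : (β : ℚ_[p]) ≠ 0 := by
    intro h0
    have := MC4_eq hb
    rw [h0, norm_zero] at this
    exact zero_ne_one this
  have h1 : ‖s‖ = 1 := by
    have h2 : ‖s‖ * ‖s‖ = 1 := by rw [← norm_mul, ← hs, norm_mul, MC4_eq ha, MC4_eq hb, one_mul]
    nlinarith [norm_nonneg s]
  have h2 : ‖s / β‖ = 1 := by
    rw [norm_div, h1, MC4_eq hb]
    norm_num
  obtain ⟨τ, hτ⟩ := exists_coe_of_norm_le h2.le
  have h3 : β * τ ^ 2 = α := by
    apply PadicInt.ext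
    push_cast
    rw [hτ]
    field_simp
    linear_combination -hs
  refine ⟨τ, ?_, ?_⟩
  · have : ‖(τ : ℚ_[p])‖ = 1 := by rw [hτ]; exact h2
    exact this
  · have := congrArg PadicInt.toZMod h3
    simpa using this

private theorem MC4_quot {x y : ℤ_[p]} (hx : PadicInt.toZMod x = 0) (hy : PadicInt.toZMod y ≠ 0) :
    ‖(x : ℚ_[p]) / y‖ < 1 := by
  rw [norm_div, MC4_eq hy, div_one]
  exact MC4_lt hx

/-- the image of a point near `(∞, ∞)` -/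
private theorem MC4_key1 {α β ω τ : ℤ_[p]} {x' y' : ℤ_[p]} (hω0 : (ω : ℚ_[p]) ≠ 0)
    (hω : PadicInt.toZMod ω = 0) (hτ : PadicInt.toZMod τ ≠ 0)
    (hD : PadicInt.toZMod (MC4_D α β ω τ) ≠ 0)
    (hx : PadicInt.toZMod α * PadicInt.toZMod (MC4_D α β ω τ) -
      (PadicInt.toZMod α - PadicInt.toZMod β) * PadicInt.toZMod (MC4_N α β ω τ) =
      PadicInt.toZMod x' * PadicInt.toZMod (MC4_D α β ω τ))
    (hy : PadicInt.toZMod β * PadicInt.toZMod τ ^ 2 * PadicInt.toZMod (MC4_D α β ω τ) -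
      (PadicInt.toZMod α - PadicInt.toZMod β) * PadicInt.toZMod (MC4_N α β ω τ) =
      PadicInt.toZMod y' * PadicInt.toZMod τ ^ 2 * PadicInt.toZMod (MC4_D α β ω τ)) :
    ‖ix (α : ℚ_[p]) β (ω : ℚ_[p])⁻¹ ((ω : ℚ_[p]) * τ ^ 2)⁻¹ - x'‖ < 1 ∧
    ‖iy (α : ℚ_[p]) β (ω : ℚ_[p])⁻¹ ((ω : ℚ_[p]) * τ ^ 2)⁻¹ - y'‖ < 1 := by
  have ht : (τ : ℚ_[p]) ≠ 0 := by
    intro h0
    have := MC4_eq hτ
    rw [h0, norm_zero] at this
    exact zero_ne_one this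
  have hD' : ((MC4_D α β ω τ : ℤ_[p]) : ℚ_[p]) ≠ 0 := by
    intro h0
    have := MC4_eq hD
    rw [h0, norm_zero] at this
    exact zero_ne_one this
  have hD0 : MC4_D (α : ℚ_[p]) β ω τ ≠ 0 := by rwa [MC4_castD]
  rw [MC4_ixi hω0 ht hD0, MC4_iyi hω0 ht hD0, MC4_castD, MC4_castN]
  generalize hDD : MC4_D α β ω τ = D at hD hx hy hD' ⊢
  generalize hNN : MC4_N α β ω τ = N at hx hy ⊢
  constructor
  · have h1 : ((α : ℚ_[p]) * D - (α - β) * (1 - α * ω) * N) / D - x' =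
        ((α * D - (α - β) * (1 - α * ω) * N - x' * D : ℤ_[p]) : ℚ_[p]) / D := by
      push_cast
      field_simp
    rw [h1]
    refine MC4_quot ?_ hD
    simp only [map_sub, map_mul, map_one, hω, mul_zero, sub_zero, mul_one]
    linear_combination hx
  · have h1 : ((β : ℚ_[p]) * τ ^ 2 * D - (α - β) * (1 - β * (ω * τ ^ 2)) * N) / (τ ^ 2 * D) - y' =
        ((β * τ ^ 2 * D - (α - β) * (1 - β * (ω * τ ^ 2)) * N - y' * τ ^ 2 * D : ℤ_[p]) : ℚ_[p]) /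
          ((τ ^ 2 * D : ℤ_[p]) : ℚ_[p]) := by
      push_cast
      field_simp
    rw [h1]
    refine MC4_quot ?_ ?_
    · simp only [map_sub, map_mul, map_one, map_pow, hω, mul_zero, zero_mul, sub_zero, mul_one]
      linear_combination hy
    · rw [map_mul, map_pow]
      exact mul_ne_zero (pow_ne_zero _ hτ) hD

/-- the image of a point near `(A, B)` -/
private theorem MC4_key2 {α β ω τ : ℤ_[p]} {x' y' : ℤ_[p]} (h : GB (α : ℚ_[p]) β)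
    (hω0 : (ω : ℚ_[p]) ≠ 0) (hω : PadicInt.toZMod ω = 0)
    (hN : PadicInt.toZMod (MC4_N α β ω τ) ≠ 0)
    (hx : PadicInt.toZMod α * PadicInt.toZMod (MC4_N α β ω τ) -
      PadicInt.toZMod α * PadicInt.toZMod (MC4_D α β ω τ) =
      PadicInt.toZMod x' * PadicInt.toZMod (MC4_N α β ω τ))
    (hy : PadicInt.toZMod β * PadicInt.toZMod (MC4_N α β ω τ) +
      PadicInt.toZMod β * PadicInt.toZMod τ ^ 2 * PadicInt.toZMod (MC4_D α β ω τ) =
      PadicInt.toZMod y' * PadicInt.toZMod (MC4_N α β ω τ)) :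
    ‖ix (α : ℚ_[p]) β (α + α * (α - β) * ω / (1 - α * ω))
      (β + β * (β - α) * (ω * τ ^ 2) / (1 - β * (ω * τ ^ 2))) - x'‖ < 1 ∧
    ‖iy (α : ℚ_[p]) β (α + α * (α - β) * ω / (1 - α * ω))
      (β + β * (β - α) * (ω * τ ^ 2) / (1 - β * (ω * τ ^ 2))) - y'‖ < 1 := by
  have h3 := MC4_one (x := α) ω hω
  have h4 := MC4_one (x := β) (ω * τ ^ 2) (by rw [map_mul, hω, zero_mul])
  push_cast at h4
  have e1 : 1 - (α : ℚ_[p]) * ω ≠ 0 := by
    intro h0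
    rw [h0, norm_zero] at h3
    exact zero_ne_one h3
  have e2 : 1 - (β : ℚ_[p]) * (ω * τ ^ 2) ≠ 0 := by
    intro h0
    rw [h0, norm_zero] at h4
    exact zero_ne_one h4
  have hN' : ((MC4_N α β ω τ : ℤ_[p]) : ℚ_[p]) ≠ 0 := by
    intro h0
    have := MC4_eq hN
    rw [h0, norm_zero] at this
    exact zero_ne_one this
  have hN0 : MC4_N (α : ℚ_[p]) β ω τ ≠ 0 := by rwa [MC4_castN]
  rw [MC4_ixA h.ok.hA h.ok.hB h.ok.sub_ne hω0 e1 e2 hN0,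
    MC4_iyA h.ok.hA h.ok.hB h.ok.sub_ne hω0 e1 e2 hN0, MC4_castD, MC4_castN]
  generalize hDD : MC4_D α β ω τ = D at hx hy ⊢
  generalize hNN : MC4_N α β ω τ = N at hN hx hy hN' ⊢
  constructor
  · have h1 : ((α : ℚ_[p]) * (1 - α * ω) * N - α * D) / ((1 - α * ω) * N) - x' =
        ((α * (1 - α * ω) * N - α * D - x' * ((1 - α * ω) * N) : ℤ_[p]) : ℚ_[p]) /
          (((1 - α * ω) * N : ℤ_[p]) : ℚ_[p]) := by
      push_cast
      field_simp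
    rw [h1]
    refine MC4_quot ?_ ?_
    · simp only [map_sub, map_mul, map_one, hω, mul_zero, sub_zero, mul_one, one_mul]
      linear_combination hx
    · simp only [map_sub, map_mul, map_one, hω, mul_zero, sub_zero, one_mul]
      exact hN
  · have h5 : 1 - (β : ℚ_[p]) * ω * τ ^ 2 ≠ 0 := by rwa [mul_assoc]
    have h1 : ((β : ℚ_[p]) * (1 - β * (ω * τ ^ 2)) * N + β * τ ^ 2 * D) /
        ((1 - β * (ω * τ ^ 2)) * N) - y' =
        ((β * (1 - β * (ω * τ ^ 2)) * N + β * τ ^ 2 * D - y' * ((1 - β * (ω * τ ^ 2)) * N)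
          : ℤ_[p]) : ℚ_[p]) / (((1 - β * (ω * τ ^ 2)) * N : ℤ_[p]) : ℚ_[p]) := by
      push_cast
      field_simp
    rw [h1]
    refine MC4_quot ?_ ?_
    · simp only [map_sub, map_add, map_mul, map_one, map_pow, hω, mul_zero, zero_mul, sub_zero,
        mul_one, one_mul]
      linear_combination hy
    · simp only [map_sub, map_mul, map_one, hω, mul_zero, zero_mul, sub_zero, one_mul]
      exact hN

private theorem MC4_tne {τ τ₀ : ℤ_[p]} (h0 : ‖τ₀‖ = 1)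
    (hτ : PadicInt.toZMod τ = PadicInt.toZMod τ₀) : PadicInt.toZMod τ ≠ 0 := by
  rw [hτ]
  exact MC4_ne h0

/-- the values modulo `p` for `t² = A / B` -/
private theorem MC4_val2 {a b t N D : ZMod p} (ha : a ≠ 0) (hb : b ≠ 0) (hab : a - b ≠ 0)
    (hab' : a + b ≠ 0) (ht : b * t ^ 2 = a) (hN : N = b * t ^ 4 + a)
    (hD : D = 2 * a - b - t ^ 2 * (2 * b - a)) : N ≠ 0 ∧ D ≠ 0 ∧ a * D = (a - b) * N := by
  have h1 : b * N = a * (a + b) := by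
    rw [hN]
    linear_combination (b * t ^ 2 + a) * ht
  have h2 : b * D = (a - b) * (a + b) := by
    rw [hD]
    linear_combination (-(2 * b - a)) * ht
  refine ⟨?_, ?_, ?_⟩
  · rintro rfl
    rw [mul_zero] at h1
    exact mul_ne_zero ha hab' h1.symm
  · rintro rfl
    rw [mul_zero] at h2
    exact mul_ne_zero hab hab' h2.symm
  · apply mul_left_cancel₀ hb
    linear_combination a * h2 - (a - b) * h1

/-- the values modulo `p` for `t² = -1` -/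
private theorem MC4_val1 {a b t N D : ZMod p} (ht : t ^ 2 = -1) (hN : N = b * t ^ 4 + a)
    (hD : D = 2 * a - b - t ^ 2 * (2 * b - a)) : N = a + b ∧ D = a + b := by
  constructor
  · rw [hN]
    linear_combination (b * (t ^ 2 - 1)) * ht
  · rw [hD]
    linear_combination (-(2 * b - a)) * ht

theorem cl_OO_ii (h : GB A B) (hs : IsSquare (A * B)) : CL A B (1, 1) (1, 1) 0 0 := by
  obtain ⟨α, β, rfl, rfl, ha, hb, hab, hab'⟩ := MC4_lift h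
  obtain ⟨τ₀, h0, hτ0⟩ := MC4_t2 ha hb hs
  refine MC4_intro τ₀ h0 fun ω τ hω0 hω hτ h1 h2 => ?_
  have hτn := MC4_tne h0 hτ
  rw [← hτ] at hτ0
  rw [MC4_Xi, MC4_Xi, MC4_nearO, MC4_nearO]
  obtain ⟨v1, v2, v3⟩ := MC4_val2 ha hb hab hab' hτ0 (MC4_resN α β ω τ hω) (MC4_resD α β ω τ hω)
  have h3 := MC4_key1 (x' := 0) (y' := 0) hω0 hω hτn v2 (by
    rw [map_zero]
    linear_combination v3) (by
    rw [map_zero, hτ0]
    linear_combination v3)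
  rw [PadicInt.coe_zero, sub_zero, sub_zero] at h3
  exact h3

theorem cl_BA_ii (h : GB A B) (hs : IsSquare (-1 : ℚ_[p])) : CL A B (0, 1) (1, 0) 0 0 := by
  obtain ⟨α, β, rfl, rfl, ha, hb, hab, hab'⟩ := MC4_lift h
  obtain ⟨τ₀, h0, hτ0⟩ := MC4_t1 hs
  refine MC4_intro τ₀ h0 fun ω τ hω0 hω hτ h1 h2 => ?_
  have hτn := MC4_tne h0 hτ
  rw [← hτ] at hτ0
  rw [MC4_Xi, MC4_Xi, MC4_nearA, MC4_nearB]
  obtain ⟨v1, v2⟩ := MC4_val1 hτ0 (MC4_resN α β ω τ hω) (MC4_resD α β ω τ hω)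
  exact MC4_key1 (x' := β) (y' := α) hω0 hω hτn (by rw [v2]; exact hab') (by
    rw [v1, v2]
    ring) (by
    rw [v1, v2, hτ0]
    ring)

theorem cl_BA_AB (h : GB A B) (hs : IsSquare (A * B)) :
    CL A B (0, 1) (1, 0) (1, 0) (0, 1) := by
  obtain ⟨α, β, rfl, rfl, ha, hb, hab, hab'⟩ := MC4_lift h
  obtain ⟨τ₀, h0, hτ0⟩ := MC4_t2 ha hb hs
  refine MC4_intro τ₀ h0 fun ω τ hω0 hω hτ h1 h2 => ?_
  rw [← hτ] at hτ0
  rw [MC4_XA, MC4_XB, MC4_nearA, MC4_nearB]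
  obtain ⟨v1, v2, v3⟩ := MC4_val2 ha hb hab hab' hτ0 (MC4_resN α β ω τ hω) (MC4_resD α β ω τ hω)
  exact MC4_key2 (x' := β) (y' := α) h hω0 hω v1 (by
    linear_combination -v3) (by
    rw [hτ0]
    linear_combination v3)

theorem cl_OO_AB (h : GB A B) (hs : IsSquare (-1 : ℚ_[p])) :
    CL A B (1, 1) (1, 1) (1, 0) (0, 1) := by
  obtain ⟨α, β, rfl, rfl, ha, hb, hab, hab'⟩ := MC4_lift h
  obtain ⟨τ₀, h0, hτ0⟩ := MC4_t1 hs
  refine MC4_intro τ₀ h0 fun ω τ hω0 hω hτ h1 h2 => ?_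
  rw [← hτ] at hτ0
  rw [MC4_XA, MC4_XB, MC4_nearO, MC4_nearO]
  obtain ⟨v1, v2⟩ := MC4_val1 hτ0 (MC4_resN α β ω τ hω) (MC4_resD α β ω τ hω)
  have h3 := MC4_key2 (x' := 0) (y' := 0) h hω0 hω (by rw [v1]; exact hab') (by
    rw [v1, v2, map_zero]
    ring) (by
    rw [v1, v2, hτ0, map_zero]
    ring)
  rw [PadicInt.coe_zero, sub_zero, sub_zero] at h3
  exact h3

end Pool.Agent.Helper1.FT
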