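import Pool.Agent.Helper1.FT.Loc

/-!
# FT: module MC6 (links at the node (O, A))
-/

namespace Pool.Agent.Helper1.FT

open Pool.Agent.Helper10.K3 WeierstrassCurve.Affine Classical

variable {p : ℕ} [hp : Fact p.Prime] {A B d : ℚ_[p]}

private theorem MC6_z (x : ℤ_[p]) : PadicInt.toZMod x = 0 ↔ ‖(x : ℚ_[p])‖ < 1 :=
  KumWA.toZMod_eq_zero_iff x

private theorem MC6_u (x : ℤ_[p]) : PadicInt.toZMod x ≠ 0 ↔ ‖(x : ℚ_[p])‖ = 1 := by
  rw [Ne, MC6_z, not_lt]
  constructor
  · intro h'; exact le_antisymm (PadicInt.norm_le_one x) h'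
  · intro h'; exact h'.ge

private theorem MC6_data {α β : ℤ_[p]} {ω τ : ℤ_[p]} (hω : PadicInt.toZMod ω = 0) :
    ∃ a b N D : ℤ_[p], XX (α : ℚ_[p]) β (0, 1) ω - α = a ∧
      XX (α : ℚ_[p]) β (1, 1) (ω * τ ^ 2) - β = b ∧
      nn (α : ℚ_[p]) β a b = ω * N ∧ dd (α : ℚ_[p]) β a b = ω * D ∧
      PadicInt.toZMod a = PadicInt.toZMod β - PadicInt.toZMod α ∧
      PadicInt.toZMod b = - PadicInt.toZMod β ∧
      PadicInt.toZMod N = - PadicInt.toZMod β * (PadicInt.toZMod β ^ 2 *
        (PadicInt.toZMod α - PadicInt.toZMod β) + PadicInt.toZMod α ^ 3 * PadicInt.toZMod τ ^ 2) ∧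
      PadicInt.toZMod D = PadicInt.toZMod β * (PadicInt.toZMod α - PadicInt.toZMod β) *
        (PadicInt.toZMod α ^ 2 * (PadicInt.toZMod α - PadicInt.toZMod β) * PadicInt.toZMod τ ^ 2
          - PadicInt.toZMod β ^ 3) := by
  have h1 : ‖((1 - β * ω : ℤ_[p]) : ℚ_[p])‖ = 1 := by
    rw [← MC6_u]
    rw [map_sub, map_mul, map_one, hω, mul_zero, sub_zero]
    exact one_ne_zero
  have hu0 : ((1 - β * ω : ℤ_[p]) : ℚ_[p]) ≠ 0 := by
    intro h0
    rw [h0, norm_zero] at h1
    exact zero_ne_one h1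
  have hu1 : (1 - (β : ℚ_[p]) * ω) ≠ 0 := by
    have := hu0
    push_cast at this
    exact this
  obtain ⟨υ, hυ⟩ := exists_coe_of_norm_le (x := ((1 - β * ω : ℤ_[p]) : ℚ_[p])⁻¹)
    (by rw [norm_inv, h1, inv_one])
  have hυ' : (υ : ℚ_[p]) = (1 - (β : ℚ_[p]) * ω)⁻¹ := by
    rw [hυ]; push_cast; rfl
  have hυ1 : υ * (1 - β * ω) = 1 := by
    apply PadicInt.ext
    push_cast
    rw [hυ']
    exact inv_mul_cancel₀ hu1
  have hυr : PadicInt.toZMod υ = 1 := by
    have := congrArg PadicInt.toZMod hυ1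
    rw [map_mul, map_sub, map_mul, map_one, hω, mul_zero, sub_zero, mul_one] at this
    exact this
  refine ⟨(β - α) * υ, β * (α * ω * τ ^ 2 - 1),
    β * (β ^ 2 * (β - α) * (1 - α * ω) * υ ^ 2) + α * (α ^ 2 * β * τ ^ 2 * (β * ω * τ ^ 2 - 1)),
    (β * (α * ω * τ ^ 2 - 1)) ^ 2 * (β ^ 2 * (β - α) * (1 - α * ω) * υ ^ 2) -
      ((β - α) * υ) ^ 2 * (α ^ 2 * β * τ ^ 2 * (β * ω * τ ^ 2 - 1)), ?_, ?_, ?_, ?_, ?_, ?_, ?_, ?_⟩
  · unfold XX
    rw [if_neg (by decide)]
    unfold rt
    rw [if_neg (by decide), if_pos rfl]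
    unfold df
    push_cast
    rw [hυ']
    field_simp
    ring
  · unfold XX
    rw [if_neg (by decide)]
    unfold rt
    rw [if_neg (by decide), if_neg (by decide)]
    unfold df
    simp only [PadicInt.coe_mul, PadicInt.coe_sub, PadicInt.coe_pow, PadicInt.coe_one]
    have e0 : (1 : ℚ_[p]) - 0 * ((ω : ℚ_[p]) * (τ : ℚ_[p]) ^ 2) = 1 := by ring
    rw [e0]
    ring
  · unfold nn
    push_cast
    rw [hυ']
    field_simp
    ring
  · unfold dd
    push_cast
    rw [hυ']
    field_simp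
    ring
  · rw [map_mul, map_sub, hυr, mul_one]
  · simp only [map_mul, map_sub, map_one, hω, mul_zero, zero_mul, zero_sub, mul_neg, mul_one]
  · simp only [map_mul, map_sub, map_add, map_pow, map_one, hω, hυr, mul_zero, zero_mul, zero_sub,
      mul_neg, mul_one, sub_zero, one_pow]
    ring
  · simp only [map_mul, map_sub, map_add, map_pow, map_one, hω, hυr, mul_zero, zero_mul, zero_sub,
      mul_neg, mul_one, sub_zero, one_pow]
    ring

/-- the finite targets -/
private theorem MC6_fin {α β ω a N D r c : ℤ_[p]} (hω : (ω : ℚ_[p]) ≠ 0)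
    (hD : PadicInt.toZMod D ≠ 0)
    (hn : PadicInt.toZMod ((c - r) * D - (α - β) * N * a) = 0) :
    ‖(c : ℚ_[p]) + -(((α : ℚ_[p]) - β) * (ω * N)) / (ω * D) * a - r‖ < 1 := by
  have hD1 := (MC6_u D).1 hD
  have hD0 : (D : ℚ_[p]) ≠ 0 := by
    intro h0
    rw [h0, norm_zero] at hD1
    exact zero_ne_one hD1
  have e : (c : ℚ_[p]) + -(((α : ℚ_[p]) - β) * (ω * N)) / (ω * D) * a - r =
      (((c - r) * D - (α - β) * N * a : ℤ_[p]) : ℚ_[p]) / D := by
    push_cast
    field_simp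
    ring
  rw [e, norm_div, hD1, div_one]
  exact (MC6_z _).1 hn

/-- the infinite targets -/
private theorem MC6_inf {α β ω a N D c : ℤ_[p]} (hω : (ω : ℚ_[p]) ≠ 0) (hD0 : (D : ℚ_[p]) ≠ 0)
    (hD : PadicInt.toZMod D = 0) (hN : PadicInt.toZMod N ≠ 0) (ha : PadicInt.toZMod a ≠ 0)
    (hab : PadicInt.toZMod (α - β) ≠ 0) :
    1 < ‖(c : ℚ_[p]) + -(((α : ℚ_[p]) - β) * (ω * N)) / (ω * D) * a‖ := by
  have e : -(((α : ℚ_[p]) - β) * (ω * N)) / (ω * D) * a =
      -(((α - β : ℤ_[p]) : ℚ_[p]) * N * a) / D := by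
    push_cast
    field_simp
  have hn : ‖-(((α : ℚ_[p]) - β) * (ω * N)) / (ω * D) * a‖ = ‖(D : ℚ_[p])‖⁻¹ := by
    rw [e, norm_div, norm_neg, norm_mul, norm_mul, (MC6_u _).1 hN, (MC6_u _).1 ha,
      (MC6_u _).1 hab, one_mul, one_mul, one_div]
  have hD1 := (MC6_z D).1 hD
  have hDp : 0 < ‖(D : ℚ_[p])‖ := norm_pos_iff.2 hD0
  have h1 : 1 < ‖(D : ℚ_[p])‖⁻¹ := (one_lt_inv₀ hDp).2 hD1
  have hc : ‖(c : ℚ_[p])‖ ≤ 1 := PadicInt.norm_le_one c
  rw [add_comm, KumWA.nadd_eq (by rw [hn]; exact lt_of_le_of_lt hc h1), hn]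
  exact h1

/-- among three units whose product is a square one is a square -/
private theorem MC6_tri (h2 : p ≠ 2) {x y z s : ℤ_[p]} (hx : ‖(x : ℚ_[p])‖ = 1)
    (hy : ‖(y : ℚ_[p])‖ = 1) (hz : ‖(z : ℚ_[p])‖ = 1) (h : x * y * z = s ^ 2) :
    IsSquare (x : ℚ_[p]) ∨ IsSquare (y : ℚ_[p]) ∨ IsSquare (z : ℚ_[p]) := by
  by_contra hcon
  push Not at hcon
  obtain ⟨h1, h3, h4⟩ := hcon
  have key : ∀ v : ℤ_[p], ‖(v : ℚ_[p])‖ = 1 → ¬ IsSquare (v : ℚ_[p]) →
      quadraticChar (ZMod p) (PadicInt.toZMod v) = -1 := by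
    intro v hv hns
    rw [quadraticChar_neg_one_iff_not_isSquare]
    intro hsq
    apply hns
    apply KumWA.isSquare_of_res h2 hv
    rw [KumWA.res_of_le hv.le]
    exact hsq
  have e := congrArg (fun v => quadraticChar (ZMod p) (PadicInt.toZMod v)) h
  simp only [map_mul, map_pow] at e
  rw [key x hx h1, key y hy h3, key z hz h4] at e
  have hs : quadraticChar (ZMod p) (PadicInt.toZMod s) ^ 2 = 1 := by
    apply quadraticChar_sq_one
    intro h0
    have h5 := congrArg PadicInt.toZMod h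
    rw [map_mul, map_mul, map_pow, h0] at h5
    have := (MC6_u x).2 hx
    have := (MC6_u y).2 hy
    have := (MC6_u z).2 hz
    simp_all
  rw [hs] at e
  norm_num at e

private theorem MC6_main (h : GB A B) :
    CL A B (0, 1) (1, 1) (0, 1) (1, 1) ∨ CL A B 0 0 (0, 1) (1, 1) ∨
      CL A B (1, 0) (0, 1) (0, 1) (1, 1) ∨ CL A B (1, 1) (1, 0) (0, 1) (1, 1) := by
  obtain ⟨α, rfl⟩ := exists_coe_of_norm_le h.nA.le
  obtain ⟨β, rfl⟩ := exists_coe_of_norm_le h.nB.le
  have hα : PadicInt.toZMod α ≠ 0 := (MC6_u α).2 h.nA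
  have hβ : PadicInt.toZMod β ≠ 0 := (MC6_u β).2 h.nB
  have hαβ' : PadicInt.toZMod (α - β) ≠ 0 := by
    rw [MC6_u]
    push_cast
    exact h.nAB
  have hαβ : PadicInt.toZMod α - PadicInt.toZMod β ≠ 0 := by
    rw [← map_sub]; exact hαβ'
  -- general reduction
  have red : ∀ (i j : J) (τ₀ : ℤ_[p]), ‖(τ₀ : ℚ_[p])‖ = 1 →
      (∀ (ω : ℤ_[p]) (a b N D : ℤ_[p]), (ω : ℚ_[p]) ≠ 0 → (D : ℚ_[p]) ≠ 0 →
        PadicInt.toZMod a = PadicInt.toZMod β - PadicInt.toZMod α →
        PadicInt.toZMod b = - PadicInt.toZMod β →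
        PadicInt.toZMod N = - PadicInt.toZMod β * (PadicInt.toZMod β ^ 2 *
          (PadicInt.toZMod α - PadicInt.toZMod β) +
            PadicInt.toZMod α ^ 3 * PadicInt.toZMod τ₀ ^ 2) →
        PadicInt.toZMod D = PadicInt.toZMod β * (PadicInt.toZMod α - PadicInt.toZMod β) *
          (PadicInt.toZMod α ^ 2 * (PadicInt.toZMod α - PadicInt.toZMod β) *
            PadicInt.toZMod τ₀ ^ 2 - PadicInt.toZMod β ^ 3) →
        near (α : ℚ_[p]) β i ((α : ℚ_[p]) + -(((α : ℚ_[p]) - β) * (ω * N)) / (ω * D) * a) ∧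
        near (α : ℚ_[p]) β j ((β : ℚ_[p]) + -(((α : ℚ_[p]) - β) * (ω * N)) / (ω * D) * b)) →
      CL (α : ℚ_[p]) β i j (0, 1) (1, 1) := by
    intro i j τ₀ hτ₀ H
    refine ⟨τ₀, hτ₀, ?_⟩
    intro w t hw hw1 ht hn hd
    obtain ⟨ω, rfl⟩ := exists_coe_of_norm_le hw1.le
    have ht1 : ‖t‖ ≤ 1 := by
      have : t = (τ₀ : ℚ_[p]) + (t - τ₀) := by ring
      rw [this]
      exact KumWA.nadd_le hτ₀.le ht.le
    obtain ⟨τ, rfl⟩ := exists_coe_of_norm_le ht1
    have hω := (MC6_z ω).2 hw1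
    have hττ : PadicInt.toZMod τ = PadicInt.toZMod τ₀ := by
      have : PadicInt.toZMod (τ - τ₀) = 0 := by
        rw [MC6_z]; push_cast; exact ht
      rw [map_sub, sub_eq_zero] at this
      exact this
    obtain ⟨a, b, N, D, e1, e2, e3, e4, e5, e6, e7, e8⟩ :=
      MC6_data (α := α) (β := β) (τ := τ) hω
    rw [hττ] at e7 e8
    have hD0 : (D : ℚ_[p]) ≠ 0 := by
      rw [e1, e2, e4] at hd
      exact right_ne_zero_of_mul hd
    have := H ω a b N D hw hD0 e5 e6 e7 e8
    unfold ix iy rho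
    rw [e1, e2, e3, e4]
    exact this
  by_cases hΔ : PadicInt.toZMod (α ^ 2 - α * β + β ^ 2) = 0
  · -- Δ = 0 mod p
    right; right; right
    have hΔ' : PadicInt.toZMod α ^ 2 - PadicInt.toZMod α * PadicInt.toZMod β +
        PadicInt.toZMod β ^ 2 = 0 := by
      simpa only [map_add, map_sub, map_mul, map_pow] using hΔ
    have h3 : (3 : ZMod p) ≠ 0 := by
      intro h0
      have h1 : ((3 : ℕ) : ZMod p) = 0 := by exact_mod_cast h0
      rw [ZMod.natCast_eq_zero_iff] at h1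
      have := Nat.le_of_dvd (by norm_num) h1
      have := h.h3
      omega
    have hfin : ∀ τ₀ : ℤ_[p], ‖(τ₀ : ℚ_[p])‖ = 1 →
        PadicInt.toZMod α ^ 2 * (PadicInt.toZMod α - PadicInt.toZMod β) *
            PadicInt.toZMod τ₀ ^ 2 - PadicInt.toZMod β ^ 3 ≠ 0 →
        CL (α : ℚ_[p]) β (1, 1) (1, 0) (0, 1) (1, 1) := by
      intro τ₀ hτ₀ hne
      refine red _ _ τ₀ hτ₀ ?_
      intro ω a b N D hω hD0 ea eb eN eD
      have hD : PadicInt.toZMod D ≠ 0 := by
        rw [eD]
        exact mul_ne_zero (mul_ne_zero hβ hαβ) hne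
      constructor
      · unfold near
        rw [if_neg (by decide)]
        have hr : rt (α : ℚ_[p]) β (1, 1) = ((0 : ℤ_[p]) : ℚ_[p]) := by
          unfold rt
          rw [if_neg (by decide), if_neg (by decide)]
          push_cast; rfl
        rw [hr]
        refine MC6_fin hω hD ?_
        simp only [map_sub, map_mul, map_zero, ea, eN, eD]
        linear_combination (PadicInt.toZMod α - PadicInt.toZMod β) * PadicInt.toZMod β *
          (-PadicInt.toZMod β ^ 2) * hΔ'
      · unfold near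
        rw [if_neg (by decide)]
        have hr : rt (α : ℚ_[p]) β (1, 0) = ((α : ℤ_[p]) : ℚ_[p]) := by
          unfold rt
          rw [if_pos rfl]
        rw [hr]
        refine MC6_fin hω hD ?_
        simp only [map_sub, map_mul, eb, eN, eD]
        linear_combination (PadicInt.toZMod α - PadicInt.toZMod β) * PadicInt.toZMod β *
          (-PadicInt.toZMod α ^ 2 * PadicInt.toZMod τ₀ ^ 2) * hΔ'
    by_cases h1 : PadicInt.toZMod α ^ 2 * (PadicInt.toZMod α - PadicInt.toZMod β) -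
        PadicInt.toZMod β ^ 3 = 0
    · apply hfin 2
      · have := KumWA.norm_two h.ne_two
        push_cast
        exact this
      · intro h4
        have h5 : PadicInt.toZMod (2 : ℤ_[p]) = 2 := map_ofNat _ 2
        rw [h5] at h4
        have h6 : (3 : ZMod p) * (PadicInt.toZMod α ^ 2 *
            (PadicInt.toZMod α - PadicInt.toZMod β)) = 0 := by
          linear_combination h4 - h1
        exact mul_ne_zero h3 (mul_ne_zero (pow_ne_zero 2 hα) hαβ) h6
    · apply hfin 1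
      · push_cast
        exact norm_one
      · rw [map_one, one_pow, mul_one]
        exact h1
  · have hΔ' : PadicInt.toZMod α ^ 2 - PadicInt.toZMod α * PadicInt.toZMod β +
        PadicInt.toZMod β ^ 2 ≠ 0 := by
      simpa only [map_add, map_sub, map_mul, map_pow] using hΔ
    have hA0 : (α : ℚ_[p]) ≠ 0 := h.ok.hA
    have hB0 : (β : ℚ_[p]) ≠ 0 := h.ok.hB
    have hAB0 : (α : ℚ_[p]) - β ≠ 0 := h.ok.sub_ne
    have nA := h.nA
    have nB := h.nB
    have nAB := h.nAB
    -- square roots of units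
    have root : ∀ {u v : ℚ_[p]}, IsSquare u → ‖u‖ = 1 → ‖v‖ = 1 →
        ∃ τ : ℤ_[p], ‖(τ : ℚ_[p])‖ = 1 ∧ (τ : ℚ_[p]) ^ 2 = u * v ^ 2 := by
      intro u v hu hu1 hv1
      obtain ⟨s, hs⟩ := hu
      have hs1 : ‖s‖ = 1 := by
        have : ‖s‖ * ‖s‖ = 1 := by rw [← norm_mul, ← hs, hu1]
        have h0 := norm_nonneg s
        nlinarith
      have hsv : ‖s * v‖ = 1 := by rw [norm_mul, hs1, hv1, one_mul]
      obtain ⟨τ, hτ⟩ := exists_coe_of_norm_le hsv.le
      refine ⟨τ, by rw [hτ]; exact hsv, ?_⟩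
      rw [hτ, hs]; ring
    have tri := MC6_tri (p := p) h.ne_two (x := -(α * β)) (y := β * (α - β)) (z := -(α * (α - β)))
      (s := α * β * (α - β))
      (by push_cast; rw [norm_neg, norm_mul, nA, nB, one_mul])
      (by push_cast; rw [norm_mul, nAB, nB, one_mul])
      (by push_cast; rw [norm_neg, norm_mul, nA, nAB, one_mul]) (by ring)
    rcases tri with hs | hs | hs
    · -- -AB square
      left
      obtain ⟨τ₀, hτ₀, hsq⟩ := root (v := (α : ℚ_[p])⁻¹) hs
        (by push_cast; rw [norm_neg, norm_mul, nA, nB, one_mul])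
        (by rw [norm_inv, nA, inv_one])
      have hsq' : α * τ₀ ^ 2 = - β := by
        apply PadicInt.ext
        push_cast
        push_cast at hsq
        rw [hsq]
        field_simp
      have hr := congrArg PadicInt.toZMod hsq'
      rw [map_mul, map_pow, map_neg] at hr
      refine red _ _ τ₀ hτ₀ ?_
      intro ω a b N D hω hD0 ea eb eN eD
      have eD' : PadicInt.toZMod D = -(PadicInt.toZMod β ^ 2 *
          (PadicInt.toZMod α - PadicInt.toZMod β) * (PadicInt.toZMod α ^ 2 -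
            PadicInt.toZMod α * PadicInt.toZMod β + PadicInt.toZMod β ^ 2)) := by
        rw [eD]
        linear_combination PadicInt.toZMod β * (PadicInt.toZMod α - PadicInt.toZMod β) *
          PadicInt.toZMod α * (PadicInt.toZMod α - PadicInt.toZMod β) * hr
      have eN' : PadicInt.toZMod N = PadicInt.toZMod β ^ 2 * (PadicInt.toZMod α ^ 2 -
            PadicInt.toZMod α * PadicInt.toZMod β + PadicInt.toZMod β ^ 2) := by
        rw [eN]
        linear_combination -PadicInt.toZMod β * PadicInt.toZMod α ^ 2 * hr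
      have hD : PadicInt.toZMod D ≠ 0 := by
        rw [eD']
        exact neg_ne_zero.2 (mul_ne_zero (mul_ne_zero (pow_ne_zero 2 hβ) hαβ) hΔ')
      constructor
      · unfold near
        rw [if_neg (by decide)]
        have hr : rt (α : ℚ_[p]) β (0, 1) = ((β : ℤ_[p]) : ℚ_[p]) := by
          unfold rt
          rw [if_neg (by decide), if_pos rfl]
        rw [hr]
        refine MC6_fin hω hD ?_
        simp only [map_sub, map_mul, ea, eN', eD']
        ring
      · unfold near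
        rw [if_neg (by decide)]
        have hr : rt (α : ℚ_[p]) β (1, 1) = ((0 : ℤ_[p]) : ℚ_[p]) := by
          unfold rt
          rw [if_neg (by decide), if_neg (by decide)]
          push_cast; rfl
        rw [hr]
        refine MC6_fin hω hD ?_
        simp only [map_sub, map_mul, map_zero, eb, eN', eD']
        ring
    · -- B(A-B) square
      right; left
      obtain ⟨τ₀, hτ₀, hsq⟩ := root (v := (β : ℚ_[p]) / (α * (α - β))) hs
        (by push_cast; rw [norm_mul, nAB, nB, one_mul])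
        (by rw [norm_div, norm_mul, nA, nAB, nB]; norm_num)
      have hsq' : α ^ 2 * (α - β) * τ₀ ^ 2 = β ^ 3 := by
        apply PadicInt.ext
        push_cast
        push_cast at hsq
        rw [hsq]
        field_simp
      have hr := congrArg PadicInt.toZMod hsq'
      simp only [map_mul, map_pow, map_sub] at hr
      refine red _ _ τ₀ hτ₀ ?_
      intro ω a b N D hω hD0 ea eb eN eD
      have eD' : PadicInt.toZMod D = 0 := by
        rw [eD, hr, sub_self, mul_zero]
      have eN' : PadicInt.toZMod N ≠ 0 := by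
        intro h0
        rw [eN] at h0
        have h1 : PadicInt.toZMod β ^ 2 * (PadicInt.toZMod α - PadicInt.toZMod β) +
            PadicInt.toZMod α ^ 3 * PadicInt.toZMod τ₀ ^ 2 = 0 :=
          (mul_eq_zero.1 h0).resolve_left (neg_ne_zero.2 hβ)
        have h4 : PadicInt.toZMod β ^ 2 * (PadicInt.toZMod α ^ 2 -
            PadicInt.toZMod α * PadicInt.toZMod β + PadicInt.toZMod β ^ 2) = 0 := by
          linear_combination (PadicInt.toZMod α - PadicInt.toZMod β) * h1 - PadicInt.toZMod α * hr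
        exact mul_ne_zero (pow_ne_zero 2 hβ) hΔ' h4
      have ha : PadicInt.toZMod a ≠ 0 := by
        rw [ea, ← neg_sub]
        exact neg_ne_zero.2 hαβ
      have hb : PadicInt.toZMod b ≠ 0 := by
        rw [eb]
        exact neg_ne_zero.2 hβ
      constructor
      · unfold near
        rw [if_pos rfl]
        exact MC6_inf hω hD0 eD' eN' ha hαβ'
      · unfold near
        rw [if_pos rfl]
        exact MC6_inf hω hD0 eD' eN' hb hαβ'
    · -- -A(A-B) square
      right; right; left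
      obtain ⟨τ₀, hτ₀, hsq⟩ := root (v := (β : ℚ_[p]) / α ^ 2) hs
        (by push_cast; rw [norm_neg, norm_mul, nAB, nA, one_mul])
        (by rw [norm_div, norm_pow, nA, nB]; norm_num)
      have hsq' : α ^ 3 * τ₀ ^ 2 = - (β ^ 2 * (α - β)) := by
        apply PadicInt.ext
        push_cast
        push_cast at hsq
        rw [hsq]
        field_simp
      have hr := congrArg PadicInt.toZMod hsq'
      simp only [map_mul, map_pow, map_sub, map_neg] at hr
      refine red _ _ τ₀ hτ₀ ?_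
      intro ω a b N D hω hD0 ea eb eN eD
      have eN' : PadicInt.toZMod N = 0 := by
        rw [eN, hr]; ring
      have hD : PadicInt.toZMod D ≠ 0 := by
        intro h0
        rw [eD] at h0
        have h1 := (mul_eq_zero.1 h0).resolve_left (mul_ne_zero hβ hαβ)
        have h4 : PadicInt.toZMod β ^ 2 * (PadicInt.toZMod α ^ 2 -
            PadicInt.toZMod α * PadicInt.toZMod β + PadicInt.toZMod β ^ 2) = 0 := by
          linear_combination -PadicInt.toZMod α * h1 +
            (PadicInt.toZMod α - PadicInt.toZMod β) * hr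
        exact mul_ne_zero (pow_ne_zero 2 hβ) hΔ' h4
      constructor
      · unfold near
        rw [if_neg (by decide)]
        have hr : rt (α : ℚ_[p]) β (1, 0) = ((α : ℤ_[p]) : ℚ_[p]) := by
          unfold rt
          rw [if_pos rfl]
        rw [hr]
        refine MC6_fin hω hD ?_
        simp only [map_sub, map_mul, eN']
        ring
      · unfold near
        rw [if_neg (by decide)]
        have hr : rt (α : ℚ_[p]) β (0, 1) = ((β : ℤ_[p]) : ℚ_[p]) := by
          unfold rt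
          rw [if_neg (by decide), if_pos rfl]
        rw [hr]
        refine MC6_fin hω hD ?_
        simp only [map_sub, map_mul, eN']
        ring

private theorem MC6_rt (j : J) : rt A B j.swap = rt B A j := by
  unfold rt
  rcases j with ⟨a, b⟩
  simp only [Prod.swap_prod_mk, Prod.mk.injEq]
  by_cases h1 : b = 1 ∧ a = 0
  · rw [if_pos h1, if_neg (by rintro ⟨h2, _⟩; rw [h1.2] at h2; exact absurd h2 (by decide)),
      if_pos ⟨h1.2, h1.1⟩]
  · rw [if_neg h1]
    by_cases h2 : b = 0 ∧ a = 1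
    · rw [if_pos h2, if_pos ⟨h2.2, h2.1⟩]
    · rw [if_neg h2, if_neg (by rintro ⟨h3, h4⟩; exact h2 ⟨h4, h3⟩),
        if_neg (by rintro ⟨h3, h4⟩; exact h1 ⟨h4, h3⟩)]

private theorem MC6_swap0 (j : J) : j.swap = 0 ↔ j = 0 := by
  rcases j with ⟨a, b⟩
  simp only [Prod.swap_prod_mk, Prod.mk_eq_zero]
  exact and_comm

private theorem MC6_XX (j : J) (w : ℚ_[p]) : XX A B j.swap w = XX B A j w := by
  unfold XX
  rw [MC6_rt]
  by_cases h : j = 0
  · rw [if_pos ((MC6_swap0 j).2 h), if_pos h]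
  · rw [if_neg (fun h' => h ((MC6_swap0 j).1 h')), if_neg h]
    have : df A B (rt B A j) = df B A (rt B A j) := by unfold df; ring
    rw [this]

private theorem MC6_near (j : J) (x : ℚ_[p]) : near A B j.swap x ↔ near B A j x := by
  unfold near
  rw [MC6_rt]
  by_cases h : j = 0
  · rw [if_pos ((MC6_swap0 j).2 h), if_pos h]
  · rw [if_neg (fun h' => h ((MC6_swap0 j).1 h')), if_neg h]

private theorem MC6_CL {i j i' j' : J} (h : CL B A i j i' j') :
    CL A B j.swap i.swap j'.swap i'.swap := by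
  obtain ⟨t₀, ht₀, H⟩ := h
  have ht₀0 : t₀ ≠ 0 := by
    rintro rfl
    rw [norm_zero] at ht₀
    exact zero_ne_one ht₀
  refine ⟨t₀⁻¹, by rw [norm_inv, ht₀, inv_one], ?_⟩
  intro w t hw hw1 ht hn hd
  have ht1 : ‖t‖ = 1 := by
    rw [KumWA.neq_of_sub_lt (y := t₀⁻¹) (by rw [norm_inv, ht₀, inv_one]; exact ht), norm_inv, ht₀,
      inv_one]
  have ht0 : t ≠ 0 := by
    rintro rfl
    rw [norm_zero] at ht1
    exact zero_ne_one ht1
  have hWT : w * t ^ 2 * t⁻¹ ^ 2 = w := by
    field_simp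
  have hsym : ∀ x y : ℚ_[p], nn B A (y - B) (x - A) = nn A B (x - A) (y - B) := by
    intro x y; unfold nn; ring
  have dsym : ∀ x y : ℚ_[p], dd B A (y - B) (x - A) = -dd A B (x - A) (y - B) := by
    intro x y; unfold dd; ring
  have rsym : ∀ x y : ℚ_[p], rho B A y x = rho A B x y := by
    intro x y
    unfold rho
    rw [hsym, dsym, div_neg, neg_div, neg_neg, neg_div]
    ring
  rw [MC6_XX, MC6_XX] at hn hd ⊢
  rw [MC6_near, MC6_near]
  have hT : ‖t⁻¹ - t₀‖ < 1 := by
    have e : t⁻¹ - t₀ = -(t₀ * (t - t₀⁻¹)) / t := by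
      field_simp
      ring
    rw [e, norm_div, norm_neg, norm_mul, ht₀, ht1, one_mul, div_one]
    exact ht
  have hW : ‖w * t ^ 2‖ < 1 := by
    rw [norm_mul, norm_pow, ht1, one_pow, mul_one]
    exact hw1
  obtain ⟨h1, h2⟩ := H (w * t ^ 2) t⁻¹ (mul_ne_zero hw (pow_ne_zero 2 ht0)) hW hT
    (by rw [hWT, hsym]; exact hn) (by rw [hWT, dsym]; exact neg_ne_zero.2 hd)
  rw [hWT] at h1 h2
  constructor
  · have e : ix A B (XX B A j' w) (XX B A i' (w * t ^ 2)) =
        iy B A (XX B A i' (w * t ^ 2)) (XX B A j' w) := by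
      unfold ix iy
      rw [rsym]
    rw [e]
    exact h2
  · have e : iy A B (XX B A j' w) (XX B A i' (w * t ^ 2)) =
        ix B A (XX B A i' (w * t ^ 2)) (XX B A j' w) := by
      unfold ix iy
      rw [rsym]
    rw [e]
    exact h1

theorem cl_OA (h : GB A B) :
    CL A B (1, 1) (1, 0) (1, 1) (1, 0) ∨ CL A B 0 0 (1, 1) (1, 0) ∨
      CL A B (1, 0) (0, 1) (1, 1) (1, 0) ∨ CL A B (0, 1) (1, 1) (1, 1) (1, 0) := by
  have h' : GB B A := ⟨h.h3, h.nB, h.nA, by rw [norm_sub_rev]; exact h.nAB,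
    by rw [add_comm]; exact h.nS⟩
  have s0 : (0 : J).swap = 0 := rfl
  rcases MC6_main h' with h1 | h1 | h1 | h1
  · have h2 := MC6_CL h1
    rw [Prod.swap_prod_mk, Prod.swap_prod_mk] at h2
    exact Or.inl h2
  · have h2 := MC6_CL h1
    rw [s0, Prod.swap_prod_mk, Prod.swap_prod_mk] at h2
    exact Or.inr (Or.inl h2)
  · have h2 := MC6_CL h1
    rw [Prod.swap_prod_mk, Prod.swap_prod_mk, Prod.swap_prod_mk] at h2
    exact Or.inr (Or.inr (Or.inl h2))
  · have h2 := MC6_CL h1
    rw [Prod.swap_prod_mk, Prod.swap_prod_mk, Prod.swap_prod_mk] at h2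
    exact Or.inr (Or.inr (Or.inr h2))

end Pool.Agent.Helper1.FT
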