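import Pool.Agent.Helper1.FT.Loc

/-!
# FT: module MNear
-/

namespace Pool.Agent.Helper1.FT

open Pool.Agent.Helper10.K3 WeierstrassCurve.Affine Classical

variable {p : ℕ} [hp : Fact p.Prime] {A B d : ℚ_[p]}

private theorem MNear_norm_rt (h : GB A B) (j : J) : ‖rt A B j‖ ≤ 1 := by
  unfold rt
  split_ifs
  · exact h.nA.le
  · exact h.nB.le
  · rw [norm_zero]; exact zero_le_one

private theorem MNear_norm_df (h : GB A B) {j : J} (hj : j ≠ 0) : ‖df A B (rt A B j)‖ = 1 := by
  rcases J_cases j with rfl | rfl | rfl | rfl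
  · exact absurd rfl hj
  · rw [rt_A]
    have : df A B A = A * (A - B) := by unfold df; ring
    rw [this, norm_mul, h.nA, h.nAB, mul_one]
  · rw [rt_B]
    have : df A B B = -(B * (A - B)) := by unfold df; ring
    rw [this, norm_neg, norm_mul, h.nB, h.nAB, mul_one]
  · rw [rt_0]
    have : df A B 0 = A * B := by unfold df; ring
    rw [this, norm_mul, h.nA, h.nB, mul_one]

private theorem MNear_zero (h : GB A B) (hd : nd d) {P : E A B d} (hP : P ≠ 0) :
    fil 0 P ↔ 1 < ‖xc P / d‖ := by
  have hd0 : 0 < ‖d‖ := norm_pos_iff.2 (nd_ne hd)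
  have hd1 := nd_lt hd
  have hp1 := KumWA.one_lt_p (p := p)
  have hp0 : (0 : ℝ) < p := by linarith
  rw [norm_div, lt_div_iff₀ hd0, one_mul]
  constructor
  · intro hf
    have h1 := hf.resolve_left hP
    rw [mul_zero, pow_zero] at h1
    linarith
  · intro hX
    right
    rw [mul_zero, pow_zero]
    have hX0 : xc P ≠ 0 := by
      intro e
      rw [e, norm_zero] at hX
      linarith
    have hA : ‖A * d‖ < ‖xc P‖ := by rw [norm_mul, h.nA, one_mul]; exact hX
    have hB : ‖B * d‖ < ‖xc P‖ := by rw [norm_mul, h.nB, one_mul]; exact hX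
    have hY : ‖yc P‖ ^ 2 = ‖xc P‖ ^ 3 := by
      rw [← norm_pow, curve_eq, norm_mul, norm_mul, KumWA.nsub_eq hA, KumWA.nsub_eq hB]
      ring
    have hY0 : yc P ≠ 0 := by
      intro e
      rw [e, norm_zero] at hY
      have : 0 < ‖xc P‖ ^ 3 := pow_pos (norm_pos_iff.2 hX0) 3
      rw [← hY] at this
      norm_num at this
    rw [Padic.norm_eq_zpow_neg_valuation hX0, Padic.norm_eq_zpow_neg_valuation hY0,
      ← zpow_natCast, ← zpow_natCast, ← zpow_mul, ← zpow_mul] at hY
    have hv := zpow_right_injective₀ hp0 hp1.ne' hY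
    push_cast at hv
    have hd2 : (p : ℝ) ^ (-2 : ℤ) ≤ ‖d‖ := by
      have e2 : (p : ℝ) ^ (-2 : ℤ) = ((p : ℝ) ^ 2)⁻¹ := by
        rw [zpow_neg]; norm_cast
      rw [e2]
      rcases hd with h1 | h1
      · rw [h1]
        apply inv_anti₀ hp0
        nlinarith
      · rw [h1]
    rw [Padic.norm_eq_zpow_neg_valuation hX0] at hX ⊢
    have h2 := lt_of_le_of_lt hd2 hX
    rw [zpow_lt_zpow_iff_right₀ hp1] at h2
    have h3 : 0 ≤ -(xc P).valuation := by omega
    exact one_le_zpow₀ hp1.le h3

/-- closeness to a two-torsion point in terms of coordinates -/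
theorem near_iff (h : GB A B) (hd : nd d) {P : E A B d} (hP : P ≠ 0) (j : J) :
    fil 0 (P - torP h.ok (nd_ne hd) j) ↔ near A B j (xc P / d) := by
  have hd0 := nd_ne hd
  by_cases hj : j = 0
  · rw [hj, torP_zero, sub_zero, near, if_pos rfl]
    exact MNear_zero h hd hP
  rw [near, if_neg hj]
  by_cases hx : xc P = rt A B j * d
  · have hPt : P = torP h.ok (nd_ne hd) j := by
      apply pt_ext hP (torP_ne _ _ hj)
      · rw [hx, xc_torP _ _ hj]
      · rw [yc_torP]
        have e := curve_eq P
        have hr := rt_root A B j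
        rw [hx] at e
        have e2 : yc P ^ 2 = 0 := by
          rw [e]
          linear_combination d ^ 3 * hr
        exact pow_eq_zero_iff two_ne_zero |>.1 e2
    constructor
    · intro _
      rw [hx, mul_div_cancel_right₀ _ hd0, sub_self, norm_zero]
      exact one_pos
    · intro _
      rw [← hPt, sub_self]
      exact fil_zero' 0
  · obtain ⟨h1, h2, -⟩ := add_torP h.ok (nd_ne hd) hj hP hx
    have e1 : P - torP h.ok (nd_ne hd) j = P + torP h.ok (nd_ne hd) j := by
      rw [sub_eq_add_neg, neg_torP]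
    rw [e1, MNear_zero h hd h1]
    set X' := xc (P + torP h.ok (nd_ne hd) j) with hX'
    set r := rt A B j with hr
    have e2 : (X' / d - r) * (xc P / d - r) = df A B r := by
      field_simp
      linear_combination h2
    have e3 := congrArg norm e2
    rw [norm_mul, MNear_norm_df h hj] at e3
    have hrn := MNear_norm_rt h j
    rw [← hr] at hrn
    have e4 : 1 < ‖X' / d‖ ↔ 1 < ‖X' / d - r‖ := by
      constructor
      · intro h3
        rw [KumWA.nsub_eq (hrn.trans_lt h3)]
        exact h3
      · intro h3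
        have : X' / d = (X' / d - r) + r := by ring
        rw [this, KumWA.nadd_eq (hrn.trans_lt h3)]
        exact h3
    rw [e4]
    have n1 := norm_nonneg (X' / d - r)
    have n2 := norm_nonneg (xc P / d - r)
    constructor
    · intro h3
      by_contra h4
      push Not at h4
      nlinarith
    · intro h3
      by_contra h4
      push Not at h4
      nlinarith

/-- the points of a ramified twist are close to the two-torsion points -/
theorem ram_cases (h : GB A B) (hd : nd d) (hr : ‖d‖ = (p : ℝ)⁻¹) (P : E A B d) :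
    ∃ j : J, fil 0 (P - torP h.ok (nd_ne hd) j) := by
  have hd0 := nd_ne hd
  have hp1 := KumWA.one_lt_p (p := p)
  have hp0 : (0 : ℝ) < p := by linarith
  by_cases hP : P = 0
  · refine ⟨0, ?_⟩
    rw [hP, torP_zero, sub_zero]
    exact fil_zero' 0
  by_cases hy : yc P = 0
  · obtain ⟨j, hj⟩ := eq_torP h.ok (nd_ne hd) hy
    refine ⟨j, ?_⟩
    rw [← hj, sub_self]
    exact fil_zero' 0
  by_cases hx : 1 < ‖xc P / d‖
  · refine ⟨0, (near_iff h hd hP 0).2 ?_⟩
    rw [near, if_pos rfl]
    exact hx
  push Not at hx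
  set x := xc P / d with hxd
  have e := yc_sq_ff hd0 P
  rw [← hxd] at e
  have hf0 : ff A B x ≠ 0 := by
    intro h0
    rw [h0, mul_zero] at e
    exact hy (pow_eq_zero_iff two_ne_zero |>.1 e)
  have hfle : ‖ff A B x‖ ≤ 1 := by
    unfold ff
    exact KumWA.norm_mul_le_one (KumWA.norm_mul_le_one hx (KumWA.nsub_le hx h.nA.le))
      (KumWA.nsub_le hx h.nB.le)
  have hflt : ‖ff A B x‖ < 1 := by
    refine lt_of_le_of_ne hfle ?_
    intro h1
    have h2 := congrArg norm e
    rw [norm_mul, h1, mul_one, norm_pow, norm_pow, hr, Padic.norm_eq_zpow_neg_valuation hy,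
      ← zpow_natCast, ← zpow_natCast, ← zpow_neg_one, ← zpow_mul, ← zpow_mul] at h2
    have hv := zpow_right_injective₀ hp0 hp1.ne' h2
    push_cast at hv
    omega
  have hex : ∃ j : J, j ≠ 0 ∧ ‖x - rt A B j‖ < 1 := by
    by_contra hc
    push Not at hc
    have h1 := hc (1, 1) (by decide)
    have h2 := hc (1, 0) (by decide)
    have h3 := hc (0, 1) (by decide)
    rw [rt_0, sub_zero] at h1
    rw [rt_A] at h2
    rw [rt_B] at h3
    have h4 : 1 ≤ ‖ff A B x‖ := by
      unfold ff
      rw [norm_mul, norm_mul]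
      exact one_le_mul_of_one_le_of_one_le (one_le_mul_of_one_le_of_one_le h1 h2) h3
    linarith
  obtain ⟨j, hj, hj2⟩ := hex
  refine ⟨j, (near_iff h hd hP j).2 ?_⟩
  rw [near, if_neg hj]
  exact hj2

end Pool.Agent.Helper1.FT
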