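import Pool.Agent.Helper1.FT.MLev
import Pool.Agent.Helper1.FT.MNear
import Pool.Agent.Helper1.FT.MRep

/-!
# FT: module MLk
-/

namespace Pool.Agent.Helper1.FT

open Pool.Agent.Helper10.K3 WeierstrassCurve.Affine Classical

private theorem MLk_fin {K : Type*} [Field K] {q : Polynomial K} (hq : q ≠ 0) :
    {b : K | q.eval b = 0}.Finite :=
  Polynomial.finite_setOfPred_isRoot hq

/-- the involution is undefined only for finitely many `b` -/
private theorem MLk_bad {K : Type*} [Field K] {A B : K} (h : Ok A B) {a : K} (ha : a ≠ 0) :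
    {b : K | nn A B a b = 0 ∨ dd A B a b = 0 ∨ ll A B a b = 0}.Finite := by
  have h1 : {b : K | nn A B a b = 0}.Finite := by
    let q : Polynomial K := Polynomial.C A * Polynomial.X ^ 2 +
      Polynomial.C (A * (2 * B - A)) * Polynomial.X +
      Polynomial.C (B * a ^ 2 + B * (2 * A - B) * a)
    have hq : q ≠ 0 := by
      intro h0
      have h2 : q.coeff 2 = A := by
        simp only [q, Polynomial.coeff_add, Polynomial.coeff_C_mul, Polynomial.coeff_X_pow,
          Polynomial.coeff_X, Polynomial.coeff_C]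
        norm_num
      rw [h0, Polynomial.coeff_zero] at h2
      exact h.hA h2.symm
    refine (MLk_fin hq).subset ?_
    intro b hb
    have hb' : nn A B a b = 0 := hb
    show q.eval b = 0
    rw [← hb']
    simp [q, nn]
    ring
  have h2 : {b : K | dd A B a b = 0}.Finite := by
    let q : Polynomial K := Polynomial.C ((2 * A - B) * a + A * (A - B)) * Polynomial.X ^ 2 +
      Polynomial.C (-(2 * B - A) * a ^ 2) * Polynomial.X +
      Polynomial.C ((A - B) * B * a ^ 2)
    have hq : q ≠ 0 := by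
      intro h0
      have h2 : q.eval 0 = (A - B) * B * a ^ 2 := by
        simp [q]
      rw [h0, Polynomial.eval_zero] at h2
      exact mul_ne_zero (mul_ne_zero h.sub_ne h.hB) (pow_ne_zero 2 ha) h2.symm
    refine (MLk_fin hq).subset ?_
    intro b hb
    have hb' : dd A B a b = 0 := hb
    show q.eval b = 0
    rw [← hb']
    simp [q, dd]
    ring
  have h3 : {b : K | ll A B a b = 0}.Finite := by
    have hf : ({-a, B * a / (A - B), B * a / A, -((A - B) * a) / A} : Set K).Finite :=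
      Set.toFinite _
    refine hf.subset ?_
    intro b hb
    have hb' : (a + b) * ((A - B) * b - B * a) * (A * b - B * a) * (A * b + (A - B) * a) = 0 := hb
    have hA := h.hA
    have hAB := h.sub_ne
    simp only [Set.mem_insert_iff, Set.mem_singleton_iff]
    rcases mul_eq_zero.1 hb' with h4 | h4
    · rcases mul_eq_zero.1 h4 with h5 | h5
      · rcases mul_eq_zero.1 h5 with h6 | h6
        · left
          linear_combination h6
        · right; left
          rw [eq_div_iff hAB]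
          linear_combination h6
      · right; right; left
        rw [eq_div_iff hA]
        linear_combination h5
    · right; right; right
      rw [eq_div_iff hA]
      linear_combination h4
  refine ((h1.union h2).union h3).subset ?_
  rintro b (hb | hb | hb)
  · exact Or.inl (Or.inl hb)
  · exact Or.inl (Or.inr hb)
  · exact Or.inr hb

variable {p : ℕ} [hp : Fact p.Prime] {A B d : ℚ_[p]}

private theorem MLk_rt (h : GB A B) (j : J) : ‖rt A B j‖ ≤ 1 := by
  rcases J_cases j with rfl | rfl | rfl | rfl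
  · unfold rt
    rw [if_neg (by decide), if_neg (by decide), norm_zero]
    exact zero_le_one
  · rw [rt_A]; exact h.nA.le
  · rw [rt_B]; exact h.nB.le
  · rw [rt_0, norm_zero]; exact zero_le_one

private theorem MLk_den (h : GB A B) (j : J) {s : ℚ_[p]} (hs : ‖s‖ < 1) :
    1 - rt A B j * s ≠ 0 := by
  intro h0
  have h1 : ‖rt A B j * s‖ < 1 := by
    rw [norm_mul]
    calc ‖rt A B j‖ * ‖s‖ ≤ 1 * ‖s‖ := mul_le_mul_of_nonneg_right (MLk_rt h j) (norm_nonneg _)
      _ < 1 := by rw [one_mul]; exact hs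
  have h2 : rt A B j * s = 1 := by linear_combination -h0
  rw [h2, norm_one] at h1
  exact lt_irrefl _ h1

private theorem MLk_inj (h : GB A B) (j : J) {s s' : ℚ_[p]} (hs : ‖s‖ < 1) (hs' : ‖s'‖ < 1)
    (e : XX A B j s = XX A B j s') : s = s' := by
  unfold XX at e
  by_cases hj : j = 0
  · rw [if_pos hj, if_pos hj] at e
    exact inv_inj.1 e
  · rw [if_neg hj, if_neg hj] at e
    have h1 := MLk_den h j hs
    have h2 := MLk_den h j hs'
    have h3 := df_ne h.ok hj
    have e' := add_left_cancel e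
    rw [div_eq_div_iff h1 h2] at e'
    have e2 : df A B (rt A B j) * (s - s') = 0 := by linear_combination e'
    exact sub_eq_zero.1 ((mul_eq_zero.1 e2).resolve_left h3)

private theorem MLk_xc (h : GB A B) (hd : d ≠ 0) (i : J) {η : E A B d} (hη : η ≠ 0)
    {s : ℚ_[p]} (hs : s ≠ 0) (hs1 : ‖s‖ < 1) (hx : xc η = d / s) :
    yc (torP h.ok hd i + η) ≠ 0 ∧ xc (torP h.ok hd i + η) / d = XX A B i s := by
  have hden : ∀ j : J, xc η - rt A B j * d ≠ 0 := by
    intro j
    have e : xc η - rt A B j * d = d * (1 - rt A B j * s) / s := by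
      rw [hx]; field_simp
    rw [e]
    exact div_ne_zero (mul_ne_zero hd (MLk_den h j hs1)) hs
  have hy : yc η ≠ 0 := by
    intro h0
    have e := curve_eq η
    rw [h0] at e
    have hA := hden (1, 0)
    have hB := hden (0, 1)
    have h0' := hden (1, 1)
    rw [rt_A] at hA
    rw [rt_B] at hB
    rw [rt_0, zero_mul, sub_zero] at h0'
    exact mul_ne_zero (mul_ne_zero h0' hA) hB (by rw [← e]; ring)
  by_cases hi : i = 0
  · subst hi
    rw [torP_zero, zero_add]
    refine ⟨hy, ?_⟩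
    unfold XX
    rw [if_pos rfl, hx]
    field_simp
  · have hne : xc η ≠ rt A B i * d := sub_ne_zero.1 (hden i)
    obtain ⟨h1, h2, h3⟩ := add_torP h.ok hd hi hη hne
    rw [add_comm (torP h.ok hd i) η]
    have hD := df_ne h.ok hi
    have hden' := MLk_den h i hs1
    refine ⟨?_, ?_⟩
    · intro h0
      rw [h0, zero_mul] at h3
      have h4 : yc η * (xc (η + torP h.ok hd i) - rt A B i * d) = 0 := by linear_combination h3
      have h5 := (mul_eq_zero.1 h4).resolve_left hy
      rw [h5, zero_mul] at h2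
      exact mul_ne_zero hD (pow_ne_zero 2 hd) h2.symm
    · unfold XX
      rw [if_neg hi]
      have e : xc η - rt A B i * d = d * (1 - rt A B i * s) / s := by
        rw [hx]; field_simp
      rw [e] at h2
      have h4 : (xc (η + torP h.ok hd i) - rt A B i * d) * (d * (1 - rt A B i * s)) =
          df A B (rt A B i) * d ^ 2 * s := by
        rw [← h2]; field_simp
      have h5 : (xc (η + torP h.ok hd i) - rt A B i * d) * (1 - rt A B i * s) =
          df A B (rt A B i) * d * s := by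
        apply mul_left_cancel₀ hd
        linear_combination h4
      rw [div_eq_iff hd]
      have h6 : xc (η + torP h.ok hd i) - rt A B i * d =
          df A B (rt A B i) * d * s / (1 - rt A B i * s) := by
        rw [eq_div_iff hden']; exact h5
      have h7 : xc (η + torP h.ok hd i) = rt A B i * d +
        df A B (rt A B i) * d * s / (1 - rt A B i * s) := by linear_combination h6
      rw [h7]
      field_simp

/-- from the computation in coordinates to the links between the nodes -/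
theorem llink_of_CL (h : GB A B) {i j i' j' : J} (hc : CL A B i j i' j') :
    LLink h.ok i j i' j' := by
  intro d hd c
  obtain ⟨t₀, ht₀, hCL⟩ := hc
  have hd0 := nd_ne hd
  have hp0 : (p : ℚ_[p]) ≠ 0 := by exact_mod_cast hp.1.ne_zero
  have hpr : (0 : ℝ) < p := KumWA.p_pos (p := p)
  have hpn : ‖(p : ℚ_[p]) ^ c‖ = ((p : ℝ) ^ c)⁻¹ := by
    rw [norm_pow, Padic.norm_p, inv_pow]
  have hpc : ‖(p : ℚ_[p]) ^ c‖ ≤ 1 := by
    rw [hpn]
    exact inv_le_one_of_one_le₀ (one_le_pow₀ (KumWA.one_lt_p (p := p)).le)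
  have ht1 : (p : ℚ_[p]) ^ c ≠ 0 := pow_ne_zero _ hp0
  have hw0 : d * ((p : ℚ_[p]) ^ c) ^ 2 ≠ 0 := mul_ne_zero hd0 (pow_ne_zero 2 ht1)
  have hw1 : ‖d * ((p : ℚ_[p]) ^ c) ^ 2‖ < 1 := by
    rw [norm_mul]
    calc ‖d‖ * ‖((p : ℚ_[p]) ^ c) ^ 2‖ ≤ ‖d‖ * 1 :=
          mul_le_mul_of_nonneg_left (KumWA.norm_pow_le_one hpc 2) (norm_nonneg _)
      _ < 1 := by rw [mul_one]; exact nd_lt hd
  set w : ℚ_[p] := d * ((p : ℚ_[p]) ^ c) ^ 2 with hw
  obtain ⟨η₁, hη₁, hx₁⟩ := exists_eta h hd ht1 hpc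
  have hx₁' : xc η₁ = d / w := by
    rw [hx₁, hw]; field_simp
  obtain ⟨hy₁, hX₁⟩ := MLk_xc h hd0 i' hη₁ hw0 hw1 hx₁'
  have hxA : XX A B i' w - A ≠ 0 := by
    intro h0
    have h1 := yc_sq_ff hd0 (torP h.ok hd0 i' + η₁)
    rw [hX₁] at h1
    have h2 : ff A B (XX A B i' w) = 0 := by
      unfold ff
      rw [h0]; ring
    rw [h2, mul_zero] at h1
    exact hy₁ (pow_eq_zero_iff two_ne_zero |>.1 h1)
  -- choice of `t`
  have hball : {t : ℚ_[p] | ‖t - t₀‖ < 1}.Infinite := by
    apply infinite_of_mem_nhds t₀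
    have := Metric.ball_mem_nhds t₀ (one_pos)
    refine Filter.mem_of_superset this ?_
    intro t ht
    rw [Metric.mem_ball, dist_eq_norm] at ht
    exact ht
  have htn : ∀ t : ℚ_[p], ‖t - t₀‖ < 1 → ‖t‖ = 1 := by
    intro t ht
    rw [← ht₀] at ht ⊢
    exact KumWA.neq_of_sub_lt ht
  have hwt : ∀ t : ℚ_[p], ‖t - t₀‖ < 1 → ‖w * t ^ 2‖ < 1 := by
    intro t ht
    rw [norm_mul, norm_pow, htn t ht, one_pow, mul_one]
    exact hw1
  have hinj : Set.InjOn (fun t : ℚ_[p] => XX A B j' (w * t ^ 2) - B)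
      {t : ℚ_[p] | ‖t - t₀‖ < 1} := by
    intro t ht t' ht' e
    have e1 : XX A B j' (w * t ^ 2) = XX A B j' (w * t' ^ 2) := by
      have : XX A B j' (w * t ^ 2) - B = XX A B j' (w * t' ^ 2) - B := e
      linear_combination this
    have e2 := MLk_inj h j' (hwt t ht) (hwt t' ht') e1
    have e3 : t ^ 2 = t' ^ 2 := mul_left_cancel₀ hw0 e2
    rcases sq_eq_sq_iff_eq_or_eq_neg.1 e3 with e4 | e4
    · exact e4
    · exfalso
      have h1 : ‖2 * t₀‖ < 1 := by
        have e5 : 2 * t₀ = -((t - t₀) + (t' - t₀)) := by rw [e4]; ring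
        rw [e5, norm_neg]
        exact KumWA.nadd_lt ht ht'
      rw [norm_mul, KumWA.norm_two h.ne_two, one_mul, ht₀] at h1
      exact lt_irrefl _ h1
  obtain ⟨b, ⟨t, ht, rfl⟩, hb⟩ :=
    (hball.image hinj).exists_notMem_finite (MLk_bad h.ok hxA)
  dsimp only at hb
  have hb' : nn A B (XX A B i' w - A) (XX A B j' (w * t ^ 2) - B) ≠ 0 ∧
      dd A B (XX A B i' w - A) (XX A B j' (w * t ^ 2) - B) ≠ 0 ∧
      ll A B (XX A B i' w - A) (XX A B j' (w * t ^ 2) - B) ≠ 0 := by
    refine ⟨fun h1 => hb (Or.inl h1), fun h1 => hb (Or.inr (Or.inl h1)),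
      fun h1 => hb (Or.inr (Or.inr h1))⟩
  have ht' : ‖t - t₀‖ < 1 := ht
  have htn' := htn t ht'
  have ht0 : t ≠ 0 := by
    intro h0
    rw [h0, norm_zero] at htn'
    exact zero_ne_one htn'
  have ht2 : (p : ℚ_[p]) ^ c * t ≠ 0 := mul_ne_zero ht1 ht0
  have ht2n : ‖(p : ℚ_[p]) ^ c * t‖ ≤ 1 := by rw [norm_mul, htn', mul_one]; exact hpc
  obtain ⟨η₂, hη₂, hx₂⟩ := exists_eta h hd ht2 ht2n
  have hx₂' : xc η₂ = d / (w * t ^ 2) := by
    rw [hx₂, hw]; field_simp
  obtain ⟨hy₂, hX₂⟩ := MLk_xc h hd0 j' hη₂ (mul_ne_zero hw0 (pow_ne_zero 2 ht0)) (hwt t ht') hx₂'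
  -- the point of the surface
  let u : Pt A B := mkPt hd0 (torP h.ok hd0 i' + η₁) (torP h.ok hd0 j' + η₂) hy₁ hy₂
  have hux : u.x = XX A B i' w := hX₁
  have huy : u.y = XX A B j' (w * t ^ 2) := hX₂
  have hu : IOK u := by
    unfold IOK
    rw [hux, huy]
    exact hb'
  have hrep : Rep u d (torP h.ok hd0 i' + η₁) (torP h.ok hd0 j' + η₂) := rep_mkPt hd0 hy₁ hy₂
  obtain ⟨l₀, hl₀⟩ := exists_rep_nd h (iota h.ok u hu)
  have hsig : SigL h.ok ⟨d, hd, torP h.ok hd0 i' + η₁, torP h.ok hd0 j' + η₂⟩ l₀ :=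
    ⟨u, hu, hrep, hl₀⟩
  obtain ⟨hn1, hn2⟩ := hCL w t hw0 hw1 ht' hb'.1 hb'.2.1
  have hpow : ((p : ℝ) ^ c) ^ 2 = (p : ℝ) ^ (2 * c) := by rw [← pow_mul, mul_comm]
  refine ⟨l₀, η₁, η₂, ⟨?_, ?_⟩, hη₁, ?_, hη₂, ?_, hsig.symm⟩
  · rw [near_iff h l₀.hd hl₀.2.1]
    have e : xc l₀.Q / l₀.d = ix A B (XX A B i' w) (XX A B j' (w * t ^ 2)) := by
      rw [← hl₀.2.2.2.1, mul_div_cancel_right₀ _ (nd_ne l₀.hd), iota_x, hux, huy]
    rw [e]
    exact hn1
  · rw [near_iff h l₀.hd hl₀.2.2.1]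
    have e : xc l₀.R / l₀.d = iy A B (XX A B i' w) (XX A B j' (w * t ^ 2)) := by
      rw [← hl₀.2.2.2.2.1, mul_div_cancel_right₀ _ (nd_ne l₀.hd), iota_y, hux, huy]
    rw [e]
    exact hn2
  · rw [hx₁, norm_inv, norm_pow, hpn, inv_pow, inv_inv, hpow]
  · rw [hx₂, norm_inv, norm_pow, norm_mul, htn', mul_one, hpn, inv_pow, inv_inv, hpow]

end Pool.Agent.Helper1.FT
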