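import Pool.Agent.Helper1.FT.MNear
import Pool.Agent.Helper10.K3.Reduc2

/-!
# FT: module MCyc
-/

namespace Pool.Agent.Helper1.FT

open Pool.Agent.Helper10.K3 WeierstrassCurve.Affine Classical

variable {p : ℕ} [hp : Fact p.Prime] {A B d : ℚ_[p]}

/-- integral version of `rt` -/
noncomputable def MCyc_rt (α β : ℤ_[p]) (j : J) : ℤ_[p] :=
  if j = (1, 0) then α else if j = (0, 1) then β else 0

theorem MCyc_rt_coe (α β : ℤ_[p]) (j : J) :
    ((MCyc_rt α β j : ℤ_[p]) : ℚ_[p]) = rt (α : ℚ_[p]) (β : ℚ_[p]) j := by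
  unfold MCyc_rt rt
  split_ifs <;> rfl

theorem MCyc_rt_red (α β : ℤ_[p]) (j : J) :
    PadicInt.toZMod (MCyc_rt α β j) = rt (PadicInt.toZMod α) (PadicInt.toZMod β) j := by
  unfold MCyc_rt rt
  split_ifs <;> first | rfl | exact map_zero _

theorem MCyc_two_tor {F : Type*} [Field F] [DecidableEq F] {A' B' a b δ : F} (h : Ok A' B')
    (hd : δ ≠ 0) (ha : a = -(A' + B')) (hb : b = A' * B') (R : (TW a b δ).Point)
    (hR : R + R = 0) : R = 0 ∨ ∃ j : J, j ≠ 0 ∧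
      ∃ hn : (TW a b δ).Nonsingular (rt A' B' j * δ) 0, R = Point.some (rt A' B' j * δ) 0 hn := by
  subst ha hb
  obtain ⟨j, hj⟩ := eq_torP h hd (yc_of_add_self h hR)
  by_cases h0 : j = 0
  · left
    rw [hj, h0, torP_zero]
  · right
    refine ⟨j, h0, ?_⟩
    rw [hj, torP, if_neg h0]
    exact ⟨_, rfl⟩

/-- a homomorphism to an abelian group whose values are multiples of one element has a cyclic
range -/
theorem MCyc_range {G H : Type*} [AddCommGroup G] [AddCommGroup H] (φ : G →+ H) (g : H)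
    (hφ : ∀ P, ∃ k : ℤ, φ P = k • g) : ∃ G₁ : G, ∀ P, ∃ k : ℤ, φ P = k • φ G₁ := by
  have hmem : ∀ P, φ P ∈ AddSubgroup.zmultiples g := by
    intro P
    obtain ⟨k, hk⟩ := hφ P
    exact AddSubgroup.mem_zmultiples_iff.2 ⟨k, hk.symm⟩
  obtain ⟨⟨R, hR⟩, hg⟩ := (inferInstance :
    IsAddCyclic (φ.codRestrict (AddSubgroup.zmultiples g) hmem).range)
  obtain ⟨G₁, hG⟩ := hR
  refine ⟨G₁, fun P => ?_⟩
  obtain ⟨k, hk⟩ := hg ⟨_, ⟨P, rfl⟩⟩
  refine ⟨k, ?_⟩
  have h1 := congrArg Subtype.val (congrArg Subtype.val hk)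
  have h2 := congrArg Subtype.val hG
  simp only [AddSubgroup.coe_zsmul] at h1
  change k • ((R : AddSubgroup.zmultiples g) : H) = φ P at h1
  change φ G₁ = (R : H) at h2
  rw [← h1, h2]

theorem MCyc_two (h : GB A B) : (2 : ZMod p) ≠ 0 := by
  intro e
  have e' : ((2 : ℕ) : ZMod p) = 0 := by exact_mod_cast e
  have h1 := Nat.le_of_dvd (by norm_num) ((ZMod.natCast_eq_zero_iff 2 p).1 e')
  have := h.h3
  omega

/-- structure of the unramified twists -/
theorem unr_cyc (h : Good p A B) (hd : nd d) (hu : ‖d‖ = ((p : ℝ) ^ 2)⁻¹) :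
    ∃ g : E A B d, ∀ P : E A B d, ∃ (k : ℤ) (j : J),
      fil 0 (P - k • g - torP h.ok (nd_ne hd) j) := by
  obtain ⟨α, rfl⟩ := exists_coe_of_norm_le h.nA.le
  obtain ⟨β, rfl⟩ := exists_coe_of_norm_le h.nB.le
  have hp0 : (p : ℚ_[p]) ≠ 0 := by exact_mod_cast hp.1.ne_zero
  have hpr : (p : ℝ) ≠ 0 := by exact_mod_cast hp.1.ne_zero
  have hn : ‖d / (p : ℚ_[p]) ^ 2‖ = 1 := by
    rw [norm_div, hu, norm_pow, Padic.norm_p]
    field_simp
  obtain ⟨d₀, hd₀⟩ := exists_coe_of_norm_le hn.le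
  have hdd : d = ((d₀ * p ^ 2 : ℤ_[p]) : ℚ_[p]) := by
    push_cast
    rw [hd₀]
    field_simp
  subst hdd
  have hn0 : ‖d₀‖ = 1 := by
    rw [← hd₀] at hn
    exact hn
  have hA : PadicInt.toZMod α ≠ 0 := (toZMod_ne_zero_iff α).2 h.nA
  have hB : PadicInt.toZMod β ≠ 0 := (toZMod_ne_zero_iff β).2 h.nB
  have hAB : PadicInt.toZMod α ≠ PadicInt.toZMod β := by
    rw [← sub_ne_zero, ← map_sub]
    refine (toZMod_ne_zero_iff _).2 ?_
    have := h.nAB
    rw [← PadicInt.coe_sub] at this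
    exact this
  have hok : Ok (PadicInt.toZMod α) (PadicInt.toZMod β) := ⟨MCyc_two h.toGB, hA, hB, hAB⟩
  have ea : PadicInt.toZMod (-(α + β)) = -(PadicInt.toZMod α + PadicInt.toZMod β) := by
    rw [map_neg, map_add]
  have eb : PadicInt.toZMod (α * β) = PadicInt.toZMod α * PadicInt.toZMod β := map_mul _ _ _
  have H : GoodRed (-(α + β)) (α * β) d₀ := by
    refine ⟨MCyc_two h.toGB, ?_, (toZMod_ne_zero_iff d₀).2 hn0, ?_⟩
    · rw [eb]; exact hok.b_ne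
    · rw [ea, eb]; exact hok.ab_ne
  obtain ⟨g, hg⟩ : ∃ g : (TW (PadicInt.toZMod (-(α + β))) (PadicInt.toZMod (α * β))
      (PadicInt.toZMod d₀)).Point, ∀ P : (TW (PadicInt.toZMod (-(α + β)))
      (PadicInt.toZMod (α * β)) (PadicInt.toZMod d₀)).Point, ∃ k : ℤ,
        (2 : ℤ) • P = k • ((2 : ℤ) • g) := by
    rw [ea, eb]
    exact h.cyc α β rfl rfl _ H.hd
  obtain ⟨G, hG⟩ := MCyc_range ((zsmulAddGroupHom (2 : ℤ)).comp (redHom H)) ((2 : ℤ) • g)
    (fun P => hg _)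
  have hdiv : (p : ℤ_[p]) ∣ d₀ * p ^ 2 := ⟨d₀ * p, by ring⟩
  refine ⟨scp H G, fun P => ?_⟩
  obtain ⟨P', rfl⟩ := scp_surjective H P
  obtain ⟨k, hk⟩ := hG P'
  have hk' : (2 : ℤ) • redHom H P' = k • ((2 : ℤ) • redHom H G) := hk
  have hR : redHom H (P' - k • G) + redHom H (P' - k • G) = 0 := by
    have e1 : redHom H (P' - k • G) = redHom H P' - k • redHom H G := by
      rw [map_sub, map_zsmul]
    have e2 : ∀ a b : (TW (PadicInt.toZMod (-(α + β))) (PadicInt.toZMod (α * β))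
        (PadicInt.toZMod d₀)).Point, (2 : ℤ) • a = k • ((2 : ℤ) • b) →
        (a - k • b) + (a - k • b) = 0 := by
      intro a b hab
      have e3 : (a - k • b) + (a - k • b) = (2 : ℤ) • a - k • ((2 : ℤ) • b) := by
        rw [two_zsmul, two_zsmul, zsmul_add]
        abel
      rw [e3, hab, sub_self]
    rw [e1]
    exact e2 _ _ hk'
  rcases MCyc_two_tor hok H.hd ea eb _ hR with hR | ⟨j, hj, hns, hR⟩
  · refine ⟨k, 0, ?_⟩
    rw [torP_zero, sub_zero]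
    refine (mem_Fil_iff hdiv 0 _).1 ?_
    rw [redHom_eq_zero_iff, map_sub, map_zsmul] at hR
    exact hR
  · refine ⟨k, j, ?_⟩
    have hroot : rt (α : ℚ_[p]) (β : ℚ_[p]) j * (rt (α : ℚ_[p]) (β : ℚ_[p]) j - α) *
        (rt (α : ℚ_[p]) (β : ℚ_[p]) j - β) = 0 := rt_root _ _ _
    have hns1 : (TW ((-(α + β) : ℤ_[p]) : ℚ_[p]) ((α * β : ℤ_[p]) : ℚ_[p]) d₀).Nonsingular
        ((MCyc_rt α β j * d₀ : ℤ_[p]) : ℚ_[p]) ((0 : ℤ_[p]) : ℚ_[p]) := by
      refine tw_nonsingular _ _ _ two_ne_zero H.b_ne H.d_ne H.ab_ne ?_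
      push_cast
      rw [MCyc_rt_coe]
      linear_combination (-(d₀ : ℚ_[p]) ^ 3) * hroot
    have hns2 : (TW (PadicInt.toZMod (-(α + β))) (PadicInt.toZMod (α * β))
        (PadicInt.toZMod d₀)).Nonsingular (PadicInt.toZMod (MCyc_rt α β j * d₀))
        (PadicInt.toZMod 0) := by
      rw [map_mul PadicInt.toZMod (MCyc_rt α β j) d₀, MCyc_rt_red, map_zero]
      exact hns
    have hT : redHom H (Point.some _ _ hns1) = redHom H (P' - k • G) := by
      refine Red.unique (redHom_spec H _) (Or.inr ⟨_, _, hns1, hns2, rfl, ?_⟩)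
      rw [hR]
      simp only [Point.some.injEq]
      rw [map_mul PadicInt.toZMod (MCyc_rt α β j) d₀, MCyc_rt_red, map_zero]
      exact ⟨rfl, rfl⟩
    have hT2 : scp H (Point.some _ _ hns1) = torP h.ok (nd_ne hd) j := by
      refine pt_ext (Point.some_ne_zero _) (torP_ne _ _ hj) ?_ ?_
      · rw [xc_torP _ _ hj]
        change (p : ℚ_[p]) ^ 2 * ((MCyc_rt α β j * d₀ : ℤ_[p]) : ℚ_[p]) = _
        push_cast
        rw [MCyc_rt_coe]
        ring
      · rw [yc_torP]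
        change (p : ℚ_[p]) ^ 3 * ((0 : ℤ_[p]) : ℚ_[p]) = 0
        rw [PadicInt.coe_zero, mul_zero]
    refine (mem_Fil_iff hdiv 0 _).1 ?_
    have h3 : redHom H (P' - k • G - Point.some _ _ hns1) = 0 := by
      rw [map_sub, hT, sub_self]
    rw [redHom_eq_zero_iff, map_sub, map_sub, map_zsmul, hT2] at h3
    exact h3

end Pool.Agent.Helper1.FT
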