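import Pool.Agent.Helper1.FT.MT3
import Pool.Agent.Helper1.FT.MCyc

/-!
# FT: module MTr (transitivity)
-/

namespace Pool.Agent.Helper1.FT

open Pool.Agent.Helper10.K3 WeierstrassCurve.Affine Classical

variable {p : ℕ} [hp : Fact p.Prime] {A B d : ℚ_[p]}

private theorem MTr_swap {G : Loc A B → Prop} {h : Ok A B} (hG : GS h G) {d : ℚ_[p]} {hd : nd d}
    {Q R : E A B d} (hg : G ⟨d, hd, Q, R⟩) : G ⟨d, hd, R, Q⟩ := by
  have h1 := hG.sh2 _ 1 hg
  have h2 := hG.sh1 _ (-1) h1
  dsimp only at h1 h2
  have e1 : Q + (-1 : ℤ) • (R + (1 : ℤ) • Q) = -R := by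
    rw [one_zsmul, neg_one_zsmul]; abel
  rw [e1] at h2
  have h3 := hG.sh2 _ 1 h2
  dsimp only at h3
  have e2 : R + (1 : ℤ) • Q + (1 : ℤ) • -R = Q := by
    rw [one_zsmul, one_zsmul]; abel
  rw [e2] at h3
  have h4 := hG.neg1 _ h3
  dsimp only at h4
  rwa [neg_neg] at h4

private theorem MTr_base {G : Loc A B → Prop} (h : GB A B) (hG : GS h.ok G) {d : ℚ_[p]} {hd : nd d}
    {Q R : E A B d} (hR : fil 0 R) : G ⟨d, hd, Q, R⟩ := by
  by_cases h2 : ‖A - 2 * B‖ = 1
  · apply MTr_swap hG
    refine tc_all h hG h2 ⟨d, hd, R, Q⟩ 0 ?_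
    dsimp only
    rw [torP_zero, sub_zero]
    exact hR
  · have hle : ‖A - 2 * B‖ < 1 := by
      refine lt_of_le_of_ne ?_ h2
      apply KumWA.nsub_le h.nA.le
      exact KumWA.norm_mul_le_one (KumWA.norm_two h.ne_two).le h.nB.le
    have h3 : ‖(3 : ℚ_[p])‖ = 1 := by
      have h4 : ‖((3 : ℕ) : ℚ_[p])‖ = 1 := by
        apply KumWA.norm_natCast_eq_one
        intro hdvd
        have := Nat.le_of_dvd (by norm_num) hdvd
        have := h.h3
        omega
      exact_mod_cast h4
    have h5 : ‖B - 2 * A‖ = 1 := by
      have e : B - 2 * A = -(3 * B) - 2 * (A - 2 * B) := by ring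
      have h6 : ‖-(3 * B)‖ = 1 := by rw [norm_neg, norm_mul, h3, h.nB, one_mul]
      have h7 : ‖2 * (A - 2 * B)‖ < 1 := by
        rw [norm_mul, KumWA.norm_two h.ne_two, one_mul]; exact hle
      rw [e]
      have h8 : ‖(-(3 * B) - 2 * (A - 2 * B)) - -(3 * B)‖ < ‖-(3 * B)‖ := by
        rw [h6]
        have : (-(3 * B) - 2 * (A - 2 * B)) - -(3 * B) = -(2 * (A - 2 * B)) := by ring
        rw [this, norm_neg]
        exact h7
      rw [KumWA.neq_of_sub_lt h8, h6]
    refine td_all h hG h5 ⟨d, hd, Q, R⟩ 0 ?_
    dsimp only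
    rw [torP_zero, sub_zero]
    exact hR

private theorem MTr_unram {G : Loc A B → Prop} (h : GB A B) (hG : GS h.ok G) (d : ℚ_[p])
    (hd : nd d) {g₁ : E A B d} : ∀ (n : ℕ) (k l : ℤ), k.natAbs + l.natAbs ≤ n →
      ∀ Q R : E A B d, fil 0 (Q - k • g₁) → fil 0 (R - l • g₁) → G ⟨d, hd, Q, R⟩ := by
  intro n
  induction n with
  | zero =>
    intro k l hkl Q R hQ hR
    have hl : l = 0 := by omega
    rw [hl, zero_zsmul, sub_zero] at hR
    exact MTr_base h hG hR
  | succ n ih =>
    intro k l hkl Q R hQ hR
    by_cases hl : l = 0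
    · rw [hl, zero_zsmul, sub_zero] at hR
      exact MTr_base h hG hR
    by_cases hk : k = 0
    · rw [hk, zero_zsmul, sub_zero] at hQ
      exact MTr_swap hG (MTr_base h hG hQ)
    -- Euclid
    have red1 : ∀ s : ℤ, (k + s * l).natAbs + l.natAbs ≤ n → G ⟨d, hd, Q, R⟩ := by
      intro s hs
      have h1 := ih (k + s * l) l hs (Q + s • R) R (by
        have e : Q + s • R - (k + s * l) • g₁ = (Q - k • g₁) + s • (R - l • g₁) := by
          rw [add_zsmul, mul_zsmul, zsmul_sub]; abel
        rw [e]
        exact fil_add h hd hQ (fil_zsmul h hd hR s)) hR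
      have h2 := hG.sh1 _ (-s) h1
      dsimp only at h2
      rwa [neg_zsmul, add_neg_cancel_right] at h2
    have red2 : ∀ s : ℤ, k.natAbs + (l + s * k).natAbs ≤ n → G ⟨d, hd, Q, R⟩ := by
      intro s hs
      have h1 := ih k (l + s * k) hs Q (R + s • Q) hQ (by
        have e : R + s • Q - (l + s * k) • g₁ = (R - l • g₁) + s • (Q - k • g₁) := by
          rw [add_zsmul, mul_zsmul, zsmul_sub]; abel
        rw [e]
        exact fil_add h hd hR (fil_zsmul h hd hQ s))
      have h2 := hG.sh2 _ (-s) h1
      dsimp only at h2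
      rwa [neg_zsmul, add_neg_cancel_right] at h2
    rcases le_total k.natAbs l.natAbs with h' | h'
    · by_cases hs : 0 ≤ k * l
      · apply red2 (-1)
        rcases le_or_gt 0 k with h1 | h1
        · have h2 : 0 ≤ l := by
            by_contra hcon
            push Not at hcon
            have : k * l < 0 := mul_neg_of_pos_of_neg (by omega) hcon
            omega
          omega
        · have h2 : l ≤ 0 := by
            by_contra hcon
            push Not at hcon
            have : k * l < 0 := mul_neg_of_neg_of_pos h1 hcon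
            omega
          omega
      · push Not at hs
        apply red2 1
        rcases le_or_gt 0 k with h1 | h1
        · have h2 : l < 0 := by
            by_contra hcon
            push Not at hcon
            have : 0 ≤ k * l := mul_nonneg h1 hcon
            omega
          omega
        · have h2 : 0 < l := by
            by_contra hcon
            push Not at hcon
            have : 0 ≤ k * l := mul_nonneg_of_nonpos_of_nonpos h1.le hcon
            omega
          omega
    · by_cases hs : 0 ≤ k * l
      · apply red1 (-1)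
        rcases le_or_gt 0 k with h1 | h1
        · have h2 : 0 ≤ l := by
            by_contra hcon
            push Not at hcon
            have : k * l < 0 := mul_neg_of_pos_of_neg (by omega) hcon
            omega
          omega
        · have h2 : l ≤ 0 := by
            by_contra hcon
            push Not at hcon
            have : k * l < 0 := mul_neg_of_neg_of_pos h1 hcon
            omega
          omega
      · push Not at hs
        apply red1 1
        rcases le_or_gt 0 k with h1 | h1
        · have h2 : l < 0 := by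
            by_contra hcon
            push Not at hcon
            have : 0 ≤ k * l := mul_nonneg h1 hcon
            omega
          omega
        · have h2 : 0 < l := by
            by_contra hcon
            push Not at hcon
            have : 0 ≤ k * l := mul_nonneg_of_nonpos_of_nonpos h1.le hcon
            omega
          omega

theorem GS.all {G : Loc A B → Prop} (h : Good p A B) (hG : GS h.ok G) (l : Loc A B) : G l := by
  obtain ⟨d, hd, Q, R⟩ := l
  rcases id hd with hr | hu
  · obtain ⟨i, hi⟩ := ram_cases h.toGB hd hr Q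
    obtain ⟨j, hj⟩ := ram_cases h.toGB hd hr R
    exact hG.nn _ i j ⟨hi, hj⟩
  · obtain ⟨g₁, hg⟩ := unr_cyc h hd hu
    obtain ⟨k, i, hk⟩ := hg Q
    obtain ⟨l, j, hl⟩ := hg R
    have h1 : G ⟨d, hd, Q - torP h.ok (nd_ne hd) i, R - torP h.ok (nd_ne hd) j⟩ := by
      refine MTr_unram h.toGB hG d hd (g₁ := g₁) _ k l le_rfl _ _ ?_ ?_
      · rwa [sub_right_comm]
      · rwa [sub_right_comm]
    have h2 := hG.tr1 _ i h1
    have h3 := hG.tr2 _ j h2
    dsimp only at h3
    rwa [sub_add_cancel, sub_add_cancel] at h3

end Pool.Agent.Helper1.FT
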