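import Pool.Agent.Helper1.FT.Abs
import Pool.Agent.Helper1.FT.MLk
import Pool.Agent.Helper1.FT.MC1
import Pool.Agent.Helper1.FT.MC2
import Pool.Agent.Helper1.FT.MC3
import Pool.Agent.Helper1.FT.MC4
import Pool.Agent.Helper1.FT.MC5
import Pool.Agent.Helper1.FT.MC6
import Pool.Agent.Helper1.FT.MExp
import Pool.Agent.Helper1.FT.MBase
import Pool.Agent.Helper1.FT.MTr

/-!
# FT: the finite places satisfy the axioms of the abstract induction
-/

namespace Pool.Agent.Helper1.FT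

open Pool.Agent.Helper10.K3 WeierstrassCurve.Affine Classical

section place

variable {p : ℕ} [hp : Fact p.Prime] {A B : ℚ_[p]} (h : GB A B)

/-- modules of local points -/
noncomputable def prePl : Abs.PrePlace ℤ J where
  D := {d : ℚ_[p] // nd d}
  M d := E A B d.1
  fil d n := AddSubgroup.toIntSubmodule (filS h d.2 n)
  tor d := (torHom h.ok (nd_ne d.2)).toIntLinearMap

/-- concrete local datum -/
noncomputable def toL (l : Abs.Loc (prePl h)) : Loc A B := ⟨l.d.1, l.d.2, l.Q, l.R⟩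

/-- the local theory at `p` -/
noncomputable def pl : Abs.Place ℤ J where
  toPrePlace := prePl h
  Sig l l' := SigL h.ok (toL h l) (toL h l')

/-- abstract local datum -/
noncomputable def ofL (l : Loc A B) : Abs.Loc (prePl h) := ⟨⟨l.d, l.hd⟩, l.Q, l.R⟩

end place

variable {p : ℕ} [hp : Fact p.Prime] {A B : ℚ_[p]}

theorem toL_ofL (h : GB A B) (l : Loc A B) : toL h (ofL h l) = l := rfl

theorem ofL_toL (h : GB A B) (l : Abs.Loc (prePl h)) : ofL h (toL h l) = l := rfl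

theorem near_iff' (h : GB A B) {n : ℕ} {l' l : Abs.Loc (prePl h)} :
    Abs.Loc.Near n l' l ↔ LNear n (toL h l') (toL h l) := by
  obtain ⟨d, Q, R⟩ := l
  obtain ⟨d', Q', R'⟩ := l'
  constructor
  · rintro ⟨Q₁, R₁, h1, h2, h3⟩
    cases h1
    exact ⟨_, _, rfl, h2, h3⟩
  · rintro ⟨Q₁, R₁, h1, h2, h3⟩
    refine ⟨Q₁, R₁, ?_, h2, h3⟩
    have := congrArg (ofL h) h1
    exact this

/-- data exchanged by the involution with something are dense -/
theorem sig_dense (h : GB A B) (l : Loc A B) (n : ℕ) :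
    ∃ l₀ l' : Loc A B, SigL h.ok l₀ l' ∧ LNear n l' l := by
  obtain ⟨l₀, l', h1, h2, -⟩ := exists_sig_coord h l n
  exact ⟨l₀, l', h1, h2⟩

/-! ### weak axioms -/

theorem weak (h : GB A B) {N : ℕ} (hN : ∀ (d : ℚ_[p]) (_ : nd d) (P : E A B d), fil 0 (N • P)) :
    Abs.Weak (pl h) (N : ℤ) p where
  anti d := by
    intro m n hmn P hP
    exact fil_mono (d := d.1) hmn hP
  exp d x n := by
    have h1 := hN d.1 d.2 x
    have h2 := fil_p_pow h d.2 h1 n
    rw [zero_add] at h2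
    have e : ((N : ℤ) * (p : ℤ) ^ n) • (x : E A B d.1) = p ^ n • N • (x : E A B d.1) := by
      rw [mul_comm, mul_smul, natCast_zsmul, ← natCast_zsmul (N • (x : E A B d.1)) (p ^ n)]
      push_cast
      rfl
    change fil n (((N : ℤ) * (p : ℤ) ^ n) • (x : E A B d.1))
    rw [e]
    exact h2
  sig_base d Q n := by
    obtain ⟨d₀, hd₀, Q₀, M, h1, h2⟩ := sig_base h d.2 Q n
    refine ⟨⟨d₀, hd₀⟩, Q₀, M, ?_, ?_⟩
    · intro a ha h0
      apply h1 a.natAbs (Int.natAbs_ne_zero.2 ha)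
      have h3 : a • Q₀ = 0 := h0
      rcases Int.natAbs_eq a with h | h
      · rw [h, natCast_zsmul] at h3
        exact h3
      · rw [h, neg_zsmul, natCast_zsmul, neg_eq_zero] at h3
        exact h3
    · intro R₀ hR₀ hf
      obtain ⟨l', h3, h4⟩ := h2 R₀ hR₀ hf
      exact ⟨ofL h l', h3, (near_iff' h).2 h4⟩
  dense l n := by
    obtain ⟨l₀, l', h1, h2⟩ := sig_dense h (toL h l) n
    exact ⟨ofL h l₀, ofL h l', h1, (near_iff' h).2 h2⟩

/-! ### levels -/

theorem Lev_of_level (h : GB A B) {d : {d : ℚ_[p] // nd d}} {c : ℕ} {W : E A B d.1} (hW : W ≠ 0)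
    (hn : ‖xc W‖ = (p : ℝ) ^ (2 * c)) : Abs.Lev (prePl h) d c W := by
  refine ⟨Or.inr hn.ge, fun ξ hξ k => ?_⟩
  obtain ⟨j, hj⟩ := level_gen h d.2 hW hn hξ k
  exact ⟨j, hj⟩

theorem content (h : GB A B) (d : (prePl h).D) (x y : (prePl h).M d)
    (hx : x ∈ (prePl h).fil d 0) (hy : y ∈ (prePl h).fil d 0) :
    (x = 0 ∧ y = 0) ∨ ∃ c, Abs.Cont (prePl h) d c x y := by
  have key : ∀ z : E A B d.1, z ≠ 0 → fil 0 z → ∃ c : ℕ, fil c z ∧ Abs.Lev (prePl h) d c z := by
    intro z hz hf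
    obtain ⟨c, hc⟩ := exists_level h d.2 hf hz
    exact ⟨c, Or.inr hc.ge, Lev_of_level h hz hc⟩
  by_cases hx0 : x = 0
  · by_cases hy0 : y = 0
    · exact Or.inl ⟨hx0, hy0⟩
    · right
      obtain ⟨c, hc, hl⟩ := key y hy0 hy
      refine ⟨c, ?_, hc, Or.inr hl⟩
      rw [hx0]; exact Submodule.zero_mem _
  · right
    obtain ⟨c, hc, hl⟩ := key x hx0 hx
    by_cases hy0 : y = 0
    · refine ⟨c, hc, ?_, Or.inl hl⟩
      rw [hy0]; exact Submodule.zero_mem _
    · obtain ⟨c', hc', hl'⟩ := key y hy0 hy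
      rcases le_total c c' with h' | h'
      · exact ⟨c, hc, fil_mono h' hc', Or.inl hl⟩
      · exact ⟨c', fil_mono h' hc, hc', Or.inr hl'⟩

theorem exists_lev (h : GB A B) (d : {d : ℚ_[p] // nd d}) (c : ℕ) :
    ∃ W : E A B d.1, Abs.Lev (prePl h) d c W := by
  have hp0 : (p : ℚ_[p]) ≠ 0 := by exact_mod_cast hp.1.ne_zero
  have hp1 := KumWA.one_lt_p (p := p)
  obtain ⟨η, h1, h2⟩ := exists_eta h d.2 (t := (p : ℚ_[p]) ^ c) (pow_ne_zero _ hp0) (by
    rw [norm_pow, Padic.norm_p, inv_pow]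
    exact inv_le_one_of_one_le₀ (one_le_pow₀ hp1.le))
  refine ⟨η, Lev_of_level h h1 ?_⟩
  rw [h2, norm_inv, norm_pow, norm_pow, Padic.norm_p, inv_pow, inv_pow, inv_inv, ← pow_mul,
    mul_comm]

/-! ### nodes -/

theorem nlink_of_CL (h : GB A B) {i j i' j' : J} (hc : CL A B i j i' j') :
    Abs.NLink (pl h) i j i' j' := by
  intro d c
  obtain ⟨l₀, η₁, η₂, h1, h2, h3, h4, h5, h6⟩ := llink_of_CL h hc d.1 d.2 c
  refine ⟨ofL h l₀, η₁, η₂, ?_, ?_, h6⟩
  · exact h1
  · exact ⟨Or.inr h3.ge, Or.inr h5.ge, Or.inl (Lev_of_level h h2 h3)⟩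

theorem nlink_all (h : Good p A B) (i' j' : J) : ∃ i j, Abs.NLink (pl h.toGB) i j i' j' := by
  have g := h.toGB
  have key : ∀ {i j : J}, CL A B i j i' j' → ∃ i j, Abs.NLink (pl h.toGB) i j i' j' :=
    fun {i j} hc => ⟨i, j, nlink_of_CL g hc⟩
  rcases J_cases i' with rfl | rfl | rfl | rfl <;> rcases J_cases j' with rfl | rfl | rfl | rfl
  · rcases h.sq with hs | hs
    · exact key (cl_BA_ii g hs)
    · exact key (cl_OO_ii g hs)
  · exact key (cl_iO_iA g)
  · exact key (cl_iB_iB g)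
  · exact key (cl_iA_iO g)
  · exact key (cl_Ai_Ai g)
  · exact key (cl_AO_AA g)
  · rcases h.sq with hs | hs
    · exact key (cl_OO_AB g hs)
    · exact key (cl_BA_AB g hs)
  · exact key (cl_AA_AO g)
  · exact key (cl_Oi_Bi g)
  · rcases h.sq with hs | hs
    · exact key (cl_ii_BA g hs)
    · exact key (cl_AB_BA g hs)
  · exact key (cl_OB_BB g)
  · rcases cl_BO g with hs | hs | hs | hs <;> exact key hs
  · exact key (cl_Bi_Oi g)
  · rcases cl_OA g with hs | hs | hs | hs <;> exact key hs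
  · exact key (cl_BB_OB g)
  · rcases h.sq with hs | hs
    · exact key (cl_AB_OO g hs)
    · exact key (cl_ii_OO g hs)

theorem nodes_all (h : Good p A B) (H : J → Prop) (h0 : H 0)
    (h2 : ∀ i j i' j', Abs.NLink (pl h.toGB) i j i' j' → H j → H j') : ∀ j, H j := by
  have g := h.toGB
  have key : ∀ {i j i' j' : J}, CL A B i j i' j' → H j → H j' :=
    fun hc => h2 _ _ _ _ (nlink_of_CL g hc)
  have h3 : H (1, 0) ∧ H (0, 1) ∧ H (1, 1) := by
    rcases h.sq with hs | hs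
    · have hA := key (cl_ii_BA g hs) h0
      have hO := key (cl_iA_iO g) hA
      exact ⟨hA, key (cl_OO_AB g hs) hO, hO⟩
    · have hO := key (cl_ii_OO g hs) h0
      have hA := key (cl_iO_iA g) hO
      exact ⟨hA, key (cl_BA_AB g hs) hA, hO⟩
  intro j
  rcases J_cases j with rfl | rfl | rfl | rfl
  · exact h0
  · exact h3.1
  · exact h3.2.1
  · exact h3.2.2

/-! ### strong axioms -/

theorem trans_all (h : Good p A B) (H : Abs.Loc (prePl h.toGB) → Prop)
    (hH : Abs.Stable1 (pl h.toGB) H) (hN : ∀ l, Abs.Loc.NN l → H l) : ∀ l, H l := by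
  have hG : GS h.toGB.ok (fun l : Loc A B => H (ofL h.toGB l)) := by
    refine ⟨?_, ?_, ?_, ?_, ?_, ?_, ?_, ?_⟩
    · intro l hl
      apply hH.cl
      intro n
      obtain ⟨l', h1, h2⟩ := hl n
      exact ⟨ofL h.toGB l', h1, (near_iff' h.toGB).2 h2⟩
    · intro l a hl
      exact hH.sh1 _ a hl
    · intro l a hl
      exact hH.sh2 _ a hl
    · intro l j hl
      exact hH.tr1 _ j hl
    · intro l j hl
      exact hH.tr2 _ j hl
    · intro l hl
      have h1 : H ((ofL h.toGB l).un1 (-1)) := hH.un1 _ (-1) hl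
      have e : (ofL h.toGB l).un1 (-1) = ofL h.toGB ⟨l.d, l.hd, -l.Q, l.R⟩ := by
        change (⟨⟨l.d, l.hd⟩, ((-1 : ℤˣ) : ℤ) • l.Q, l.R⟩ : Abs.Loc (prePl h.toGB)) = _
        rw [Units.val_neg, Units.val_one]
        have : (-1 : ℤ) • l.Q = -l.Q := neg_one_zsmul l.Q
        change (⟨⟨l.d, l.hd⟩, ((-1 : ℤ) • l.Q : E A B l.d), l.R⟩ : Abs.Loc (prePl h.toGB)) =
          ⟨⟨l.d, l.hd⟩, (-l.Q : E A B l.d), l.R⟩
        rw [this]
      rwa [e] at h1
    · intro l l' hl h1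
      exact hH.sig _ _ hl h1
    · intro l i j hl
      exact hN _ ⟨i, j, hl⟩
  intro l
  exact hG.all h (toL h.toGB l)

theorem strong (h : Good p A B) {N : ℕ}
    (hN : ∀ (d : ℚ_[p]) (_ : nd d) (P : E A B d), fil 0 (N • P)) :
    Abs.Strong (pl h.toGB) (N : ℤ) p where
  toWeak := weak h.toGB hN
  content := content h.toGB
  lev := exists_lev h.toGB
  fil_pow d x n hx := by
    have h1 := fil_p_pow h.toGB d.2 hx n
    rw [zero_add] at h1
    change fil n (((p : ℤ) ^ n) • (x : E A B d.1))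
    have e : ((p : ℤ) ^ n) • (x : E A B d.1) = (p ^ n) • (x : E A B d.1) := by
      rw [← natCast_zsmul]; push_cast; rfl
    rw [e]
    exact h1
  nlink := nlink_all h
  nodes := nodes_all h
  trans := trans_all h

end Pool.Agent.Helper1.FT
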