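import Pool.Agent.Helper1.FT.Glob
import Pool.Agent.Helper1.FT.Inst
import Pool.Agent.Helper57.K3R.RG

/-!
# FT: the family of all places
-/

namespace Pool.Agent.Helper1.FT

open Pool.Agent.Helper10.K3 WeierstrassCurve.Affine Classical Topology

/-- the completions -/
def KK {I : Type} (q : I → ℕ) [∀ i, Fact (q i).Prime] (R : Type) : I ⊕ R → Type
  | .inl i => ℚ_[q i]
  | .inr _ => ℝ

section

variable {I : Type} {q : I → ℕ} [hq : ∀ i, Fact (q i).Prime] {R : Type}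

noncomputable instance instFieldKK : ∀ k, Field (KK q R k)
  | .inl i => inferInstanceAs (Field ℚ_[q i])
  | .inr _ => inferInstanceAs (Field ℝ)

noncomputable instance instTopKK : ∀ k, TopologicalSpace (KK q R k)
  | .inl i => inferInstanceAs (TopologicalSpace ℚ_[q i])
  | .inr _ => inferInstanceAs (TopologicalSpace ℝ)

variable {L : Type*} [Field L] {A B : L} (hAB : Ok A B) (φ : ∀ i, L →+* ℚ_[q i])
  (hG : ∀ i, GB (φ i A) (φ i B)) (ψ : R → L →+* ℝ)

/-- the embeddings -/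
noncomputable def EE : ∀ k, L →+* KK q R k
  | .inl i => φ i
  | .inr r => ψ r

/-- the places -/
noncomputable def PP : ∀ k, Plc (KK q R k) (EE φ ψ k A) (EE φ ψ k B)
  | .inl i => pPlc (hG i)
  | .inr r => rPlc (hAB.map (ψ r))

/-- real data -/
abbrev RD (r : R) : Type := LD (rPlc (hAB.map (ψ r)))

/-- a `p`-adic datum as a datum at an abstract place -/
noncomputable def Loc.toD {p : ℕ} [Fact p.Prime] {A B : ℚ_[p]} (h : GB A B) (l : Loc A B) :
    LD (pPlc h) := ⟨l.d, l.hd, l.Q, l.R⟩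

/-- linear images -/
noncomputable def Loc.lin {p : ℕ} [Fact p.Prime] {A B : ℚ_[p]} (l : Loc A B) (α β γ δ : ℤ) :
    Loc A B := ⟨l.d, l.hd, α • l.Q + β • l.R, γ • l.Q + δ • l.R⟩

/-- combined family of data -/
noncomputable def LL (l : ∀ i, Loc (φ i A) (φ i B)) (t : ∀ r, RD hAB ψ r) :
    ∀ k, LD (PP hAB φ hG ψ k)
  | .inl i => Loc.toD (hG i) (l i)
  | .inr r => t r

/-- approximable families -/
def App (l : ∀ i, Loc (φ i A) (φ i B)) (t : ∀ r, RD hAB ψ r) : Prop :=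
  AppF hAB (EE φ ψ) (PP hAB φ hG ψ) (LL hAB φ hG ψ l t)

variable {hAB φ hG ψ} [Finite I] [Finite R]

theorem App.lin {l : ∀ i, Loc (φ i A) (φ i B)} {t : ∀ r, RD hAB ψ r} (h : App hAB φ hG ψ l t)
    (α β γ δ : ℤ) : App hAB φ hG ψ (fun i => (l i).lin α β γ δ) (fun r => (t r).lin α β γ δ) := by
  have h1 := AppF.lin h α β γ δ
  have e : LL hAB φ hG ψ (fun i => (l i).lin α β γ δ) (fun r => (t r).lin α β γ δ) =
      fun k => (LL hAB φ hG ψ l t k).lin α β γ δ := by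
    funext k
    rcases k with i | r <;> rfl
  unfold App
  rw [e]
  exact h1

theorem App.closed {l : ∀ i, Loc (φ i A) (φ i B)} {t : ∀ r, RD hAB ψ r}
    (h : ∀ n : ℕ, ∃ l' t', App hAB φ hG ψ l' t' ∧ (∀ i, LNear n (l' i) (l i)) ∧
      ∀ r, LD.Near n (t' r) (t r)) : App hAB φ hG ψ l t := by
  apply AppF.closed
  intro n
  obtain ⟨l', t', h1, h2, h3⟩ := h n
  refine ⟨_, h1, ?_⟩
  rintro (i | r)
  · obtain ⟨Q', R', h4, h5, h6⟩ := h2 i
    refine ⟨Q', R', ?_, h5, h6⟩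
    change Loc.toD (hG i) (l' i) = _
    rw [h4]
    rfl
  · exact h3 r

omit [Finite I] [Finite R] in
theorem App.tr1 {l : ∀ i, Loc (φ i A) (φ i B)} {t : ∀ r, RD hAB ψ r} (h : App hAB φ hG ψ l t)
    (j : J) : App hAB φ hG ψ
      (fun i => ⟨(l i).d, (l i).hd, (l i).Q + torP (hG i).ok (nd_ne (l i).hd) j, (l i).R⟩)
      (fun r => (t r).tr1 j) := by
  have h1 := AppF.tr1 h j
  unfold App
  refine cast (congrArg _ (funext fun k => ?_)) h1
  rcases k with i | r <;> rfl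

omit [Finite I] [Finite R] in
theorem App.tr2 {l : ∀ i, Loc (φ i A) (φ i B)} {t : ∀ r, RD hAB ψ r} (h : App hAB φ hG ψ l t)
    (j : J) : App hAB φ hG ψ
      (fun i => ⟨(l i).d, (l i).hd, (l i).Q, (l i).R + torP (hG i).ok (nd_ne (l i).hd) j⟩)
      (fun r => (t r).tr2 j) := by
  have h1 := AppF.tr2 h j
  unfold App
  refine cast (congrArg _ (funext fun k => ?_)) h1
  rcases k with i | r <;> rfl

theorem App.sig {l l' : ∀ i, Loc (φ i A) (φ i B)} {t t' : ∀ r, RD hAB ψ r}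
    (h : App hAB φ hG ψ l t) (hs : ∀ i, SigL (hG i).ok (l i) (l' i))
    (ht : ∀ r, LD.Sig (t r) (t' r)) : App hAB φ hG ψ l' t' := by
  apply AppF.sig h
  rintro (i | r)
  · exact hs i
  · exact ht r

/-- families of local points, which are limits of global points -/
def Nr (φ : ∀ i, L →+* ℚ_[q i]) (ψ : R → L →+* ℝ) (v : ∀ i, Pt (φ i A) (φ i B))
    (w : ∀ r, Pt (ψ r A) (ψ r B)) : Prop :=
  ∀ (U : ∀ i, Set (Pt (φ i A) (φ i B))) (V : ∀ r, Set (Pt (ψ r A) (ψ r B))),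
    (∀ i, U i ∈ 𝓝 (v i)) → (∀ r, V r ∈ 𝓝 (w r)) →
    ∃ u : Pt A B, (∀ i, Pt.map (φ i) u ∈ U i) ∧ ∀ r, Pt.map (ψ r) u ∈ V r

omit [Finite I] [Finite R] in
theorem App.of_nr {l : ∀ i, Loc (φ i A) (φ i B)} {t : ∀ r, RD hAB ψ r}
    {v : ∀ i, Pt (φ i A) (φ i B)} {w : ∀ r, Pt (ψ r A) (ψ r B)} (h : Nr φ ψ v w)
    (hv : ∀ i, Rep (v i) (l i).d (l i).Q (l i).R) (hw : ∀ r, Rep (w r) (t r).d (t r).P (t r).Q) :
    App hAB φ hG ψ l t := by
  let V : ∀ k, Pt (EE φ ψ k A) (EE φ ψ k B) := fun k =>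
    match k with
    | .inl i => v i
    | .inr r => w r
  apply appF_of_nearF (v := V)
  · intro U hU
    obtain ⟨u, h1, h2⟩ := h (fun i => U (.inl i)) (fun r => U (.inr r)) (fun i => hU (.inl i))
      (fun r => hU (.inr r))
    refine ⟨u, ?_⟩
    rintro (i | r)
    · exact h1 i
    · exact h2 r
  · rintro (i | r)
    · exact hv i
    · exact hw r

theorem App.nr {l : ∀ i, Loc (φ i A) (φ i B)} {t : ∀ r, RD hAB ψ r} (h : App hAB φ hG ψ l t)
    {v : ∀ i, Pt (φ i A) (φ i B)} {w : ∀ r, Pt (ψ r A) (ψ r B)}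
    (hv : ∀ i, Rep (v i) (l i).d (l i).Q (l i).R) (hw : ∀ r, Rep (w r) (t r).d (t r).P (t r).Q)
    (hne : Nonempty (I ⊕ R)) : Nr φ ψ v w := by
  intro U V hU hV
  let V' : ∀ k, Pt (EE φ ψ k A) (EE φ ψ k B) := fun k =>
    match k with
    | .inl i => v i
    | .inr r => w r
  have h1 : NearF (EE φ ψ) V' := nearF_of_appF h (by
    rintro (i | r)
    · exact hv i
    · exact hw r) hne
  obtain ⟨u, hu⟩ := h1 (fun k =>
    match k with
    | .inl i => U i
    | .inr r => V r) (by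
    rintro (i | r)
    · exact hU i
    · exact hV r)
  exact ⟨u, fun i => hu (.inl i), fun r => hu (.inr r)⟩

end

end Pool.Agent.Helper1.FT
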