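import Pool.Agent.Helper1.FT.Hb2

/-!
# FT: weak approximation
-/

namespace Pool.Agent.Helper1.FT

open Pool.Agent.Helper10.K3 WeierstrassCurve.Affine Classical Topology

/-- the inverse of a linear map with integral coefficients -/
theorem LD.lin_inv {K : Type} [Field K] [TopologicalSpace K] {A B : K} {π : Plc K A B}
    (t : LD π) {α β γ δ α' β' γ' δ' : ℤ} (h1 : α * α' + β * γ' = 1)
    (h2 : α * β' + β * δ' = 0) (h3 : γ * α' + δ * γ' = 0) (h4 : γ * β' + δ * δ' = 1) :
    (t.lin α' β' γ' δ').lin α β γ δ = t := by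
  obtain ⟨d, hd, P, Q⟩ := t
  change (⟨d, hd, α • (α' • P + β' • Q) + β • (γ' • P + δ' • Q),
    γ • (α' • P + β' • Q) + δ • (γ' • P + δ' • Q)⟩ : LD π) = ⟨d, hd, P, Q⟩
  have e1 : α • (α' • P + β' • Q) + β • (γ' • P + δ' • Q) =
      (α * α' + β * γ') • P + (α * β' + β * δ') • Q := by
    rw [smul_add, smul_add, ← mul_smul, ← mul_smul, ← mul_smul, ← mul_smul, add_smul, add_smul]
    abel
  have e2 : γ • (α' • P + β' • Q) + δ • (γ' • P + δ' • Q) =
      (γ * α' + δ * γ') • P + (γ * β' + δ * δ') • Q := by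
    rw [smul_add, smul_add, ← mul_smul, ← mul_smul, ← mul_smul, ← mul_smul, add_smul, add_smul]
    abel
  rw [e1, e2, h1, h2, h3, h4, one_smul, zero_smul, zero_smul, one_smul, add_zero, zero_add]

theorem LD.tr1_tr1 {K : Type} [Field K] [TopologicalSpace K] {A B : K} {π : Plc K A B}
    (t : LD π) (j : J) : (t.tr1 j).tr1 j = t := by
  obtain ⟨d, hd, P, Q⟩ := t
  change (⟨d, hd, P + torP π.ok (π.dom_ne hd) j + torP π.ok (π.dom_ne hd) j, Q⟩ : LD π) = _
  rw [add_assoc, torP_self, add_zero]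

theorem LD.tr2_tr2 {K : Type} [Field K] [TopologicalSpace K] {A B : K} {π : Plc K A B}
    (t : LD π) (j : J) : (t.tr2 j).tr2 j = t := by
  obtain ⟨d, hd, P, Q⟩ := t
  change (⟨d, hd, P, Q + torP π.ok (π.dom_ne hd) j + torP π.ok (π.dom_ne hd) j⟩ : LD π) = _
  rw [add_assoc, torP_self, add_zero]

section

variable {ι : Type} [DecidableEq ι] {q : ι → ℕ} [hq : ∀ i, Fact (q i).Prime] {R : Type}
  {L : Type*} [Field L] {A B : L} (hAB : Ok A B) {φ : ∀ i, L →+* ℚ_[q i]}
  (hG : ∀ i, Good (q i) (φ i A) (φ i B)) (ψ : R → L →+* ℝ) [Subsingleton R]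

/-- all finite places -/
noncomputable def plF (i : ι) : Abs.Place ℤ J := pl (hG i).toGB

theorem J_two (j : J) : (2 : ℤ) • j = 0 := by revert j; decide

theorem ind_all (hinj : Function.Injective q) (S : Finset ι) : Abs.Ind (plF hG) S := by
  choose N hN0 hNp hN using fun i => loc_exp (hG i).toGB
  induction S using Finset.induction_on_max_value q with
  | empty => exact Abs.ind_empty (plF hG)
  | insert v S hv hmax ih =>
    have hlt : ∀ w ∈ S, q w < q v := by
      intro w hw
      refine lt_of_le_of_ne (hmax w hw) (fun h => hv ?_)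
      rw [← hinj h]
      exact hw
    refine Abs.Ind.insert (P := plF hG) (v := v) (a := fun w => (N w : ℤ))
      (ϖ := fun w => (q w : ℤ)) ?_ J_two (strong (hG v) (hN v)) two_ne_zero ih
    refine ⟨fun w _ => weak (hG w).toGB (hN w), ?_, ?_, ?_⟩
    · intro w hw
      have h4 : ¬ q v ∣ N w * q w := by
        rw [(hq v).1.dvd_mul]
        rintro (h | h)
        · have := hNp w (q v) (hq v).1 h
          have := hlt w hw
          omega
        · have := Nat.le_of_dvd (hq w).1.pos h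
          have := hlt w hw
          omega
      have h5 := ((Nat.Prime.coprime_iff_not_dvd (hq v).1).2 h4).symm
      have h6 := Nat.isCoprime_iff_coprime.2 h5
      push_cast at h6
      exact h6
    · intro w _
      exact_mod_cast hN0 w
    · intro w _
      exact_mod_cast (hq w).1.ne_zero

/-- the system of local data attached to a system of abstract data -/
noncomputable def sysL {S : Finset ι} (s : Abs.Sys (plF hG)) :
    ∀ i : S, Loc (φ i A) (φ i B) := fun i => toL (hG i).toGB (s i)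

/-- approximable systems -/
def ApS (S : Finset ι) (l : ∀ i : S, Loc (φ i A) (φ i B)) (t : ∀ r, RD hAB ψ r) : Prop :=
  App (I := S) (q := fun i : S => q i) hAB (fun i : S => φ i) (fun i => (hG i).toGB) ψ l t

/-- the system is approximable together with all real data -/
def FSR (S : Finset ι) (s : Abs.Sys (plF hG)) : Prop :=
  ∀ t : ∀ r, RD hAB ψ r, ApS hAB hG ψ S (sysL hG s) t

variable {hAB hG ψ}

omit [DecidableEq ι] in
theorem FSR.lin {S : Finset ι} {s : Abs.Sys (plF hG)} (h : FSR hAB hG ψ S s) (α β γ δ : ℤ)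
    {α' β' γ' δ' : ℤ} (h1 : α * α' + β * γ' = 1)
    (h2 : α * β' + β * δ' = 0) (h3 : γ * α' + δ * γ' = 0) (h4 : γ * β' + δ * δ' = 1)
    (t : ∀ r, RD hAB ψ r) :
    ApS hAB hG ψ S (fun i => (sysL hG s i).lin α β γ δ) t := by
  have h5 := App.lin (h (fun r => (t r).lin α' β' γ' δ')) α β γ δ
  have e : (fun r => ((t r).lin α' β' γ' δ').lin α β γ δ) = t :=
    funext fun r => (t r).lin_inv h1 h2 h3 h4
  rw [e] at h5
  exact h5

omit [DecidableEq ι] in
theorem FSR.stable [CharZero L] (hinj : Function.Injective q) (S : Finset ι) :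
    Abs.Stable (plF hG) S (FSR hAB hG ψ S) where
  cl s h t := by
    apply App.closed
    intro n
    obtain ⟨s', h1, h2⟩ := h n
    exact ⟨_, t, h1 t, fun i => (near_iff' (hG i).toGB).1 (h2 i i.2), fun r => LD.Near.refl n _⟩
  sh1 s a h t := by
    have h1 := h.lin 1 a 0 1 (α' := 1) (β' := -a) (γ' := 0) (δ' := 1) (by ring) (by ring)
      (by ring) (by ring) t
    refine cast (congrArg (fun l => ApS hAB hG ψ S l t) (funext fun i => ?_)) h1
    have e1 : ∀ Q R : E (φ i A) (φ i B) (sysL hG s i).d, (1 : ℤ) • Q + a • R = Q + a • R := by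
      intro Q R; rw [one_zsmul]
    have e2 : ∀ Q R : E (φ i A) (φ i B) (sysL hG s i).d, (0 : ℤ) • Q + (1 : ℤ) • R = R := by
      intro Q R; rw [zero_zsmul, one_zsmul, zero_add]
    unfold Loc.lin
    rw [e1, e2]
    rfl
  sh2 s a h t := by
    have h1 := h.lin 1 0 a 1 (α' := 1) (β' := 0) (γ' := -a) (δ' := 1) (by ring) (by ring)
      (by ring) (by ring) t
    refine cast (congrArg (fun l => ApS hAB hG ψ S l t) (funext fun i => ?_)) h1
    have e1 : ∀ Q R : E (φ i A) (φ i B) (sysL hG s i).d, (1 : ℤ) • Q + (0 : ℤ) • R = Q := by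
      intro Q R; rw [one_zsmul, zero_zsmul, add_zero]
    have e2 : ∀ Q R : E (φ i A) (φ i B) (sysL hG s i).d, a • Q + (1 : ℤ) • R = R + a • Q := by
      intro Q R; rw [one_zsmul, add_comm]
    unfold Loc.lin
    rw [e1, e2]
    rfl
  tr1 s j h t := by
    have h1 := App.tr1 (h (fun r => (t r).tr1 j)) j
    have e : (fun r => ((t r).tr1 j).tr1 j) = t := funext fun r => (t r).tr1_tr1 j
    rw [e] at h1
    exact h1
  tr2 s j h t := by
    have h1 := App.tr2 (h (fun r => (t r).tr2 j)) j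
    have e : (fun r => ((t r).tr2 j).tr2 j) = t := funext fun r => (t r).tr2_tr2 j
    rw [e] at h1
    exact h1
  un1 s ε h t := by
    have hε : (ε : ℤ) * ε = 1 := by
      rcases Int.units_eq_one_or ε with h | h <;> simp [h]
    have h1 := h.lin (ε : ℤ) 0 0 1 (α' := ε) (β' := 0) (γ' := 0) (δ' := 1)
      (by linear_combination hε) (by ring) (by ring) (by ring) t
    refine cast (congrArg (fun l => ApS hAB hG ψ S l t) (funext fun i => ?_)) h1
    have e1 : ∀ Q R : E (φ i A) (φ i B) (sysL hG s i).d,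
        (ε : ℤ) • Q + (0 : ℤ) • R = (ε : ℤ) • Q := by
      intro Q R; rw [zero_zsmul, add_zero]
    have e2 : ∀ Q R : E (φ i A) (φ i B) (sysL hG s i).d, (0 : ℤ) • Q + (1 : ℤ) • R = R := by
      intro Q R; rw [zero_zsmul, one_zsmul, zero_add]
    unfold Loc.lin
    rw [e1, e2]
    rfl
  un2 s ε h t := by
    have hε : (ε : ℤ) * ε = 1 := by
      rcases Int.units_eq_one_or ε with h | h <;> simp [h]
    have h1 := h.lin 1 0 0 (ε : ℤ) (α' := 1) (β' := 0) (γ' := 0) (δ' := ε) (by ring)
      (by ring) (by ring) (by linear_combination hε) t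
    refine cast (congrArg (fun l => ApS hAB hG ψ S l t) (funext fun i => ?_)) h1
    have e1 : ∀ Q R : E (φ i A) (φ i B) (sysL hG s i).d, (1 : ℤ) • Q + (0 : ℤ) • R = Q := by
      intro Q R; rw [one_zsmul, zero_zsmul, add_zero]
    have e2 : ∀ Q R : E (φ i A) (φ i B) (sysL hG s i).d,
        (0 : ℤ) • Q + (ε : ℤ) • R = (ε : ℤ) • R := by
      intro Q R; rw [zero_zsmul, zero_add]
    unfold Loc.lin
    rw [e1, e2]
    rfl
  sig s s' h hs t := by
    apply App.closed
    intro n
    choose t₀ t' h1 h2 using fun r => sigR_dense (t r) n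
    exact ⟨_, t', App.sig (h t₀) (fun i => hs i i.2) h1, fun i => LNear.refl n _, h2⟩
  base s h t := by
    refine hb_all (I := S) (q := fun i : S => q i) (fun a b hab => ?_) t _ (fun i => h i i.2)
    exact Subtype.ext (hinj hab)

theorem apS_all [CharZero L] (hinj : Function.Injective q) (S : Finset ι)
    (l : ∀ i : S, Loc (φ i A) (φ i B)) (t : ∀ r, RD hAB ψ r) : ApS hAB hG ψ S l t := by
  set s : Abs.Sys (plF hG) := fun i => if hi : i ∈ S then ofL (hG i).toGB (l ⟨i, hi⟩) else
    ofL (hG i).toGB ⟨((q i : ℕ) : ℚ_[q i]), Or.inl (by rw [Padic.norm_p]), 0, 0⟩ with hs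
  have h1 : FSR hAB hG ψ S s := ind_all hG hinj S _ (FSR.stable hinj S) s
  refine cast (congrArg (fun l => ApS hAB hG ψ S l t) (funext fun i => ?_)) (h1 t)
  have e : s i = ofL (hG i).toGB (l i) := by
    rw [hs]
    exact dif_pos i.2
  change toL (hG i).toGB (s i) = l i
  rw [e]
  rfl

/-- density at finitely many finite places and the real place -/
theorem nr_all [CharZero L] (hAB : Ok A B) (hG : ∀ i, Good (q i) (φ i A) (φ i B))
    (hinj : Function.Injective q) (S : Finset ι)
    (v : ∀ i : S, Pt (φ i A) (φ i B)) (w : ∀ r, Pt (ψ r A) (ψ r B))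
    (hne : Nonempty (S ⊕ R)) :
    Nr (I := S) (q := fun i : S => q i) (fun i : S => φ i) ψ v w := by
  choose l hl using fun i : S => exists_rep_nd (hG i).toGB (v i)
  choose d' P' Q' hr using fun r => exists_rep_gen (hAB.map (ψ r)) (w r)
  exact App.nr (apS_all (hAB := hAB) (hG := hG) hinj S l
    (fun r => (⟨d' r, (hr r).1, P' r, Q' r⟩ : RD hAB ψ r))) hl hr hne

/-- density in the product over all places -/
theorem dense_all [CharZero L] (hAB : Ok A B) (hG : ∀ i, Good (q i) (φ i A) (φ i B))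
    (hinj : Function.Injective q) :
    DenseRange (fun u : Pt A B => ((fun r => Pt.map (ψ r) u, fun i => Pt.map (φ i) u) :
      (∀ r, Pt (ψ r A) (ψ r B)) × ∀ i, Pt (φ i A) (φ i B))) := by
  rintro ⟨w, v⟩
  rw [mem_closure_iff_nhds]
  intro N hN
  rw [nhds_prod_eq, Filter.mem_prod_iff] at hN
  obtain ⟨V', hV', N', hN', hVN⟩ := hN
  rw [nhds_pi, Filter.mem_pi] at hN' hV'
  obtain ⟨I, hI, U, hU, hUN⟩ := hN'
  obtain ⟨I', hI', V, hV, hVV⟩ := hV'
  by_cases hne : Nonempty (hI.toFinset ⊕ R)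
  · obtain ⟨u, hu, huR⟩ := nr_all hAB hG hinj hI.toFinset (fun i => v i) w hne
      (fun i => U i) V (fun i => hU i) hV
    refine ⟨_, hVN ⟨hVV fun r _ => huR r, hUN ?_⟩, u, rfl⟩
    intro i hi
    exact hu ⟨i, hI.mem_toFinset.2 hi⟩
  · -- no condition at all
    obtain ⟨t, ht⟩ : ∃ t : L, ff A B t ≠ 0 := by
      by_contra hcon
      push Not at hcon
      have hfin : ({0, A, B} : Set L).Finite := by simp
      obtain ⟨t, ht⟩ := hfin.exists_notMem
      have h1 := hcon t
      simp only [Set.mem_insert_iff, Set.mem_singleton_iff, not_or] at ht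
      rw [ff, mul_eq_zero, mul_eq_zero, sub_eq_zero, sub_eq_zero] at h1
      tauto
    refine ⟨_, hVN ⟨hVV fun r _ => ?_, hUN fun i hi => ?_⟩, ⟨(t, t, ff A B t), by ring, ht⟩, rfl⟩
    · exact absurd ⟨Sum.inr r⟩ hne
    · exact absurd ⟨Sum.inl ⟨i, hI.mem_toFinset.2 hi⟩⟩ hne

end

end Pool.Agent.Helper1.FT
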