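import Pool.Agent.Helper1.FT.Loc

/-!
# FT: module MClo
-/

namespace Pool.Agent.Helper1.FT

open Pool.Agent.Helper10.K3 WeierstrassCurve.Affine Classical

variable {p : ℕ} [hp : Fact p.Prime] {A B d : ℚ_[p]}

private theorem MClo_add {P Q : E A B d} (hP : P ≠ 0) (hQ : Q ≠ 0) (hx : xc P ≠ xc Q) :
    P + Q ≠ 0 ∧
    xc (P + Q) * (xc P - xc Q) ^ 2 =
      (yc P - yc Q) ^ 2 - (-(A + B) * d + xc P + xc Q) * (xc P - xc Q) ^ 2 ∧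
    yc (P + Q) * (xc P - xc Q) =
      -((yc P - yc Q) * (xc (P + Q) - xc P) + yc P * (xc P - xc Q)) := by
  cases P with
  | zero => exact absurd rfl hP
  | some X₁ Y₁ h₁ =>
    cases Q with
    | zero => exact absurd rfl hQ
    | some X₂ Y₂ h₂ =>
      have hx' : X₁ ≠ X₂ := hx
      obtain ⟨X₃, Y₃, h₃, e1, e2, e3⟩ := tw_add_X_ne h₁ h₂ hx'
      rw [e1]
      exact ⟨Point.some_ne_zero _, e2, e3⟩

private theorem MClo_sub {P Q : E A B d} (hP : P ≠ 0) (hQ : Q ≠ 0) (hx : xc P ≠ xc Q) :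
    P - Q ≠ 0 ∧
    xc (P - Q) * (xc P - xc Q) ^ 2 =
      (yc P + yc Q) ^ 2 - (-(A + B) * d + xc P + xc Q) * (xc P - xc Q) ^ 2 := by
  have hQ' : -Q ≠ 0 := neg_ne_zero.2 hQ
  obtain ⟨h1, h2, -⟩ := MClo_add hP hQ' (by rwa [xc_neg])
  rw [xc_neg, yc_neg, ← sub_eq_add_neg] at h2
  rw [← sub_eq_add_neg] at h1
  refine ⟨h1, ?_⟩
  rw [h2]
  ring

private theorem MClo_nat_le (n : ℕ) [n.AtLeastTwo] (x : ℚ_[p]) :
    ‖(OfNat.ofNat n : ℚ_[p]) * x‖ ≤ ‖x‖ := by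
  rw [norm_mul]
  apply mul_le_of_le_one_left (norm_nonneg _)
  have := Padic.norm_int_le_one (p := p) n
  exact_mod_cast this

private theorem MClo_norm_four (h2 : p ≠ 2) : ‖(4 : ℚ_[p])‖ = 1 := by
  have : (4 : ℚ_[p]) = 2 * 2 := by norm_num
  rw [this, norm_mul, KumWA.norm_two h2, one_mul]

private theorem MClo_s (h : GB A B) (hd : nd d) : ‖(A + B) * d‖ ≤ 1 :=
  KumWA.norm_mul_le_one h.nS.le (nd_lt hd).le

private theorem MClo_q (h : GB A B) (hd : nd d) : ‖A * B * d ^ 2‖ ≤ 1 :=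
  KumWA.norm_mul_le_one (KumWA.norm_mul_le_one h.nA.le h.nB.le)
    (KumWA.norm_pow_le_one (nd_lt hd).le 2)

theorem fil_of_close (h : GB A B) (hd : nd d) {P : E A B d} (hP : P ≠ 0) (hy : yc P ≠ 0) (n : ℕ) :
    ∃ ε : ℝ, 0 < ε ∧ ∀ P' : E A B d, P' ≠ 0 → ‖xc P' - xc P‖ < ε → ‖yc P' - yc P‖ < ε →
      fil n (P' - P) := by
  have h2 := h.ne_two
  have hs := MClo_s h hd
  have hq := MClo_q h hd
  set M : ℝ := 1 + ‖xc P‖ with hM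
  have hM1 : 1 ≤ M := by
    have := norm_nonneg (xc P); linarith
  have hMx : ‖xc P‖ ≤ M := by linarith
  have hMM : 1 ≤ M ^ 2 := one_le_pow₀ hM1
  have hM2 : M ≤ M ^ 2 := le_self_pow₀ hM1 two_ne_zero
  have hyp : 0 < ‖yc P‖ := norm_pos_iff.2 hy
  have hpn : 0 < (p : ℝ) ^ n := pow_pos (KumWA.p_pos (p := p)) _
  refine ⟨min (min 1 (‖yc P‖)) (min (‖yc P‖ ^ 2 / M ^ 2) (‖yc P‖ / (p : ℝ) ^ n)), ?_, ?_⟩
  · refine lt_min (lt_min one_pos hyp) (lt_min ?_ ?_) <;> positivity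
  intro P' hP' hx' hy'
  have hx1 : ‖xc P' - xc P‖ < 1 := lt_of_lt_of_le hx' ((min_le_left _ _).trans (min_le_left _ _))
  have hx3 : ‖xc P' - xc P‖ < ‖yc P‖ ^ 2 / M ^ 2 :=
    lt_of_lt_of_le hx' ((min_le_right _ _).trans (min_le_left _ _))
  have hx4 : ‖xc P' - xc P‖ < ‖yc P‖ / (p : ℝ) ^ n :=
    lt_of_lt_of_le hx' ((min_le_right _ _).trans (min_le_right _ _))
  have hy1 : ‖yc P' - yc P‖ < ‖yc P‖ :=
    lt_of_lt_of_le hy' ((min_le_left _ _).trans (min_le_right _ _))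
  by_cases hxx : xc P' = xc P
  · rcases (xc_eq_iff hP' hP).1 hxx with h | h
    · left; rw [h, sub_self]
    · exfalso
      rw [h, yc_neg] at hy1
      have : -yc P - yc P = -(2 * yc P) := by ring
      rw [this, norm_neg, norm_mul, KumWA.norm_two h2, one_mul] at hy1
      exact lt_irrefl _ hy1
  · obtain ⟨h3, h4⟩ := MClo_sub hP' hP hxx
    right
    have hMx' : ‖xc P'‖ ≤ M := by
      have : xc P' = (xc P' - xc P) + xc P := by ring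
      rw [this]
      exact KumWA.nadd_le (hx1.le.trans hM1) hMx
    have e := curve_eq P
    have e' := curve_eq P'
    have key : (yc P' + yc P) ^ 2 - (-(A + B) * d + xc P' + xc P) * (xc P' - xc P) ^ 2 -
        4 * yc P ^ 2 =
        (xc P' - xc P) * (xc P * (xc P' + xc P) + xc P ^ 2 + A * B * d ^ 2 -
          2 * ((A + B) * d * xc P)) + 2 * (yc P * (yc P' - yc P)) := by
      linear_combination e' - e
    have hclose : ‖(yc P' + yc P) ^ 2 - (-(A + B) * d + xc P' + xc P) * (xc P' - xc P) ^ 2 -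
        4 * yc P ^ 2‖ < ‖4 * yc P ^ 2‖ := by
      rw [key, norm_mul 4, MClo_norm_four h2, one_mul, norm_pow]
      apply KumWA.nadd_lt
      · rw [norm_mul]
        have hb : ‖xc P * (xc P' + xc P) + xc P ^ 2 + A * B * d ^ 2 -
            2 * ((A + B) * d * xc P)‖ ≤ M ^ 2 := by
          have b1 : ‖xc P * (xc P' + xc P)‖ ≤ M ^ 2 := by
            rw [norm_mul, sq]
            exact mul_le_mul hMx (KumWA.nadd_le hMx' hMx) (norm_nonneg _) (by linarith)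
          have b2 : ‖xc P ^ 2‖ ≤ M ^ 2 := by
            rw [norm_pow]; exact pow_le_pow_left₀ (norm_nonneg _) hMx 2
          have b3 : ‖A * B * d ^ 2‖ ≤ M ^ 2 := hq.trans hMM
          have b4 : ‖2 * ((A + B) * d * xc P)‖ ≤ M ^ 2 := by
            refine (MClo_nat_le 2 _).trans ?_
            rw [norm_mul]
            calc ‖(A + B) * d‖ * ‖xc P‖ ≤ 1 * M := by gcongr
              _ ≤ M ^ 2 := by rw [one_mul]; exact hM2
          exact KumWA.nsub_le (KumWA.nadd_le (KumWA.nadd_le b1 b2) b3) b4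
        calc ‖xc P' - xc P‖ * ‖xc P * (xc P' + xc P) + xc P ^ 2 + A * B * d ^ 2 -
              2 * ((A + B) * d * xc P)‖
            ≤ ‖xc P' - xc P‖ * M ^ 2 := by gcongr
          _ < ‖yc P‖ ^ 2 / M ^ 2 * M ^ 2 := by
              apply mul_lt_mul_of_pos_right hx3; positivity
          _ = ‖yc P‖ ^ 2 := by field_simp
      · refine lt_of_le_of_lt (MClo_nat_le 2 _) ?_
        rw [norm_mul, sq]
        exact mul_lt_mul_of_pos_left hy1 hyp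
    have hnorm := KumWA.neq_of_sub_lt hclose
    rw [← h4, norm_mul, norm_mul, MClo_norm_four h2, one_mul, norm_pow, norm_pow] at hnorm
    have hxp : 0 < ‖xc P' - xc P‖ := norm_pos_iff.2 (sub_ne_zero.2 hxx)
    have h5 : ‖xc P' - xc P‖ * (p : ℝ) ^ n < ‖yc P‖ := by
      rwa [lt_div_iff₀ hpn] at hx4
    have h6 : (‖xc P' - xc P‖ * (p : ℝ) ^ n) ^ 2 ≤ ‖yc P‖ ^ 2 :=
      pow_le_pow_left₀ (by positivity) h5.le 2
    rw [← hnorm] at h6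
    have h7 : (p : ℝ) ^ (2 * n) * ‖xc P' - xc P‖ ^ 2 ≤ ‖xc (P' - P)‖ * ‖xc P' - xc P‖ ^ 2 := by
      refine le_trans (le_of_eq ?_) h6
      rw [mul_comm 2 n, pow_mul]; ring
    exact le_of_mul_le_mul_right h7 (by positivity)

/-- algebra and norms for the addition of a point near the origin -/
private theorem MClo_bd {s q x y X Y X₃ Y₃ : ℚ_[p]} {M : ℝ} (hs : ‖s‖ ≤ 1) (hq : ‖q‖ ≤ 1)
    (hM1 : 1 ≤ M) (hMx : ‖x‖ ≤ M) (hMy : ‖y‖ ≤ M) (hMX : M < ‖X‖) (hY2 : ‖Y‖ ^ 2 = ‖X‖ ^ 3)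
    (e : y ^ 2 = x ^ 3 - s * x ^ 2 + q * x) (e' : Y ^ 2 = X ^ 3 - s * X ^ 2 + q * X)
    (g2 : X₃ * (x - X) ^ 2 = (y - Y) ^ 2 - (-s + x + X) * (x - X) ^ 2)
    (g3 : Y₃ * (x - X) = -((y - Y) * (X₃ - x) + y * (x - X))) :
    ‖X₃ - x‖ ≤ M ^ 2 * (‖Y‖ / ‖X‖ ^ 2) ∧ ‖Y₃ - y‖ ≤ M ^ 3 * (‖Y‖ / ‖X‖ ^ 2) := by
  have hM0 : 0 ≤ M := by linarith
  have hX1 : 1 ≤ ‖X‖ := hM1.trans hMX.le
  have hXp : 0 < ‖X‖ := by linarith
  have hYp : 0 ≤ ‖Y‖ := norm_nonneg _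
  have hXY : ‖X‖ ≤ ‖Y‖ := by
    apply le_of_sq_le_sq _ hYp
    rw [hY2]
    exact pow_le_pow_right₀ hX1 (by norm_num)
  have hY1 : 1 ≤ ‖Y‖ := hX1.trans hXY
  have hM12 : M ≤ M ^ 2 := le_self_pow₀ hM1 two_ne_zero
  have hM02 : 1 ≤ M ^ 2 := one_le_pow₀ hM1
  have hsub : ‖x - X‖ = ‖X‖ := KumWA.nsub_eq' (lt_of_le_of_lt hMx hMX)
  have hxd : (X₃ - x) * (x - X) ^ 2 =
      3 * (x ^ 2 * X) + q * (x + X) - 2 * (s * x * X) - 2 * (y * Y) - x ^ 3 := by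
    linear_combination g2 + e + e'
  have hxX : ‖x + X‖ ≤ ‖X‖ := KumWA.nadd_le (hMx.trans hMX.le) le_rfl
  have m1 : ‖3 * (x ^ 2 * X)‖ ≤ M ^ 2 * ‖X‖ := by
    refine (MClo_nat_le 3 _).trans ?_
    rw [norm_mul, norm_pow]; gcongr
  have m2 : ‖q * (x + X)‖ ≤ M ^ 2 * ‖X‖ := by
    rw [norm_mul]
    have := hq.trans hM02
    gcongr
  have m3 : ‖2 * (s * x * X)‖ ≤ M ^ 2 * ‖X‖ := by
    refine (MClo_nat_le 2 _).trans ?_
    rw [norm_mul, norm_mul]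
    have : ‖s‖ * ‖x‖ ≤ M ^ 2 := by
      calc ‖s‖ * ‖x‖ ≤ 1 * M := by gcongr
        _ ≤ M ^ 2 := by rw [one_mul]; exact hM12
    gcongr
  have m4 : ‖2 * (y * Y)‖ ≤ M ^ 2 * ‖Y‖ := by
    refine (MClo_nat_le 2 _).trans ?_
    rw [norm_mul]
    have : ‖y‖ ≤ M ^ 2 := hMy.trans hM12
    gcongr
  have m5 : ‖x ^ 3‖ ≤ M ^ 2 * ‖X‖ := by
    rw [norm_pow, pow_succ]
    have := hMx.trans hMX.le
    gcongr
  have hMXY : M ^ 2 * ‖X‖ ≤ M ^ 2 * ‖Y‖ := by gcongr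
  have hNx : ‖3 * (x ^ 2 * X) + q * (x + X) - 2 * (s * x * X) - 2 * (y * Y) - x ^ 3‖ ≤
      M ^ 2 * ‖Y‖ :=
    KumWA.nsub_le (KumWA.nsub_le (KumWA.nsub_le (KumWA.nadd_le (m1.trans hMXY) (m2.trans hMXY))
      (m3.trans hMXY)) m4) (m5.trans hMXY)
  constructor
  · have : ‖X₃ - x‖ * ‖X‖ ^ 2 ≤ M ^ 2 * ‖Y‖ := by
      rw [← hsub, ← norm_pow, ← norm_mul, hxd]; exact hNx
    rw [← mul_div_assoc, le_div_iff₀ (by positivity)]
    exact this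
  · have hyd : (Y₃ - y) * (x - X) ^ 3 =
        - 2 * y * (x - X) ^ 3 - (y - Y) * (3 * (x ^ 2 * X) + q * (x + X) - 2 * (s * x * X)
          - 2 * (y * Y) - x ^ 3) := by
      rw [← hxd]
      linear_combination (x - X) ^ 2 * g3
    have hyd2 : (Y₃ - y) * (x - X) ^ 3 =
        Y * (3 * (x ^ 2 * X) + q * (x + X) - 2 * (s * x * X) - x ^ 3)
        - y * (3 * (x ^ 2 * X) + q * (x + X) - 2 * (s * x * X) - 2 * (y * Y) - x ^ 3)
        + 2 * (y * s * X ^ 2) - 2 * (y * q * X) - 6 * (y * x * X ^ 2) + 6 * (y * x ^ 2 * X)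
        - 2 * (y * x ^ 3) := by
      rw [hyd]
      linear_combination (- 2 * y) * e'
    have hXX : ‖X‖ ^ 2 ≤ ‖X‖ * ‖Y‖ := by rw [sq]; gcongr
    have hM23 : M ^ 2 ≤ M ^ 3 := pow_le_pow_right₀ hM1 (by norm_num)
    have hM13 : M ≤ M ^ 3 := hM12.trans hM23
    have n1 : ‖Y * (3 * (x ^ 2 * X) + q * (x + X) - 2 * (s * x * X) - x ^ 3)‖ ≤
        M ^ 3 * (‖X‖ * ‖Y‖) := by
      rw [norm_mul]
      have : ‖3 * (x ^ 2 * X) + q * (x + X) - 2 * (s * x * X) - x ^ 3‖ ≤ M ^ 2 * ‖X‖ :=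
        KumWA.nsub_le (KumWA.nsub_le (KumWA.nadd_le m1 m2) m3) m5
      calc ‖Y‖ * ‖3 * (x ^ 2 * X) + q * (x + X) - 2 * (s * x * X) - x ^ 3‖
          ≤ ‖Y‖ * (M ^ 3 * ‖X‖) := by
            apply mul_le_mul_of_nonneg_left _ hYp
            refine this.trans ?_
            gcongr
        _ = M ^ 3 * (‖X‖ * ‖Y‖) := by ring
    have hYXY : ‖Y‖ ≤ ‖X‖ * ‖Y‖ := le_mul_of_one_le_left hYp hX1
    have n2 : ‖y * (3 * (x ^ 2 * X) + q * (x + X) - 2 * (s * x * X) - 2 * (y * Y) - x ^ 3)‖ ≤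
        M ^ 3 * (‖X‖ * ‖Y‖) := by
      rw [norm_mul]
      calc ‖y‖ * ‖3 * (x ^ 2 * X) + q * (x + X) - 2 * (s * x * X) - 2 * (y * Y) - x ^ 3‖
          ≤ M * (M ^ 2 * ‖Y‖) := by gcongr
        _ ≤ M * (M ^ 2 * (‖X‖ * ‖Y‖)) := by gcongr
        _ = M ^ 3 * (‖X‖ * ‖Y‖) := by ring
    have n3 : ‖2 * (y * s * X ^ 2)‖ ≤ M ^ 3 * (‖X‖ * ‖Y‖) := by
      refine (MClo_nat_le 2 _).trans ?_
      rw [norm_mul, norm_mul, norm_pow]
      have : ‖y‖ * ‖s‖ ≤ M ^ 3 := by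
        calc ‖y‖ * ‖s‖ ≤ M * 1 := by gcongr
          _ ≤ M ^ 3 := by rw [mul_one]; exact hM13
      gcongr
    have hXXY : ‖X‖ ≤ ‖X‖ * ‖Y‖ := le_mul_of_one_le_right hXp.le hY1
    have n4 : ‖2 * (y * q * X)‖ ≤ M ^ 3 * (‖X‖ * ‖Y‖) := by
      refine (MClo_nat_le 2 _).trans ?_
      rw [norm_mul, norm_mul]
      have : ‖y‖ * ‖q‖ ≤ M ^ 3 := by
        calc ‖y‖ * ‖q‖ ≤ M * 1 := by gcongr
          _ ≤ M ^ 3 := by rw [mul_one]; exact hM13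
      gcongr
    have n5 : ‖6 * (y * x * X ^ 2)‖ ≤ M ^ 3 * (‖X‖ * ‖Y‖) := by
      refine (MClo_nat_le 6 _).trans ?_
      rw [norm_mul, norm_mul, norm_pow]
      have : ‖y‖ * ‖x‖ ≤ M ^ 3 := by
        calc ‖y‖ * ‖x‖ ≤ M * M := by gcongr
          _ = M ^ 2 := by ring
          _ ≤ M ^ 3 := hM23
      gcongr
    have n6 : ‖6 * (y * x ^ 2 * X)‖ ≤ M ^ 3 * (‖X‖ * ‖Y‖) := by
      refine (MClo_nat_le 6 _).trans ?_
      rw [norm_mul, norm_mul, norm_pow]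
      have : ‖y‖ * ‖x‖ ^ 2 ≤ M ^ 3 := by
        calc ‖y‖ * ‖x‖ ^ 2 ≤ M * M ^ 2 := by gcongr
          _ = M ^ 3 := by ring
      gcongr
    have n7 : ‖2 * (y * x ^ 3)‖ ≤ M ^ 3 * (‖X‖ * ‖Y‖) := by
      refine (MClo_nat_le 2 _).trans ?_
      rw [norm_mul, norm_pow]
      calc ‖y‖ * ‖x‖ ^ 3 ≤ M * (M ^ 2 * ‖X‖) := by
            have : ‖x‖ ^ 3 ≤ M ^ 2 * ‖X‖ := by
              rw [pow_succ]
              have := hMx.trans hMX.le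
              gcongr
            gcongr
        _ = M ^ 3 * ‖X‖ := by ring
        _ ≤ M ^ 3 * (‖X‖ * ‖Y‖) := by gcongr
    have h1 : ‖Y₃ - y‖ * ‖X‖ ^ 3 ≤ M ^ 3 * (‖X‖ * ‖Y‖) := by
      rw [← hsub, ← norm_pow, ← norm_mul, hyd2]
      rw [hsub]
      exact KumWA.nsub_le (KumWA.nadd_le (KumWA.nsub_le (KumWA.nsub_le (KumWA.nadd_le
        (KumWA.nsub_le n1 n2) n3) n4) n5) n6) n7
    rw [← mul_div_assoc, le_div_iff₀ (by positivity)]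
    have h2 : (‖Y₃ - y‖ * ‖X‖ ^ 2) * ‖X‖ ≤ (M ^ 3 * ‖Y‖) * ‖X‖ := by
      calc (‖Y₃ - y‖ * ‖X‖ ^ 2) * ‖X‖ = ‖Y₃ - y‖ * ‖X‖ ^ 3 := by ring
        _ ≤ M ^ 3 * (‖X‖ * ‖Y‖) := h1
        _ = (M ^ 3 * ‖Y‖) * ‖X‖ := by ring
    exact le_of_mul_le_mul_right h2 hXp

theorem close_of_fil (h : GB A B) (hd : nd d) {P : E A B d} (hP : P ≠ 0) {ε : ℝ} (hε : 0 < ε) :
    ∃ n : ℕ, ∀ P' : E A B d, fil n (P' - P) → P' ≠ 0 ∧ ‖xc P' - xc P‖ < ε ∧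
      ‖yc P' - yc P‖ < ε := by
  have hs := MClo_s h hd
  have hq := MClo_q h hd
  set M : ℝ := 1 + ‖xc P‖ + ‖yc P‖ with hM
  have nx := norm_nonneg (xc P)
  have ny := norm_nonneg (yc P)
  have hM1 : 1 ≤ M := by linarith
  have hMx : ‖xc P‖ ≤ M := by linarith
  have hMy : ‖yc P‖ ≤ M := by linarith
  have hp1 := KumWA.one_lt_p (p := p)
  obtain ⟨n, hn⟩ := pow_unbounded_of_one_lt (max (M ^ 3 / ε) M) hp1
  refine ⟨n, ?_⟩
  intro P' hF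
  obtain ⟨F, hFdef⟩ : ∃ F, F = P' - P := ⟨_, rfl⟩
  rw [← hFdef] at hF
  have hP' : P' = P + F := by rw [hFdef]; abel
  rw [hP']
  by_cases hF0 : F = 0
  · rw [hF0, add_zero, sub_self, sub_self, norm_zero]
    exact ⟨hP, hε, hε⟩
  have hRX : (p : ℝ) ^ (2 * n) ≤ ‖xc F‖ := hF.resolve_left hF0
  have hpn : M < (p : ℝ) ^ n := lt_of_le_of_lt (le_max_right _ _) hn
  have hpnε : M ^ 3 / ε < (p : ℝ) ^ n := lt_of_le_of_lt (le_max_left _ _) hn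
  have hpn1 : (p : ℝ) ^ n ≤ (p : ℝ) ^ (2 * n) := pow_le_pow_right₀ hp1.le (by omega)
  have hMX : M < ‖xc F‖ := lt_of_lt_of_le hpn (hpn1.trans hRX)
  have hX1 : 1 ≤ ‖xc F‖ := hM1.trans hMX.le
  have hXp : 0 < ‖xc F‖ := by linarith
  have e := curve_eq P
  have e' := curve_eq F
  have hY2 : ‖yc F‖ ^ 2 = ‖xc F‖ ^ 3 := by
    have hA : ‖A * d‖ < ‖xc F‖ := by
      rw [norm_mul, h.nA, one_mul]; exact (nd_lt hd).trans_le hX1
    have hB : ‖B * d‖ < ‖xc F‖ := by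
      rw [norm_mul, h.nB, one_mul]; exact (nd_lt hd).trans_le hX1
    rw [← norm_pow, e', norm_mul, norm_mul, KumWA.nsub_eq hA, KumWA.nsub_eq hB]
    ring
  have hne : xc P ≠ xc F := by
    intro h
    rw [h] at hMx
    exact absurd hMX (not_lt.2 hMx)
  obtain ⟨g1, g2, g3⟩ := MClo_add hP hF0 hne
  refine ⟨g1, ?_⟩
  obtain ⟨b1, b2⟩ := MClo_bd (s := (A + B) * d) (q := A * B * d ^ 2) hs hq hM1 hMx hMy hMX hY2
    (by linear_combination e) (by linear_combination e') (by linear_combination g2) g3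
  have ht : ‖yc F‖ / ‖xc F‖ ^ 2 ≤ ((p : ℝ) ^ n)⁻¹ := by
    have hpos : 0 < (p : ℝ) ^ n := by positivity
    apply le_of_sq_le_sq _ (by positivity)
    have e3 : ‖xc F‖ ^ 3 / (‖xc F‖ ^ 2) ^ 2 = (‖xc F‖)⁻¹ := by field_simp
    rw [div_pow, hY2, e3, inv_pow, ← pow_mul, mul_comm n 2]
    exact inv_anti₀ (by positivity) hRX
  have hfin : M ^ 3 * (‖yc F‖ / ‖xc F‖ ^ 2) < ε := by
    have h1 : M ^ 3 * (‖yc F‖ / ‖xc F‖ ^ 2) ≤ M ^ 3 * ((p : ℝ) ^ n)⁻¹ := by gcongr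
    refine lt_of_le_of_lt h1 ?_
    rw [← div_eq_mul_inv, div_lt_iff₀ (by positivity)]
    rw [div_lt_iff₀ hε] at hpnε
    linarith
  refine ⟨?_, lt_of_le_of_lt b2 hfin⟩
  refine lt_of_le_of_lt (b1.trans ?_) hfin
  have : M ^ 2 ≤ M ^ 3 := pow_le_pow_right₀ hM1 (by norm_num)
  gcongr

end Pool.Agent.Helper1.FT
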