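import Pool.Agent.Helper1.FT.MSC
import Pool.Agent.Helper1.FT.MNear
import Pool.Agent.Helper1.FT.MClo

/-!
# FT: module GSd (definitions for the transitivity)
-/

namespace Pool.Agent.Helper1.FT

open Pool.Agent.Helper10.K3 WeierstrassCurve.Affine Classical

variable {p : ℕ} [hp : Fact p.Prime] {A B d : ℚ_[p]}

/-- closed and stable predicates containing the data near the nodes -/
structure GS (h : Ok A B) (G : Loc A B → Prop) : Prop where
  cl : ∀ l, (∀ n, ∃ l', G l' ∧ LNear n l' l) → G l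
  sh1 : ∀ (l : Loc A B) (a : ℤ), G l → G ⟨l.d, l.hd, l.Q + a • l.R, l.R⟩
  sh2 : ∀ (l : Loc A B) (a : ℤ), G l → G ⟨l.d, l.hd, l.Q, l.R + a • l.Q⟩
  tr1 : ∀ (l : Loc A B) (j : J), G l → G ⟨l.d, l.hd, l.Q + torP h (nd_ne l.hd) j, l.R⟩
  tr2 : ∀ (l : Loc A B) (j : J), G l → G ⟨l.d, l.hd, l.Q, l.R + torP h (nd_ne l.hd) j⟩
  neg1 : ∀ l : Loc A B, G l → G ⟨l.d, l.hd, -l.Q, l.R⟩
  sig : ∀ l l', G l → SigL h l l' → G l'
  nn : ∀ (l : Loc A B) (i j : J), LTy h i j l → G l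

/-- all data with first point near the two-torsion, and second coordinate congruent to `c` -/
def TC (h : Ok A B) (G : Loc A B → Prop) (c : ℚ_[p]) : Prop :=
  ∀ (l : Loc A B) (i : J), fil 0 (l.Q - torP h (nd_ne l.hd) i) → l.R ≠ 0 →
    ‖xc l.R / l.d - c‖ < 1 → G l

/-- all data with second point near the two-torsion, and first coordinate congruent to `c` -/
def TD (h : Ok A B) (G : Loc A B → Prop) (c : ℚ_[p]) : Prop :=
  ∀ (l : Loc A B) (j : J), fil 0 (l.R - torP h (nd_ne l.hd) j) → l.Q ≠ 0 →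
    ‖xc l.Q / l.d - c‖ < 1 → G l

end Pool.Agent.Helper1.FT
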