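import Pool.Agent.Helper1.FT.Tr

/-!
# FT: abstract local places and approximation by global points
-/

namespace Pool.Agent.Helper1.FT

open Pool.Agent.Helper10.K3 WeierstrassCurve.Affine Classical Topology

/-- a place: topological field, with a notion of small points on the twists -/
structure Plc (K : Type) [Field K] [TopologicalSpace K] (A B : K) where
  ok : Ok A B
  dom : K → Prop
  dom_ne : ∀ {d : K}, dom d → d ≠ 0
  sm : ∀ {d : K}, ℕ → E A B d → Prop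
  sm_zero : ∀ {d : K} (n : ℕ), sm n (0 : E A B d)
  sm_neg : ∀ {d : K} {n : ℕ} {P : E A B d}, sm n P → sm n (-P)
  sm_mono : ∀ {d : K} {n m : ℕ} {P : E A B d}, n ≤ m → sm m P → sm n P
  sm_add : ∀ {d : K}, dom d → ∀ n : ℕ, ∃ m : ℕ, ∀ P Q : E A B d, sm m P → sm m Q → sm n (P + Q)
  f1 : ∀ {v : Pt A B} {d : K} {P Q : E A B d}, dom d → Rep v d P Q → ∀ {U : Set (Pt A B)},
    U ∈ 𝓝 v → ∃ n : ℕ, ∀ P' Q' : E A B d, sm n (P' - P) → sm n (Q' - Q) →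
      yc P' ≠ 0 ∧ yc Q' ≠ 0 ∧ ∀ u : Pt A B, Rep u d P' Q' → u ∈ U
  f2 : ∀ {v : Pt A B} {d : K} {P Q : E A B d}, dom d → Rep v d P Q → ∀ n : ℕ,
    ∀ᶠ u : Pt A B in 𝓝 v, ∃ c : K, c ≠ 0 ∧ ff A B u.x = d * c ^ 2 ∧
      ∀ P' Q' : E A B d, P' ≠ 0 → Q' ≠ 0 → xc P' = d * u.x → yc P' = d ^ 2 * c →
        xc Q' = d * u.y → yc Q' = d * u.z / c → sm n (P' - P) ∧ sm n (Q' - Q)
  fi : ∀ {v : Pt A B} (hv : IOK v) {U : Set (Pt A B)}, U ∈ 𝓝 (iota ok v hv) →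
    ∀ᶠ u : Pt A B in 𝓝 v, ∃ hu : IOK u, iota ok u hu ∈ U

section place

variable {K : Type} [Field K] [TopologicalSpace K] {A B : K} (π : Plc K A B)

/-- local datum at a place -/
structure LD {K : Type} [Field K] [TopologicalSpace K] {A B : K} (π : Plc K A B) where
  d : K
  hd : π.dom d
  P : E A B d
  Q : E A B d

namespace LD

variable {π}

/-- linear images -/
noncomputable def lin (l : LD π) (α β γ δ : ℤ) : LD π :=
  ⟨l.d, l.hd, α • l.P + β • l.Q, γ • l.P + δ • l.Q⟩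

/-- translation of the first point by a two-torsion point -/
noncomputable def tr1 (l : LD π) (j : J) : LD π :=
  ⟨l.d, l.hd, l.P + torP π.ok (π.dom_ne l.hd) j, l.Q⟩

/-- translation of the second point by a two-torsion point -/
noncomputable def tr2 (l : LD π) (j : J) : LD π :=
  ⟨l.d, l.hd, l.P, l.Q + torP π.ok (π.dom_ne l.hd) j⟩

/-- closeness -/
def Near (n : ℕ) (l' l : LD π) : Prop :=
  ∃ P' Q' : E A B l.d, l' = ⟨l.d, l.hd, P', Q'⟩ ∧ π.sm n (P' - l.P) ∧ π.sm n (Q' - l.Q)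

theorem Near.refl (n : ℕ) (l : LD π) : Near n l l := by
  refine ⟨l.P, l.Q, rfl, ?_, ?_⟩ <;> rw [sub_self] <;> exact π.sm_zero n

theorem Near.mono {n m : ℕ} (h : n ≤ m) {l' l : LD π} (hn : Near m l' l) : Near n l' l := by
  obtain ⟨P', Q', h1, h2, h3⟩ := hn
  exact ⟨P', Q', h1, π.sm_mono h h2, π.sm_mono h h3⟩

/-- two data related by the involution -/
def Sig (l l' : LD π) : Prop :=
  ∃ (u : Pt A B) (hu : IOK u), Rep u l.d l.P l.Q ∧ Rep (iota π.ok u hu) l'.d l'.P l'.Q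

theorem Sig.symm {l l' : LD π} (hs : Sig l l') : Sig l' l := by
  obtain ⟨u, hu, h1, h2⟩ := hs
  refine ⟨iota π.ok u hu, IOK_iota π.ok u hu, h2, ?_⟩
  rw [iota_iota]
  exact h1

end LD

variable {π}

theorem Plc.sm_nsmul {d : K} (hd : π.dom d) (k : ℕ) :
    ∀ n : ℕ, ∃ m : ℕ, ∀ P : E A B d, π.sm m P → π.sm n (k • P) := by
  induction k with
  | zero => exact fun n => ⟨0, fun P _ => by rw [zero_smul]; exact π.sm_zero n⟩
  | succ k ih =>
    intro n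
    obtain ⟨m₁, h1⟩ := π.sm_add hd n
    obtain ⟨m₂, h2⟩ := ih m₁
    refine ⟨max m₁ m₂, fun P hP => ?_⟩
    rw [succ_nsmul]
    exact h1 _ _ (h2 _ (π.sm_mono (le_max_right _ _) hP)) (π.sm_mono (le_max_left _ _) hP)

theorem Plc.sm_zsmul {d : K} (hd : π.dom d) (k : ℤ) (n : ℕ) :
    ∃ m : ℕ, ∀ P : E A B d, π.sm m P → π.sm n (k • P) := by
  obtain ⟨m, h⟩ := Plc.sm_nsmul (π := π) hd k.natAbs n
  refine ⟨m, fun P hP => ?_⟩
  rcases Int.natAbs_eq k with hk | hk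
  · rw [hk, natCast_zsmul]; exact h P hP
  · rw [hk, neg_zsmul, natCast_zsmul]; exact π.sm_neg (h P hP)

theorem Plc.sm_lin {d : K} (hd : π.dom d) (α β : ℤ) (n : ℕ) : ∃ m : ℕ, ∀ P Q : E A B d,
    π.sm m P → π.sm m Q → π.sm n (α • P + β • Q) := by
  obtain ⟨m₁, h1⟩ := π.sm_add hd n
  obtain ⟨m₂, h2⟩ := Plc.sm_zsmul (π := π) hd α m₁
  obtain ⟨m₃, h3⟩ := Plc.sm_zsmul (π := π) hd β m₁
  exact ⟨max m₂ m₃, fun P Q hP hQ => h1 _ _ (h2 _ (π.sm_mono (le_max_left _ _) hP))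
    (h3 _ (π.sm_mono (le_max_right _ _) hQ))⟩

theorem LD.Near.lin {l l' : LD π} (α β γ δ : ℤ) (n : ℕ) :
    ∃ m : ℕ, Near m l' l → Near n (l'.lin α β γ δ) (l.lin α β γ δ) := by
  obtain ⟨m₁, h1⟩ := Plc.sm_lin (π := π) l.hd α β n
  obtain ⟨m₂, h2⟩ := Plc.sm_lin (π := π) l.hd γ δ n
  refine ⟨max m₁ m₂, ?_⟩
  rintro ⟨P', Q', rfl, hP, hQ⟩
  refine ⟨_, _, rfl, ?_, ?_⟩
  · have := h1 _ _ (π.sm_mono (le_max_left _ _) hP) (π.sm_mono (le_max_left _ _) hQ)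
    convert! this using 1
    change (α • P' + β • Q') - (α • l.P + β • l.Q) = _
    rw [zsmul_sub, zsmul_sub]; abel
  · have := h2 _ _ (π.sm_mono (le_max_right _ _) hP) (π.sm_mono (le_max_right _ _) hQ)
    convert! this using 1
    change (γ • P' + δ • Q') - (γ • l.P + δ • l.Q) = _
    rw [zsmul_sub, zsmul_sub]; abel

end place

/-! ### global points -/

section glob

variable {K : Type} [Field K] [TopologicalSpace K] {L : Type*} [Field L] {A B : L}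
  (hAB : Ok A B) (φ : L →+* K) (π : Plc K (φ A) (φ B))

/-- the global pair `(P, Q)` of points of the twist by `e` is close to the local datum `l` -/
def AtG (n : ℕ) {e : L} (P Q : E A B e) (l : LD π) : Prop :=
  ∃ (g : K) (hg : l.d = φ e * g ^ 2), π.sm n (tr φ hAB (π.dom_ne l.hd) hg P - l.P) ∧
    π.sm n (tr φ hAB (π.dom_ne l.hd) hg Q - l.Q)

variable {hAB φ π}

theorem AtG.mono {n m : ℕ} (h : n ≤ m) {e : L} {P Q : E A B e} {l : LD π}
    (ha : AtG hAB φ π m P Q l) : AtG hAB φ π n P Q l := by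
  obtain ⟨g, hg, h1, h2⟩ := ha
  exact ⟨g, hg, π.sm_mono h h1, π.sm_mono h h2⟩

theorem exists_atG_lin (l : LD π) (α β γ δ : ℤ) (n : ℕ) : ∃ m : ℕ, ∀ {e : L} {P Q : E A B e},
    AtG hAB φ π m P Q l → AtG hAB φ π n (α • P + β • Q) (γ • P + δ • Q) (l.lin α β γ δ) := by
  obtain ⟨m₁, h1⟩ := Plc.sm_lin (π := π) l.hd α β n
  obtain ⟨m₂, h2⟩ := Plc.sm_lin (π := π) l.hd γ δ n
  refine ⟨max m₁ m₂, ?_⟩
  rintro e P Q ⟨g, hg, hP, hQ⟩
  refine ⟨g, hg, ?_, ?_⟩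
  · have e1 : tr φ hAB (π.dom_ne l.hd) hg (α • P + β • Q) - (α • l.P + β • l.Q) =
        α • (tr φ hAB (π.dom_ne l.hd) hg P - l.P) +
          β • (tr φ hAB (π.dom_ne l.hd) hg Q - l.Q) := by
      rw [map_add, map_zsmul, map_zsmul, zsmul_sub, zsmul_sub]; abel
    change π.sm n (tr φ hAB (π.dom_ne l.hd) hg (α • P + β • Q) - (α • l.P + β • l.Q))
    rw [e1]
    exact h1 _ _ (π.sm_mono (le_max_left _ _) hP) (π.sm_mono (le_max_left _ _) hQ)
  · have e1 : tr φ hAB (π.dom_ne l.hd) hg (γ • P + δ • Q) - (γ • l.P + δ • l.Q) =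
        γ • (tr φ hAB (π.dom_ne l.hd) hg P - l.P) +
          δ • (tr φ hAB (π.dom_ne l.hd) hg Q - l.Q) := by
      rw [map_add, map_zsmul, map_zsmul, zsmul_sub, zsmul_sub]; abel
    change π.sm n (tr φ hAB (π.dom_ne l.hd) hg (γ • P + δ • Q) - (γ • l.P + δ • l.Q))
    rw [e1]
    exact h2 _ _ (π.sm_mono (le_max_right _ _) hP) (π.sm_mono (le_max_right _ _) hQ)

theorem exists_atG_near (l : LD π) (n : ℕ) : ∃ m : ℕ, ∀ {l' : LD π} {e : L} {P Q : E A B e},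
    LD.Near m l' l → AtG hAB φ π m P Q l' → AtG hAB φ π n P Q l := by
  obtain ⟨m, h1⟩ := π.sm_add l.hd n
  refine ⟨m, ?_⟩
  rintro l' e P Q ⟨P', Q', rfl, h2, h3⟩ ⟨g, hg, h4, h5⟩
  refine ⟨g, hg, ?_, ?_⟩
  · have := h1 _ _ h4 h2
    rwa [sub_add_sub_cancel] at this
  · have := h1 _ _ h5 h3
    rwa [sub_add_sub_cancel] at this

theorem AtG.tr1 {n : ℕ} {e : L} (he : e ≠ 0) {P Q : E A B e} {l : LD π}
    (h : AtG hAB φ π n P Q l) (j : J) :
    AtG hAB φ π n (P + torP hAB he j) Q (l.tr1 j) := by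
  obtain ⟨g, hg, h1, h2⟩ := h
  refine ⟨g, hg, ?_, h2⟩
  change π.sm n (tr φ hAB (π.dom_ne l.hd) hg (P + torP hAB he j) -
    (l.P + torP π.ok (π.dom_ne l.hd) j))
  rw [map_add, tr_torP he, add_sub_add_right_eq_sub]
  exact h1

theorem AtG.tr2 {n : ℕ} {e : L} (he : e ≠ 0) {P Q : E A B e} {l : LD π}
    (h : AtG hAB φ π n P Q l) (j : J) :
    AtG hAB φ π n P (Q + torP hAB he j) (l.tr2 j) := by
  obtain ⟨g, hg, h1, h2⟩ := h
  refine ⟨g, hg, h1, ?_⟩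
  change π.sm n (tr φ hAB (π.dom_ne l.hd) hg (Q + torP hAB he j) -
    (l.Q + torP π.ok (π.dom_ne l.hd) j))
  rw [map_add, tr_torP he, add_sub_add_right_eq_sub]
  exact h2

/-- from local data to points of the surface -/
theorem exists_pt_of_atG {l : LD π} {v : Pt (φ A) (φ B)} (hv : Rep v l.d l.P l.Q)
    {U : Set (Pt (φ A) (φ B))} (hU : U ∈ 𝓝 v) : ∃ n : ℕ, ∀ {e : L} {P Q : E A B e}, e ≠ 0 →
      AtG hAB φ π n P Q l → yc P ≠ 0 ∧ yc Q ≠ 0 ∧ ∀ u : Pt A B, Rep u e P Q → Pt.map φ u ∈ U := by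
  obtain ⟨n, hn⟩ := π.f1 l.hd hv hU
  refine ⟨n, ?_⟩
  rintro e P Q he ⟨g, hg, h1, h2⟩
  obtain ⟨h3, h4, h5⟩ := hn _ _ h1 h2
  refine ⟨?_, ?_, ?_⟩
  · rintro h0
    apply h3
    rw [yc_tr, h0, map_zero, mul_zero]
  · rintro h0
    apply h4
    rw [yc_tr, h0, map_zero, mul_zero]
  · intro u hu
    exact h5 _ (hu.tr (φ := φ) (h := hAB) (he := π.dom_ne l.hd) (hg := hg))

theorem canP_eqn (u : Pt A B) : (ff A B u.x ^ 2) ^ 2 = (ff A B u.x * u.x) *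
    (ff A B u.x * u.x - A * ff A B u.x) * (ff A B u.x * u.x - B * ff A B u.x) := by
  have : ff A B u.x = u.x * (u.x - A) * (u.x - B) := rfl
  linear_combination ff A B u.x ^ 3 * this

theorem canQ_eqn (u : Pt A B) : (ff A B u.x * u.z) ^ 2 = (ff A B u.x * u.y) *
    (ff A B u.x * u.y - A * ff A B u.x) * (ff A B u.x * u.y - B * ff A B u.x) := by
  have h1 := u.eqn
  have : ff A B u.y = u.y * (u.y - A) * (u.y - B) := rfl
  rw [mul_pow, h1, this]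
  ring

/-- canonical representation, first point -/
noncomputable def canP (hAB : Ok A B) (u : Pt A B) : E A B (ff A B u.x) :=
  mkP hAB u.hfx (ff A B u.x * u.x) (ff A B u.x ^ 2) (canP_eqn u)

/-- canonical representation, second point -/
noncomputable def canQ (hAB : Ok A B) (u : Pt A B) : E A B (ff A B u.x) :=
  mkP hAB u.hfx (ff A B u.x * u.y) (ff A B u.x * u.z) (canQ_eqn u)

theorem rep_can (hAB : Ok A B) (u : Pt A B) : Rep u (ff A B u.x) (canP hAB u) (canQ hAB u) := by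
  refine ⟨u.hfx, mkP_ne _ _ _ _ _, mkP_ne _ _ _ _ _, ?_, ?_, ?_⟩
  · rw [canP, xc_mkP]; ring
  · rw [canQ, xc_mkP]; ring
  · rw [canP, canQ, yc_mkP, yc_mkP]; ring

/-- from points of the surface to local data -/
theorem eventually_atG {l : LD π} {v : Pt (φ A) (φ B)} (hv : Rep v l.d l.P l.Q) (n : ℕ) :
    ∀ᶠ w in 𝓝 v, ∀ u : Pt A B, Pt.map φ u = w →
      AtG hAB φ π n (canP hAB u) (canQ hAB u) l := by
  filter_upwards [π.f2 l.hd hv n] with w hw u huw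
  obtain ⟨c, hc, hce, H⟩ := hw
  have hd := π.dom_ne l.hd
  have hfx : φ (ff A B u.x) = ff (φ A) (φ B) w.x := by
    rw [map_ff, ← huw]; rfl
  have hg : l.d = φ (ff A B u.x) * (c⁻¹) ^ 2 := by
    rw [hfx, hce]; field_simp
  have hxx : φ u.x = w.x := by rw [← huw]; rfl
  have hyy : φ u.y = w.y := by rw [← huw]; rfl
  have hzz : φ u.z = w.z := by rw [← huw]; rfl
  refine ⟨c⁻¹, hg, ?_⟩
  apply H
  · exact tr_ne (mkP_ne _ _ _ _ _)
  · exact tr_ne (mkP_ne _ _ _ _ _)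
  · rw [xc_tr, canP, xc_mkP, map_mul, hfx, hxx, hce]; field_simp
  · rw [yc_tr, canP, yc_mkP, map_pow, hfx, hce]; field_simp
  · rw [xc_tr, canQ, xc_mkP, map_mul, hfx, hyy, hce]; field_simp
  · rw [yc_tr, canQ, yc_mkP, map_mul, hfx, hzz, hce]; field_simp

/-- the involution -/
theorem eventually_iota {v : Pt (φ A) (φ B)} (hv : IOK v) {U : Set (Pt (φ A) (φ B))}
    (hU : U ∈ 𝓝 (iota π.ok v hv)) :
    ∀ᶠ w in 𝓝 v, ∀ u : Pt A B, Pt.map φ u = w → ∃ hu : IOK u, Pt.map φ (iota hAB u hu) ∈ U := by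
  filter_upwards [π.fi hv hU] with w hw u huw
  obtain ⟨h1, h2⟩ := hw
  subst huw
  refine ⟨(IOK_map φ u).1 h1, ?_⟩
  rw [iota_map]
  exact h2

end glob

end Pool.Agent.Helper1.FT
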