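import Pool.Agent.Helper1.FT.PlcP
import Pool.Agent.Helper1.FT.PlcR

/-!
# FT: approximable systems of local data at finitely many finite and real places
-/

namespace Pool.Agent.Helper1.FT

open Pool.Agent.Helper10.K3 WeierstrassCurve.Affine Classical Topology

section inst

/-- the place attached to a prime -/
noncomputable def pPlc {p : ℕ} [hp : Fact p.Prime] {A B : ℚ_[p]} (h : GB A B) :
    Plc ℚ_[p] A B where
  ok := h.ok
  dom := nd
  dom_ne := nd_ne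
  sm n P := fil n P
  sm_zero n := fil_zero' n
  sm_neg := fil_neg
  sm_mono hnm hP := fil_mono hnm hP
  sm_add hd n := ⟨n, fun _ _ => fil_add h hd⟩
  f1 hd hr := loc_f1 h hd hr
  f2 hd hr n := loc_f2 h hd hr n
  fi hv := iota_nhds h.ok hv

theorem far_add_nat {A B : ℝ} (h : Ok A B) {d : ℝ} (hd : d ≠ 0) (n : ℕ) :
    ∃ m : ℕ, ∀ P Q : E A B d, Far m P → Far m Q → Far n (P + Q) := by
  obtain ⟨R', -, h2⟩ := far_add h hd n
  obtain ⟨m, hm⟩ := exists_nat_ge R'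
  exact ⟨m, fun P Q hP hQ => h2 _ _ (hP.mono hm) (hQ.mono hm)⟩

/-- the place attached to the real numbers -/
noncomputable def rPlc {A B : ℝ} (h : Ok A B) : Plc ℝ A B where
  ok := h
  dom d := d ≠ 0
  dom_ne hd := hd
  sm n P := Far n P
  sm_zero _ := Or.inl rfl
  sm_neg := Far.neg
  sm_mono hnm hP := hP.mono (by exact_mod_cast hnm)
  sm_add hd n := far_add_nat h hd n
  f1 hd hr := loc_f1_real h hd hr
  f2 hd hr n := loc_f2_real h hd hr n
  fi hv := iota_nhds h hv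

end inst

section fam

variable {L : Type*} [Field L] {A B : L} (hAB : Ok A B)
  {κ : Type} {K : κ → Type} [∀ i, Field (K i)] [∀ i, TopologicalSpace (K i)]
  (φ : ∀ i, L →+* K i) (π : ∀ i, Plc (K i) (φ i A) (φ i B))

/-- approximable families of local data -/
def AppF (l : ∀ i, LD (π i)) : Prop :=
  ∀ n : ℕ, ∃ (e : L) (P Q : E A B e), e ≠ 0 ∧ ∀ i, AtG hAB (φ i) (π i) n P Q (l i)

/-- families of local points which are limits of global points -/
def NearF (v : ∀ i, Pt (φ i A) (φ i B)) : Prop :=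
  ∀ U : ∀ i, Set (Pt (φ i A) (φ i B)), (∀ i, U i ∈ 𝓝 (v i)) →
    ∃ u : Pt A B, ∀ i, Pt.map (φ i) u ∈ U i

variable {hAB φ π} [Finite κ]

theorem exists_sup {κ : Type} [Finite κ] (m : κ → ℕ) : ∃ n, ∀ i, m i ≤ n := by
  have := Fintype.ofFinite κ
  exact ⟨Finset.univ.sup m, fun i => Finset.le_sup (Finset.mem_univ i)⟩

theorem AppF.lin {l : ∀ i, LD (π i)} (h : AppF hAB φ π l) (α β γ δ : ℤ) :
    AppF hAB φ π (fun i => (l i).lin α β γ δ) := by
  intro n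
  choose m hm using fun i => exists_atG_lin (hAB := hAB) (φ := φ i) (l i) α β γ δ n
  obtain ⟨M, hM⟩ := exists_sup m
  obtain ⟨e, P, Q, he, h1⟩ := h M
  exact ⟨e, _, _, he, fun i => hm i ((h1 i).mono (hM i))⟩

theorem AppF.closed {l : ∀ i, LD (π i)}
    (h : ∀ n : ℕ, ∃ l' : ∀ i, LD (π i), AppF hAB φ π l' ∧ ∀ i, LD.Near n (l' i) (l i)) :
    AppF hAB φ π l := by
  intro n
  choose m hm using fun i => exists_atG_near (hAB := hAB) (φ := φ i) (l i) n
  obtain ⟨M, hM⟩ := exists_sup m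
  obtain ⟨l', h1, h2⟩ := h M
  obtain ⟨e, P, Q, he, h3⟩ := h1 M
  exact ⟨e, P, Q, he, fun i => hm i ((h2 i).mono (hM i)) ((h3 i).mono (hM i))⟩

omit [Finite κ] in
theorem AppF.tr1 {l : ∀ i, LD (π i)} (h : AppF hAB φ π l) (j : J) :
    AppF hAB φ π (fun i => (l i).tr1 j) := by
  intro n
  obtain ⟨e, P, Q, he, h1⟩ := h n
  exact ⟨e, _, _, he, fun i => (h1 i).tr1 he j⟩

omit [Finite κ] in
theorem AppF.tr2 {l : ∀ i, LD (π i)} (h : AppF hAB φ π l) (j : J) :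
    AppF hAB φ π (fun i => (l i).tr2 j) := by
  intro n
  obtain ⟨e, P, Q, he, h1⟩ := h n
  exact ⟨e, _, _, he, fun i => (h1 i).tr2 he j⟩

theorem nearF_of_appF {l : ∀ i, LD (π i)} (h : AppF hAB φ π l) {v : ∀ i, Pt (φ i A) (φ i B)}
    (hv : ∀ i, Rep (v i) (l i).d (l i).P (l i).Q) (hκ : Nonempty κ) : NearF φ v := by
  intro U hU
  choose m hm using fun i => exists_pt_of_atG (hAB := hAB) (φ := φ i) (hv i) (hU i)
  obtain ⟨M, hM⟩ := exists_sup m
  obtain ⟨e, P, Q, he, h1⟩ := h M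
  obtain ⟨i₀⟩ := hκ
  obtain ⟨h2, h3, -⟩ := hm i₀ he ((h1 i₀).mono (hM i₀))
  refine ⟨mkPt he P Q h2 h3, fun i => ?_⟩
  exact (hm i he ((h1 i).mono (hM i))).2.2 _ (rep_mkPt he h2 h3)

omit [Finite κ] in
theorem appF_of_nearF {l : ∀ i, LD (π i)} {v : ∀ i, Pt (φ i A) (φ i B)} (h : NearF φ v)
    (hv : ∀ i, Rep (v i) (l i).d (l i).P (l i).Q) : AppF hAB φ π l := by
  intro n
  obtain ⟨u, hu⟩ := h _ (fun i => eventually_atG (hAB := hAB) (φ := φ i) (hv i) n)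
  exact ⟨_, canP hAB u, canQ hAB u, u.hfx, fun i => hu i u rfl⟩

omit [Finite κ] in
theorem nearF_iota (hAB : Ok A B) {v : ∀ i, Pt (φ i A) (φ i B)} (h : NearF φ v)
    (hκ : Nonempty κ)
    (hv : ∀ i, IOK (v i)) : NearF φ (fun i => iota (π i).ok (v i) (hv i)) := by
  intro U hU
  obtain ⟨u, hu⟩ := h _ (fun i => eventually_iota (hAB := hAB) (φ := φ i) (π := π i) (hv i) (hU i))
  obtain ⟨i₀⟩ := hκ
  obtain ⟨h1, -⟩ := hu i₀ u rfl
  exact ⟨iota hAB u h1, fun i => (hu i u rfl).2⟩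

theorem AppF.sig {l l' : ∀ i, LD (π i)} (h : AppF hAB φ π l) (hs : ∀ i, LD.Sig (l i) (l' i)) :
    AppF hAB φ π l' := by
  by_cases hκ : Nonempty κ
  · choose u hu h1 h2 using hs
    exact appF_of_nearF (nearF_iota (π := π) hAB (nearF_of_appF h h1 hκ) hκ hu) h2
  · intro n
    exact ⟨1, 0, 0, one_ne_zero, fun i => absurd ⟨i⟩ hκ⟩

end fam

end Pool.Agent.Helper1.FT
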