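import Pool.Agent.Helper1.FT.RDefs

/-!
# FT: module RE (the seed)
-/

namespace Pool.Agent.Helper1.FT

open Pool.Agent.Helper10.K3 WeierstrassCurve.Affine Classical Topology

variable {A B d : ℝ}

/-- target set of the second coordinate -/
def RE_T (A B d : ℝ) : Set ℝ :=
  {t | 0 < d * ff A B t ∧ ¬ (0 ≤ t * d ∧ A * d ≤ t * d ∧ B * d ≤ t * d)}

/-- `y` is in an unbounded component -/
def RE_out (A B y : ℝ) : Prop := (0 < y ∧ A < y ∧ B < y) ∨ (y < 0 ∧ y < A ∧ y < B)

theorem RE_T_open (A B d : ℝ) : IsOpen (RE_T A B d) := by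
  have h1 : IsOpen {t : ℝ | 0 < d * ff A B t} := by
    refine isOpen_lt continuous_const ?_
    unfold ff
    fun_prop
  have h2 : IsClosed {t : ℝ | 0 ≤ t * d ∧ A * d ≤ t * d ∧ B * d ≤ t * d} := by
    have hc : Continuous (fun t : ℝ => t * d) := by fun_prop
    exact IsClosed.inter (isClosed_le continuous_const hc) (IsClosed.inter
      (isClosed_le continuous_const hc) (isClosed_le continuous_const hc))
  exact h1.inter h2.isOpen_compl

theorem RE_out_open (A B : ℝ) : IsOpen {y : ℝ | RE_out A B y} := by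
  refine IsOpen.union ?_ ?_
  · exact (isOpen_lt continuous_const continuous_id).inter
      ((isOpen_lt continuous_const continuous_id).inter (isOpen_lt continuous_const continuous_id))
  · exact (isOpen_lt continuous_id continuous_const).inter
      ((isOpen_lt continuous_id continuous_const).inter (isOpen_lt continuous_id continuous_const))

/-- the final assembly -/
theorem RE_fin (h : Ok A B) (hd : d ≠ 0) (x y : ℝ) (hxy : 0 < ff A B x * ff A B y)
    (hn : nn A B (x - A) (y - B) ≠ 0) (hdd : dd A B (x - A) (y - B) ≠ 0)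
    (hl : ll A B (x - A) (y - B) ≠ 0) (ho : RE_out A B y) (hT : iy A B x y ∈ RE_T A B d) :
    ∃ (u : Pt A B) (hu : IOK u) (d₀ : ℝ)
    (P₀ R₀ : E A B d₀) (P' R' : E A B d), Rep u d₀ P₀ R₀ ∧ Comp R₀ ∧
      Rep (iota h u hu) d P' R' ∧ ¬ Comp R' := by
  obtain ⟨hT1, hT2⟩ := hT
  have hfy : ff A B y ≠ 0 := right_ne_zero_of_mul hxy.ne'
  set z : ℝ := √(ff A B x * ff A B y) with hz
  have hz0 : 0 < z := Real.sqrt_pos.2 hxy
  have hz2 : z ^ 2 = ff A B x * ff A B y := Real.sq_sqrt hxy.le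
  let u : Pt A B := ⟨(x, y, z), hz2, hz0.ne'⟩
  have hu : IOK u := ⟨hn, hdd, hl⟩
  set e : ℝ := ff A B y with he
  have heq1 : (z * e) ^ 2 = (x * e) * (x * e - A * e) * (x * e - B * e) := by
    have : ff A B x = x * (x - A) * (x - B) := rfl
    rw [mul_pow, hz2, this]
    ring
  have heq2 : (e ^ 2) ^ 2 = (y * e) * (y * e - A * e) * (y * e - B * e) := by
    have : e = y * (y - A) * (y - B) := rfl
    linear_combination e ^ 3 * this
  set x' : ℝ := ix A B x y with hx'
  set y' : ℝ := iy A B x y with hy'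
  set k : ℝ := kap A B x y with hk
  have hfx' : ff A B x' = k * ff A B x := ff_ix hdd
  have hfy' : ff A B y' = k * e := ff_iy hdd
  have hr0 : 0 < d ^ 3 * ff A B y' := by
    have : d ^ 3 * ff A B y' = d ^ 2 * (d * ff A B y') := by ring
    rw [this]
    have : 0 < d ^ 2 := by positivity
    exact mul_pos this hT1
  set r : ℝ := √(d ^ 3 * ff A B y') with hr
  have hr1 : 0 < r := Real.sqrt_pos.2 hr0
  have hr2 : r ^ 2 = d ^ 3 * ff A B y' := Real.sq_sqrt hr0.le
  have hk0 : k ≠ 0 := by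
    intro h0
    rw [hfy', h0] at hr0
    simp at hr0
  have heq3 : (k * z * d ^ 3 / r) ^ 2 = (x' * d) * (x' * d - A * d) * (x' * d - B * d) := by
    have h1 : (x' * d) * (x' * d - A * d) * (x' * d - B * d) = d ^ 3 * ff A B x' := by
      unfold ff; ring
    rw [h1, hfx', div_pow, hr2, hfy', div_eq_iff (by
      have := hr0.ne'
      rwa [hfy'] at this)]
    have : (k * z * d ^ 3) ^ 2 = k ^ 2 * z ^ 2 * d ^ 6 := by ring
    rw [this, hz2]
    ring
  have heq4 : r ^ 2 = (y' * d) * (y' * d - A * d) * (y' * d - B * d) := by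
    rw [hr2]
    unfold ff
    ring
  refine ⟨u, hu, e, mkP h hfy (x * e) (z * e) heq1, mkP h hfy (y * e) (e ^ 2) heq2,
    mkP h hd (x' * d) (k * z * d ^ 3 / r) heq3, mkP h hd (y' * d) r heq4, ?_, ?_, ?_, ?_⟩
  · refine ⟨hfy, mkP_ne _ _ _ _ _, mkP_ne _ _ _ _ _, ?_, ?_, ?_⟩
    · rw [xc_mkP]; rfl
    · rw [xc_mkP]; rfl
    · rw [yc_mkP, yc_mkP]
      change z * e ^ 3 = z * e * e ^ 2
      ring
  · right
    rw [xc_mkP]
    rcases ho with ⟨h1, h2, h3⟩ | ⟨h1, h2, h3⟩
    · have he0 : 0 < e := by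
        have : 0 < y * (y - A) * (y - B) := mul_pos (mul_pos h1 (by linarith)) (by linarith)
        exact this
      exact ⟨(mul_pos h1 he0).le, mul_le_mul_of_nonneg_right h2.le he0.le,
        mul_le_mul_of_nonneg_right h3.le he0.le⟩
    · have he0 : e < 0 := by
        have : y * (y - A) * (y - B) < 0 :=
          mul_neg_of_pos_of_neg (mul_pos_of_neg_of_neg h1 (by linarith)) (by linarith)
        exact this
      exact ⟨(mul_pos_of_neg_of_neg h1 he0).le, mul_le_mul_of_nonpos_right h2.le he0.le,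
        mul_le_mul_of_nonpos_right h3.le he0.le⟩
  · refine ⟨hd, mkP_ne _ _ _ _ _, mkP_ne _ _ _ _ _, ?_, ?_, ?_⟩
    · rw [iota_x, xc_mkP]; rfl
    · rw [iota_y, xc_mkP]; rfl
    · rw [iota_z, yc_mkP, yc_mkP, div_mul_cancel₀ _ hr1.ne']
      rfl
  · rintro (h0 | h0)
    · exact mkP_ne _ _ _ _ _ h0
    · rw [xc_mkP] at h0
      exact hT2 h0

/-- perturbation of the first coordinate from a root -/
theorem RE_root (h : Ok A B) {r y : ℝ} (j : J) (hj : j ≠ 0) (hr : r = rt A B j)
    (hy : ff A B y ≠ 0) (hn : nn A B (r - A) (y - B) ≠ 0) (hdd : dd A B (r - A) (y - B) ≠ 0)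
    (hl : ll A B (r - A) (y - B) ≠ 0) (hT : iy A B r y ∈ RE_T A B d) :
    ∃ x : ℝ, 0 < ff A B x * ff A B y ∧ nn A B (x - A) (y - B) ≠ 0 ∧
      dd A B (x - A) (y - B) ≠ 0 ∧ ll A B (x - A) (y - B) ≠ 0 ∧ iy A B x y ∈ RE_T A B d := by
  have hdf : df A B r ≠ 0 := by rw [hr]; exact df_ne h hj
  have hroot : r * (r - A) * (r - B) = 0 := by rw [hr]; exact rt_root A B j
  set c : ℝ := ff A B y with hc
  -- `ff x = (x - r) g x`
  set g : ℝ → ℝ := fun x => x ^ 2 + x * r + r ^ 2 - (A + B) * (x + r) + A * B with hg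
  have hgr : g r = df A B r := by
    rw [hg]
    unfold df
    ring
  have hfac : ∀ x, ff A B x = (x - r) * g x := by
    intro x
    rw [hg]
    unfold ff
    linear_combination hroot
  have hgc : Continuous g := by rw [hg]; fun_prop
  set m : ℝ := g r * c with hm
  have hpath : Filter.Tendsto (fun ε : ℝ => r + ε * m) (𝓝[>] 0) (𝓝 r) := by
    have h1 : Continuous (fun ε : ℝ => r + ε * m) := by fun_prop
    have h2 := h1.tendsto 0
    rw [zero_mul, add_zero] at h2
    exact h2.mono_left nhdsWithin_le_nhds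
  have e1 : ∀ᶠ x in 𝓝 r, 0 < g x * g r := by
    have h1 : Continuous (fun x => g x * g r) := hgc.mul continuous_const
    have h2 : 0 < g r * g r := by
      rw [hgr]
      exact mul_self_pos.2 hdf
    exact h1.tendsto r |>.eventually_const_lt h2
  have e2 : ∀ᶠ x in 𝓝 r, nn A B (x - A) (y - B) ≠ 0 := by
    have h1 : Continuous (fun x => nn A B (x - A) (y - B)) := by unfold nn; fun_prop
    exact (h1.tendsto r).eventually_ne hn
  have e3 : ∀ᶠ x in 𝓝 r, dd A B (x - A) (y - B) ≠ 0 := by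
    have h1 : Continuous (fun x => dd A B (x - A) (y - B)) := by unfold dd; fun_prop
    exact (h1.tendsto r).eventually_ne hdd
  have e4 : ∀ᶠ x in 𝓝 r, ll A B (x - A) (y - B) ≠ 0 := by
    have h1 : Continuous (fun x => ll A B (x - A) (y - B)) := by unfold ll; fun_prop
    exact (h1.tendsto r).eventually_ne hl
  have e5 : ∀ᶠ x in 𝓝 r, iy A B x y ∈ RE_T A B d := by
    have h1 : ContinuousAt (fun x => iy A B x y) r := by
      unfold iy rho
      refine ContinuousAt.add continuousAt_const (ContinuousAt.mul (ContinuousAt.div ?_ ?_ hdd)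
        continuousAt_const)
      · have : Continuous (fun x => -((A - B) * nn A B (x - A) (y - B))) := by
          unfold nn; fun_prop
        exact this.continuousAt
      · have : Continuous (fun x => dd A B (x - A) (y - B)) := by
          unfold dd; fun_prop
        exact this.continuousAt
    exact h1.eventually ((RE_T_open A B d).mem_nhds hT)
  have e6 := hpath.eventually (e1.and (e2.and (e3.and (e4.and e5))))
  have e7 : ∀ᶠ ε : ℝ in 𝓝[>] 0, 0 < ε := self_mem_nhdsWithin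
  obtain ⟨ε, ⟨h1, h2, h3, h4, h5⟩, hε⟩ := (e6.and e7).exists
  refine ⟨r + ε * m, ?_, h2, h3, h4, h5⟩
  rw [hfac]
  have h6 : (r + ε * m - r) * g (r + ε * m) * c = ε * c ^ 2 * (g (r + ε * m) * g r) := by
    rw [hm]; ring
  rw [h6]
  have : 0 < c ^ 2 := by positivity
  positivity

/-- membership in the target set, `d > 0` -/
theorem RE_mem_pos {t : ℝ} (hd : 0 < d) (h1 : 0 < ff A B t) (h2 : t < 0 ∨ t < A ∨ t < B) :
    t ∈ RE_T A B d := by
  refine ⟨mul_pos hd h1, ?_⟩
  rintro ⟨h3, h4, h5⟩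
  have h3' : 0 ≤ t := by
    by_contra h; push Not at h
    have := mul_neg_of_neg_of_pos h hd
    linarith
  have h4' : A ≤ t := le_of_mul_le_mul_right h4 hd
  have h5' : B ≤ t := le_of_mul_le_mul_right h5 hd
  rcases h2 with h | h | h <;> linarith

theorem RE_mem_neg {t : ℝ} (hd : d < 0) (h1 : ff A B t < 0) (h2 : 0 < t ∨ A < t ∨ B < t) :
    t ∈ RE_T A B d := by
  refine ⟨mul_pos_of_neg_of_neg hd h1, ?_⟩
  rintro ⟨h3, h4, h5⟩
  rcases h2 with h | h | h
  · have := mul_neg_of_pos_of_neg h hd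
    linarith
  · have := mul_lt_mul_of_neg_right h hd
    linarith
  · have := mul_lt_mul_of_neg_right h hd
    linarith

/-- the three limits -/
noncomputable def RE_L (A B y : ℝ) (j : J) : ℝ :=
  if j = (1, 0) then A - y else if j = (0, 1) then B + A / (A - B) * (y - B) else
    B + (A - B) / A * (y - B)

theorem RE_L_A (A B y : ℝ) : RE_L A B y (1, 0) = A - y := by rw [RE_L, if_pos rfl]

theorem RE_L_B (A B y : ℝ) : RE_L A B y (0, 1) = B + A / (A - B) * (y - B) := by
  rw [RE_L, if_neg (by decide), if_pos rfl]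

theorem RE_L_0 (A B y : ℝ) : RE_L A B y (1, 1) = B + (A - B) / A * (y - B) := by
  rw [RE_L, if_neg (by decide), if_neg (by decide)]

theorem RE_L_cont (A B : ℝ) (j : J) : Continuous (fun y => RE_L A B y j) := by
  unfold RE_L
  split_ifs <;> fun_prop

/-- choice through the root `A` -/
theorem RE_viaA {t : ℝ} (ht : t ∈ RE_T A B d) (ho : RE_out A B (A - t)) :
    ∃ y, RE_out A B y ∧ ∃ j : J, j ≠ 0 ∧ RE_L A B y j ∈ RE_T A B d := by
  refine ⟨A - t, ho, (1, 0), by decide, ?_⟩
  rw [RE_L_A, sub_sub_cancel]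
  exact ht

/-- choice through the root `B` -/
theorem RE_viaB (h : Ok A B) {t : ℝ} (ht : t ∈ RE_T A B d)
    (ho : RE_out A B (B + (A - B) / A * (t - B))) :
    ∃ y, RE_out A B y ∧ ∃ j : J, j ≠ 0 ∧ RE_L A B y j ∈ RE_T A B d := by
  refine ⟨B + (A - B) / A * (t - B), ho, (0, 1), by decide, ?_⟩
  rw [RE_L_B]
  have h1 := h.hA
  have h2 := h.sub_ne
  have : B + A / (A - B) * (B + (A - B) / A * (t - B) - B) = t := by
    field_simp
    ring
  rw [this]
  exact ht

/-- choice through the root `0` -/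
theorem RE_via0 (h : Ok A B) {t : ℝ} (ht : t ∈ RE_T A B d)
    (ho : RE_out A B (B + A / (A - B) * (t - B))) :
    ∃ y, RE_out A B y ∧ ∃ j : J, j ≠ 0 ∧ RE_L A B y j ∈ RE_T A B d := by
  refine ⟨B + A / (A - B) * (t - B), ho, (1, 1), by decide, ?_⟩
  rw [RE_L_0]
  have h1 := h.hA
  have h2 := h.sub_ne
  have : B + (A - B) / A * (B + A / (A - B) * (t - B) - B) = t := by
    field_simp
    ring
  rw [this]
  exact ht

theorem RE_ff_pos {t : ℝ} (h : 0 < t ∧ (t - A) * (t - B) > 0 ∨ t < 0 ∧ (t - A) * (t - B) < 0) :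
    0 < ff A B t := by
  unfold ff
  rw [mul_assoc]
  rcases h with ⟨h1, h2⟩ | ⟨h1, h2⟩
  · exact mul_pos h1 h2
  · exact mul_pos_of_neg_of_neg h1 h2

theorem RE_ff_neg {t : ℝ} (h : 0 < t ∧ (t - A) * (t - B) < 0 ∨ t < 0 ∧ (t - A) * (t - B) > 0) :
    ff A B t < 0 := by
  unfold ff
  rw [mul_assoc]
  rcases h with ⟨h1, h2⟩ | ⟨h1, h2⟩
  · exact mul_neg_of_pos_of_neg h1 h2
  · exact mul_neg_of_neg_of_pos h1 h2

theorem RE_y1 (h : Ok A B) (h1 : 0 < A) (h2 : A < B) (hd : d ≠ 0) :
    ∃ y, RE_out A B y ∧ ∃ j : J, j ≠ 0 ∧ RE_L A B y j ∈ RE_T A B d := by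
  have key : ∀ t, t < B → RE_out A B (B + (A - B) / A * (t - B)) := by
    intro t ht
    left
    have : 0 < (A - B) / A * (t - B) :=
      mul_pos_of_neg_of_neg (div_neg_of_neg_of_pos (by linarith) h1) (by linarith)
    exact ⟨by linarith, by linarith, by linarith⟩
  rcases lt_or_gt_of_ne hd with hd | hd
  · refine RE_viaB h (t := (A + B) / 2) (RE_mem_neg hd (RE_ff_neg (Or.inl ⟨by linarith, ?_⟩))
      (Or.inl (by linarith))) (key _ (by linarith))
    exact mul_neg_of_pos_of_neg (by linarith) (by linarith)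
  · refine RE_viaB h (t := A / 2) (RE_mem_pos hd (RE_ff_pos (Or.inl ⟨by linarith, ?_⟩))
      (Or.inr (Or.inl (by linarith)))) (key _ (by linarith))
    exact mul_pos_of_neg_of_neg (by linarith) (by linarith)

theorem RE_y1' (h : Ok A B) (h1 : A < 0) (h2 : B < A) (hd : d ≠ 0) :
    ∃ y, RE_out A B y ∧ ∃ j : J, j ≠ 0 ∧ RE_L A B y j ∈ RE_T A B d := by
  have key : ∀ t, B < t → RE_out A B (B + (A - B) / A * (t - B)) := by
    intro t ht
    right
    have : (A - B) / A * (t - B) < 0 :=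
      mul_neg_of_neg_of_pos (div_neg_of_pos_of_neg (by linarith) h1) (by linarith)
    exact ⟨by linarith, by linarith, by linarith⟩
  rcases lt_or_gt_of_ne hd with hd | hd
  · refine RE_viaB h (t := A / 2) (RE_mem_neg hd (RE_ff_neg (Or.inr ⟨by linarith, ?_⟩))
      (Or.inr (Or.inl (by linarith)))) (key _ (by linarith))
    exact mul_pos (by linarith) (by linarith)
  · refine RE_viaB h (t := (A + B) / 2) (RE_mem_pos hd (RE_ff_pos (Or.inr ⟨by linarith, ?_⟩))
      (Or.inl (by linarith))) (key _ (by linarith))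
    exact mul_neg_of_neg_of_pos (by linarith) (by linarith)

theorem RE_y2 (h : Ok A B) (h1 : 0 < B) (h2 : B < A) (hd : d ≠ 0) :
    ∃ y, RE_out A B y ∧ ∃ j : J, j ≠ 0 ∧ RE_L A B y j ∈ RE_T A B d := by
  have hA := h.hA
  have hs : 0 < A - B := by linarith
  have hs' := hs.ne'
  have hA0 : 0 < A := by linarith
  rcases lt_or_gt_of_ne hd with hd | hd
  · have e1 : A - B * (A - B) / (2 * A) - A = -(B * (A - B) / (2 * A)) := by ring
    have e2 : A - B * (A - B) / (2 * A) - B = (2 * A - B) * (A - B) / (2 * A) := by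
      field_simp; ring
    have p1 : 0 < B * (A - B) / (2 * A) := by positivity
    have p2 : 0 < (2 * A - B) * (A - B) / (2 * A) := by
      have : 0 < 2 * A - B := by linarith
      positivity
    refine RE_via0 h (t := A - B * (A - B) / (2 * A)) (RE_mem_neg hd (RE_ff_neg (Or.inl ⟨?_, ?_⟩))
      (Or.inl (by linarith))) (Or.inl ?_)
    · linarith
    · rw [e1, e2]
      exact mul_neg_of_neg_of_pos (by linarith) p2
    · have e3 : B + A / (A - B) * (A - B * (A - B) / (2 * A) - B) - A = B / 2 := by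
        field_simp; ring
      refine ⟨by linarith, by linarith, by linarith⟩
  · have e3 : B + A / (A - B) * (B ^ 2 / (2 * A) - B) = -(B ^ 2 / (2 * (A - B))) := by
      field_simp; ring
    have p1 : 0 < B ^ 2 / (2 * A) := by positivity
    have p2 : 0 < B ^ 2 / (2 * (A - B)) := by positivity
    have p3 : B ^ 2 / (2 * A) < B := by
      rw [div_lt_iff₀ (by positivity)]
      nlinarith
    refine RE_via0 h (t := B ^ 2 / (2 * A)) (RE_mem_pos hd (RE_ff_pos (Or.inl ⟨p1, ?_⟩))
      (Or.inr (Or.inl (by linarith)))) (Or.inr ?_)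
    · exact mul_pos_of_neg_of_neg (by linarith) (by linarith)
    · rw [e3]
      exact ⟨by linarith, by linarith, by linarith⟩

theorem RE_y2' (h : Ok A B) (h1 : B < 0) (h2 : A < B) (hd : d ≠ 0) :
    ∃ y, RE_out A B y ∧ ∃ j : J, j ≠ 0 ∧ RE_L A B y j ∈ RE_T A B d := by
  have hA := h.hA
  have hs : 0 < B - A := by linarith
  have hs' : A - B ≠ 0 := by linarith
  have hA0 : A < 0 := by linarith
  have hA1 : 0 < -A := by linarith
  have hB1 : 0 < -B := by linarith
  have hB2 : B ≠ 0 := h1.ne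
  rcases lt_or_gt_of_ne hd with hd | hd
  · have e3 : B + A / (A - B) * (B ^ 2 / (2 * A) - B) = B ^ 2 / (2 * (B - A)) := by
      have : B - A ≠ 0 := hs.ne'
      field_simp; ring
    have e4 : B ^ 2 / (2 * A) = -(B ^ 2 / (2 * (-A))) := by
      field_simp
    have p1 : 0 < B ^ 2 / (2 * (-A)) := by positivity
    have p2 : 0 < B ^ 2 / (2 * (B - A)) := by positivity
    have p3 : B ^ 2 / (2 * (-A)) < -B := by
      rw [div_lt_iff₀ (by positivity)]
      nlinarith
    refine RE_via0 h (t := B ^ 2 / (2 * A)) (RE_mem_neg hd (RE_ff_neg (Or.inr ⟨?_, ?_⟩))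
      (Or.inr (Or.inl ?_))) (Or.inl ?_)
    · rw [e4]; linarith
    · rw [e4]
      exact mul_pos (by linarith) (by linarith)
    · rw [e4]; linarith
    · rw [e3]
      exact ⟨by linarith, by linarith, by linarith⟩
  · have e0 : A - B * (A - B) / (2 * A) - A = B * (A - B) / (2 * (-A)) := by
      field_simp; ring
    have e2 : A - B * (A - B) / (2 * A) - B = -((B - 2 * A) * (B - A) / (2 * (-A))) := by
      field_simp; ring
    have p1 : 0 < B * (A - B) / (2 * (-A)) := by
      have : 0 < B * (A - B) := mul_pos_of_neg_of_neg h1 (by linarith)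
      positivity
    have p2 : 0 < (B - 2 * A) * (B - A) / (2 * (-A)) := by
      have : 0 < B - 2 * A := by linarith
      positivity
    refine RE_via0 h (t := A - B * (A - B) / (2 * A)) (RE_mem_pos hd (RE_ff_pos (Or.inr ⟨?_, ?_⟩))
      (Or.inl ?_)) (Or.inr ?_)
    · linarith
    · rw [e0, e2]
      exact mul_neg_of_pos_of_neg p1 (by linarith)
    · linarith
    · have e3 : B + A / (A - B) * (A - B * (A - B) / (2 * A) - B) - A = B / 2 := by
        field_simp; ring
      refine ⟨by linarith, by linarith, by linarith⟩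

theorem RE_y3 (h : Ok A B) (h1 : B < 0) (h2 : 0 < A) (hd : d ≠ 0) :
    ∃ y, RE_out A B y ∧ ∃ j : J, j ≠ 0 ∧ RE_L A B y j ∈ RE_T A B d := by
  have hA := h.hA
  rcases lt_or_gt_of_ne hd with hd | hd
  · set t : ℝ := (max 0 (A + B) + A) / 2 with ht
    have q1 : 0 ≤ max 0 (A + B) := le_max_left _ _
    have q2 : A + B ≤ max 0 (A + B) := le_max_right _ _
    have q3 : max 0 (A + B) < A := max_lt h2 (by linarith)
    refine RE_viaB h (t := t) (RE_mem_neg hd (RE_ff_neg (Or.inl ⟨by linarith, ?_⟩))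
      (Or.inl (by linarith))) (Or.inl ?_)
    · exact mul_neg_of_neg_of_pos (by linarith) (by linarith)
    · have e1 : B + (A - B) / A * (t - B) - A = (A - B) / A * (t - (A + B)) := by
        field_simp; ring
      have p1 : 0 < (A - B) / A * (t - (A + B)) :=
        mul_pos (div_pos (by linarith) h2) (by linarith)
      exact ⟨by linarith, by linarith, by linarith⟩
  · refine RE_viaA (t := B / 2) (RE_mem_pos hd (RE_ff_pos (Or.inr ⟨by linarith, ?_⟩))
      (Or.inl (by linarith))) (Or.inl ⟨by linarith, by linarith, by linarith⟩)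
    exact mul_neg_of_neg_of_pos (by linarith) (by linarith)

theorem RE_y3' (h : Ok A B) (h1 : 0 < B) (h2 : A < 0) (hd : d ≠ 0) :
    ∃ y, RE_out A B y ∧ ∃ j : J, j ≠ 0 ∧ RE_L A B y j ∈ RE_T A B d := by
  have hA := h.hA
  rcases lt_or_gt_of_ne hd with hd | hd
  · refine RE_viaA (t := B / 2) (RE_mem_neg hd (RE_ff_neg (Or.inl ⟨by linarith, ?_⟩))
      (Or.inl (by linarith))) (Or.inr ⟨by linarith, by linarith, by linarith⟩)
    exact mul_neg_of_pos_of_neg (by linarith) (by linarith)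
  · set t : ℝ := (min 0 (A + B) + A) / 2 with ht
    have q1 : min 0 (A + B) ≤ 0 := min_le_left _ _
    have q2 : min 0 (A + B) ≤ A + B := min_le_right _ _
    have q3 : A < min 0 (A + B) := lt_min h2 (by linarith)
    refine RE_viaB h (t := t) (RE_mem_pos hd (RE_ff_pos (Or.inr ⟨by linarith, ?_⟩))
      (Or.inl (by linarith))) (Or.inr ?_)
    · exact mul_neg_of_pos_of_neg (by linarith) (by linarith)
    · have e1 : B + (A - B) / A * (t - B) - A = (A - B) / A * (t - (A + B)) := by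
        field_simp; ring
      have p1 : (A - B) / A * (t - (A + B)) < 0 :=
        mul_neg_of_pos_of_neg (div_pos_of_neg_of_neg (by linarith) h2) (by linarith)
      exact ⟨by linarith, by linarith, by linarith⟩

theorem RE_y (h : Ok A B) (hd : d ≠ 0) :
    ∃ y, RE_out A B y ∧ ∃ j : J, j ≠ 0 ∧ RE_L A B y j ∈ RE_T A B d := by
  rcases lt_or_gt_of_ne h.hA with hA | hA
  · rcases lt_or_gt_of_ne h.hB with hB | hB
    · rcases lt_or_gt_of_ne h.hAB with hAB | hAB
      · exact RE_y2' h hB hAB hd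
      · exact RE_y1' h hA hAB hd
    · exact RE_y3' h hB hA hd
  · rcases lt_or_gt_of_ne h.hB with hB | hB
    · exact RE_y3 h hB hA hd
    · rcases lt_or_gt_of_ne h.hAB with hAB | hAB
      · exact RE_y1 h hA hAB hd
      · exact RE_y2 h hB hAB hd

/-- the values at a root -/
theorem RE_at_root (h : Ok A B) (j : J) (hj : j ≠ 0) : ∃ F : Set ℝ, F.Finite ∧ ∀ y ∉ F,
    nn A B (rt A B j - A) (y - B) ≠ 0 ∧ dd A B (rt A B j - A) (y - B) ≠ 0 ∧
    ll A B (rt A B j - A) (y - B) ≠ 0 ∧ iy A B (rt A B j) y = RE_L A B y j := by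
  have hA := h.hA
  have hB := h.hB
  have hs := h.sub_ne
  rcases J_cases j with rfl | rfl | rfl | rfl
  · exact absurd rfl hj
  · refine ⟨{B, A - B}, by simp, fun y hy => ?_⟩
    simp only [Set.mem_insert_iff, Set.mem_singleton_iff, not_or] at hy
    obtain ⟨h1, h2⟩ := hy
    have h1' : y - B ≠ 0 := sub_ne_zero.2 h1
    have h2' : y - (A - B) ≠ 0 := sub_ne_zero.2 h2
    rw [rt_A, sub_self, RE_L_A]
    have en : nn A B 0 (y - B) = A * (y - B) * (y - (A - B)) := by unfold nn; ring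
    have ed : dd A B 0 (y - B) = A * (A - B) * (y - B) ^ 2 := by unfold dd; ring
    have el : ll A B 0 (y - B) = (A - B) * A * A * (y - B) ^ 4 := by unfold ll; ring
    refine ⟨?_, ?_, ?_, ?_⟩
    · rw [en]; exact mul_ne_zero (mul_ne_zero hA h1') h2'
    · rw [ed]; exact mul_ne_zero (mul_ne_zero hA hs) (pow_ne_zero 2 h1')
    · rw [el]; exact mul_ne_zero (mul_ne_zero (mul_ne_zero hs hA) hA) (pow_ne_zero 4 h1')
    · unfold iy rho
      rw [sub_self, en, ed]
      field_simp
      ring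
  · refine ⟨{0, A, B ^ 2 / A, (A ^ 2 - A * B + B ^ 2) / A}, by simp, fun y hy => ?_⟩
    simp only [Set.mem_insert_iff, Set.mem_singleton_iff, not_or] at hy
    obtain ⟨h1, h2, h3, h4⟩ := hy
    have h2' : y - A ≠ 0 := sub_ne_zero.2 h2
    have h3' : A * y - B ^ 2 ≠ 0 := by
      intro h0
      exact h3 (by rw [eq_div_iff hA]; linarith)
    have h4' : A * y - (A ^ 2 - A * B + B ^ 2) ≠ 0 := by
      intro h0
      exact h4 (by rw [eq_div_iff hA]; linarith)
    rw [rt_B, RE_L_B]
    have en : nn A B (B - A) (y - B) = A * y * (y - A) := by unfold nn; ring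
    have ed : dd A B (B - A) (y - B) = -((A - B) ^ 2 * y * (y - A)) := by unfold dd; ring
    have el : ll A B (B - A) (y - B) = (y - A) * ((A - B) * y) * (A * y - B ^ 2) *
        (A * y - (A ^ 2 - A * B + B ^ 2)) := by unfold ll; ring
    refine ⟨?_, ?_, ?_, ?_⟩
    · rw [en]; exact mul_ne_zero (mul_ne_zero hA h1) h2'
    · rw [ed]; exact neg_ne_zero.2 (mul_ne_zero (mul_ne_zero (pow_ne_zero 2 hs) h1) h2')
    · rw [el]
      exact mul_ne_zero (mul_ne_zero (mul_ne_zero h2' (mul_ne_zero hs h1)) h3') h4'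
    · unfold iy rho
      rw [en, ed]
      field_simp
  · refine ⟨{0, A, A + B, -(B ^ 2) / (A - B)}, by simp, fun y hy => ?_⟩
    simp only [Set.mem_insert_iff, Set.mem_singleton_iff, not_or] at hy
    obtain ⟨h1, h2, h3, h4⟩ := hy
    have h2' : y - A ≠ 0 := sub_ne_zero.2 h2
    have h3' : y - (A + B) ≠ 0 := sub_ne_zero.2 h3
    have h4' : (A - B) * y + B ^ 2 ≠ 0 := by
      intro h0
      exact h4 (by rw [eq_div_iff hs]; linarith)
    rw [rt_0, RE_L_0, zero_sub]
    have en : nn A B (-A) (y - B) = A * y * (y - A) := by unfold nn; ring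
    have ed : dd A B (-A) (y - B) = -(A ^ 2 * y * (y - A)) := by unfold dd; ring
    have el : ll A B (-A) (y - B) = (y - (A + B)) * ((A - B) * y + B ^ 2) * (A * y) *
        (A * (y - A)) := by unfold ll; ring
    refine ⟨?_, ?_, ?_, ?_⟩
    · rw [en]; exact mul_ne_zero (mul_ne_zero hA h1) h2'
    · rw [ed]; exact neg_ne_zero.2 (mul_ne_zero (mul_ne_zero (pow_ne_zero 2 hA) h1) h2')
    · rw [el]
      exact mul_ne_zero (mul_ne_zero (mul_ne_zero h3' h4') (mul_ne_zero hA h1))
        (mul_ne_zero hA h2')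
    · unfold iy rho
      rw [zero_sub, en, ed]
      field_simp

theorem seed (h : Ok A B) (hd : d ≠ 0) : ∃ (u : Pt A B) (hu : IOK u) (d₀ : ℝ)
    (P₀ R₀ : E A B d₀) (P' R' : E A B d), Rep u d₀ P₀ R₀ ∧ Comp R₀ ∧
      Rep (iota h u hu) d P' R' ∧ ¬ Comp R' := by
  obtain ⟨y₀, ho, j, hj, hT⟩ := RE_y h hd
  obtain ⟨F, hF, H⟩ := RE_at_root h j hj
  have hopen : IsOpen ({y : ℝ | RE_out A B y} ∩ (fun y => RE_L A B y j) ⁻¹' RE_T A B d) :=
    (RE_out_open A B).inter ((RE_T_open A B d).preimage (RE_L_cont A B j))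
  obtain ⟨y, ⟨hy1, hy2⟩, hyF⟩ := (hF.countable.dense_compl ℝ).inter_open_nonempty _ hopen
    ⟨y₀, ho, hT⟩
  obtain ⟨h1, h2, h3, h4⟩ := H y hyF
  have hfy : ff A B y ≠ 0 := by
    unfold ff
    rcases hy1 with ⟨q1, q2, q3⟩ | ⟨q1, q2, q3⟩
    · exact mul_ne_zero (mul_ne_zero q1.ne' (by linarith)) (by linarith)
    · exact mul_ne_zero (mul_ne_zero q1.ne (by linarith)) (by linarith)
  obtain ⟨x, g1, g2, g3, g4, g5⟩ := RE_root h j hj rfl hfy h1 h2 h3 (by rw [h4]; exact hy2)
  exact RE_fin h hd x y g1 g2 g3 g4 hy1 g5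

end Pool.Agent.Helper1.FT
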