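import Pool.Agent.Helper1.FT.RA

/-!
# FT: module RD (components)
-/

namespace Pool.Agent.Helper1.FT

open Pool.Agent.Helper10.K3 WeierstrassCurve.Affine Classical Topology

variable {A B d : ℝ}

/-- a locally constant property on an interval is constant -/
theorem RD_clopen {I : Set ℝ} (hI : IsPreconnected I) (p : ℝ → Prop)
    (hloc : ∀ x ∈ I, ∃ ε : ℝ, 0 < ε ∧ ∀ y ∈ I, |y - x| < ε → (p y ↔ p x)) {a b : ℝ} (ha : a ∈ I)
    (hb : b ∈ I) : p a ↔ p b := by
  have : PreconnectedSpace I := Subtype.preconnectedSpace hI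
  have hf : IsLocallyConstant (fun x : I => p x) := by
    rw [IsLocallyConstant.iff_eventually_eq]
    intro x
    obtain ⟨ε, hε, H⟩ := hloc x x.2
    filter_upwards [Metric.ball_mem_nhds x hε] with y hy
    rw [Metric.mem_ball, Subtype.dist_eq, Real.dist_eq] at hy
    exact propext (H y y.2 hy)
  have := hf.apply_eq_of_preconnectedSpace ⟨a, ha⟩ ⟨b, hb⟩
  simp only at this
  rw [this]


theorem RD_neg_ne {P : E A B d} (hP : P ≠ 0) : -P ≠ 0 := by
  intro h0
  apply hP
  cases P with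
  | zero => rfl
  | some x y h' => exact absurd h0 (Point.some_ne_zero _)

theorem RD_sub_mul {P Q : E A B d} (hP : P ≠ 0) (hQ : Q ≠ 0) (hx : xc P ≠ xc Q) :
    xc (P - Q) * (xc P - xc Q) ^ 2 =
      (xc P * xc Q + A * B * d ^ 2) * (xc P + xc Q) - 2 * (A + B) * d * (xc P * xc Q) +
        2 * yc P * yc Q := by
  have hQ' : -Q ≠ 0 := RD_neg_ne hQ
  have hx' : xc P ≠ xc (-Q) := by rwa [xc_neg]
  have eP := curve_eq P
  have eQ := curve_eq Q
  have hyQ : yc (-Q) = - yc Q := yc_neg Q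
  have hxQ : xc (-Q) = xc Q := xc_neg Q
  rw [sub_eq_add_neg]
  have key : ∀ (P Q' : E A B d), P ≠ 0 → Q' ≠ 0 → xc P ≠ xc Q' →
      xc (P + Q') * (xc P - xc Q') ^ 2 = (yc P - yc Q') ^ 2 -
        (-(A + B) * d + xc P + xc Q') * (xc P - xc Q') ^ 2 := by
    intro P Q' h1 h2 h3
    cases P with
    | zero => exact absurd rfl h1
    | some x y hn =>
      cases Q' with
      | zero => exact absurd rfl h2
      | some x' y' hn' =>
        obtain ⟨X₃, Y₃, h₃, e1, e2, e3⟩ := tw_add_X_ne hn hn' h3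
        rw [e1]
        exact e2
  have h4 := key P (-Q) hP hQ' hx'
  rw [hxQ, hyQ] at h4
  linear_combination h4 + eP + eQ

theorem RD_double (h : Ok A B) {P : E A B d} (hy : yc P ≠ 0) :
    P + P ≠ 0 ∧ xc (P + P) * (2 * yc P) ^ 2 = (xc P ^ 2 - A * B * d ^ 2) ^ 2 := by
  refine ⟨fun h0 => hy (yc_of_add_self h h0), ?_⟩
  cases P with
  | zero => exact absurd rfl hy
  | some x y hn =>
    have h2 : 2 * y ≠ 0 := mul_ne_zero two_ne_zero hy
    obtain ⟨X₃, Y₃, h₃, e1, e2, e3⟩ := tw_dbl hn h2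
    rw [e1]
    exact e2

/-- the derivative does not vanish at a point of order two -/
theorem RD_deriv (h : Ok A B) (hd : d ≠ 0) {P : E A B d} (hP : P ≠ 0) (hy : yc P = 0) :
    3 * xc P ^ 2 - 2 * (A + B) * d * xc P + A * B * d ^ 2 ≠ 0 := by
  obtain ⟨j, hj⟩ := eq_torP h hd hy
  have hj0 : j ≠ 0 := by
    rintro rfl
    rw [torP_zero] at hj
    exact hP hj
  have hx : xc P = rt A B j * d := by rw [hj, xc_torP h hd hj0]
  have h1 := mul_ne_zero (df_ne h hj0) (pow_ne_zero 2 hd)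
  intro h2
  apply h1
  rw [hx] at h2
  unfold df
  linear_combination h2

/-- coordinate-close implies group-close, at the points of order two -/
theorem RD_tors (h : Ok A B) (hd : d ≠ 0) {P₀ : E A B d} (hP₀ : P₀ ≠ 0) (hy : yc P₀ = 0) (R : ℝ) :
    ∃ ε : ℝ, 0 < ε ∧ ∀ P : E A B d, P ≠ 0 → |xc P - xc P₀| < ε → Far R (P - P₀) := by
  set e := xc P₀ with he
  set D : ℝ := 3 * e ^ 2 - 2 * (A + B) * d * e + A * B * d ^ 2 with hD
  have hD0 : 0 < |D| := abs_pos.2 (RD_deriv h hd hP₀ hy)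
  have hcont : Continuous (fun x : ℝ => e * x + 2 * e ^ 2 - 2 * (A + B) * d * e +
      A * B * d ^ 2) := by fun_prop
  have hval : e * e + 2 * e ^ 2 - 2 * (A + B) * d * e + A * B * d ^ 2 = D := by rw [hD]; ring
  obtain ⟨δ, hδ, H⟩ := Metric.continuousAt_iff.1 (hcont.continuousAt (x := e))
    (|D| / 2) (by positivity)
  set R' : ℝ := |R| + 1 with hR'
  have hR0 : 0 < R' := by positivity
  refine ⟨min δ (|D| / 2 / R'), lt_min hδ (by positivity), fun P hP h1 => ?_⟩
  have a1 := h1.trans_le (min_le_left _ _)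
  have a2 := h1.trans_le (min_le_right _ _)
  by_cases hx : xc P = e
  · left
    have hneg : -P₀ = P₀ := neg_eq_of_add_eq_zero_left (add_self_of_yc hy)
    rcases (xc_eq_iff hP hP₀).1 hx with h | h
    · rw [h, sub_self]
    · rw [h, hneg, sub_self]
  · have h4 := RD_sub_mul hP hP₀ hx
    right
    have hne : xc P - e ≠ 0 := sub_ne_zero.2 hx
    have hcurve : e ^ 3 - (A + B) * d * e ^ 2 + A * B * d ^ 2 * e = 0 := by
      have := curve_eq P₀
      rw [hy, ← he] at this
      linear_combination -this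
    have h5 : xc (P - P₀) * (xc P - e) = e * xc P + 2 * e ^ 2 - 2 * (A + B) * d * e +
        A * B * d ^ 2 := by
      refine mul_right_cancel₀ hne ?_
      rw [hy, ← he] at h4
      linear_combination h4 + 2 * hcurve
    have h6 := H (x := xc P) (by rw [Real.dist_eq]; exact a1)
    rw [hval, Real.dist_eq, ← h5] at h6
    have h7 : |D| / 2 ≤ |xc (P - P₀) * (xc P - e)| := by
      have h8 := abs_sub_abs_le_abs_sub D (xc (P - P₀) * (xc P - e))
      rw [abs_sub_comm] at h8
      linarith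
    rw [abs_mul] at h7
    have h9 : 0 < |xc P - e| := abs_pos.2 hne
    have h10 : R' ≤ |xc (P - P₀)| := by
      by_contra hcon
      push Not at hcon
      have h11 : |xc (P - P₀)| * |xc P - e| < R' * |xc P - e| := mul_lt_mul_of_pos_right hcon h9
      have h12 : R' * |xc P - e| ≤ R' * (|D| / 2 / R') := mul_le_mul_of_nonneg_left a2.le hR0.le
      rw [mul_div_cancel₀ _ hR0.ne'] at h12
      linarith
    have h14 := le_abs_self R
    linarith

/-- points above nearby x-coordinates -/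
theorem RD_near (h : Ok A B) (hd : d ≠ 0) {P₀ : E A B d} (hP₀ : P₀ ≠ 0) (R : ℝ) :
    ∃ ε : ℝ, 0 < ε ∧ ∀ P : E A B d, P ≠ 0 → |xc P - xc P₀| < ε →
      Far R (P - P₀) ∨ Far R (-P - P₀) := by
  by_cases hy : yc P₀ = 0
  · obtain ⟨ε, hε, H⟩ := RD_tors h hd hP₀ hy R
    exact ⟨ε, hε, fun P hP h => Or.inl (H P hP h)⟩
  · obtain ⟨ε, hε, H⟩ := far_of_close h hd hP₀ hy R
    have hcont : Continuous (fun x : ℝ => x * (x - A * d) * (x - B * d)) := by fun_prop
    obtain ⟨δ, hδ, Hδ⟩ := Metric.continuousAt_iff.1 (hcont.continuousAt (x := xc P₀)) (ε ^ 2)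
      (by positivity)
    refine ⟨min ε δ, lt_min hε hδ, fun P hP hx => ?_⟩
    have h1 := Hδ (x := xc P) (by rw [Real.dist_eq]; exact hx.trans_le (min_le_right _ _))
    rw [Real.dist_eq, ← curve_eq P, ← curve_eq P₀] at h1
    have h2 : yc P ^ 2 - yc P₀ ^ 2 = (yc P - yc P₀) * (-yc P - yc P₀) * (-1) := by ring
    rw [h2, abs_mul, abs_neg, abs_one, mul_one, abs_mul] at h1
    have hx' := hx.trans_le (min_le_left ε δ)
    by_cases h3 : |yc P - yc P₀| < ε
    · left; exact H P hP hx' h3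
    · right
      push Not at h3
      apply H (-P) (RD_neg_ne hP)
      · rw [xc_neg]; exact hx'
      · rw [yc_neg]
        by_contra h4
        push Not at h4
        nlinarith [abs_nonneg (yc P - yc P₀), abs_nonneg (-yc P - yc P₀)]

/-- existence of points above an admissible coordinate -/
theorem RD_exists (h : Ok A B) (hd : d ≠ 0) {x : ℝ} (hx : 0 ≤ x * (x - A * d) * (x - B * d)) :
    ∃ P : E A B d, P ≠ 0 ∧ xc P = x :=
  ⟨mkP h hd x (√(x * (x - A * d) * (x - B * d))) (Real.sq_sqrt hx), mkP_ne _ _ _ _ _, rfl⟩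

/-- the condition of the identity component -/
def RD_C (A B d x : ℝ) : Prop := 0 ≤ x ∧ A * d ≤ x ∧ B * d ≤ x

theorem RD_I (A B d : ℝ) :
    IsPreconnected {x : ℝ | 0 ≤ x * (x - A * d) * (x - B * d) ∧ RD_C A B d x} := by
  have : {x : ℝ | 0 ≤ x * (x - A * d) * (x - B * d) ∧ RD_C A B d x} =
      Set.Ici (max 0 (max (A * d) (B * d))) := by
    ext x
    rw [Set.mem_ofPred_eq, Set.mem_Ici, RD_C, max_le_iff, max_le_iff]
    constructor
    · rintro ⟨_, h⟩
      exact h
    · rintro ⟨h1, h2, h3⟩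
      exact ⟨mul_nonneg (mul_nonneg h1 (by linarith)) (by linarith), h1, h2, h3⟩
  rw [this]
  exact isPreconnected_Ici

theorem RD_sorted {r s t : ℝ} (h1 : r < s) (h2 : s < t) :
    IsPreconnected {x : ℝ | 0 ≤ (x - r) * (x - s) * (x - t) ∧ ¬ (r ≤ x ∧ s ≤ x ∧ t ≤ x)} := by
  have : {x : ℝ | 0 ≤ (x - r) * (x - s) * (x - t) ∧ ¬ (r ≤ x ∧ s ≤ x ∧ t ≤ x)} =
      Set.Icc r s := by
    ext x
    rw [Set.mem_ofPred_eq, Set.mem_Icc]
    constructor
    · rintro ⟨h3, h4⟩
      have h5 : x < t := by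
        by_contra h6
        push Not at h6
        exact h4 ⟨by linarith, by linarith, h6⟩
      have h6 : (x - r) * (x - s) ≤ 0 := by
        by_contra h7
        push Not at h7
        have := mul_neg_of_pos_of_neg h7 (by linarith : x - t < 0)
        linarith
      constructor
      · by_contra h7
        push Not at h7
        have := mul_pos_of_neg_of_neg (by linarith : x - r < 0) (by linarith : x - s < 0)
        linarith
      · by_contra h7
        push Not at h7
        have := mul_pos (by linarith : 0 < x - r) (by linarith : 0 < x - s)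
        linarith
    · rintro ⟨h3, h4⟩
      refine ⟨?_, fun h => by linarith [h.2.2]⟩
      exact mul_nonneg_of_nonpos_of_nonpos
        (mul_nonpos_of_nonneg_of_nonpos (by linarith) (by linarith)) (by linarith)
  rw [this]
  exact isPreconnected_Icc

theorem RD_perm {r s t : ℝ} (h1 : r ≠ s) (h2 : s ≠ t) (h3 : r ≠ t) :
    IsPreconnected {x : ℝ | 0 ≤ (x - r) * (x - s) * (x - t) ∧ ¬ (r ≤ x ∧ s ≤ x ∧ t ≤ x)} := by
  have e1 : ∀ r s t : ℝ, {x : ℝ | 0 ≤ (x - r) * (x - s) * (x - t) ∧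
      ¬ (r ≤ x ∧ s ≤ x ∧ t ≤ x)} = {x : ℝ | 0 ≤ (x - s) * (x - r) * (x - t) ∧
      ¬ (s ≤ x ∧ r ≤ x ∧ t ≤ x)} := by
    intro r s t
    ext x
    simp only [Set.mem_ofPred_eq]
    have : (x - r) * (x - s) * (x - t) = (x - s) * (x - r) * (x - t) := by ring
    rw [this]
    tauto
  have e2 : ∀ r s t : ℝ, {x : ℝ | 0 ≤ (x - r) * (x - s) * (x - t) ∧
      ¬ (r ≤ x ∧ s ≤ x ∧ t ≤ x)} = {x : ℝ | 0 ≤ (x - r) * (x - t) * (x - s) ∧
      ¬ (r ≤ x ∧ t ≤ x ∧ s ≤ x)} := by
    intro r s t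
    ext x
    simp only [Set.mem_ofPred_eq]
    have : (x - r) * (x - s) * (x - t) = (x - r) * (x - t) * (x - s) := by ring
    rw [this]
    tauto
  rcases lt_or_gt_of_ne h1 with h1 | h1
  · rcases lt_or_gt_of_ne h2 with h2 | h2
    · exact RD_sorted h1 h2
    · rcases lt_or_gt_of_ne h3 with h3 | h3
      · rw [e2]
        exact RD_sorted h3 h2
      · rw [e2, e1]
        exact RD_sorted h3 h1
  · rcases lt_or_gt_of_ne h2 with h2 | h2
    · rcases lt_or_gt_of_ne h3 with h3 | h3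
      · rw [e1]
        exact RD_sorted h1 h3
      · rw [e1, e2]
        exact RD_sorted h2 h3
    · rw [e1, e2, e1]
      exact RD_sorted h2 h1

theorem RD_I' (h : Ok A B) (hd : d ≠ 0) :
    IsPreconnected {x : ℝ | 0 ≤ x * (x - A * d) * (x - B * d) ∧ ¬ RD_C A B d x} := by
  have h1 : (0 : ℝ) ≠ A * d := (mul_ne_zero h.hA hd).symm
  have h2 : (0 : ℝ) ≠ B * d := (mul_ne_zero h.hB hd).symm
  have h3 : A * d ≠ B * d := fun h0 => h.hAB (mul_right_cancel₀ hd h0)
  have h4 := RD_perm h1 h3 h2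
  have e : {x : ℝ | 0 ≤ (x - 0) * (x - A * d) * (x - B * d) ∧
      ¬ (0 ≤ x ∧ A * d ≤ x ∧ B * d ≤ x)} =
      {x : ℝ | 0 ≤ x * (x - A * d) * (x - B * d) ∧ ¬ RD_C A B d x} := by
    ext x
    simp only [Set.mem_ofPred_eq, sub_zero, RD_C]
  rwa [e] at h4

theorem RD_comp_iff {P : E A B d} (hP : P ≠ 0) : Comp P ↔ RD_C A B d (xc P) := by
  unfold Comp RD_C
  constructor
  · rintro (h | h)
    · exact absurd h hP
    · exact h
  · exact Or.inr

theorem RD_nonneg (P : E A B d) : 0 ≤ xc P * (xc P - A * d) * (xc P - B * d) := by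
  rw [← curve_eq P]
  positivity

theorem comp_double (h : Ok A B) (hd : d ≠ 0) (P : E A B d) : Comp (P + P) := by
  by_cases hP : P = 0
  · left
    rw [hP]
    exact add_zero _
  by_cases hy : yc P = 0
  · left
    exact add_self_of_yc hy
  · obtain ⟨h1, h2⟩ := RD_double h hy
    have hy2 : 0 < (2 * yc P) ^ 2 := by positivity
    have hc := curve_eq P
    rw [RD_comp_iff h1, RD_C]
    refine ⟨?_, ?_, ?_⟩
    · by_contra hcon
      push Not at hcon
      have := mul_neg_of_neg_of_pos hcon hy2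
      rw [h2] at this
      have := sq_nonneg (xc P ^ 2 - A * B * d ^ 2)
      linarith
    · by_contra hcon
      push Not at hcon
      have h3 := mul_neg_of_neg_of_pos (sub_neg.2 hcon) hy2
      have h4 : (xc (P + P) - A * d) * (2 * yc P) ^ 2 =
          ((xc P - A * d) ^ 2 - A * (A - B) * d ^ 2) ^ 2 := by
        linear_combination h2 - 4 * A * d * hc
      rw [h4] at h3
      have := sq_nonneg ((xc P - A * d) ^ 2 - A * (A - B) * d ^ 2)
      linarith
    · by_contra hcon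
      push Not at hcon
      have h3 := mul_neg_of_neg_of_pos (sub_neg.2 hcon) hy2
      have h4 : (xc (P + P) - B * d) * (2 * yc P) ^ 2 =
          ((xc P - B * d) ^ 2 - B * (B - A) * d ^ 2) ^ 2 := by
        linear_combination h2 - 4 * B * d * hc
      rw [h4] at h3
      have := sq_nonneg ((xc P - B * d) ^ 2 - B * (B - A) * d ^ 2)
      linarith

theorem inf_conn (h : Ok A B) (hd : d ≠ 0) {R : ℝ} (S : AddSubgroup (E A B d))
    (hS : ∀ P : E A B d, Far R P → P ∈ S) {P : E A B d} (hP : Comp P) : P ∈ S := by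
  by_cases hP0 : P = 0
  · rw [hP0]
    exact S.zero_mem
  set p : ℝ → Prop := fun x => ∀ P : E A B d, P ≠ 0 → xc P = x → P ∈ S with hp
  have hp' : ∀ P : E A B d, P ≠ 0 → (p (xc P) ↔ P ∈ S) := by
    intro P hP
    constructor
    · intro h; exact h P hP rfl
    · intro h Q hQ hx
      rcases (xc_eq_iff hQ hP).1 hx with rfl | rfl
      · exact h
      · exact S.neg_mem h
  -- a large point
  set X : ℝ := max |R| (max 0 (max (A * d) (B * d))) with hX
  have hXR : |R| ≤ X := le_max_left _ _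
  have hXd : max 0 (max (A * d) (B * d)) ≤ X := le_max_right _ _
  rw [max_le_iff, max_le_iff] at hXd
  obtain ⟨hX0, hXA, hXB⟩ := hXd
  have hXin : X ∈ {x : ℝ | 0 ≤ x * (x - A * d) * (x - B * d) ∧ RD_C A B d x} :=
    ⟨mul_nonneg (mul_nonneg hX0 (by linarith)) (by linarith), hX0, hXA, hXB⟩
  obtain ⟨P₁, hP₁, hx₁⟩ := RD_exists h hd hXin.1
  have hP₁S : P₁ ∈ S := by
    apply hS
    right
    rw [hx₁, abs_of_nonneg hX0]
    exact (le_abs_self R).trans hXR
  have hloc : ∀ x ∈ {x : ℝ | 0 ≤ x * (x - A * d) * (x - B * d) ∧ RD_C A B d x},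
      ∃ ε : ℝ, 0 < ε ∧ ∀ y ∈ {x : ℝ | 0 ≤ x * (x - A * d) * (x - B * d) ∧ RD_C A B d x},
        |y - x| < ε → (p y ↔ p x) := by
    rintro x ⟨hx, -⟩
    obtain ⟨P₀, hP₀, rfl⟩ := RD_exists h hd hx
    obtain ⟨ε, hε, H⟩ := RD_near h hd hP₀ R
    refine ⟨ε, hε, ?_⟩
    rintro y ⟨hy, -⟩ hyx
    obtain ⟨P, hP, rfl⟩ := RD_exists h hd hy
    rw [hp' P hP, hp' P₀ hP₀]
    rcases H P hP hyx with h | h
    · have h1 := hS _ h
      constructor
      · intro h2
        have := S.sub_mem h2 h1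
        rwa [sub_sub_cancel] at this
      · intro h2
        have := S.add_mem h1 h2
        rwa [sub_add_cancel] at this
    · have h1 := hS _ h
      constructor
      · intro h2
        have := S.sub_mem (S.neg_mem h2) h1
        rwa [sub_sub_cancel] at this
      · intro h2
        have := S.add_mem h1 h2
        rw [sub_add_cancel] at this
        have := S.neg_mem this
        rwa [neg_neg] at this
  have hfin := RD_clopen (RD_I A B d) p hloc hXin (b := xc P)
    ⟨RD_nonneg P, (RD_comp_iff hP0).1 hP⟩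
  rw [← hp' P hP0, ← hfin, ← hx₁, hp' P₁ hP₁]
  exact hP₁S

theorem inf_conn' (h : Ok A B) (hd : d ≠ 0) {R : ℝ} (S : AddSubgroup (E A B d))
    (hS : ∀ P : E A B d, Far R P → P ∈ S) {P Q : E A B d} (hP : ¬ Comp P) (hQ : ¬ Comp Q) :
    P - Q ∈ S := by
  have hP0 : P ≠ 0 := fun h => hP (Or.inl h)
  have hQ0 : Q ≠ 0 := fun h => hQ (Or.inl h)
  have hdbl : ∀ T : E A B d, T + T ∈ S := fun T => inf_conn h hd S hS (comp_double h hd T)
  have hneg : ∀ T : E A B d, T - Q ∈ S → -T - Q ∈ S := by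
    intro T hT
    have := S.sub_mem hT (hdbl T)
    have h2 : T - Q - (T + T) = -T - Q := by abel
    rwa [h2] at this
  set p : ℝ → Prop := fun x => ∀ T : E A B d, T ≠ 0 → xc T = x → T - Q ∈ S with hp
  have hp' : ∀ T : E A B d, T ≠ 0 → (p (xc T) ↔ T - Q ∈ S) := by
    intro T hT
    constructor
    · intro h; exact h T hT rfl
    · intro h U hU hx
      rcases (xc_eq_iff hU hT).1 hx with rfl | rfl
      · exact h
      · exact hneg _ h
  have hloc : ∀ x ∈ {x : ℝ | 0 ≤ x * (x - A * d) * (x - B * d) ∧ ¬ RD_C A B d x},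
      ∃ ε : ℝ, 0 < ε ∧ ∀ y ∈ {x : ℝ | 0 ≤ x * (x - A * d) * (x - B * d) ∧ ¬ RD_C A B d x},
        |y - x| < ε → (p y ↔ p x) := by
    rintro x ⟨hx, -⟩
    obtain ⟨P₀, hP₀, rfl⟩ := RD_exists h hd hx
    obtain ⟨ε, hε, H⟩ := RD_near h hd hP₀ R
    refine ⟨ε, hε, ?_⟩
    rintro y ⟨hy, -⟩ hyx
    obtain ⟨T, hT, rfl⟩ := RD_exists h hd hy
    rw [hp' T hT, hp' P₀ hP₀]
    rcases H T hT hyx with h | h
    · have h1 := hS _ h
      have e1 : T - Q = (T - P₀) + (P₀ - Q) := by abel
      rw [e1]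
      exact ⟨fun h2 => (S.add_mem_cancel_left h1).1 h2, fun h2 => S.add_mem h1 h2⟩
    · have h1 := hS _ h
      have e1 : -T - Q = (-T - P₀) + (P₀ - Q) := by abel
      constructor
      · intro h2
        have h3 := hneg _ h2
        rw [e1] at h3
        exact (S.add_mem_cancel_left h1).1 h3
      · intro h2
        have h3 : -T - Q ∈ S := by
          rw [e1]
          exact S.add_mem h1 h2
        have h4 := hneg _ h3
        rwa [neg_neg] at h4
  have hfin := RD_clopen (RD_I' h hd) p hloc (a := xc P) (b := xc Q)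
    ⟨RD_nonneg P, fun h => hP ((RD_comp_iff hP0).2 h)⟩
    ⟨RD_nonneg Q, fun h => hQ ((RD_comp_iff hQ0).2 h)⟩
  rw [← hp' P hP0, hfin, hp' Q hQ0, sub_self]
  exact S.zero_mem

theorem far_comp (h : Ok A B) (hd : d ≠ 0) : ∃ R : ℝ, ∀ P : E A B d, Far R P → Comp P := by
  refine ⟨|A * d| + |B * d| + 1, fun P hP => ?_⟩
  rcases hP with hP | hP
  · exact Or.inl hP
  · right
    have a1 := neg_abs_le (A * d)
    have a2 := neg_abs_le (B * d)
    have a3 := le_abs_self (A * d)
    have a4 := le_abs_self (B * d)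
    have a5 := abs_nonneg (A * d)
    have a6 := abs_nonneg (B * d)
    have hx : 0 ≤ xc P := by
      by_contra hcon
      push Not at hcon
      rw [abs_of_neg hcon] at hP
      have h1 : xc P * (xc P - A * d) * (xc P - B * d) < 0 :=
        mul_neg_of_pos_of_neg (mul_pos_of_neg_of_neg hcon (by linarith)) (by linarith)
      have := RD_nonneg P
      linarith
    rw [abs_of_nonneg hx] at hP
    exact ⟨hx, by linarith, by linarith⟩

end Pool.Agent.Helper1.FT
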