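import Pool.Agent.Helper1.FT.RA
import Pool.Agent.Helper10.K3.DivPoly

/-!
# FT: module RF (points of infinite order)
-/

namespace Pool.Agent.Helper1.FT

open Pool.Agent.Helper10.K3 WeierstrassCurve.Affine Classical Topology

variable {A B d : ℝ}

namespace RF_

/-- there are finitely many points with given x-coordinate -/
theorem finite_xc_eq (x : ℝ) : {P : E A B d | P ≠ 0 ∧ xc P = x}.Finite := by
  by_cases hne : ∃ P : E A B d, P ≠ 0 ∧ xc P = x
  · obtain ⟨P, hP, hx⟩ := hne
    apply Set.Finite.subset (Set.toFinite {P, -P})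
    rintro Q ⟨hQ, hQx⟩
    rcases (xc_eq_iff hQ hP).1 (hQx.trans hx.symm) with h | h
    · left; exact h
    · right; exact h
  · convert Set.finite_empty
    ext P
    simp only [Set.mem_setOf_eq, Set.mem_empty_iff_false, iff_false]
    exact fun h => hne ⟨P, h⟩

theorem finite_xc_mem {S : Set ℝ} (hS : S.Finite) :
    {P : E A B d | P ≠ 0 ∧ xc P ∈ S}.Finite := by
  have : {P : E A B d | P ≠ 0 ∧ xc P ∈ S} ⊆ ⋃ x ∈ S, {P : E A B d | P ≠ 0 ∧ xc P = x} := by
    rintro P ⟨h1, h2⟩
    simp only [Set.mem_iUnion]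
    exact ⟨xc P, h2, h1, rfl⟩
  exact (Set.Finite.biUnion hS (fun x _ => finite_xc_eq x)).subset this

/-- the torsion is finite -/
theorem finite_tors (ok : Ok A B) (hd : d ≠ 0) {k : ℕ} (hk : k ≠ 0) :
    {P : E A B d | k • P = 0}.Finite := by
  obtain ⟨U, V, D⟩ := Pool.Agent.Helper10.K3.exists_mulData (F := ℝ) ok.h2 (a := -(A + B))
    (b := A * B) ok.b_ne ok.ab_ne k (by omega)
  have hV0 : V ≠ 0 := by
    intro h0
    have h3 := D.topV
    rw [h0, Polynomial.coeff_zero] at h3
    have h4 : (k : ℝ) ≠ 0 := by exact_mod_cast hk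
    exact pow_ne_zero 2 h4 h3.symm
  have hfin : {x : ℝ | V.IsRoot x}.Finite := Polynomial.finite_setOf_isRoot hV0
  have hB : ({0} ∪ (fun t => d * t) '' {x : ℝ | V.IsRoot x} : Set ℝ).Finite :=
    (Set.finite_singleton _).union (hfin.image _)
  have hsub : {P : E A B d | k • P = 0} ⊆
      {0} ∪ {P : E A B d | P ≠ 0 ∧
        xc P ∈ ({0} ∪ (fun t => d * t) '' {x : ℝ | V.IsRoot x} : Set ℝ)} := by
    intro P hP
    rcases P with _ | ⟨X, Y, h⟩
    · left; rfl
    · right
      refine ⟨WeierstrassCurve.Affine.Point.some_ne_zero _, ?_⟩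
      by_cases hX : X = 0
      · left; exact hX
      · right
        refine ⟨X / d, ?_, by change d * (X / d) = X; field_simp⟩
        rcases D.rep d hd (X / d) (div_ne_zero hX hd) X Y h (by field_simp) with
          ⟨-, h1, -⟩ | ⟨X', Y', h', h1, -, -⟩
        · exact h1
        · exfalso
          have h2 : k • (WeierstrassCurve.Affine.Point.some X Y h : E A B d) = 0 := hP
          have h3 := h1.symm.trans h2
          exact absurd h3 (WeierstrassCurve.Affine.Point.some_ne_zero _)
  exact ((Set.finite_singleton _).union (finite_xc_mem hB)).subset hsub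

theorem countable_tors (ok : Ok A B) (hd : d ≠ 0) :
    {P : E A B d | ∃ k : ℕ, k ≠ 0 ∧ k • P = 0}.Countable := by
  have : {P : E A B d | ∃ k : ℕ, k ≠ 0 ∧ k • P = 0} =
      ⋃ k ∈ {k : ℕ | k ≠ 0}, {P : E A B d | k • P = 0} := by
    ext P
    simp
  rw [this]
  exact Set.Countable.biUnion (Set.to_countable _) (fun k hk => (finite_tors ok hd hk).countable)

theorem not_countable_far (ok : Ok A B) (hd : d ≠ 0) (R : ℝ) :
    ¬ {P : E A B d | Far R P}.Countable := by
  intro hc
  have h1 : (xc '' {P : E A B d | Far R P} : Set ℝ).Countable := hc.image _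
  have h2 : Set.Ioi (max R (max |A * d| |B * d|)) ⊆ (xc '' {P : E A B d | Far R P} : Set ℝ) := by
    intro x hx
    rw [Set.mem_Ioi, max_lt_iff, max_lt_iff] at hx
    have h3 := le_abs_self (A * d)
    have h4 := le_abs_self (B * d)
    have hx0 : 0 < x := by
      have := abs_nonneg (A * d)
      linarith
    have h5 : 0 < x - A * d := by linarith
    have h6 : 0 < x - B * d := by linarith
    have hpos : 0 ≤ x * (x - A * d) * (x - B * d) := by positivity
    refine ⟨mkP ok hd x (Real.sqrt (x * (x - A * d) * (x - B * d))) (Real.sq_sqrt hpos), ?_, ?_⟩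
    · right
      rw [xc_mkP, abs_of_pos hx0]
      exact hx.1.le
    · exact xc_mkP _ _ _ _ _
  have h3 : (Set.Ioi (max R (max |A * d| |B * d|)) : Set ℝ).Countable := h1.mono h2
  have h4 := h3.le_aleph0
  rw [Cardinal.mk_Ioi_real] at h4
  exact absurd h4 (not_le.2 Cardinal.aleph0_lt_continuum)

end RF_

theorem inf_nontor (h : Ok A B) (hd : d ≠ 0) (P : E A B d) (R : ℝ) :
    ∃ P' : E A B d, (∀ k : ℕ, k ≠ 0 → k • P' ≠ 0) ∧ Far R (P' - P) := by
  by_contra hcon
  push Not at hcon
  apply RF_.not_countable_far h hd R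
  have hinj : Function.Injective (fun η : E A B d => P + η) := add_right_injective P
  apply Set.countable_of_injective_of_countable_image (f := fun η : E A B d => P + η)
    hinj.injOn
  apply (RF_.countable_tors h hd).mono
  rintro _ ⟨η, hη, rfl⟩
  by_contra h'
  simp only [Set.mem_setOf_eq, not_exists, not_and] at h'
  apply hcon (P + η) h'
  rw [add_sub_cancel_left]
  exact hη

end Pool.Agent.Helper1.FT
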