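import Pool.Agent.Helper1.FT.RB
import Pool.Agent.Helper1.FT.RC
import Pool.Agent.Helper1.FT.RD
import Pool.Agent.Helper1.FT.RF

/-!
# FT: open subgroups of the groups of real points
-/

namespace Pool.Agent.Helper1.FT

open Pool.Agent.Helper10.K3 WeierstrassCurve.Affine Classical Topology

variable {A B d : ℝ}

theorem far_zero' (R : ℝ) : Far R (0 : E A B d) := Or.inl rfl

/-- the intersection of all open subgroups -/
def InG (ξ : E A B d) : Prop :=
  ∀ S : AddSubgroup (E A B d), (∃ R : ℝ, ∀ P : E A B d, Far R P → P ∈ S) → ξ ∈ S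

theorem InG.add {ξ η : E A B d} (h : InG ξ) (h' : InG η) : InG (ξ + η) :=
  fun S hS => S.add_mem (h S hS) (h' S hS)

theorem InG.sub {ξ η : E A B d} (h : InG ξ) (h' : InG η) : InG (ξ - η) :=
  fun S hS => S.sub_mem (h S hS) (h' S hS)

theorem InG.zsmul {ξ : E A B d} (h : InG ξ) (k : ℤ) : InG (k • ξ) :=
  fun S hS => S.zsmul_mem (h S hS) k

theorem Comp.inG (h : Ok A B) (hd : d ≠ 0) {P : E A B d} (hP : Comp P) : InG P := by
  rintro S ⟨R, hR⟩
  exact inf_conn h hd S hR hP

theorem inG_two (h : Ok A B) (hd : d ≠ 0) (P : E A B d) : InG ((2 : ℤ) • P) := by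
  rw [two_zsmul]
  exact (comp_double h hd P).inG h hd

theorem inG_sub (h : Ok A B) (hd : d ≠ 0) {P Q : E A B d} (hP : ¬ Comp P) (hQ : ¬ Comp Q) :
    InG (P - Q) := by
  rintro S ⟨R, hR⟩
  exact inf_conn' h hd S hR hP hQ

/-- the multiples of a point of infinite order are dense in `InG` -/
theorem orb_dense (h : Ok A B) (hd : d ≠ 0) {P : E A B d} (hP : ∀ k : ℕ, k ≠ 0 → k • P ≠ 0)
    {N : ℤ} (hN : N ≠ 0) {ξ : E A B d} (hξ : InG ξ) (R : ℝ) :
    ∃ k : ℤ, Far R (ξ - (k * N) • P) := by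
  let CS : AddSubgroup (E A B d) :=
    { carrier := {ξ | ∀ R : ℝ, ∃ k : ℤ, Far R (ξ - (k * N) • P)}
      add_mem' := by
        intro a b ha hb R
        obtain ⟨R', -, hR'⟩ := far_add h hd R
        obtain ⟨k, hk⟩ := ha R'
        obtain ⟨l, hl⟩ := hb R'
        refine ⟨k + l, ?_⟩
        have : a + b - ((k + l) * N) • P = (a - (k * N) • P) + (b - (l * N) • P) := by
          rw [add_mul, add_zsmul]; abel
        rw [this]
        exact hR' _ _ hk hl
      zero_mem' := by
        intro R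
        refine ⟨0, ?_⟩
        rw [zero_mul, zero_zsmul, sub_zero]
        exact far_zero' R
      neg_mem' := by
        intro a ha R
        obtain ⟨k, hk⟩ := ha R
        refine ⟨-k, ?_⟩
        have : -a - (-k * N) • P = -(a - (k * N) • P) := by
          rw [neg_mul, neg_zsmul]; abel
        rw [this]
        exact hk.neg }
  have hmem : ξ ∈ CS := by
    apply hξ
    obtain ⟨R₀, hR₀⟩ := inf_gen h hd
    refine ⟨R₀, fun η hη R => ?_⟩
    obtain ⟨M, hM⟩ := hR₀ R
    obtain ⟨k, hk, hkf⟩ := inf_small h hd (N • P) M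
    have hne : k • (N • P) ≠ 0 := by
      intro h0
      have h1 : (k * N.natAbs) • P = 0 := by
        rcases Int.natAbs_eq N with h | h
        · rw [h, natCast_zsmul] at h0
          rw [mul_smul]
          exact h0
        · rw [h, neg_zsmul, natCast_zsmul, smul_neg, neg_eq_zero] at h0
          rw [mul_smul]
          exact h0
      exact hP _ (Nat.mul_ne_zero hk (Int.natAbs_ne_zero.2 hN)) h1
    obtain ⟨j, hj⟩ := hM _ hne hkf η hη
    refine ⟨j * k, ?_⟩
    have : (j * k * N) • P = j • (k • (N • P)) := by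
      rw [mul_zsmul, mul_zsmul, natCast_zsmul]
    rw [this]
    exact hj
  exact hmem R

theorem yc_ne_of_nontor {P : E A B d} (h : ∀ k : ℕ, k ≠ 0 → k • P ≠ 0) : yc P ≠ 0 := by
  intro hy
  apply h 2 two_ne_zero
  rw [two_nsmul]
  exact add_self_of_yc hy

theorem infinite_far (h : Ok A B) (hd : d ≠ 0) (R : ℝ) : {P : E A B d | Far R P}.Infinite := by
  intro hf
  obtain ⟨C, hC⟩ := (hf.image (fun P => |xc P|)).bddAbove
  obtain ⟨P', h1, h2⟩ := inf_nontor h hd 0 (max R (C + 1))
  rw [sub_zero] at h2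
  have h3 : P' ≠ 0 := by
    have := h1 1 one_ne_zero
    rwa [one_smul] at this
  have h4 := hC ⟨P', h2.mono (le_max_left _ _), rfl⟩
  have h5 := (h2.mono (le_max_right _ _)).resolve_left h3
  linarith [h4]

theorem exists_near_avoid_real (h : Ok A B) (hd : d ≠ 0) {F : Set (E A B d)} (hF : F.Finite)
    (P : E A B d) (R : ℝ) : ∃ P' : E A B d, P' ∉ F ∧ Far R (P' - P) := by
  have h1 : ((fun η => P + η) '' {η : E A B d | Far R η}).Infinite :=
    (infinite_far h hd R).image (add_right_injective P).injOn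
  obtain ⟨P', ⟨η, hη, rfl⟩, h2⟩ := (h1.sdiff hF).nonempty
  refine ⟨P + η, h2, ?_⟩
  rw [add_sub_cancel_left]
  exact hη

end Pool.Agent.Helper1.FT
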