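import Pool.Agent.Helper1.FT.Fam
import Pool.Agent.Helper1.FT.RInG
import Pool.Agent.Helper1.FT.RE

/-!
# FT: the real place
-/

namespace Pool.Agent.Helper1.FT

open Pool.Agent.Helper10.K3 WeierstrassCurve.Affine Classical Topology

/-! ### real data -/

section real

variable {A B : ℝ} {h : Ok A B}

theorem far_nat_of {d : ℝ} (R : ℝ) : ∃ n : ℕ, ∀ P : E A B d, Far n P → Far R P := by
  obtain ⟨n, hn⟩ := exists_nat_ge R
  exact ⟨n, fun P hP => hP.mono hn⟩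

/-- data exchanged by the involution with something are dense -/
theorem sigR_dense (t : LD (rPlc h)) (n : ℕ) :
    ∃ t₀ t' : LD (rPlc h), LD.Sig t₀ t' ∧ LD.Near n t' t := by
  obtain ⟨d, hd0, Q, S⟩ := t
  obtain ⟨Q', hQ', hfQ⟩ := exists_near_avoid_real h hd0 (finite_yc h hd0) Q n
  rw [Set.mem_ofPred_eq, not_or] at hQ'
  have hx : xc Q' / d ≠ A := by
    intro h0
    apply hQ'.2
    have h1 := yc_sq_ff hd0 Q'
    rw [h0, ff, sub_self, mul_zero, zero_mul, mul_zero] at h1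
    exact pow_eq_zero_iff (two_ne_zero) |>.1 h1
  obtain ⟨S', hS', hfS⟩ := exists_near_avoid_real h hd0
    ((finite_yc h hd0).union (finite_bad h hd0 hx)) S n
  rw [Set.mem_union, not_or] at hS'
  obtain ⟨h1, h2⟩ := hS'
  rw [Set.mem_ofPred_eq, not_or] at h1
  obtain ⟨hS0, hyS⟩ := h1
  have hI' : nn A B (xc Q' / d - A) (xc S' / d - B) ≠ 0 ∧
      dd A B (xc Q' / d - A) (xc S' / d - B) ≠ 0 ∧ ll A B (xc Q' / d - A) (xc S' / d - B) ≠ 0 := by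
    by_contra hcon
    exact h2 ⟨hS0, hcon⟩
  have hrep := rep_mkPt hd0 hQ'.2 hyS
  have hIOK : IOK (mkPt hd0 Q' S' hQ'.2 hyS) := hI'
  obtain ⟨d₀, P₀, Q₀, hr⟩ := exists_rep_gen h (iota h (mkPt hd0 Q' S' hQ'.2 hyS) hIOK)
  refine ⟨⟨d₀, hr.1, P₀, Q₀⟩, ⟨d, hd0, Q', S'⟩, ?_, ⟨Q', S', rfl, hfQ, hfS⟩⟩
  apply LD.Sig.symm
  exact ⟨_, hIOK, hrep, hr⟩

/-- the involution is open on data -/
theorem sig_open {K : Type} [Field K] [TopologicalSpace K] {A B : K} {π : Plc K A B}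
    {t t' : LD π} (hs : LD.Sig t t') (n : ℕ) : ∃ m : ℕ, ∀ t'' : LD π, LD.Near m t'' t' →
    ∃ t₀ : LD π, LD.Near n t₀ t ∧ LD.Sig t₀ t'' := by
  obtain ⟨u, hu, h1, h2⟩ := hs
  have hU := π.f2 t.hd h1 n
  have h3 := π.fi (IOK_iota π.ok u hu) (U := {w : Pt A B | ∃ c : K, c ≠ 0 ∧
      ff A B w.x = t.d * c ^ 2 ∧ ∀ P' Q' : E A B t.d, P' ≠ 0 → Q' ≠ 0 → xc P' = t.d * w.x →
        yc P' = t.d ^ 2 * c → xc Q' = t.d * w.y → yc Q' = t.d * w.z / c →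
          π.sm n (P' - t.P) ∧ π.sm n (Q' - t.Q)}) (by
    rw [iota_iota]; exact hU)
  obtain ⟨m, hm⟩ := π.f1 t'.hd h2 h3
  refine ⟨m, ?_⟩
  rintro t'' ⟨P', Q', rfl, hP', hQ'⟩
  obtain ⟨k3, k4, k5⟩ := hm P' Q' hP' hQ'
  have hd' := π.dom_ne t'.hd
  obtain ⟨hI, c, hc, hce, H⟩ := k5 _ (rep_mkPt hd' k3 k4)
  set w := iota π.ok (mkPt hd' P' Q' k3 k4) hI with hw
  have hd := π.dom_ne t.hd
  have hfx : ff A B w.x = w.x * (w.x - A) * (w.x - B) := rfl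
  have hPeq : (t.d ^ 2 * c) ^ 2 = (t.d * w.x) * (t.d * w.x - A * t.d) *
      (t.d * w.x - B * t.d) := by
    linear_combination (-t.d ^ 3) * hce + t.d ^ 3 * hfx
  have hQeq : (t.d * w.z / c) ^ 2 = (t.d * w.y) * (t.d * w.y - A * t.d) *
      (t.d * w.y - B * t.d) := by
    have h4 := w.eqn
    have h5 : ff A B w.y = w.y * (w.y - A) * (w.y - B) := rfl
    rw [hce] at h4
    rw [div_pow, mul_pow, h4, div_eq_iff (pow_ne_zero 2 hc), h5]
    ring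
  obtain ⟨h6, h7⟩ := H (mkP π.ok hd _ _ hPeq) (mkP π.ok hd _ _ hQeq) (mkP_ne π.ok hd _ _ hPeq)
    (mkP_ne π.ok hd _ _ hQeq) (xc_mkP π.ok hd _ _ hPeq) (yc_mkP π.ok hd _ _ hPeq) (xc_mkP π.ok hd _ _ hQeq)
    (yc_mkP π.ok hd _ _ hQeq)
  refine ⟨⟨t.d, t.hd, mkP π.ok hd _ _ hPeq, mkP π.ok hd _ _ hQeq⟩, ⟨_, _, rfl, h6, h7⟩, ?_⟩
  apply LD.Sig.symm
  refine ⟨mkPt hd' P' Q' k3 k4, hI, rep_mkPt hd' k3 k4,
    ⟨hd, mkP_ne π.ok hd _ _ hPeq, mkP_ne π.ok hd _ _ hQeq, ?_, ?_, ?_⟩⟩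
  · rw [xc_mkP]; ring
  · rw [xc_mkP]; ring
  · rw [yc_mkP, yc_mkP]
    field_simp
    rfl

end real

theorem sub_choose {R T : Type*} [Subsingleton R] [Inhabited T] {P : R → T → Prop}
    (h : ∀ r, ∃ k, P r k) : ∃ k, ∀ r, P r k := by
  by_cases hR : Nonempty R
  · obtain ⟨r₀⟩ := hR
    obtain ⟨k, hk⟩ := h r₀
    refine ⟨k, fun r => ?_⟩
    rw [Subsingleton.elim r r₀]
    exact hk
  · exact ⟨default, fun r => absurd ⟨r⟩ hR⟩

section

variable {I : Type} {q : I → ℕ} [hq : ∀ i, Fact (q i).Prime] {R : Type}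
  {L : Type*} [Field L] {A B : L} {hAB : Ok A B} {φ : ∀ i, L →+* ℚ_[q i]}
  {hG : ∀ i, GB (φ i A) (φ i B)} {ψ : R → L →+* ℝ} [Finite I] [Subsingleton R]

/-- all base systems are approximable together with the real datum `t` -/
def Hb (hAB : Ok A B) (hG : ∀ i, GB (φ i A) (φ i B)) (t : ∀ r, RD hAB ψ r) : Prop :=
  ∀ l : ∀ i, Loc (φ i A) (φ i B), (∀ i, (l i).R = 0) → App hAB φ hG ψ l t

theorem LNear.refl' {p : ℕ} [Fact p.Prime] {A B : ℚ_[p]} (n : ℕ) (l : Loc A B) : LNear n l l :=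
  LNear.refl n l

theorem Hb.cl {t : ∀ r, RD hAB ψ r} (h : ∀ n : ℕ, 
    ∃ t' : ∀ r, RD hAB ψ r, Hb hAB hG t' ∧ ∀ r, LD.Near n (t' r) (t r)) : Hb hAB hG t := by
  intro l hl
  apply App.closed
  intro n
  obtain ⟨t', h1, h2⟩ := h n
  exact ⟨l, t', h1 l hl, fun i => LNear.refl n _, h2⟩

omit [Finite I] [Subsingleton R] in
theorem lin_base {l : ∀ i, Loc (φ i A) (φ i B)} (hl : ∀ i, (l i).R = 0) (α γ δ : ℤ) :
    (fun i => (l i).lin 1 α γ δ) = fun i => ⟨(l i).d, (l i).hd, (l i).Q, γ • (l i).Q⟩ := by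
  funext i
  have h2 := hl i
  rcases hli : l i with ⟨d, hd, Q, R⟩
  rw [hli] at h2
  change R = 0 at h2
  subst h2
  change (⟨d, hd, (1 : ℤ) • Q + α • (0 : E _ _ d), γ • Q + δ • (0 : E _ _ d)⟩ : Loc _ _) = _
  rw [one_zsmul, smul_zero, add_zero, smul_zero, add_zero]

omit [Finite I] [Subsingleton R] in
theorem base_eq {l : ∀ i, Loc (φ i A) (φ i B)} (hl : ∀ i, (l i).R = 0) :
    (fun i => (⟨(l i).d, (l i).hd, (l i).Q, (0 : ℤ) • (l i).Q⟩ : Loc _ _)) = l := by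
  funext i
  have h2 := hl i
  rcases hli : l i with ⟨d, hd, Q, R⟩
  rw [hli] at h2
  change R = 0 at h2
  subst h2
  change (⟨d, hd, Q, (0 : ℤ) • Q⟩ : Loc _ _) = ⟨d, hd, Q, 0⟩
  rw [zero_zsmul]

theorem Hb.sh1 {t : ∀ r, RD hAB ψ r} (h : Hb hAB hG t) (a : ℤ) :
    Hb hAB hG (fun r => ⟨(t r).d, (t r).hd, (t r).P + a • (t r).Q, (t r).Q⟩) := by
  intro l hl
  have h1 := (h l hl).lin 1 a 0 1
  have e2 : (fun r => (t r).lin 1 a 0 1) =
      fun r => (⟨(t r).d, (t r).hd, (t r).P + a • (t r).Q, (t r).Q⟩ : RD hAB ψ r) := by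
    funext r
    change (⟨(t r).d, (t r).hd, (1 : ℤ) • (t r).P + a • (t r).Q,
      (0 : ℤ) • (t r).P + (1 : ℤ) • (t r).Q⟩ : RD hAB ψ r) = _
    rw [one_zsmul, zero_zsmul, one_zsmul, zero_add]
  rwa [lin_base hl, base_eq hl, e2] at h1

/-- an integer which kills all groups up to level `n` -/
theorem exists_kill (hG : ∀ i, GB (φ i A) (φ i B)) (n : ℕ) : ∃ N : ℤ, N ≠ 0 ∧ (2 : ℤ) ∣ N ∧
    ∀ (i : I) (d : ℚ_[q i]) (_ : nd d) (P : E (φ i A) (φ i B) d) (k : ℤ),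
      fil n ((k * N) • P) := by
  have := Fintype.ofFinite I
  choose N hN0 _ hN using fun i => loc_exp (hG i)
  refine ⟨2 * ∏ i, (((N i) * (q i) ^ n : ℕ) : ℤ), ?_, Dvd.intro _ rfl, ?_⟩
  · refine mul_ne_zero two_ne_zero (Finset.prod_ne_zero_iff.2 fun i _ => ?_)
    have := (hq i).1.pos
    exact_mod_cast Nat.mul_ne_zero (hN0 i) (pow_ne_zero _ (by omega))
  · intro i d hd P k
    rw [← Finset.prod_erase_mul Finset.univ _ (Finset.mem_univ i)]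
    have e : k * (2 * ((∏ x ∈ Finset.univ.erase i, (((N x) * (q x) ^ n : ℕ) : ℤ)) *
        (((N i) * (q i) ^ n : ℕ) : ℤ))) =
      (k * 2 * (∏ x ∈ Finset.univ.erase i, (((N x) * (q x) ^ n : ℕ) : ℤ))) *
        (((q i) ^ n * (N i) : ℕ) : ℤ) := by
      push_cast
      ring
    rw [e, mul_zsmul, natCast_zsmul]
    apply fil_zsmul (hG i) hd
    have h1 := fil_p_pow (hG i) hd (hN i d hd P) n
    rw [zero_add] at h1
    rw [mul_smul]
    exact h1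

/-- moving the second real point by the identity component -/
theorem Hb.add {t : ∀ r, RD hAB ψ r} (h : Hb hAB hG t)
    (hP : ∀ r, ∀ k : ℕ, k ≠ 0 → k • (t r).P ≠ 0) {ξ : ∀ r, E (ψ r A) (ψ r B) (t r).d}
    (hξ : ∀ r, InG (ξ r)) : Hb hAB hG (fun r => ⟨(t r).d, (t r).hd, (t r).P, (t r).Q + ξ r⟩) := by
  intro l hl
  apply App.closed
  intro n
  obtain ⟨N, hN, -, hk⟩ := exists_kill hG n
  obtain ⟨k, hkf⟩ := sub_choose (fun r =>
    orb_dense (hAB.map (ψ r)) (t r).hd (hP r) hN (hξ r) (n : ℝ))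
  refine ⟨_, _, (h l hl).lin 1 0 (k * N) 1, fun i => ?_, fun r => ?_⟩
  · have h1 := congrFun (lin_base hl 0 (k * N) 1) i
    rw [h1]
    refine ⟨(l i).Q, (k * N) • (l i).Q, rfl, ?_, ?_⟩
    · rw [sub_self]; exact fil_zero' n
    · rw [hl i, sub_zero]
      exact hk i (l i).d (l i).hd (l i).Q k
  · refine ⟨(t r).P, (t r).Q + (k * N) • (t r).P, ?_, ?_, ?_⟩
    · change (⟨(t r).d, (t r).hd, (1 : ℤ) • (t r).P + (0 : ℤ) • (t r).Q,
        (k * N) • (t r).P + (1 : ℤ) • (t r).Q⟩ : RD hAB ψ r) = _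
      rw [one_zsmul, zero_zsmul, add_zero, one_zsmul, add_comm]
    · change Far n ((t r).P - (t r).P)
      rw [sub_self]; exact far_zero' _
    · change Far n ((t r).Q + (k * N) • (t r).P - ((t r).Q + ξ r))
      have e : (t r).Q + (k * N) • (t r).P - ((t r).Q + ξ r) =
          -(ξ r - (k * N) • (t r).P) := by abel
      rw [e]
      exact (hkf r).neg

end

end Pool.Agent.Helper1.FT
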