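import Pool.Agent.Helper1.FT.Hb

/-!
# FT: the real place, continued
-/

namespace Pool.Agent.Helper1.FT

open Pool.Agent.Helper10.K3 WeierstrassCurve.Affine Classical Topology

theorem diag_nhds {K : Type} [Field K] [TopologicalSpace K] [IsTopologicalRing K] [T1Space K]
    {A B : K} {v : Pt A B} (hy : v.y = v.x) (hz : v.z = ff A B v.x) {U : Set (Pt A B)}
    (hU : U ∈ 𝓝 v) : ∀ᶠ t in 𝓝 v.x, ff A B t ≠ 0 ∧
      ∀ u : Pt A B, u.x = t → u.y = t → u.z = ff A B t → u ∈ U := by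
  have hff : Continuous (ff A B : K → K) := by unfold ff; fun_prop
  have hcont : Continuous (fun t : K => (t, t, ff A B t)) := by fun_prop
  have hV0 : U ∈ Filter.comap (Subtype.val : Pt A B → K × K × K) (𝓝 v.1) := by
    rwa [show 𝓝 v = Filter.comap (Subtype.val : Pt A B → K × K × K) (𝓝 v.1) from
      nhds_induced _ _] at hU
  obtain ⟨V', hV', hVV⟩ := Filter.mem_comap.1 hV0
  have e : v.1 = (fun t : K => (t, t, ff A B t)) v.x := by
    change (v.x, v.y, v.z) = _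
    rw [hy, hz]
  rw [e] at hV'
  have h1 := hcont.continuousAt.eventually hV'
  have h2 : ∀ᶠ t in 𝓝 v.x, ff A B t ≠ 0 := hff.continuousAt.eventually_ne v.hfx
  filter_upwards [h1, h2] with t h3 h4
  refine ⟨h4, fun u h5 h6 h7 => hVV ?_⟩
  change (u.x, u.y, u.z) ∈ V'
  rw [h5, h6, h7]
  exact h3

section

variable {I : Type} {q : I → ℕ} [hq : ∀ i, Fact (q i).Prime] {R : Type}
  {L : Type*} [Field L] {A B : L} {hAB : Ok A B} {φ : ∀ i, L →+* ℚ_[q i]}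
  {hG : ∀ i, GB (φ i A) (φ i B)} {ψ : R → L →+* ℝ} [Finite I] [Subsingleton R]

theorem nr_diag [CharZero L] (hinj : Function.Injective q) (v : ∀ i, Pt (φ i A) (φ i B))
    (w : ∀ r, Pt (ψ r A) (ψ r B)) (hne : Nonempty (I ⊕ R))
    (hv : ∀ i, (v i).y = (v i).x ∧ (v i).z = ff (φ i A) (φ i B) (v i).x)
    (hw : ∀ r, (w r).y = (w r).x ∧ (w r).z = ff (ψ r A) (ψ r B) (w r).x) : Nr φ ψ v w := by
  intro U V hU hV
  have key : ∀ i, ∃ ε : ℝ, 0 < ε ∧ ∀ t : ℚ_[q i], ‖t - (v i).x‖ < ε → ff (φ i A) (φ i B) t ≠ 0 ∧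
      ∀ u : Pt (φ i A) (φ i B), u.x = t → u.y = t → u.z = ff (φ i A) (φ i B) t → u ∈ U i := by
    intro i
    obtain ⟨ε, hε, h⟩ := Metric.eventually_nhds_iff.1 (diag_nhds (hv i).1 (hv i).2 (hU i))
    exact ⟨ε, hε, fun t ht => h (by rwa [dist_eq_norm])⟩
  choose ε hε hkey using key
  have keyR : ∃ (y δ : ℝ), 0 < δ ∧ ∀ r, ∀ t : ℝ, |t - y| < δ → ff (ψ r A) (ψ r B) t ≠ 0 ∧
      ∀ u : Pt (ψ r A) (ψ r B), u.x = t → u.y = t → u.z = ff (ψ r A) (ψ r B) t → u ∈ V r := by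
    by_cases hR : Nonempty R
    · obtain ⟨r₀⟩ := hR
      obtain ⟨δ, hδ, h⟩ := Metric.eventually_nhds_iff.1 (diag_nhds (hw r₀).1 (hw r₀).2 (hV r₀))
      refine ⟨(w r₀).x, δ, hδ, fun r => ?_⟩
      obtain rfl : r = r₀ := Subsingleton.elim _ _
      exact fun t ht => h (by rwa [Real.dist_eq])
    · exact ⟨0, 1, one_pos, fun r => absurd ⟨r⟩ hR⟩
  obtain ⟨y, δ, hδ, hkeyR⟩ := keyR
  obtain ⟨t, ht, htR⟩ := KumWA.weak_approx_real q hinj (fun i => (v i).x) y ε hε δ hδ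
  have e1 : ∀ i, φ i (t : L) = KumWA.emb (q i) t := fun i => by
    rw [map_ratCast]; rfl
  have e2 : ∀ r, ψ r (t : L) = (t : ℝ) := fun r => by rw [map_ratCast]
  have k1 : ∀ i, ff (φ i A) (φ i B) (φ i (t : L)) ≠ 0 := fun i => by
    rw [e1]; exact (hkey i _ (ht i)).1
  have k2 : ∀ r, ff (ψ r A) (ψ r B) (ψ r (t : L)) ≠ 0 := fun r => by
    rw [e2]; exact (hkeyR r _ htR).1
  have hf : ff A B (t : L) ≠ 0 := by
    intro h0
    obtain ⟨i | r⟩ := hne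
    · apply k1 i
      rw [← map_ff, h0, map_zero]
    · apply k2 r
      rw [← map_ff, h0, map_zero]
  refine ⟨⟨((t : L), (t : L), ff A B (t : L)), by ring, hf⟩, fun i => ?_, fun r => ?_⟩
  · apply (hkey i _ (ht i)).2
    · exact e1 i
    · exact e1 i
    · change φ i (ff A B (t : L)) = _
      rw [map_ff, e1]
  · apply (hkeyR r _ htR).2
    · exact e2 r
    · exact e2 r
    · change ψ r (ff A B (t : L)) = _
      rw [map_ff, e2]

/-- the base of the base -/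
theorem hb_zero [CharZero L] (hinj : Function.Injective q) (t : ∀ r, RD hAB ψ r)
    (ht : ∀ r, (t r).Q = 0) : Hb hAB hG t := by
  apply Hb.cl
  intro n
  choose P' hnt hP' using fun r => inf_nontor (hAB.map (ψ r)) (t r).hd (t r).P (n : ℝ)
  refine ⟨fun r => ⟨(t r).d, (t r).hd, P' r, 0⟩, ?_, fun r => ⟨P' r, 0, rfl, hP' r, ?_⟩⟩
  · intro l hl
    by_cases hne : Nonempty (I ⊕ R)
    swap
    · intro n
      exact ⟨1, 0, 0, one_ne_zero, fun k => absurd ⟨k⟩ hne⟩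
    apply App.closed
    intro n'
    have h1 : ∀ i, ∃ Q' : E (φ i A) (φ i B) (l i).d, yc Q' ≠ 0 ∧ fil n' (Q' - (l i).Q) := by
      intro i
      obtain ⟨Q', h2, h3⟩ := exists_near_avoid (hG i) (l i).hd
        (finite_yc (hG i).ok (nd_ne (l i).hd)) (l i).Q n'
      rw [Set.mem_ofPred_eq, not_or] at h2
      exact ⟨Q', h2.2, h3⟩
    choose Q' hyQ hQ using h1
    have hy := fun r => yc_ne_of_nontor (hnt r)
    have h2 : App hAB φ hG ψ (fun i => ⟨(l i).d, (l i).hd, Q' i, Q' i⟩)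
        (fun r => ⟨(t r).d, (t r).hd, P' r, P' r⟩) := by
      apply App.of_nr (v := fun i => mkPt (nd_ne (l i).hd) (Q' i) (Q' i) (hyQ i) (hyQ i))
        (w := fun r => mkPt (t r).hd (P' r) (P' r) (hy r) (hy r))
      · apply nr_diag hinj _ _ hne
        · intro i
          refine ⟨rfl, ?_⟩
          have hd := nd_ne (l i).hd
          change yc (Q' i) * yc (Q' i) / (l i).d ^ 3 = ff _ _ (xc (Q' i) / (l i).d)
          rw [← sq, yc_sq_ff hd, mul_div_cancel_left₀ _ (pow_ne_zero 3 hd)]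
        · intro r
          refine ⟨rfl, ?_⟩
          have hd : (t r).d ≠ 0 := (t r).hd
          change yc (P' r) * yc (P' r) / (t r).d ^ 3 = ff _ _ (xc (P' r) / (t r).d)
          rw [← sq, yc_sq_ff hd, mul_div_cancel_left₀ _ (pow_ne_zero 3 hd)]
      · intro i
        exact rep_mkPt _ _ _
      · intro r
        exact rep_mkPt _ _ _
    refine ⟨_, _, h2.lin 1 0 1 (-1), fun i => ?_, fun r => ?_⟩
    · refine ⟨Q' i, 0, ?_, hQ i, ?_⟩
      · change (⟨(l i).d, (l i).hd, (1 : ℤ) • Q' i + (0 : ℤ) • Q' i,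
          (1 : ℤ) • Q' i + (-1 : ℤ) • Q' i⟩ : Loc _ _) = _
        have e1 : (1 : ℤ) • Q' i + (0 : ℤ) • Q' i = Q' i := by simp
        have e2 : (1 : ℤ) • Q' i + (-1 : ℤ) • Q' i = 0 := by simp
        rw [e1, e2]
      · rw [hl i, sub_zero]; exact fil_zero' n'
    · refine ⟨P' r, 0, ?_, ?_, ?_⟩
      · change (⟨(t r).d, (t r).hd, (1 : ℤ) • P' r + (0 : ℤ) • P' r,
          (1 : ℤ) • P' r + (-1 : ℤ) • P' r⟩ : RD hAB ψ r) = _
        have e1 : (1 : ℤ) • P' r + (0 : ℤ) • P' r = P' r := by simp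
        have e2 : (1 : ℤ) • P' r + (-1 : ℤ) • P' r = 0 := by simp
        rw [e1, e2]
      · change Far n' (P' r - P' r)
        rw [sub_self]; exact far_zero' _
      · change Far n' ((0 : E _ _ (t r).d) - 0)
        rw [sub_self]; exact far_zero' _
  · rw [ht r, sub_zero]
    exact far_zero' _

theorem hb_inG [CharZero L] (hinj : Function.Injective q) (t : ∀ r, RD hAB ψ r)
    (h : ∀ r, InG (t r).Q) : Hb hAB hG t := by
  apply Hb.cl
  intro n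
  choose P' hnt hP' using fun r => inf_nontor (hAB.map (ψ r)) (t r).hd (t r).P (n : ℝ)
  refine ⟨fun r => ⟨(t r).d, (t r).hd, P' r, (t r).Q⟩, ?_, fun r =>
    ⟨P' r, (t r).Q, rfl, hP' r, ?_⟩⟩
  · have h1 := Hb.add (hAB := hAB) (hb_zero (hAB := hAB) (hG := hG) hinj
      (fun r => (⟨(t r).d, (t r).hd, P' r, 0⟩ : RD hAB ψ r)) (fun _ => rfl)) hnt h
    have e : (fun r => (⟨(t r).d, (t r).hd, P' r, 0 + (t r).Q⟩ : RD hAB ψ r)) =
        fun r => ⟨(t r).d, (t r).hd, P' r, (t r).Q⟩ := by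
      funext r
      rw [zero_add]
    exact e ▸ h1
  · rw [sub_self]; exact far_zero' _

/-- the involution acts on `Hb` -/
theorem Hb.sig [CharZero L] (hinj : Function.Injective q) {t t' : ∀ r, RD hAB ψ r}
    (ht : ∀ r, InG (t r).Q) (hs : ∀ r, LD.Sig (t r) (t' r)) : Hb hAB hG t' := by
  intro l hl
  apply App.closed
  intro n
  have key : ∀ i, ∃ (l₁ : Loc (φ i A) (φ i B)) (m : ℕ), l₁.R = 0 ∧
      (∀ a : ℤ, a ≠ 0 → a • l₁.Q ≠ 0) ∧
      ∀ R₀ : E (φ i A) (φ i B) l₁.d, R₀ ≠ 0 → fil m R₀ →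
          ∃ l', SigL (hG i).ok ⟨l₁.d, l₁.hd, l₁.Q, R₀⟩ l' ∧ LNear n l' (l i) := by
    intro i
    have h0 := hl i
    rcases hli : l i with ⟨d, hd, Q, R⟩
    rw [hli] at h0
    change R = 0 at h0
    subst h0
    obtain ⟨d₀, hd₀, Q₀, m, h1, h2⟩ := sig_base (hG i) hd Q n
    refine ⟨⟨d₀, hd₀, Q₀, 0⟩, m, rfl, ?_, h2⟩
    intro a ha h3
    apply h1 a.natAbs (Int.natAbs_ne_zero.2 ha)
    change a • Q₀ = 0 at h3
    rcases Int.natAbs_eq a with h | h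
    · rw [h, natCast_zsmul] at h3
      exact h3
    · rw [h, neg_zsmul, natCast_zsmul, neg_eq_zero] at h3
      exact h3
  choose l₁ m hR hnt hkey using key
  obtain ⟨M, hM⟩ := exists_sup m
  obtain ⟨γ, hγ, ⟨γ', hγ2⟩, hk⟩ := exists_kill hG M
  have h1 : ∀ i, ∃ l', SigL (hG i).ok ⟨(l₁ i).d, (l₁ i).hd, (l₁ i).Q, γ • (l₁ i).Q⟩ l' ∧
      LNear n l' (l i) := by
    intro i
    apply hkey i _ (hnt i γ hγ)
    have h2 := hk i (l₁ i).d (l₁ i).hd (l₁ i).Q 1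
    rw [one_mul] at h2
    exact fil_mono (hM i) h2
  choose l' hs' hn using h1
  have h2 : ∀ r, InG ((t r).Q - γ • (t r).P) := by
    intro r
    apply (ht r).sub
    have := (inG_two (hAB.map (ψ r)) (t r).hd (t r).P).zsmul γ'
    have e : γ • (t r).P = γ' • (2 : ℤ) • (t r).P := by
      rw [← mul_zsmul, hγ2, mul_comm (2 : ℤ) γ']
    rw [e]
    exact this
  have h3 := hb_inG (hAB := hAB) (hG := hG) hinj
    (fun r => (⟨(t r).d, (t r).hd, (t r).P, (t r).Q - γ • (t r).P⟩ : RD hAB ψ r)) h2 l₁ hR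
  have h4 := h3.lin 1 0 γ 1
  have h5 : App hAB φ hG ψ (fun i => ⟨(l₁ i).d, (l₁ i).hd, (l₁ i).Q, γ • (l₁ i).Q⟩) t := by
    have e2 : (fun r => (⟨(t r).d, (t r).hd, (t r).P, (t r).Q - γ • (t r).P⟩ :
        RD hAB ψ r).lin 1 0 γ 1) = t := by
      funext r
      change (⟨(t r).d, (t r).hd, (1 : ℤ) • (t r).P + (0 : ℤ) • ((t r).Q - γ • (t r).P),
        γ • (t r).P + (1 : ℤ) • ((t r).Q - γ • (t r).P)⟩ : RD hAB ψ r) = t r
      rw [one_zsmul, zero_zsmul, add_zero, one_zsmul, add_sub_cancel]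
    rwa [lin_base hR, e2] at h4
  exact ⟨l', t', h5.sig hs' hs, hn, fun r => LD.Near.refl n _⟩

/-- all real data -/
theorem hb_all [CharZero L] (hinj : Function.Injective q) (t : ∀ r, RD hAB ψ r) :
    Hb hAB hG t := by
  by_cases hQ : ∀ r, Comp (t r).Q
  · exact hb_inG hinj _ (fun r => (hQ r).inG (hAB.map (ψ r)) (t r).hd)
  push Not at hQ
  obtain ⟨r₀, hr₀⟩ := hQ
  have hQ : ∀ r, ¬ Comp (t r).Q := by
    intro r
    obtain rfl : r = r₀ := Subsingleton.elim _ _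
    exact hr₀
  -- if some point of the other component is in `InG`
  by_cases hex : ∀ r, ∃ ρ : E (ψ r A) (ψ r B) (t r).d, ¬ Comp ρ ∧ InG ρ
  · apply hb_inG hinj
    intro r
    obtain ⟨ρ, h1, h2⟩ := hex r
    have := (inG_sub (hAB.map (ψ r)) (t r).hd (hQ r) h1).add h2
    rwa [sub_add_cancel] at this
  have hex : ∀ r, ∀ ρ : E (ψ r A) (ψ r B) (t r).d, ¬ Comp ρ → ¬ InG ρ := by
    push Not at hex
    obtain ⟨r₁, hr₁⟩ := hex
    intro r
    obtain rfl : r = r₁ := Subsingleton.elim _ _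
    exact hr₁
  have hd : ∀ r, (t r).d ≠ 0 := fun r => (t r).hd
  -- the seed
  choose u hu d₀ P₀ R₀ P' R' hr1 hc hr2 hnc using fun r => seed (hAB.map (ψ r)) (hd r)
  have hsig : ∀ r, LD.Sig (⟨d₀ r, (hr1 r).1, P₀ r, R₀ r⟩ : RD hAB ψ r)
      ⟨(t r).d, hd r, P' r, R' r⟩ := fun r => ⟨u r, hu r, hr1 r, hr2 r⟩
  have hR₁ : ∀ r, ∃ R₁ : ℕ, ∀ P : E (ψ r A) (ψ r B) (d₀ r), Far R₁ P → Comp P := by
    intro r
    obtain ⟨R₁, h1⟩ := far_comp (hAB.map (ψ r)) (hr1 r).1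
    obtain ⟨n, hn⟩ := far_nat_of (A := ψ r A) (B := ψ r B) (d := d₀ r) R₁
    exact ⟨n, fun P hP => h1 P (hn P hP)⟩
  choose R₁ hR₁ using hR₁
  -- a seed with a first point of infinite order
  obtain ⟨P₁, hP₁, hseed⟩ : ∃ P₁ : ∀ r, E (ψ r A) (ψ r B) (t r).d,
      (∀ r, ∀ k : ℕ, k ≠ 0 → k • P₁ r ≠ 0) ∧
      Hb hAB hG (fun r => (⟨(t r).d, hd r, P₁ r, R' r⟩ : RD hAB ψ r)) := by
    choose R₂ hR₂ using fun r => sig_open (hsig r) (R₁ r)
    choose P₁ h1 h2 using fun r => inf_nontor (hAB.map (ψ r)) (hd r) (P' r) (R₂ r : ℝ)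
    refine ⟨P₁, h1, ?_⟩
    have h3 : ∀ r, ∃ t₀ : RD hAB ψ r, LD.Near (R₁ r) t₀ ⟨d₀ r, (hr1 r).1, P₀ r, R₀ r⟩ ∧
        LD.Sig t₀ ⟨(t r).d, hd r, P₁ r, R' r⟩ := fun r =>
      hR₂ r ⟨(t r).d, hd r, P₁ r, R' r⟩ ⟨P₁ r, R' r, rfl, h2 r, by
        rw [sub_self]; exact far_zero' _⟩
    choose t₀ h4 h5 using h3
    refine Hb.sig (hAB := hAB) hinj ?_ h5
    intro r
    obtain ⟨A', B', h6, hA, hB⟩ := h4 r
    rw [h6]
    change InG B'
    have h7 : InG (B' - R₀ r) := (hR₁ r _ hB).inG (hAB.map (ψ r)) (hr1 r).1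
    have h8 := h7.add ((hc r).inG (hAB.map (ψ r)) (hr1 r).1)
    rwa [sub_add_cancel] at h8
  -- all second points in the other component
  have key : ∀ (X : ∀ r, E (ψ r A) (ψ r B) (t r).d), (∀ r, ∀ k : ℕ, k ≠ 0 → k • X r ≠ 0) →
      ∀ Y Y' : ∀ r, E (ψ r A) (ψ r B) (t r).d, (∀ r, ¬ Comp (Y r)) → (∀ r, ¬ Comp (Y' r)) →
      Hb hAB hG (fun r => (⟨(t r).d, hd r, X r, Y r⟩ : RD hAB ψ r)) →
      Hb hAB hG (fun r => (⟨(t r).d, hd r, X r, Y' r⟩ : RD hAB ψ r)) := by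
    intro X hX Y Y' hY hY' h
    have h1 := Hb.add (hAB := hAB) h hX (ξ := fun r => Y' r - Y r)
      (fun r => inG_sub (hAB.map (ψ r)) (hd r) (hY' r) (hY r))
    have e : (fun r => (⟨(t r).d, hd r, X r, Y r + (Y' r - Y r)⟩ : RD hAB ψ r)) =
        fun r => ⟨(t r).d, hd r, X r, Y' r⟩ := by
      funext r
      rw [add_sub_cancel]
    exact e ▸ h1
  -- first points which differ by an element of the other component
  have step : ∀ (X X' Y Y' : ∀ r, E (ψ r A) (ψ r B) (t r).d),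
      (∀ r, ∀ k : ℕ, k ≠ 0 → k • X r ≠ 0) → (∀ r, ∀ k : ℕ, k ≠ 0 → k • X' r ≠ 0) →
      (∀ r, ¬ Comp (X' r - X r)) → (∀ r, ¬ Comp (Y r)) → (∀ r, ¬ Comp (Y' r)) →
      Hb hAB hG (fun r => (⟨(t r).d, hd r, X r, Y r⟩ : RD hAB ψ r)) →
      Hb hAB hG (fun r => (⟨(t r).d, hd r, X' r, Y' r⟩ : RD hAB ψ r)) := by
    intro X X' Y Y' hX hX' hXX hY hY' h
    have h1 := Hb.sh1 (hAB := hAB) (key X hX Y (fun r => X' r - X r) hY hXX h) 1
    have e : (fun r => (⟨(t r).d, hd r, X r + (1 : ℤ) • (X' r - X r), X' r - X r⟩ :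
        RD hAB ψ r)) = fun r => ⟨(t r).d, hd r, X' r, X' r - X r⟩ := by
      funext r
      rw [one_zsmul, add_sub_cancel]
    exact key X' hX' _ _ hXX hY' (e ▸ h1)
  apply Hb.cl
  intro n
  choose P₂ hP₂ hfar using fun r => inf_nontor (hAB.map (ψ r)) (hd r) (t r).P (n : ℝ)
  refine ⟨fun r => ⟨(t r).d, hd r, P₂ r, (t r).Q⟩, ?_, fun r => ⟨P₂ r, (t r).Q, rfl, hfar r, by
    rw [sub_self]; exact far_zero' _⟩⟩
  by_cases h1 : ∀ r, Comp (P₂ r - P₁ r)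
  · -- two steps
    choose R₃ hR₃ using fun r => far_comp (hAB.map (ψ r)) (hd r)
    choose P₃ hP₃ hf using fun r => inf_nontor (hAB.map (ψ r)) (hd r) (P₁ r + R' r) (R₃ r)
    have h2 : ∀ r, InG (P₃ r - (P₁ r + R' r)) := fun r =>
      (hR₃ r _ (hf r)).inG (hAB.map (ψ r)) (hd r)
    have h3 : ∀ r, ¬ Comp (P₃ r - P₁ r) := by
      intro r h4
      apply hex r (R' r) (hnc r)
      have h5 := (h4.inG (hAB.map (ψ r)) (hd r)).sub (h2 r)
      have e : P₃ r - P₁ r - (P₃ r - (P₁ r + R' r)) = R' r := by abel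
      rwa [e] at h5
    have h4 : ∀ r, ¬ Comp (P₂ r - P₃ r) := by
      intro r h5
      apply hex r (P₃ r - P₁ r) (h3 r)
      have h6 := ((h1 r).inG (hAB.map (ψ r)) (hd r)).sub (h5.inG (hAB.map (ψ r)) (hd r))
      have e : P₂ r - P₁ r - (P₂ r - P₃ r) = P₃ r - P₁ r := by abel
      rwa [e] at h6
    have h5 := step P₁ P₃ R' (fun r => (t r).Q) hP₁ hP₃ h3 hnc hQ hseed
    exact step P₃ P₂ _ _ hP₃ hP₂ h4 hQ hQ h5
  · push Not at h1
    obtain ⟨r₁, hr₁⟩ := h1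
    have h1 : ∀ r, ¬ Comp (P₂ r - P₁ r) := by
      intro r
      obtain rfl : r = r₁ := Subsingleton.elim _ _
      exact hr₁
    exact step P₁ P₂ R' _ hP₁ hP₂ h1 hnc hQ hseed

end

end Pool.Agent.Helper1.FT
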