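import Pool.Agent.Helper1.FT.Defs

/-!
# FT: the involution
-/

namespace Pool.Agent.Helper1.FT

section

variable {K : Type*} [Field K] {A B : K}

theorem kap_ne (h : Ok A B) {x y : K} (hn : nn A B (x - A) (y - B) ≠ 0)
    (hd : dd A B (x - A) (y - B) ≠ 0) (hl : ll A B (x - A) (y - B) ≠ 0) : kap A B x y ≠ 0 :=
  div_ne_zero (neg_ne_zero.2 (mul_ne_zero (mul_ne_zero (pow_ne_zero 2 h.sub_ne) hn) hl))
    (pow_ne_zero 3 hd)

theorem rho_ne (h : Ok A B) {x y : K} (hn : nn A B (x - A) (y - B) ≠ 0)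
    (hd : dd A B (x - A) (y - B) ≠ 0) : rho A B x y ≠ 0 :=
  div_ne_zero (neg_ne_zero.2 (mul_ne_zero h.sub_ne hn)) hd

/-- the involution -/
def iota (h : Ok A B) (u : Pt A B) (hu : IOK u) : Pt A B :=
  ⟨(ix A B u.x u.y, iy A B u.x u.y, kap A B u.x u.y * u.z), by
    refine ⟨?_, mul_ne_zero (kap_ne h hu.1 hu.2.1 hu.2.2) u.hz⟩
    change (kap A B u.x u.y * u.z) ^ 2 = ff A B (ix A B u.x u.y) * ff A B (iy A B u.x u.y)
    rw [ff_ix hu.2.1, ff_iy hu.2.1, mul_pow, u.eqn]
    ring⟩

@[simp] theorem iota_x (h : Ok A B) (u : Pt A B) (hu : IOK u) :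
    (iota h u hu).x = ix A B u.x u.y := rfl

@[simp] theorem iota_y (h : Ok A B) (u : Pt A B) (hu : IOK u) :
    (iota h u hu).y = iy A B u.x u.y := rfl

@[simp] theorem iota_z (h : Ok A B) (u : Pt A B) (hu : IOK u) :
    (iota h u hu).z = kap A B u.x u.y * u.z := rfl

theorem ix_sub (x y : K) : ix A B x y - A = rho A B x y * (x - A) := by unfold ix; ring

theorem iy_sub (x y : K) : iy A B x y - B = rho A B x y * (y - B) := by unfold iy; ring

/-- the factor `τ` -/
def tau (A B x y : K) : K :=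
  (A - B) * ll A B (x - A) (y - B) / dd A B (x - A) (y - B) ^ 2

theorem nn_rho {x y : K} (hd : dd A B (x - A) (y - B) ≠ 0) :
    nn A B (rho A B x y * (x - A)) (rho A B x y * (y - B)) =
      tau A B x y * nn A B (x - A) (y - B) := by
  unfold rho tau
  generalize x - A = a at *
  generalize y - B = b at *
  generalize hN : nn A B a b = N
  generalize hD : dd A B a b = D at *
  have e : D ^ 2 * nn A B (-((A - B) * N) / D * a) (-((A - B) * N) / D * b) =
      nn A B (-((A - B) * N) * a) (-((A - B) * N) * b) -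
        (B * (2 * A - B) * (-((A - B) * N) * a) + A * (2 * B - A) * (-((A - B) * N) * b)) +
        D * (B * (2 * A - B) * (-((A - B) * N) * a) + A * (2 * B - A) * (-((A - B) * N) * b)) := by
    unfold nn
    field_simp
    ring
  apply mul_left_cancel₀ (pow_ne_zero 2 hd)
  rw [e]
  field_simp
  rw [← hN, ← hD]
  unfold nn dd ll
  ring

theorem dd_rho {x y : K} (hd : dd A B (x - A) (y - B) ≠ 0) :
    dd A B (rho A B x y * (x - A)) (rho A B x y * (y - B)) =
      rho A B x y ^ 2 * tau A B x y * dd A B (x - A) (y - B) := by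
  unfold rho tau
  generalize x - A = a at *
  generalize y - B = b at *
  generalize hN : nn A B a b = N
  generalize hD : dd A B a b = D at *
  have e : D ^ 3 * dd A B (-((A - B) * N) / D * a) (-((A - B) * N) / D * b) =
      (-((A - B) * N)) ^ 2 * (-((A - B) * N) * ((2 * A - B) * a * b ^ 2 - (2 * B - A) * a ^ 2 * b) +
        D * (A * (A - B) * b ^ 2 + (A - B) * B * a ^ 2)) := by
    unfold dd
    field_simp
    ring
  apply mul_left_cancel₀ (pow_ne_zero 3 hd)
  rw [e]
  field_simp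
  rw [← hN, ← hD]
  unfold nn dd ll
  ring

theorem ll_rho (r a b : K) : ll A B (r * a) (r * b) = r ^ 4 * ll A B a b := by
  unfold ll
  ring

theorem tau_ne (h : Ok A B) {x y : K} (hd : dd A B (x - A) (y - B) ≠ 0)
    (hl : ll A B (x - A) (y - B) ≠ 0) : tau A B x y ≠ 0 :=
  div_ne_zero (mul_ne_zero h.sub_ne hl) (pow_ne_zero 2 hd)

theorem IOK_iota (h : Ok A B) (u : Pt A B) (hu : IOK u) : IOK (iota h u hu) := by
  refine ⟨?_, ?_, ?_⟩
  · rw [iota_x, iota_y, ix_sub, iy_sub, nn_rho hu.2.1]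
    exact mul_ne_zero (tau_ne h hu.2.1 hu.2.2) hu.1
  · rw [iota_x, iota_y, ix_sub, iy_sub, dd_rho hu.2.1]
    exact mul_ne_zero (mul_ne_zero (pow_ne_zero 2 (rho_ne h hu.1 hu.2.1))
      (tau_ne h hu.2.1 hu.2.2)) hu.2.1
  · rw [iota_x, iota_y, ix_sub, iy_sub, ll_rho]
    exact mul_ne_zero (pow_ne_zero 4 (rho_ne h hu.1 hu.2.1)) hu.2.2

theorem rho_rho (h : Ok A B) {x y : K} (hn : nn A B (x - A) (y - B) ≠ 0)
    (hd : dd A B (x - A) (y - B) ≠ 0) (hl : ll A B (x - A) (y - B) ≠ 0) :
    rho A B (ix A B x y) (iy A B x y) * rho A B x y = 1 := by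
  have hr := rho_ne h hn hd
  have ht := tau_ne h hd hl
  have e : rho A B (ix A B x y) (iy A B x y) =
      -((A - B) * (tau A B x y * nn A B (x - A) (y - B))) /
        (rho A B x y ^ 2 * tau A B x y * dd A B (x - A) (y - B)) := by
    rw [← nn_rho hd, ← dd_rho hd, ← ix_sub, ← iy_sub]
    rfl
  rw [e]
  have e2 : (A - B) * nn A B (x - A) (y - B) = -(rho A B x y * dd A B (x - A) (y - B)) := by
    unfold rho
    field_simp
  field_simp
  linear_combination (-1 : K) * e2

theorem kap_eq (x y : K) : kap A B x y = rho A B x y * tau A B x y := by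
  unfold kap rho tau
  by_cases hd : dd A B (x - A) (y - B) = 0
  · rw [hd]; simp
  · field_simp

theorem kap_kap (h : Ok A B) {x y : K} (hn : nn A B (x - A) (y - B) ≠ 0)
    (hd : dd A B (x - A) (y - B) ≠ 0) (hl : ll A B (x - A) (y - B) ≠ 0) :
    kap A B (ix A B x y) (iy A B x y) * kap A B x y = 1 := by
  have hr := rho_ne h hn hd
  have ht := tau_ne h hd hl
  have h1 := rho_rho h hn hd hl
  have e : tau A B (ix A B x y) (iy A B x y) * tau A B x y = 1 := by
    have e1 : tau A B (ix A B x y) (iy A B x y) =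
        (A - B) * (rho A B x y ^ 4 * ll A B (x - A) (y - B)) /
          (rho A B x y ^ 2 * tau A B x y * dd A B (x - A) (y - B)) ^ 2 := by
      rw [← ll_rho, ← dd_rho hd, ← ix_sub, ← iy_sub]
      rfl
    rw [e1]
    have e2 : (A - B) * ll A B (x - A) (y - B) = tau A B x y * dd A B (x - A) (y - B) ^ 2 := by
      unfold tau
      field_simp
    field_simp
    linear_combination e2
  rw [kap_eq, kap_eq]
  calc rho A B (ix A B x y) (iy A B x y) * tau A B (ix A B x y) (iy A B x y) *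
        (rho A B x y * tau A B x y)
      = (rho A B (ix A B x y) (iy A B x y) * rho A B x y) *
        (tau A B (ix A B x y) (iy A B x y) * tau A B x y) := by ring
    _ = 1 := by rw [h1, e, one_mul]

theorem iota_iota (h : Ok A B) (u : Pt A B) (hu : IOK u) :
    iota h (iota h u hu) (IOK_iota h u hu) = u := by
  have h1 := rho_rho h hu.1 hu.2.1 hu.2.2
  have h2 := kap_kap h hu.1 hu.2.1 hu.2.2
  apply Pt.ext
  · rw [iota_x, iota_x, iota_y]
    have : ix A B (ix A B u.x u.y) (iy A B u.x u.y) - A = u.x - A := by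
      rw [ix_sub, ix_sub, ← mul_assoc, h1, one_mul]
    linear_combination this
  · rw [iota_y, iota_x, iota_y]
    have : iy A B (ix A B u.x u.y) (iy A B u.x u.y) - B = u.y - B := by
      rw [iy_sub, iy_sub, ← mul_assoc, h1, one_mul]
    linear_combination this
  · rw [iota_z, iota_z, iota_x, iota_y, ← mul_assoc, h2, one_mul]

end

section map

variable {K L : Type*} [Field K] [Field L] (φ : K →+* L) {A B : K}

theorem map_nn (a b : K) : φ (nn A B a b) = nn (φ A) (φ B) (φ a) (φ b) := by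
  simp [nn, map_ofNat]

theorem map_dd (a b : K) : φ (dd A B a b) = dd (φ A) (φ B) (φ a) (φ b) := by
  simp [dd, map_ofNat]

theorem map_ll (a b : K) : φ (ll A B a b) = ll (φ A) (φ B) (φ a) (φ b) := by simp [ll]

theorem map_rho (x y : K) : φ (rho A B x y) = rho (φ A) (φ B) (φ x) (φ y) := by
  simp [rho, map_nn, map_dd]

theorem map_kap (x y : K) : φ (kap A B x y) = kap (φ A) (φ B) (φ x) (φ y) := by
  simp [kap, map_nn, map_dd, map_ll]

theorem Ok.map (h : Ok A B) : Ok (φ A) (φ B) where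
  h2 := by
    have := (map_ne_zero φ).2 h.h2
    rwa [map_ofNat] at this
  hA := (map_ne_zero φ).2 h.hA
  hB := (map_ne_zero φ).2 h.hB
  hAB := fun e => h.hAB (φ.injective e)

theorem IOK_map (u : Pt A B) : IOK (Pt.map φ u) ↔ IOK u := by
  have e1 : nn (φ A) (φ B) ((Pt.map φ u).x - φ A) ((Pt.map φ u).y - φ B) =
      φ (nn A B (u.x - A) (u.y - B)) := by rw [map_nn, map_sub, map_sub]; rfl
  have e2 : dd (φ A) (φ B) ((Pt.map φ u).x - φ A) ((Pt.map φ u).y - φ B) =
      φ (dd A B (u.x - A) (u.y - B)) := by rw [map_dd, map_sub, map_sub]; rfl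
  have e3 : ll (φ A) (φ B) ((Pt.map φ u).x - φ A) ((Pt.map φ u).y - φ B) =
      φ (ll A B (u.x - A) (u.y - B)) := by rw [map_ll, map_sub, map_sub]; rfl
  unfold IOK
  rw [e1, e2, e3, map_ne_zero, map_ne_zero, map_ne_zero]

theorem iota_map (h : Ok A B) (u : Pt A B) (hu : IOK u) :
    Pt.map φ (iota h u hu) = iota (h.map φ) (Pt.map φ u) ((IOK_map φ u).2 hu) := by
  apply Pt.ext
  · show φ (A + rho A B u.x u.y * (u.x - A)) = _
    rw [map_add, map_mul, map_rho, map_sub]
    rfl
  · show φ (B + rho A B u.x u.y * (u.y - B)) = _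
    rw [map_add, map_mul, map_rho, map_sub]
    rfl
  · show φ (kap A B u.x u.y * u.z) = _
    rw [map_mul, map_kap]
    rfl

end map

end Pool.Agent.Helper1.FT
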