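import Pool.Agent.Helper1.FT.Tr
import Pool.Agent.Helper10.K3.Local0
import Pool.Agent.Helper10.K3.Reduc
import Pool.Agent.Helper9.KumWA.Padic

/-!
# FT: local definitions at a finite place
-/

namespace Pool.Agent.Helper1.FT

open Pool.Agent.Helper10.K3 WeierstrassCurve.Affine Classical

variable {p : ℕ} [hp : Fact p.Prime] {A B d : ℚ_[p]}

/-- the basic conditions at a prime -/
structure GB {p : ℕ} [Fact p.Prime] (A B : ℚ_[p]) : Prop where
  h3 : 3 < p
  nA : ‖A‖ = 1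
  nB : ‖B‖ = 1
  nAB : ‖A - B‖ = 1
  nS : ‖A + B‖ = 1

/-- the conditions at a prime: good reduction, `A ≠ -B`, one of `-1`, `A B` is a square, and the
doubles of the points of every twist of the reduction form a cyclic group -/
structure Good (p : ℕ) [Fact p.Prime] (A B : ℚ_[p]) : Prop extends GB A B where
  sq : IsSquare (-1 : ℚ_[p]) ∨ IsSquare (A * B)
  cyc : ∀ a b : ℤ_[p], (a : ℚ_[p]) = A → (b : ℚ_[p]) = B → ∀ d : ZMod p, d ≠ 0 →
    ∃ g : E (PadicInt.toZMod a) (PadicInt.toZMod b) d,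
      ∀ P : E (PadicInt.toZMod a) (PadicInt.toZMod b) d, ∃ k : ℤ,
        (2 : ℤ) • P = k • ((2 : ℤ) • g)

theorem GB.ne_two (h : GB A B) : p ≠ 2 := by
  have := h.h3
  omega

theorem GB.ok (h : GB A B) : Ok A B where
  h2 := two_ne_zero
  hA := by
    intro e
    have := h.nA
    rw [e, norm_zero] at this
    exact zero_ne_one this
  hB := by
    intro e
    have := h.nB
    rw [e, norm_zero] at this
    exact zero_ne_one this
  hAB := by
    intro e
    have := h.nAB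
    rw [e, sub_self, norm_zero] at this
    exact zero_ne_one this

/-- normalised twisting parameter -/
def nd (d : ℚ_[p]) : Prop := ‖d‖ = (p : ℝ)⁻¹ ∨ ‖d‖ = ((p : ℝ) ^ 2)⁻¹

theorem nd_le (hd : nd d) : ‖d‖ ≤ (p : ℝ)⁻¹ := by
  have hp1 := KumWA.one_lt_p (p := p)
  rcases hd with h | h
  · exact h.le
  · rw [h]
    apply inv_anti₀ (by positivity)
    nlinarith

theorem nd_lt (hd : nd d) : ‖d‖ < 1 :=
  (nd_le hd).trans_lt (inv_lt_one_of_one_lt₀ (KumWA.one_lt_p (p := p)))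

theorem nd_ne (hd : nd d) : d ≠ 0 := by
  have hp1 := KumWA.one_lt_p (p := p)
  rintro rfl
  rcases hd with h | h
  · rw [norm_zero] at h
    have : (0 : ℝ) < (p : ℝ)⁻¹ := by positivity
    linarith
  · rw [norm_zero] at h
    have : (0 : ℝ) < ((p : ℝ) ^ 2)⁻¹ := by positivity
    linarith

theorem nd_coe (hd : nd d) : ∃ d₀ : ℤ_[p], (p : ℤ_[p]) ∣ d₀ ∧ (d₀ : ℚ_[p]) = d := by
  obtain ⟨d₀, rfl⟩ := exists_coe_of_norm_le (nd_lt hd).le
  exact ⟨d₀, (PadicInt.norm_lt_one_iff_dvd _).1 (nd_lt hd), rfl⟩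

/-- filtration of the group of local points -/
def fil (n : ℕ) (P : E A B d) : Prop := P = 0 ∨ (p : ℝ) ^ (2 * n) ≤ ‖xc P‖

theorem fil_zero' (n : ℕ) : fil n (0 : E A B d) := Or.inl rfl

theorem fil_mono {n m : ℕ} (h : n ≤ m) {P : E A B d} (hP : fil m P) : fil n P := by
  rcases hP with hP | hP
  · exact Or.inl hP
  · right
    refine le_trans ?_ hP
    exact pow_le_pow_right₀ (KumWA.one_lt_p (p := p)).le (by omega)

theorem mem_Fil_iff {α β d₀ : ℤ_[p]} (hd : (p : ℤ_[p]) ∣ d₀) (n : ℕ)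
    (P : E (α : ℚ_[p]) (β : ℚ_[p]) (d₀ : ℚ_[p])) :
    P ∈ Fil (-(α + β)) (α * β) d₀ n ↔ fil n P := by
  rcases P with _ | ⟨X, Y, h⟩
  · exact ⟨fun _ => Or.inl rfl, fun _ => Fil.zero_mem n⟩
  · constructor
    · intro h'
      right
      have := (norm_of_mem_Fil hd h').1
      rw [mul_comm, pow_mul]
      exact this
    · rintro (h' | h')
      · exact absurd h' (Point.some_ne_zero _)
      · apply mem_Fil_of_norm hd
        rw [← pow_mul, mul_comm]
        exact h'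

theorem fil_neg {n : ℕ} {P : E A B d} (hP : fil n P) : fil n (-P) := by
  rcases hP with rfl | hP
  · left; exact Point.neg_zero
  · right; rwa [xc_neg]

theorem fil_add (h : GB A B) (hd : nd d) {n : ℕ} {P Q : E A B d} (hP : fil n P) (hQ : fil n Q) :
    fil n (P + Q) := by
  obtain ⟨α, rfl⟩ := exists_coe_of_norm_le h.nA.le
  obtain ⟨β, rfl⟩ := exists_coe_of_norm_le h.nB.le
  obtain ⟨d₀, h1, rfl⟩ := nd_coe hd
  have h2 := (mem_Fil_iff h1 n P).2 hP
  have h3 := (mem_Fil_iff h1 n Q).2 hQ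
  exact (mem_Fil_iff h1 n _).1 (Fil.add_mem h1 h2 h3)

/-- the filtration as a subgroup -/
def filS (h : GB A B) (hd : nd d) (n : ℕ) : AddSubgroup (E A B d) where
  carrier := {P | fil n P}
  zero_mem' := fil_zero' n
  add_mem' := fil_add h hd
  neg_mem' := fil_neg

theorem fil_sub (h : GB A B) (hd : nd d) {n : ℕ} {P Q : E A B d} (hP : fil n P) (hQ : fil n Q) :
    fil n (P - Q) := (filS h hd n).sub_mem hP hQ

theorem fil_zsmul (h : GB A B) (hd : nd d) {n : ℕ} {P : E A B d} (hP : fil n P) (j : ℤ) :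
    fil n (j • P) := (filS h hd n).zsmul_mem hP j

theorem fil_nsmul (h : GB A B) (hd : nd d) {n : ℕ} {P : E A B d} (hP : fil n P) (j : ℕ) :
    fil n (j • P) := (filS h hd n).nsmul_mem hP j

theorem fil_p_pow (h : GB A B) (hd : nd d) {m : ℕ} {P : E A B d} (hP : fil m P) (n : ℕ) :
    fil (m + n) (p ^ n • P) := by
  obtain ⟨α, rfl⟩ := exists_coe_of_norm_le h.nA.le
  obtain ⟨β, rfl⟩ := exists_coe_of_norm_le h.nB.le
  obtain ⟨d₀, h1, rfl⟩ := nd_coe hd
  have h2 := (mem_Fil_iff h1 m P).2 hP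
  exact (mem_Fil_iff h1 _ _).1 (Fil.p_pow_smul_mem h1 h.h3 n h2)

/-! ### local data -/

/-- a local datum: a normalised twisting parameter and two points of the twist -/
structure Loc {p : ℕ} [Fact p.Prime] (A B : ℚ_[p]) where
  d : ℚ_[p]
  hd : nd d
  Q : E A B d
  R : E A B d

/-- closeness of local data -/
def LNear (n : ℕ) (l' l : Loc A B) : Prop :=
  ∃ Q' R' : E A B l.d, l' = ⟨l.d, l.hd, Q', R'⟩ ∧ fil n (Q' - l.Q) ∧ fil n (R' - l.R)

/-- two local data related by the involution -/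
def SigL (h : Ok A B) (l l' : Loc A B) : Prop :=
  ∃ (u : Pt A B) (hu : IOK u), Rep u l.d l.Q l.R ∧ Rep (iota h u hu) l'.d l'.Q l'.R

theorem SigL.symm {h : Ok A B} {l l' : Loc A B} (hs : SigL h l l') : SigL h l' l := by
  obtain ⟨u, hu, h1, h2⟩ := hs
  refine ⟨iota h u hu, IOK_iota h u hu, h2, ?_⟩
  rw [iota_iota]
  exact h1

theorem LNear.refl (n : ℕ) (l : Loc A B) : LNear n l l := by
  refine ⟨l.Q, l.R, rfl, ?_, ?_⟩ <;> rw [sub_self] <;> exact fil_zero' n

/-- the second coordinate of the surface at a node: `x` is close to the node number `j` -/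
def near (A B : ℚ_[p]) (j : J) (x : ℚ_[p]) : Prop :=
  if j = 0 then 1 < ‖x‖ else ‖x - rt A B j‖ < 1

/-- the datum is near the node `(i, j)` -/
def LTy (h : Ok A B) (i j : J) (l : Loc A B) : Prop :=
  fil 0 (l.Q - torP h (nd_ne l.hd) i) ∧ fil 0 (l.R - torP h (nd_ne l.hd) j)

/-- parametrisation of the first coordinate near a node: coordinate of `torP j + η` divided by `d`,
where `w = d / xc η` -/
def XX {K : Type*} [Field K] (A B : K) (j : J) (w : K) : K :=
  if j = 0 then w⁻¹ else rt A B j + df A B (rt A B j) * w / (1 - rt A B j * w)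

/-- the points near the node `(i', j')`, with ratio of parameters `t²`, `t` close to some `t₀`,
have their images near the node `(i, j)` -/
def CL (A B : ℚ_[p]) (i j i' j' : J) : Prop :=
  ∃ t₀ : ℚ_[p], ‖t₀‖ = 1 ∧ ∀ w t : ℚ_[p], w ≠ 0 → ‖w‖ < 1 → ‖t - t₀‖ < 1 →
    nn A B (XX A B i' w - A) (XX A B j' (w * t ^ 2) - B) ≠ 0 →
    dd A B (XX A B i' w - A) (XX A B j' (w * t ^ 2) - B) ≠ 0 →
    near A B i (ix A B (XX A B i' w) (XX A B j' (w * t ^ 2))) ∧
      near A B j (iy A B (XX A B i' w) (XX A B j' (w * t ^ 2)))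

/-- concrete form of the links between nodes -/
def LLink (h : Ok A B) (i j i' j' : J) : Prop :=
  ∀ (d : ℚ_[p]) (hd : nd d) (c : ℕ), ∃ (l₀ : Loc A B) (η₁ η₂ : E A B d), LTy h i j l₀ ∧
    η₁ ≠ 0 ∧ ‖xc η₁‖ = (p : ℝ) ^ (2 * c) ∧ η₂ ≠ 0 ∧ ‖xc η₂‖ = (p : ℝ) ^ (2 * c) ∧
    SigL h l₀ ⟨d, hd, torP h (nd_ne hd) i' + η₁, torP h (nd_ne hd) j' + η₂⟩

end Pool.Agent.Helper1.FT
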