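import Pool.Agent.Helper1.FT.Loc

/-!
# FT: module MLev
-/

namespace Pool.Agent.Helper1.FT

open Pool.Agent.Helper10.K3 WeierstrassCurve.Affine Classical

variable {p : ℕ} [hp : Fact p.Prime] {A B d : ℚ_[p]}

private theorem MLev_norm_yc (h : GB A B) (hd : nd d) {P : E A B d} (hX : 1 ≤ ‖xc P‖) :
    ‖yc P‖ ^ 2 = ‖xc P‖ ^ 3 := by
  obtain ⟨α, rfl⟩ := exists_coe_of_norm_le h.nA.le
  obtain ⟨β, rfl⟩ := exists_coe_of_norm_le h.nB.le
  obtain ⟨d₀, h1, rfl⟩ := nd_coe hd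
  apply norm_Y_sq (a := -(α + β)) (b := α * β) h1 hX
  have e := curve_eq P
  push_cast
  linear_combination e

/-- levels of points of the formal part -/
theorem exists_level (h : GB A B) (hd : nd d) {P : E A B d} (hP : fil 0 P) (h0 : P ≠ 0) :
    ∃ c : ℕ, ‖xc P‖ = (p : ℝ) ^ (2 * c) := by
  have hX : 1 ≤ ‖xc P‖ := by
    have := hP.resolve_left h0
    simpa using this
  have hY := MLev_norm_yc h hd hX
  have hX0 : xc P ≠ 0 := by
    intro e
    rw [e, norm_zero] at hX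
    linarith
  have hY0 : yc P ≠ 0 := by
    intro e
    rw [e, norm_zero] at hY
    have : 1 ≤ ‖xc P‖ ^ 3 := one_le_pow₀ hX
    rw [← hY] at this
    norm_num at this
  have hp1 := KumWA.one_lt_p (p := p)
  have hp0 : (0 : ℝ) < p := by linarith
  rw [Padic.norm_eq_zpow_neg_valuation hX0, Padic.norm_eq_zpow_neg_valuation hY0,
    ← zpow_natCast, ← zpow_natCast, ← zpow_mul, ← zpow_mul] at hY
  have hv := zpow_right_injective₀ hp0 hp1.ne' hY
  push_cast at hv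
  have hle : (xc P).valuation ≤ 0 := by
    by_contra hc
    push Not at hc
    rw [Padic.norm_eq_zpow_neg_valuation hX0] at hX
    have : (p : ℝ) ^ (-(xc P).valuation) < (p : ℝ) ^ (0 : ℤ) :=
      zpow_lt_zpow_right₀ hp1 (by omega)
    rw [zpow_zero] at this
    linarith
  obtain ⟨c, hc⟩ : ∃ c : ℕ, -(xc P).valuation = 2 * (c : ℤ) := by
    refine ⟨((yc P).valuation - (xc P).valuation).natAbs, ?_⟩
    omega
  refine ⟨c, ?_⟩
  rw [Padic.norm_eq_zpow_neg_valuation hX0, hc, ← zpow_natCast]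
  push_cast
  rfl

/-- successive approximation by multiples of a point of exact level `c` -/
private theorem MLev_approx {a b δ : ℤ_[p]} (hδ : (p : ℤ_[p]) ∣ δ) (hp3 : 3 < p)
    {P Q : (TW (a : ℚ_[p]) b δ).Point} {v w : ℤ_[p]} {c : ℕ}
    (h : Par a b δ P ((p : ℤ_[p]) ^ c * v) w) (hv : IsUnit v)
    (hQ : Q ∈ Fil a b δ c) (n : ℕ) : ∃ k : ℕ, Q - k • P ∈ Fil a b δ (c + n) := by
  induction n with
  | zero => exact ⟨0, by simpa using hQ⟩
  | succ n ih =>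
    obtain ⟨k, Z', w', h1, ⟨z', hz'⟩⟩ := ih
    obtain ⟨u, w'', h2⟩ := Par.p_pow_smul hδ hp3 h n
    obtain ⟨v, rfl⟩ := hv
    obtain ⟨c₀, hc⟩ : ∃ c₀ : ℕ, (p : ℤ_[p]) ∣ z' - u * v * c₀ := by
      set x : ℤ_[p] := (↑(u * v)⁻¹ : ℤ_[p]) * z' with hx
      obtain ⟨c₀, -, hc⟩ := PadicInt.exists_mem_range (x := x)
      refine ⟨c₀, ?_⟩
      have hxx : u * v * x = z' := by
        rw [hx, ← Units.val_mul, ← mul_assoc, Units.mul_inv, one_mul]
      have : z' - u * v * c₀ = u * v * (x - c₀) := by rw [mul_sub, hxx]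
      rw [this]
      refine Dvd.dvd.mul_left ?_ _
      rw [PadicInt.maximalIdeal_eq_span_p, Ideal.mem_span_singleton] at hc
      exact hc
    obtain ⟨s, w₃, e, c', h3, h4, -⟩ := Par.nsmul hδ two_ne_zero h2 c₀
    obtain ⟨Z₃, w₄, g, m1, m2, -⟩ := Par.add hδ two_ne_zero h1 h3.neg
    refine ⟨k + c₀ * p ^ n, Z₃, w₄, ?_, ?_⟩
    · have e1 : Q - (k + c₀ * p ^ n) • P = Q - k • P + -(c₀ • p ^ n • P) := by
        rw [add_smul, mul_nsmul']
        abel
      rw [e1]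
      exact m1
    · have hu := isUnit_one_add hδ (g * Z' * -(p ^ n * u * (p ^ c * v) * s))
      have hdiv : (p : ℤ_[p]) ^ (c + (n + 1)) ∣
          (1 + δ * (g * Z' * -(p ^ n * u * (p ^ c * v) * s))) * Z₃ := by
        have e2 : (1 + δ * (g * Z' * -(p ^ n * u * (p ^ c * v) * s))) * Z₃
            = p ^ (c + n) * (z' - u * v * s) := by
          rw [hz'] at m2 ⊢
          rw [pow_add] at m2 ⊢
          linear_combination m2
        rw [e2, ← add_assoc, pow_succ]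
        apply mul_dvd_mul_left
        obtain ⟨δ', hδ'⟩ := hδ
        have e3 : z' - u * v * s = (z' - u * v * c₀)
            + p * (-(u * v * (a * δ' * c' * (p ^ n * u * (p ^ c * v)) ^ 2
              + δ' * δ * (p ^ n * u * (p ^ c * v)) ^ 2 * e))) := by
          rw [h4, hδ']; ring
        rw [e3]
        exact dvd_add hc (dvd_mul_right _ _)
      exact (hu.dvd_mul_left).1 hdiv

private theorem MLev_smul {G : Type*} [AddCommGroup G] (x y : G) (j : ℕ) :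
    x - (2 * (j : ℤ)) • y = x - j • (2 • y) := by
  have e : (2 * (j : ℤ)) • y = j • (2 • y) := by
    rw [← mul_nsmul', ← natCast_zsmul y (j * 2)]
    congr 1
    push_cast
    ring
  rw [e]

/-- a point of exact level `c` is a topological generator of `fil c`, by even multiples -/
theorem level_gen (h : GB A B) (hd : nd d) {c : ℕ} {W ξ : E A B d} (hW : W ≠ 0)
    (hn : ‖xc W‖ = (p : ℝ) ^ (2 * c)) (hξ : fil c ξ) (k : ℕ) :
    ∃ j : ℤ, fil k (ξ - (2 * j) • W) := by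
  obtain ⟨α, rfl⟩ := exists_coe_of_norm_le h.nA.le
  obtain ⟨β, rfl⟩ := exists_coe_of_norm_le h.nB.le
  obtain ⟨d₀, h1, rfl⟩ := nd_coe hd
  have hWc : W ∈ Fil (-(α + β)) (α * β) d₀ c := (mem_Fil_iff h1 c W).2 (Or.inr hn.ge)
  have hξc : ξ ∈ Fil (-(α + β)) (α * β) d₀ c := (mem_Fil_iff h1 c ξ).2 hξ
  obtain ⟨Z, w, hZ, z, hz⟩ := hWc
  have hp0 : (0 : ℝ) < p := KumWA.p_pos (p := p)
  -- `z` is a unit
  have hzu : IsUnit z := by
    rcases W with _ | ⟨X, Y, hXY⟩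
    · exact absurd rfl hW
    · have hn' : ‖X‖ = (p : ℝ) ^ (2 * c) := hn
      have h2 := (hZ.norms h1).1
      rw [hn', hz, norm_mul, norm_pow, PadicInt.norm_p, mul_pow, ← pow_mul, inv_pow] at h2
      rw [mul_comm c 2, ← mul_assoc, mul_inv_cancel₀ (pow_pos hp0 _).ne', one_mul] at h2
      rw [PadicInt.isUnit_iff]
      exact (pow_eq_one_iff_of_nonneg (norm_nonneg _) two_ne_zero).1 h2
  obtain ⟨s, w', e, c', h3, h4, h5⟩ := Par.nsmul h1 two_ne_zero hZ 2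
  have hsu : IsUnit s := by
    obtain ⟨d', hd'⟩ := h1
    have e1 : s = 2 + p * (-(α + β) * d' * c' * Z ^ 2 + d' * d₀ * Z ^ 2 * e) := by
      rw [h4, hd']; push_cast; ring
    rw [PadicInt.isUnit_iff]
    have h2n : ‖(2 : ℤ_[p])‖ = 1 := by
      have := KumWA.norm_two (p := p) h.ne_two
      rw [PadicInt.norm_def]
      exact_mod_cast this
    have h2u : IsUnit (2 : ℤ_[p]) := by rwa [PadicInt.isUnit_iff]
    obtain ⟨t, ht⟩ := h2u
    have e2 : s = 2 * (1 + p * ((↑t⁻¹ : ℤ_[p]) *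
        (-(α + β) * d' * c' * Z ^ 2 + d' * d₀ * Z ^ 2 * e))) := by
      rw [e1, ← ht]
      have : (t : ℤ_[p]) * ((↑t⁻¹ : ℤ_[p])) = 1 := Units.mul_inv t
      linear_combination (-(p * (-(α + β) * d' * c' * Z ^ 2 + d' * d₀ * Z ^ 2 * e)) : ℤ_[p]) * this
    rw [e2, norm_mul, h2n, one_mul, ← PadicInt.isUnit_iff]
    exact isUnit_one_add (dvd_refl _) _
  have hpar : Par (-(α + β)) (α * β) d₀ (2 • W) ((p : ℤ_[p]) ^ c * (z * s)) w' := by
    have : (p : ℤ_[p]) ^ c * (z * s) = Z * s := by rw [hz]; ring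
    rw [this]
    exact h3
  obtain ⟨j, hj⟩ := MLev_approx h1 h.h3 hpar (hzu.mul hsu) hξc k
  refine ⟨j, ?_⟩
  have e1 : ξ - (2 * (j : ℤ)) • W = ξ - j • (2 • W) := MLev_smul ξ W j
  rw [e1]
  exact (mem_Fil_iff h1 k _).1 (Fil.mono (by omega) hj)

/-- points with given first coordinate `t ^ (-2)` -/
theorem exists_eta (h : GB A B) (hd : nd d) {t : ℚ_[p]} (ht : t ≠ 0) (ht1 : ‖t‖ ≤ 1) :
    ∃ η : E A B d, η ≠ 0 ∧ xc η = (t ^ 2)⁻¹ := by
  have hdn := nd_lt hd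
  have ht2 : ‖t ^ 2‖ ≤ 1 := KumWA.norm_pow_le_one ht1 2
  have hs : IsSquare ((1 - A * d * t ^ 2) * (1 - B * d * t ^ 2)) := by
    apply KumWA.isSquare_of_close h.ne_two _ (IsSquare.one (α := ℚ_[p]))
    have e : (1 - A * d * t ^ 2) * (1 - B * d * t ^ 2) - 1 =
        d * (t ^ 2 * (A * B * d * t ^ 2 - (A + B))) := by ring
    rw [e, norm_mul, norm_one]
    refine lt_of_le_of_lt (mul_le_of_le_one_right (norm_nonneg _) ?_) hdn
    apply KumWA.norm_mul_le_one ht2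
    apply KumWA.nsub_le
    · exact KumWA.norm_mul_le_one (KumWA.norm_mul_le_one (KumWA.norm_mul_le_one h.nA.le h.nB.le)
        hdn.le) ht2
    · exact h.nS.le
  obtain ⟨r, hr⟩ := hs
  refine ⟨mkP h.ok (nd_ne hd) ((t ^ 2)⁻¹) ((t ^ 3)⁻¹ * r) ?_, mkP_ne _ _ _ _ _, xc_mkP _ _ _ _ _⟩
  have e1 : ((t ^ 3)⁻¹ * r) ^ 2 = (t ^ 6)⁻¹ * (r * r) := by
    field_simp
  rw [e1, ← hr]
  field_simp

end Pool.Agent.Helper1.FT
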