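import Pool.Agent.Helper1.FT.MRep
import Pool.Agent.Helper1.FT.MAv
import Pool.Agent.Helper1.FT.MAvP

/-!
# FT: module MSC (data exchanged by the involution are dense)
-/

namespace Pool.Agent.Helper1.FT

open Pool.Agent.Helper10.K3 WeierstrassCurve.Affine Classical

variable {p : ℕ} [hp : Fact p.Prime] {A B d : ℚ_[p]}

theorem exists_sig_coord (h : GB A B) (l : Loc A B) (n : ℕ) :
    ∃ l₀ l' : Loc A B, SigL h.ok l₀ l' ∧ LNear n l' l ∧ l'.Q ≠ 0 ∧ l'.R ≠ 0 ∧ l₀.Q ≠ 0 ∧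
      l₀.R ≠ 0 ∧ nn A B (xc l'.Q / l'.d - A) (xc l'.R / l'.d - B) ≠ 0 ∧
      dd A B (xc l'.Q / l'.d - A) (xc l'.R / l'.d - B) ≠ 0 ∧
      xc l₀.Q / l₀.d = ix A B (xc l'.Q / l'.d) (xc l'.R / l'.d) ∧
      xc l₀.R / l₀.d = iy A B (xc l'.Q / l'.d) (xc l'.R / l'.d) := by
  obtain ⟨d, hd, Q, R⟩ := l
  have hd0 := nd_ne hd
  obtain ⟨Q', hQ', hfQ⟩ := exists_near_avoid h hd (finite_yc h.ok hd0) Q n
  rw [Set.mem_ofPred_eq, not_or] at hQ'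
  have hx : xc Q' / d ≠ A := by
    intro e
    apply hQ'.2
    have h1 := yc_sq_ff hd0 Q'
    rw [e] at h1
    have h2 : ff A B A = 0 := by unfold ff; ring
    rw [h2, mul_zero] at h1
    exact pow_eq_zero_iff (two_ne_zero) |>.1 h1
  obtain ⟨R', hR', hfR⟩ := exists_near_avoid h hd
    ((finite_yc h.ok hd0).union (finite_bad h.ok hd0 hx)) R n
  simp only [Set.mem_union, Set.mem_ofPred_eq, not_or, not_and, not_not] at hR'
  obtain ⟨⟨hR0, hyR⟩, hI⟩ := hR'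
  have hI' : nn A B (xc Q' / d - A) (xc R' / d - B) ≠ 0 ∧
      dd A B (xc Q' / d - A) (xc R' / d - B) ≠ 0 ∧
      ll A B (xc Q' / d - A) (xc R' / d - B) ≠ 0 := by
    have := hI hR0
    tauto
  set u := mkPt hd0 Q' R' hQ'.2 hyR with hu
  have hrep : Rep u d Q' R' := rep_mkPt hd0 hQ'.2 hyR
  have hIOK : IOK u := hI'
  obtain ⟨l₀, hr⟩ := exists_rep_nd h (iota h.ok u hIOK)
  refine ⟨l₀, ⟨d, hd, Q', R'⟩, ?_, ⟨Q', R', rfl, hfQ, hfR⟩, hQ'.1, hR0, hr.2.1, hr.2.2.1,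
    hI'.1, hI'.2.1, ?_, ?_⟩
  · apply SigL.symm
    exact ⟨u, hIOK, hrep, hr⟩
  · rw [← hr.2.2.2.1, mul_div_cancel_right₀ _ hr.1]
    rfl
  · rw [← hr.2.2.2.2.1, mul_div_cancel_right₀ _ hr.1]
    rfl

end Pool.Agent.Helper1.FT
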