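import Pool.Agent.Helper1.FT.GSd

/-!
# FT: module MT1 (steps on the lines x = root)
-/

namespace Pool.Agent.Helper1.FT

open Pool.Agent.Helper10.K3 WeierstrassCurve.Affine Classical

variable {p : ℕ} [hp : Fact p.Prime] {A B d : ℚ_[p]}

variable {G : Loc A B → Prop} {c : ℚ_[p]}

private theorem MT1_mul_lt {x y : ℚ_[p]} (hx : ‖x‖ < 1) (hy : ‖y‖ ≤ 1) : ‖x * y‖ < 1 := by
  rw [norm_mul]
  exact mul_lt_one_of_nonneg_of_lt_one_left (norm_nonneg _) hx hy

private theorem MT1_two : ‖(2 : ℚ_[p])‖ ≤ 1 := by
  have := Padic.norm_int_le_one (p := p) 2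
  exact_mod_cast this

private theorem MT1_of_unit {D z : ℚ_[p]} (hD : ‖D‖ = 1) (h : ‖D * z‖ < 1) : ‖z‖ < 1 := by
  rwa [norm_mul, hD, one_mul] at h

/-- general step -/
private theorem MT1_step (h : GB A B) (hG : GS h.ok G) (i0 i1 : J) {c c' : ℚ_[p]}
    (hN : ∀ x y, near A B i0 x → ‖y - c‖ < 1 →
      near A B i1 (ix A B x y) ∧ ‖iy A B x y - c'‖ < 1)
    (H : TC h.ok G c') : TC h.ok G c := by
  intro l i hQ hR hc
  have hd0 := nd_ne l.hd
  set l2 : Loc A B := ⟨l.d, l.hd, l.Q + torP h.ok (nd_ne l.hd) (i + i0), l.R⟩ with hl2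
  have key : G l2 := by
    apply hG.cl
    intro n
    obtain ⟨n1, hn1⟩ := close_of_fil h l.hd hR (ε := ‖l.d‖) (norm_pos_iff.2 hd0)
    obtain ⟨l₀, l', hs, hnear, hQ', hR', hQ0, hR0, hnn, hdd, ex, ey⟩ :=
      exists_sig_coord h l2 (max n n1)
    obtain ⟨Q', R', rfl, h1, h2⟩ := hnear
    have hx : near A B i0 (xc Q' / l.d) := by
      rw [← near_iff h l.hd hQ' i0]
      have e : Q' - torP h.ok (nd_ne l.hd) i0 =
          (Q' - (l.Q + torP h.ok (nd_ne l.hd) (i + i0))) +
            (l.Q - torP h.ok (nd_ne l.hd) i) +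
            (torP h.ok (nd_ne l.hd) i + torP h.ok (nd_ne l.hd) i) := by
        rw [torP_add]
        have e0 := neg_torP h.ok (nd_ne l.hd) i0
        have e1 : Q' - torP h.ok (nd_ne l.hd) i0 = Q' + torP h.ok (nd_ne l.hd) i0 := by
          rw [sub_eq_add_neg, e0]
        have e2 : torP h.ok (nd_ne l.hd) i0 + torP h.ok (nd_ne l.hd) i0 = 0 :=
          torP_self h.ok (nd_ne l.hd) i0
        have e3 : torP h.ok (nd_ne l.hd) i0 = - torP h.ok (nd_ne l.hd) i0 := e0.symm
        abel
      rw [e, torP_self, add_zero]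
      exact fil_add h l.hd (fil_mono (Nat.zero_le _) h1) hQ
    have hy : ‖xc R' / l.d - c‖ < 1 := by
      have h3 : ‖xc R' - xc l.R‖ < ‖l.d‖ :=
        (hn1 R' (fil_mono (le_max_right _ _) h2)).2.1
      have e : xc R' / l.d - c = (xc R' - xc l.R) / l.d + (xc l.R / l.d - c) := by
        field_simp
        ring
      rw [e]
      refine KumWA.nadd_lt ?_ hc
      rw [norm_div, div_lt_one (norm_pos_iff.2 hd0)]
      exact h3
    obtain ⟨k1, k2⟩ := hN _ _ hx hy
    refine ⟨⟨l.d, l.hd, Q', R'⟩, ?_, Q', R', rfl, fil_mono (le_max_left _ _) h1,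
      fil_mono (le_max_left _ _) h2⟩
    refine hG.sig _ _ (H l₀ i1 ?_ hR0 ?_) hs
    · rw [near_iff h l₀.hd hQ0 i1, ex]
      exact k1
    · rw [ey]
      exact k2
  have h3 := hG.tr1 l2 (i + i0) key
  have e : l2.Q + torP h.ok (nd_ne l2.hd) (i + i0) = l.Q := by
    change l.Q + torP h.ok (nd_ne l.hd) (i + i0) + torP h.ok (nd_ne l.hd) (i + i0) = l.Q
    rw [add_assoc, torP_self, add_zero]
  rw [e] at h3
  exact h3

theorem tc_A (h : GB A B) (hG : GS h.ok G) (hc : ‖c‖ ≤ 1) (hcB : ‖c - B‖ = 1)
    (H : TC h.ok G (A - c)) : TC h.ok G c := by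
  refine MT1_step h hG (1, 0) (1, 0) ?_ H
  intro x y hx hy
  rw [near, if_neg (by decide), rt_A] at hx
  rw [near, if_neg (by decide), rt_A]
  have nA := h.nA.le
  have nB := h.nB.le
  have ha := hx.le
  have hb1 : ‖y - B‖ = 1 := by
    rw [← hcB]
    apply KumWA.neq_of_sub_lt
    rw [hcB]
    have : y - B - (c - B) = y - c := by ring
    rwa [this]
  have hb := hb1.le
  have hyc : ‖c - y‖ < 1 := by rwa [norm_sub_rev]
  have hD : ‖dd A B (x - A) (y - B)‖ = 1 := by
    have e1 : ‖A * (A - B) * (y - B) ^ 2‖ = 1 := by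
      rw [norm_mul, norm_mul, norm_pow, h.nA, h.nAB, hb1]; norm_num
    rw [← e1]
    apply KumWA.neq_of_sub_lt
    rw [e1]
    have e2 : dd A B (x - A) (y - B) - A * (A - B) * (y - B) ^ 2 =
        (x - A) * ((2 * A - B) * (y - B) ^ 2 - (2 * B - A) * (x - A) * (y - B) +
          (A - B) * B * (x - A)) := by
      unfold dd; ring
    rw [e2]
    refine MT1_mul_lt hx ?_
    (repeat' first
      | with_reducible assumption
      | with_reducible exact MT1_two
      | with_reducible refine KumWA.nadd_le ?_ ?_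
      | with_reducible refine KumWA.nsub_le ?_ ?_
      | with_reducible refine KumWA.norm_mul_le_one ?_ ?_
      | with_reducible refine KumWA.norm_pow_le_one ?_ _
      | rw [norm_neg])
  have hDne : dd A B (x - A) (y - B) ≠ 0 := by
    intro h0
    rw [h0, norm_zero] at hD
    exact zero_ne_one hD
  constructor
  · have e : ix A B x y - A = rho A B x y * (x - A) := ix_sub x y
    apply MT1_of_unit hD
    have e2 : dd A B (x - A) (y - B) * (ix A B x y - A) =
        (x - A) * (-((A - B) * nn A B (x - A) (y - B))) := by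
      rw [e, rho]; field_simp
    rw [e2]
    refine MT1_mul_lt hx ?_
    unfold nn
    (repeat' first
      | with_reducible assumption
      | with_reducible exact MT1_two
      | with_reducible refine KumWA.nadd_le ?_ ?_
      | with_reducible refine KumWA.nsub_le ?_ ?_
      | with_reducible refine KumWA.norm_mul_le_one ?_ ?_
      | with_reducible refine KumWA.norm_pow_le_one ?_ _
      | rw [norm_neg])
  · apply MT1_of_unit hD
    have e2 : dd A B (x - A) (y - B) * (iy A B x y - (A - c)) =
        (c - y) * (A * (A - B) * (y - B) ^ 2) + (x - A) *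
        (((2 * A - B) * (y - B) ^ 2 - (2 * B - A) * (x - A) * (y - B) +
          (A - B) * B * (x - A)) * (B - A + c) -
          (A - B) * (y - B) * (B * (x - A) + B * (2 * A - B))) := by
      rw [iy, rho]
      field_simp
      unfold dd nn
      ring
    rw [e2]
    refine KumWA.nadd_lt (MT1_mul_lt hyc ?_) (MT1_mul_lt hx ?_) <;> (repeat' first
      | with_reducible assumption
      | with_reducible exact MT1_two
      | with_reducible refine KumWA.nadd_le ?_ ?_
      | with_reducible refine KumWA.nsub_le ?_ ?_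
      | with_reducible refine KumWA.norm_mul_le_one ?_ ?_
      | with_reducible refine KumWA.norm_pow_le_one ?_ _
      | rw [norm_neg])

theorem tc_B (h : GB A B) (hG : GS h.ok G) (hc : ‖c‖ = 1) (hcA : ‖c - A‖ = 1)
    (H : TC h.ok G (B + A / (A - B) * (c - B))) : TC h.ok G c := by
  refine MT1_step h hG (0, 1) (1, 1) ?_ H
  intro x y hx hy
  rw [near, if_neg (by decide), rt_B] at hx
  rw [near, if_neg (by decide), rt_0, sub_zero]
  have nA := h.nA.le
  have nB := h.nB.le
  have hx1 : ‖x‖ ≤ 1 := by
    have : x = (x - B) + B := by ring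
    rw [this]
    exact KumWA.nadd_le hx.le nB
  have hAB0 := h.ok.sub_ne
  have hy1 : ‖y‖ = 1 := by
    rw [← hc]
    apply KumWA.neq_of_sub_lt
    rwa [hc]
  have hyA : ‖y - A‖ = 1 := by
    rw [← hcA]
    apply KumWA.neq_of_sub_lt
    rw [hcA]
    have : y - A - (c - A) = y - c := by ring
    rwa [this]
  have hyy := hy1.le
  have hcc := hc.le
  have hyc : ‖c - y‖ < 1 := by rwa [norm_sub_rev]
  have hD : ‖dd A B (x - A) (y - B)‖ = 1 := by
    have e1 : ‖-((A - B) ^ 2 * y * (y - A))‖ = 1 := by
      rw [norm_neg, norm_mul, norm_mul, norm_pow, h.nAB, hy1, hyA]; norm_num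
    rw [← e1]
    apply KumWA.neq_of_sub_lt
    rw [e1]
    have e2 : dd A B (x - A) (y - B) - -((A - B) ^ 2 * y * (y - A)) =
        (x - B) * ((2 * A - B) * (y - B) ^ 2 + (-(2 * B - A) * (y - B) + (A - B) * B) *
          ((x - A) + (B - A))) := by
      unfold dd; ring
    rw [e2]
    refine MT1_mul_lt hx ?_
    (repeat' first
      | with_reducible assumption
      | with_reducible exact MT1_two
      | with_reducible refine KumWA.nadd_le ?_ ?_
      | with_reducible refine KumWA.nsub_le ?_ ?_
      | with_reducible refine KumWA.norm_mul_le_one ?_ ?_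
      | with_reducible refine KumWA.norm_pow_le_one ?_ _
      | rw [norm_neg])
  have hDne : dd A B (x - A) (y - B) ≠ 0 := by
    intro h0
    rw [h0, norm_zero] at hD
    exact zero_ne_one hD
  constructor
  · apply MT1_of_unit hD
    have e2 : dd A B (x - A) (y - B) * ix A B x y =
        (x - B) * (A * ((2 * A - B) * (y - B) ^ 2 + (-(2 * B - A) * (y - B) + (A - B) * B) *
          ((x - A) + (B - A))) - (A - B) * ((B * ((x - A) + (B - A)) + B * (2 * A - B)) * (x - A) +
            A * y * (y - A))) := by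
      rw [ix, rho]
      field_simp
      unfold dd nn
      ring
    rw [e2]
    refine MT1_mul_lt hx ?_
    (repeat' first
      | with_reducible assumption
      | with_reducible exact MT1_two
      | with_reducible refine KumWA.nadd_le ?_ ?_
      | with_reducible refine KumWA.nsub_le ?_ ?_
      | with_reducible refine KumWA.norm_mul_le_one ?_ ?_
      | with_reducible refine KumWA.norm_pow_le_one ?_ _
      | rw [norm_neg])
  · have hAB1 : ‖(A - B) * dd A B (x - A) (y - B)‖ = 1 := by
      rw [norm_mul, h.nAB, hD, one_mul]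
    apply MT1_of_unit hAB1
    have e2 : (A - B) * dd A B (x - A) (y - B) *
        (iy A B x y - (B + A / (A - B) * (c - B))) =
        (c - y) * (A * (A - B) ^ 2 * y * (y - A)) - (x - B) *
        ((A - B) ^ 2 * (B * ((x - A) + (B - A)) + B * (2 * A - B)) * (y - B) +
          A * ((2 * A - B) * (y - B) ^ 2 + (-(2 * B - A) * (y - B) + (A - B) * B) *
          ((x - A) + (B - A))) * (c - B)) := by
      rw [iy, rho]
      field_simp
      unfold dd nn
      ring
    rw [e2]
    refine KumWA.nsub_lt (MT1_mul_lt hyc ?_) (MT1_mul_lt hx ?_) <;> (repeat' first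
      | with_reducible assumption
      | with_reducible exact MT1_two
      | with_reducible refine KumWA.nadd_le ?_ ?_
      | with_reducible refine KumWA.nsub_le ?_ ?_
      | with_reducible refine KumWA.norm_mul_le_one ?_ ?_
      | with_reducible refine KumWA.norm_pow_le_one ?_ _
      | rw [norm_neg])

theorem tc_O (h : GB A B) (hG : GS h.ok G) (hc : ‖c‖ = 1) (hcA : ‖c - A‖ = 1)
    (H : TC h.ok G (B + (A - B) / A * (c - B))) : TC h.ok G c := by
  refine MT1_step h hG (1, 1) (0, 1) ?_ H
  intro x y hx hy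
  rw [near, if_neg (by decide), rt_0, sub_zero] at hx
  rw [near, if_neg (by decide), rt_B]
  have nA := h.nA.le
  have nB := h.nB.le
  have hx1 := hx.le
  have hA0 := h.ok.hA
  have hy1 : ‖y‖ = 1 := by
    rw [← hc]
    apply KumWA.neq_of_sub_lt
    rwa [hc]
  have hyA : ‖y - A‖ = 1 := by
    rw [← hcA]
    apply KumWA.neq_of_sub_lt
    rw [hcA]
    have : y - A - (c - A) = y - c := by ring
    rwa [this]
  have hyy := hy1.le
  have hcc := hc.le
  have hyc : ‖c - y‖ < 1 := by rwa [norm_sub_rev]
  have hD : ‖dd A B (x - A) (y - B)‖ = 1 := by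
    have e1 : ‖-(A ^ 2 * y * (y - A))‖ = 1 := by
      rw [norm_neg, norm_mul, norm_mul, norm_pow, h.nA, hy1, hyA]; norm_num
    rw [← e1]
    apply KumWA.neq_of_sub_lt
    rw [e1]
    have e2 : dd A B (x - A) (y - B) - -(A ^ 2 * y * (y - A)) =
        x * ((2 * A - B) * (y - B) ^ 2 + (-(2 * B - A) * (y - B) + (A - B) * B) *
          ((x - A) - A)) := by
      unfold dd; ring
    rw [e2]
    refine MT1_mul_lt hx ?_
    (repeat' first
      | with_reducible assumption
      | with_reducible exact MT1_two
      | with_reducible refine KumWA.nadd_le ?_ ?_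
      | with_reducible refine KumWA.nsub_le ?_ ?_
      | with_reducible refine KumWA.norm_mul_le_one ?_ ?_
      | with_reducible refine KumWA.norm_pow_le_one ?_ _
      | rw [norm_neg])
  have hDne : dd A B (x - A) (y - B) ≠ 0 := by
    intro h0
    rw [h0, norm_zero] at hD
    exact zero_ne_one hD
  constructor
  · apply MT1_of_unit hD
    have e2 : dd A B (x - A) (y - B) * (ix A B x y - B) =
        x * ((A - B) * ((2 * A - B) * (y - B) ^ 2 + (-(2 * B - A) * (y - B) + (A - B) * B) *
          ((x - A) - A)) - (A - B) * ((B * ((x - A) - A) + B * (2 * A - B)) * (x - A) +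
            A * y * (y - A))) := by
      rw [ix, rho]
      field_simp
      unfold dd nn
      ring
    rw [e2]
    refine MT1_mul_lt hx ?_
    (repeat' first
      | with_reducible assumption
      | with_reducible exact MT1_two
      | with_reducible refine KumWA.nadd_le ?_ ?_
      | with_reducible refine KumWA.nsub_le ?_ ?_
      | with_reducible refine KumWA.norm_mul_le_one ?_ ?_
      | with_reducible refine KumWA.norm_pow_le_one ?_ _
      | rw [norm_neg])
  · have hA1 : ‖A * dd A B (x - A) (y - B)‖ = 1 := by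
      rw [norm_mul, h.nA, hD, one_mul]
    apply MT1_of_unit hA1
    have e2 : A * dd A B (x - A) (y - B) *
        (iy A B x y - (B + (A - B) / A * (c - B))) =
        (c - y) * ((A - B) * A ^ 2 * y * (y - A)) - x *
        ((A - B) * A * (B * ((x - A) - A) + B * (2 * A - B)) * (y - B) +
          (A - B) * ((2 * A - B) * (y - B) ^ 2 + (-(2 * B - A) * (y - B) + (A - B) * B) *
          ((x - A) - A)) * (c - B)) := by
      rw [iy, rho]
      field_simp
      unfold dd nn
      ring
    rw [e2]
    refine KumWA.nsub_lt (MT1_mul_lt hyc ?_) (MT1_mul_lt hx ?_) <;> (repeat' first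
      | with_reducible assumption
      | with_reducible exact MT1_two
      | with_reducible refine KumWA.nadd_le ?_ ?_
      | with_reducible refine KumWA.nsub_le ?_ ?_
      | with_reducible refine KumWA.norm_mul_le_one ?_ ?_
      | with_reducible refine KumWA.norm_pow_le_one ?_ _
      | rw [norm_neg])

end Pool.Agent.Helper1.FT
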