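import Pool.Agent.Helper1.FT.MT1
import Pool.Agent.Helper1.FT.MT2

/-!
# FT: module MT3 (all data on the lines)
-/

namespace Pool.Agent.Helper1.FT

open Pool.Agent.Helper10.K3 WeierstrassCurve.Affine Classical

variable {p : ℕ} [hp : Fact p.Prime] {A B d : ℚ_[p]}

variable {G : Loc A B → Prop}

private theorem lt_trans3 {x y z : ℚ_[p]} (h1 : ‖x - y‖ < 1) (h2 : ‖y - z‖ < 1) : ‖x - z‖ < 1 := by
  have e : x - z = (x - y) + (y - z) := by ring
  rw [e]
  exact lt_of_le_of_lt (Padic.nonarchimedean _ _) (max_lt h1 h2)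

private theorem le_add3 {x y : ℚ_[p]} (h1 : ‖x‖ ≤ 1) (h2 : ‖y‖ ≤ 1) : ‖x + y‖ ≤ 1 :=
  le_trans (Padic.nonarchimedean _ _) (max_le h1 h2)

private theorem le_sub3 {x y : ℚ_[p]} (h1 : ‖x‖ ≤ 1) (h2 : ‖y‖ ≤ 1) : ‖x - y‖ ≤ 1 := by
  rw [sub_eq_add_neg]
  exact le_add3 h1 (by rw [norm_neg]; exact h2)

private theorem le_mul3 {x y : ℚ_[p]} (h1 : ‖x‖ ≤ 1) (h2 : ‖y‖ ≤ 1) : ‖x * y‖ ≤ 1 := by
  rw [norm_mul]
  exact mul_le_one₀ h1 (norm_nonneg _) h2

private theorem exists_nat_near {x : ℚ_[p]} (hx : ‖x‖ ≤ 1) : ∃ k : ℕ, ‖(k : ℚ_[p]) - x‖ < 1 := by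
  obtain ⟨x₀, rfl⟩ := exists_coe_of_norm_le hx
  obtain ⟨k, -, hk⟩ := PadicInt.exists_mem_range x₀
  refine ⟨k, ?_⟩
  rw [PadicInt.maximalIdeal_eq_span_p, Ideal.mem_span_singleton,
    ← PadicInt.norm_lt_one_iff_dvd] at hk
  rw [← norm_neg, neg_sub]
  exact_mod_cast hk

private theorem tc_congr (h : Ok A B) {c c' : ℚ_[p]} (hcc : ‖c - c'‖ < 1) (H : TC h G c') :
    TC h G c := fun l i h1 h2 h3 => H l i h1 h2 (lt_trans3 h3 hcc)

private theorem td_congr (h : Ok A B) {c c' : ℚ_[p]} (hcc : ‖c - c'‖ < 1) (H : TD h G c') :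
    TD h G c := fun l i h1 h2 h3 => H l i h1 h2 (lt_trans3 h3 hcc)

private theorem tc_root (h : GB A B) (hG : GS h.ok G) {c : ℚ_[p]} {j : J} (hj : j ≠ 0)
    (hc : ‖c - rt A B j‖ < 1) : TC h.ok G c := by
  intro l i h1 h2 h3
  refine hG.nn l i j ⟨h1, ?_⟩
  rw [near_iff h l.hd h2, near, if_neg hj]
  exact lt_trans3 h3 hc

private theorem td_root (h : GB A B) (hG : GS h.ok G) {c : ℚ_[p]} {j : J} (hj : j ≠ 0)
    (hc : ‖c - rt A B j‖ < 1) : TD h.ok G c := by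
  intro l i h1 h2 h3
  refine hG.nn l j i ⟨?_, h1⟩
  rw [near_iff h l.hd h2, near, if_neg hj]
  exact lt_trans3 h3 hc

/-- translation -/
private theorem tc_shift (h : GB A B) (hG : GS h.ok G) {c : ℚ_[p]} (hc : ‖c‖ ≤ 1)
    (H : TC h.ok G (c + (A - 2 * B) * B / A)) : TC h.ok G c := by
  have hA := h.ok.hA
  have hAB := h.ok.sub_ne
  have nl : ‖A / (A - B)‖ ≤ 1 := by rw [norm_div, h.nA, h.nAB]; norm_num
  have nl' : ‖(A - B) / A‖ ≤ 1 := by rw [norm_div, h.nA, h.nAB]; norm_num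
  have nA := h.nA.le
  have nB := h.nB.le
  have sA : ∀ c : ℚ_[p], ‖c‖ ≤ 1 → TC h.ok G (A - c) → TC h.ok G c := by
    intro c hc H
    by_cases hcB : ‖c - B‖ = 1
    · exact tc_A h hG hc hcB H
    · exact tc_root h hG (j := (0, 1)) (by decide)
        (by rw [rt_B]; exact lt_of_le_of_ne (le_sub3 hc nB) hcB)
  have sB : ∀ c : ℚ_[p], ‖c‖ ≤ 1 → TC h.ok G (B + A / (A - B) * (c - B)) → TC h.ok G c := by
    intro c hc H
    by_cases hc1 : ‖c‖ = 1
    · by_cases hcA : ‖c - A‖ = 1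
      · exact tc_B h hG hc1 hcA H
      · exact tc_root h hG (j := (1, 0)) (by decide)
          (by rw [rt_A]; exact lt_of_le_of_ne (le_sub3 hc nA) hcA)
    · exact tc_root h hG (j := (1, 1)) (by decide)
          (by rw [rt_0, sub_zero]; exact lt_of_le_of_ne hc hc1)
  have sO : ∀ c : ℚ_[p], ‖c‖ ≤ 1 → TC h.ok G (B + (A - B) / A * (c - B)) → TC h.ok G c := by
    intro c hc H
    by_cases hc1 : ‖c‖ = 1
    · by_cases hcA : ‖c - A‖ = 1
      · exact tc_O h hG hc1 hcA H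
      · exact tc_root h hG (j := (1, 0)) (by decide)
          (by rw [rt_A]; exact lt_of_le_of_ne (le_sub3 hc nA) hcA)
    · exact tc_root h hG (j := (1, 1)) (by decide)
          (by rw [rt_0, sub_zero]; exact lt_of_le_of_ne hc hc1)
  have n1 : ‖B + A / (A - B) * (c - B)‖ ≤ 1 := le_add3 nB (le_mul3 nl (le_sub3 hc nB))
  have n2 : ‖A - (B + A / (A - B) * (c - B))‖ ≤ 1 := le_sub3 nA n1
  have n3 : ‖B + (A - B) / A * (A - (B + A / (A - B) * (c - B)) - B)‖ ≤ 1 :=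
    le_add3 nB (le_mul3 nl' (le_sub3 n2 nB))
  apply sB c hc
  apply sA _ n1
  apply sO _ n2
  apply sA _ n3
  have e : A - (B + (A - B) / A * (A - (B + A / (A - B) * (c - B)) - B)) =
      c + (A - 2 * B) * B / A := by
    field_simp
    ring
  rw [e]
  exact H

private theorem td_shift (h : GB A B) (hG : GS h.ok G) {c : ℚ_[p]} (hc : ‖c‖ ≤ 1)
    (H : TD h.ok G (c + (B - 2 * A) * A / B)) : TD h.ok G c := by
  have hB := h.ok.hB
  have hAB : B - A ≠ 0 := sub_ne_zero.2 h.ok.hAB.symm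
  have nAB : ‖B - A‖ = 1 := by rw [← norm_neg, neg_sub]; exact h.nAB
  have nl : ‖B / (B - A)‖ ≤ 1 := by rw [norm_div, h.nB, nAB]; norm_num
  have nl' : ‖(B - A) / B‖ ≤ 1 := by rw [norm_div, h.nB, nAB]; norm_num
  have nA := h.nA.le
  have nB := h.nB.le
  have sA : ∀ c : ℚ_[p], ‖c‖ ≤ 1 → TD h.ok G (B - c) → TD h.ok G c := by
    intro c hc H
    by_cases hcB : ‖c - A‖ = 1
    · exact td_B h hG hc hcB H
    · exact td_root h hG (j := (1, 0)) (by decide)
        (by rw [rt_A]; exact lt_of_le_of_ne (le_sub3 hc nA) hcB)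
  have sB : ∀ c : ℚ_[p], ‖c‖ ≤ 1 → TD h.ok G (A + B / (B - A) * (c - A)) → TD h.ok G c := by
    intro c hc H
    by_cases hc1 : ‖c‖ = 1
    · by_cases hcA : ‖c - B‖ = 1
      · exact td_A h hG hc1 hcA H
      · exact td_root h hG (j := (0, 1)) (by decide)
          (by rw [rt_B]; exact lt_of_le_of_ne (le_sub3 hc nB) hcA)
    · exact td_root h hG (j := (1, 1)) (by decide)
          (by rw [rt_0, sub_zero]; exact lt_of_le_of_ne hc hc1)
  have sO : ∀ c : ℚ_[p], ‖c‖ ≤ 1 → TD h.ok G (A + (B - A) / B * (c - A)) → TD h.ok G c := by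
    intro c hc H
    by_cases hc1 : ‖c‖ = 1
    · by_cases hcA : ‖c - B‖ = 1
      · exact td_O h hG hc1 hcA H
      · exact td_root h hG (j := (0, 1)) (by decide)
          (by rw [rt_B]; exact lt_of_le_of_ne (le_sub3 hc nB) hcA)
    · exact td_root h hG (j := (1, 1)) (by decide)
          (by rw [rt_0, sub_zero]; exact lt_of_le_of_ne hc hc1)
  have n1 : ‖A + B / (B - A) * (c - A)‖ ≤ 1 := le_add3 nA (le_mul3 nl (le_sub3 hc nA))
  have n2 : ‖B - (A + B / (B - A) * (c - A))‖ ≤ 1 := le_sub3 nB n1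
  have n3 : ‖A + (B - A) / B * (B - (A + B / (B - A) * (c - A)) - A)‖ ≤ 1 :=
    le_add3 nA (le_mul3 nl' (le_sub3 n2 nA))
  apply sB c hc
  apply sA _ n1
  apply sO _ n2
  apply sA _ n3
  have e : B - (A + (B - A) / B * (B - (A + B / (B - A) * (c - A)) - A)) =
      c + (B - 2 * A) * A / B := by
    field_simp
    ring
  rw [e]
  exact H

private theorem shift_iter (T : ℚ_[p] → Prop) (τ : ℚ_[p]) (hτ : ‖τ‖ = 1)
    (hs : ∀ c, ‖c‖ ≤ 1 → T (c + τ) → T c) (h0 : ∀ c, ‖c‖ < 1 → T c) (c : ℚ_[p])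
    (hc : ‖c‖ ≤ 1) : T c := by
  have hτ0 : τ ≠ 0 := by
    rintro rfl
    rw [norm_zero] at hτ
    exact zero_ne_one hτ
  have it : ∀ (k : ℕ) (c : ℚ_[p]), ‖c‖ ≤ 1 → T (c + k * τ) → T c := by
    intro k
    induction k with
    | zero => intro c _ H; simpa using H
    | succ k ih =>
      intro c hc H
      apply hs c hc
      apply ih _ (le_add3 hc hτ.le)
      have e : c + ((k + 1 : ℕ) : ℚ_[p]) * τ = c + τ + k * τ := by push_cast; ring
      rwa [e] at H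
  have hx : ‖-c / τ‖ ≤ 1 := by rw [norm_div, norm_neg, hτ, div_one]; exact hc
  obtain ⟨k, hk⟩ := exists_nat_near hx
  apply it k c hc
  apply h0
  have e : c + k * τ = (k - -c / τ) * τ := by field_simp; ring
  rw [e, norm_mul, hτ, mul_one]
  exact hk

theorem tc_all (h : GB A B) (hG : GS h.ok G) (h2 : ‖A - 2 * B‖ = 1) (l : Loc A B) (i : J)
    (hi : fil 0 (l.Q - torP h.ok (nd_ne l.hd) i)) : G l := by
  by_cases hR : l.R = 0
  · refine hG.nn l i 0 ⟨hi, ?_⟩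
    rw [hR, torP_zero, sub_zero]
    exact fil_zero' 0
  by_cases hc : ‖xc l.R / l.d‖ ≤ 1
  · have H : TC h.ok G (xc l.R / l.d) := by
      refine shift_iter (fun c => TC h.ok G c) ((A - 2 * B) * B / A) ?_
        (fun c hc H => tc_shift h hG hc H) ?_ _ hc
      · rw [norm_div, norm_mul, h2, h.nB, h.nA]; norm_num
      · intro c hc
        exact tc_root h hG (j := (1, 1)) (by decide) (by rw [rt_0, sub_zero]; exact hc)
    exact H l i hi hR (by rw [sub_self, norm_zero]; exact one_pos)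
  · refine hG.nn l i 0 ⟨hi, ?_⟩
    rw [near_iff h l.hd hR, near, if_pos rfl]
    exact not_le.1 hc

theorem td_all (h : GB A B) (hG : GS h.ok G) (h2 : ‖B - 2 * A‖ = 1) (l : Loc A B) (j : J)
    (hj : fil 0 (l.R - torP h.ok (nd_ne l.hd) j)) : G l := by
  by_cases hR : l.Q = 0
  · refine hG.nn l 0 j ⟨?_, hj⟩
    rw [hR, torP_zero, sub_zero]
    exact fil_zero' 0
  by_cases hc : ‖xc l.Q / l.d‖ ≤ 1
  · have H : TD h.ok G (xc l.Q / l.d) := by
      refine shift_iter (fun c => TD h.ok G c) ((B - 2 * A) * A / B) ?_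
        (fun c hc H => td_shift h hG hc H) ?_ _ hc
      · rw [norm_div, norm_mul, h2, h.nB, h.nA]; norm_num
      · intro c hc
        exact td_root h hG (j := (1, 1)) (by decide) (by rw [rt_0, sub_zero]; exact hc)
    exact H l j hj hR (by rw [sub_self, norm_zero]; exact one_pos)
  · refine hG.nn l 0 j ⟨?_, hj⟩
    rw [near_iff h l.hd hR, near, if_pos rfl]
    exact not_le.1 hc

end Pool.Agent.Helper1.FT
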