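import Pool.Agent.Helper1.FT.MClo
import Pool.Agent.Helper1.FT.Plc
import Pool.Agent.Helper1.FT.FI

/-!
# FT: module PlcP (the p-adic places)
-/

namespace Pool.Agent.Helper1.FT

open Pool.Agent.Helper10.K3 WeierstrassCurve.Affine Classical Topology

variable {p : ℕ} [hp : Fact p.Prime] {A B d : ℚ_[p]}

/-- square roots close to one -/
private theorem PlcP_sqrt_close (h2 : p ≠ 2) {r : ℚ_[p]} (h : ‖r - 1‖ < 1) :
    ∃ w : ℚ_[p], w ^ 2 = r ∧ ‖w - 1‖ ≤ ‖r - 1‖ ∧ ‖w‖ = 1 := by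
  have hr : IsSquare r := KumWA.isSquare_of_close h2 (by simpa using h) IsSquare.one
  obtain ⟨w, hw⟩ := hr
  have hr1 : ‖r‖ = 1 := by
    have : ‖r - 1‖ < ‖(1 : ℚ_[p])‖ := by simpa using h
    rw [KumWA.neq_of_sub_lt this, norm_one]
  have hw1 : ‖w‖ = 1 := by
    rw [hw, norm_mul] at hr1
    nlinarith [norm_nonneg w]
  have hprod : ‖w - 1‖ * ‖w + 1‖ = ‖r - 1‖ := by
    rw [← norm_mul, hw]; congr 1; ring
  have hm : ‖w - 1‖ ≤ 1 := KumWA.nsub_le hw1.le (by simp)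
  have hp' : ‖w + 1‖ ≤ 1 := KumWA.nadd_le hw1.le (by simp)
  by_cases h1 : ‖w + 1‖ = 1
  · refine ⟨w, by rw [hw, sq], ?_, hw1⟩
    rw [h1, mul_one] at hprod
    exact hprod.le
  · have h3 : ‖w + 1‖ < 1 := lt_of_le_of_ne hp' h1
    have h4 : ‖w - 1‖ = 1 := by
      have e : w - 1 = -(2 - (w + 1)) := by ring
      rw [e, norm_neg, KumWA.nsub_eq (by rw [KumWA.norm_two h2]; exact h3), KumWA.norm_two h2]
    refine ⟨-w, by rw [hw]; ring, ?_, by rw [norm_neg, hw1]⟩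
    rw [h4, one_mul] at hprod
    have e : -w - 1 = -(w + 1) := by ring
    rw [e, norm_neg]
    exact hprod.le

private theorem PlcP_continuous_x : Continuous (fun u : Pt A B => u.x) :=
  continuous_fst.comp continuous_subtype_val

private theorem PlcP_continuous_y : Continuous (fun u : Pt A B => u.y) :=
  (continuous_fst.comp continuous_snd).comp continuous_subtype_val

private theorem PlcP_continuous_z : Continuous (fun u : Pt A B => u.z) :=
  (continuous_snd.comp continuous_snd).comp continuous_subtype_val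

private theorem PlcP_continuous_ff : Continuous (ff A B) := by
  unfold ff
  fun_prop

/-- neighbourhoods in `Pt` -/
private theorem PlcP_nhds {v : Pt A B} {U : Set (Pt A B)} (hU : U ∈ 𝓝 v) :
    ∃ ε : ℝ, 0 < ε ∧ ∀ u : Pt A B, ‖u.x - v.x‖ < ε → ‖u.y - v.y‖ < ε → ‖u.z - v.z‖ < ε →
      u ∈ U := by
  obtain ⟨V, hV, hVU⟩ := mem_nhds_subtype _ _ _ |>.1 hU
  obtain ⟨ε, hε, hball⟩ := Metric.mem_nhds_iff.1 hV
  refine ⟨ε, hε, fun u h1 h2 h3 => hVU ?_⟩
  apply hball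
  rw [Metric.mem_ball, Prod.dist_eq, Prod.dist_eq, max_lt_iff, max_lt_iff, dist_eq_norm,
    dist_eq_norm, dist_eq_norm]
  exact ⟨h1, h2, h3⟩

theorem loc_f1 (h : GB A B) {v : Pt A B} (hd : nd d) {P Q : E A B d} (hr : Rep v d P Q)
    {U : Set (Pt A B)} (hU : U ∈ 𝓝 v) : ∃ n : ℕ, ∀ P' Q' : E A B d, fil n (P' - P) →
      fil n (Q' - Q) → yc P' ≠ 0 ∧ yc Q' ≠ 0 ∧ ∀ u : Pt A B, Rep u d P' Q' → u ∈ U := by
  obtain ⟨hd0, hP, hQ, hx, hy, hz⟩ := id hr
  obtain ⟨hyP, hyQ⟩ := hr.yc_ne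
  obtain ⟨ε, hε, H⟩ := PlcP_nhds hU
  have hdn : 0 < ‖d‖ := norm_pos_iff.2 hd0
  have hyPn : 0 < ‖yc P‖ := norm_pos_iff.2 hyP
  have hyQn : 0 < ‖yc Q‖ := norm_pos_iff.2 hyQ
  set M : ℝ := max ‖yc P‖ ‖yc Q‖ with hM
  have hMpos : 0 < M := lt_max_of_lt_left hyPn
  set η : ℝ := min (min (ε * ‖d‖) (ε * ‖d‖ ^ 3 / M)) (min ‖yc P‖ ‖yc Q‖) with hη
  have hηpos : 0 < η := by
    apply lt_min
    · apply lt_min <;> positivity
    · exact lt_min hyPn hyQn
  obtain ⟨n₁, H1⟩ := close_of_fil h hd hP hηpos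
  obtain ⟨n₂, H2⟩ := close_of_fil h hd hQ hηpos
  refine ⟨max n₁ n₂, ?_⟩
  intro P' Q' hP' hQ'
  obtain ⟨a1, a2, a3⟩ := H1 P' (fil_mono (le_max_left _ _) hP')
  obtain ⟨b1, b2, b3⟩ := H2 Q' (fil_mono (le_max_right _ _) hQ')
  have η1 : η ≤ ε * ‖d‖ := (min_le_left _ _).trans (min_le_left _ _)
  have η2 : η ≤ ε * ‖d‖ ^ 3 / M := (min_le_left _ _).trans (min_le_right _ _)
  have η3 : η ≤ ‖yc P‖ := (min_le_right _ _).trans (min_le_left _ _)
  have η4 : η ≤ ‖yc Q‖ := (min_le_right _ _).trans (min_le_right _ _)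
  have hA' := KumWA.neq_of_sub_lt (lt_of_lt_of_le a3 η3)
  have hB' := KumWA.neq_of_sub_lt (lt_of_lt_of_le b3 η4)
  refine ⟨?_, ?_, ?_⟩
  · rw [← norm_pos_iff, hA']; exact hyPn
  · rw [← norm_pos_iff, hB']; exact hyQn
  intro u hu
  obtain ⟨-, -, -, ux, uy, uz⟩ := hu
  apply H
  · have e : u.x - v.x = (xc P' - xc P) / d := by
      rw [← ux, ← hx]; field_simp
    rw [e, norm_div, div_lt_iff₀ hdn]
    exact lt_of_lt_of_le a2 η1
  · have e : u.y - v.y = (xc Q' - xc Q) / d := by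
      rw [← uy, ← hy]; field_simp
    rw [e, norm_div, div_lt_iff₀ hdn]
    exact lt_of_lt_of_le b2 η1
  · have e : u.z - v.z = ((yc P' - yc P) * yc Q' + yc P * (yc Q' - yc Q)) / d ^ 3 := by
      have : (yc P' - yc P) * yc Q' + yc P * (yc Q' - yc Q) = yc P' * yc Q' - yc P * yc Q := by
        ring
      rw [this, ← uz, ← hz]; field_simp
    rw [e, norm_div, norm_pow, div_lt_iff₀ (by positivity)]
    have hηM : η * M ≤ ε * ‖d‖ ^ 3 := by rwa [le_div_iff₀ hMpos] at η2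
    apply KumWA.nadd_lt
    · rw [norm_mul, hB']
      calc ‖yc P' - yc P‖ * ‖yc Q‖ < η * ‖yc Q‖ := by gcongr
        _ ≤ η * M := by gcongr; exact le_max_right _ _
        _ ≤ _ := hηM
    · rw [norm_mul, mul_comm]
      calc ‖yc Q' - yc Q‖ * ‖yc P‖ < η * ‖yc P‖ := by gcongr
        _ ≤ η * M := by gcongr; exact le_max_left _ _
        _ ≤ _ := hηM

theorem loc_f2 (h : GB A B) {v : Pt A B} (hd : nd d) {P Q : E A B d} (hr : Rep v d P Q) (n : ℕ) :
    ∀ᶠ u : Pt A B in 𝓝 v, ∃ c : ℚ_[p], c ≠ 0 ∧ ff A B u.x = d * c ^ 2 ∧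
      ∀ P' Q' : E A B d, P' ≠ 0 → Q' ≠ 0 → xc P' = d * u.x → yc P' = d ^ 2 * c →
        xc Q' = d * u.y → yc Q' = d * u.z / c → fil n (P' - P) ∧ fil n (Q' - Q) := by
  have h2 : p ≠ 2 := h.ne_two
  obtain ⟨hd0, hP, hQ, hx, hy, hz⟩ := id hr
  obtain ⟨hyP, hyQ⟩ := hr.yc_ne
  obtain ⟨ε₁, hε₁, H1⟩ := fil_of_close h hd hP hyP n
  obtain ⟨ε₂, hε₂, H2⟩ := fil_of_close h hd hQ hyQ n
  have hfx := hr.ffx
  have hfv : ff A B v.x ≠ 0 := v.hfx
  -- small quantities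
  have c1 : Continuous (fun u : Pt A B => ‖ff A B u.x / ff A B v.x - 1‖) := by
    have := (PlcP_continuous_ff (A := A) (B := B)).comp (PlcP_continuous_x (A := A) (B := B))
    exact ((this.div_const _).sub continuous_const).norm
  have c2 : Continuous (fun u : Pt A B => ‖d * u.x - xc P‖) :=
    ((continuous_const.mul PlcP_continuous_x).sub continuous_const).norm
  have c3 : Continuous (fun u : Pt A B => ‖d * u.y - xc Q‖) :=
    ((continuous_const.mul PlcP_continuous_y).sub continuous_const).norm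
  have c4 : Continuous (fun u : Pt A B => ‖d ^ 3 / yc P‖ * ‖u.z - v.z‖) :=
    continuous_const.mul (PlcP_continuous_z.sub continuous_const).norm
  have z1 : ‖ff A B v.x / ff A B v.x - 1‖ = 0 := by rw [div_self hfv]; simp
  have z2 : ‖d * v.x - xc P‖ = 0 := by rw [← hx]; simp [mul_comm]
  have z3 : ‖d * v.y - xc Q‖ = 0 := by rw [← hy]; simp [mul_comm]
  have z4 : ‖d ^ 3 / yc P‖ * ‖v.z - v.z‖ = 0 := by simp
  have e0 : ∀ᶠ u : Pt A B in 𝓝 v, ‖ff A B u.x / ff A B v.x - 1‖ < 1 :=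
    c1.continuousAt.eventually_lt continuousAt_const (by rw [z1]; exact one_pos)
  have hyPn : 0 < ‖yc P‖ := norm_pos_iff.2 hyP
  have e1 : ∀ᶠ u : Pt A B in 𝓝 v, ‖ff A B u.x / ff A B v.x - 1‖ < ε₁ / ‖yc P‖ :=
    c1.continuousAt.eventually_lt continuousAt_const (by rw [z1]; positivity)
  have e2 : ∀ᶠ u : Pt A B in 𝓝 v, ‖d * u.x - xc P‖ < ε₁ :=
    c2.continuousAt.eventually_lt continuousAt_const (by rw [z2]; exact hε₁)
  have e3 : ∀ᶠ u : Pt A B in 𝓝 v, ‖d * u.y - xc Q‖ < ε₂ :=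
    c3.continuousAt.eventually_lt continuousAt_const (by rw [z3]; exact hε₂)
  have e4 : ∀ᶠ u : Pt A B in 𝓝 v, ‖d ^ 3 / yc P‖ * ‖u.z - v.z‖ < ε₂ :=
    c4.continuousAt.eventually_lt continuousAt_const (by rw [z4]; exact hε₂)
  have hvz : 0 < ‖d ^ 3 / yc P * v.z‖ :=
    norm_pos_iff.2 (mul_ne_zero (div_ne_zero (pow_ne_zero _ hd0) hyP) v.hz)
  have e5 : ∀ᶠ u : Pt A B in 𝓝 v,
      ‖ff A B u.x / ff A B v.x - 1‖ < ε₂ / ‖d ^ 3 / yc P * v.z‖ :=
    c1.continuousAt.eventually_lt continuousAt_const (by rw [z1]; positivity)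
  filter_upwards [e0, e1, e2, e3, e4, e5] with u h0 h1 h2' h3 h4 h5
  obtain ⟨w, hw, hw1, hwn⟩ := PlcP_sqrt_close h2 h0
  have hw0 : w ≠ 0 := by rintro rfl; simp at hwn
  refine ⟨w * yc P / d ^ 2, ?_, ?_, ?_⟩
  · exact div_ne_zero (mul_ne_zero hw0 hyP) (pow_ne_zero _ hd0)
  · have : ff A B u.x = w ^ 2 * ff A B v.x := by rw [hw]; field_simp
    rw [this]
    have h6 : ff A B v.x = yc P ^ 2 / d ^ 3 := by
      rw [eq_div_iff (pow_ne_zero _ hd0)]; linear_combination hfx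
    rw [h6]; field_simp
  · intro P' Q' hA hB xA yA xB yB
    constructor
    · apply H1 P' hA
      · rw [xA]; exact h2'
      · rw [yA]
        have e : d ^ 2 * (w * yc P / d ^ 2) - yc P = (w - 1) * yc P := by field_simp
        rw [e, norm_mul]
        calc ‖w - 1‖ * ‖yc P‖ ≤ ‖ff A B u.x / ff A B v.x - 1‖ * ‖yc P‖ := by gcongr
          _ < ε₁ := by rwa [lt_div_iff₀ hyPn] at h1
    · apply H2 Q' hB
      · rw [xB]; exact h3
      · rw [yB]
        have hQz : yc Q = d ^ 3 / yc P * v.z := by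
          field_simp; linear_combination -hz
        have e : d * u.z / (w * yc P / d ^ 2) - yc Q =
            (1 / w) * (d ^ 3 / yc P * (u.z - v.z)) - ((w - 1) / w) * (d ^ 3 / yc P * v.z) := by
          rw [hQz]; field_simp; ring
        rw [e]
        apply KumWA.nsub_lt
        · rw [norm_mul, norm_div, hwn, norm_one, div_one, one_mul, norm_mul]
          exact h4
        · rw [norm_mul, norm_div, hwn, div_one]
          calc ‖w - 1‖ * ‖d ^ 3 / yc P * v.z‖ ≤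
                ‖ff A B u.x / ff A B v.x - 1‖ * ‖d ^ 3 / yc P * v.z‖ := by
                gcongr
            _ < ε₂ := by rwa [lt_div_iff₀ hvz] at h5

end Pool.Agent.Helper1.FT
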