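import Pool.Agent.Helper1.FT.RDefs

/-!
# FT: module RA (continuity of the addition)
-/

namespace Pool.Agent.Helper1.FT

open Pool.Agent.Helper10.K3 WeierstrassCurve.Affine Classical Topology

section RAgen

variable {K : Type*} [Field K] {A B d : K}

theorem ra_curve (P : E A B d) : yc P ^ 2 = xc P ^ 3 + (-(A + B) * d) * xc P ^ 2
    + (A * B * d ^ 2) * xc P := by
  rw [curve_eq]; ring

theorem ra_neg_ne {P : E A B d} (hP : P ≠ 0) : -P ≠ 0 := by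
  intro h0
  apply hP
  cases P with
  | zero => rfl
  | some x y h' => exact absurd h0 (Point.some_ne_zero _)

variable [DecidableEq K]

theorem ra_xc_add {P Q : E A B d} (hP : P ≠ 0) (hQ : Q ≠ 0) (hx : xc P ≠ xc Q) :
    P + Q ≠ 0 ∧ xc (P + Q) * (xc P - xc Q) ^ 2 =
      (xc P * xc Q + A * B * d ^ 2) * (xc P + xc Q) + 2 * (-(A + B) * d) * (xc P * xc Q)
        - 2 * yc P * yc Q ∧
      yc (P + Q) * (xc P - xc Q) = -((yc P - yc Q) * (xc (P + Q) - xc P)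
        + yc P * (xc P - xc Q)) := by
  cases P with
  | zero => exact absurd rfl hP
  | some x y h1 =>
    cases Q with
    | zero => exact absurd rfl hQ
    | some x' y' h2 =>
      have hne : x ≠ x' := hx
      obtain ⟨X₃, Y₃, h₃, e1, e2, e3⟩ := tw_add_X_ne h1 h2 hne
      have q1 := ra_curve (Point.some x y h1 : E A B d)
      have q2 := ra_curve (Point.some x' y' h2 : E A B d)
      change y ^ 2 = x ^ 3 + (-(A + B) * d) * x ^ 2 + (A * B * d ^ 2) * x at q1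
      change y' ^ 2 = x' ^ 3 + (-(A + B) * d) * x' ^ 2 + (A * B * d ^ 2) * x' at q2
      rw [e1]
      refine ⟨Point.some_ne_zero _, ?_, ?_⟩
      · change X₃ * (x - x') ^ 2 = (x * x' + A * B * d ^ 2) * (x + x')
          + 2 * (-(A + B) * d) * (x * x') - 2 * y * y'
        linear_combination e2 + q1 + q2
      · change Y₃ * (x - x') = -((y - y') * (X₃ - x) + y * (x - x'))
        exact e3

theorem ra_xc_sub {P Q : E A B d} (hP : P ≠ 0) (hQ : Q ≠ 0) (hx : xc P ≠ xc Q) :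
    P - Q ≠ 0 ∧ xc (P - Q) * (xc P - xc Q) ^ 2 =
      (xc P * xc Q + A * B * d ^ 2) * (xc P + xc Q) + 2 * (-(A + B) * d) * (xc P * xc Q)
        + 2 * yc P * yc Q := by
  have h := ra_xc_add hP (ra_neg_ne hQ) (by rwa [xc_neg])
  rw [xc_neg, yc_neg] at h
  refine ⟨by rw [sub_eq_add_neg]; exact h.1, ?_⟩
  rw [sub_eq_add_neg, h.2.1]
  ring

theorem ra_add_sub {P Q : E A B d} (hP : P ≠ 0) (hQ : Q ≠ 0) (hx : xc P ≠ xc Q) :
    xc (P + Q) * xc (P - Q) * (xc P - xc Q) ^ 2 = (xc P * xc Q - A * B * d ^ 2) ^ 2 := by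
  have h1 := (ra_xc_add hP hQ hx).2.1
  have h2 := (ra_xc_sub hP hQ hx).2
  have e := ra_curve P
  have e' := ra_curve Q
  have hd : (xc P - xc Q) ^ 2 ≠ 0 := pow_ne_zero _ (sub_ne_zero.2 hx)
  apply mul_right_cancel₀ hd
  have : xc (P + Q) * xc (P - Q) * (xc P - xc Q) ^ 2 * (xc P - xc Q) ^ 2 =
    (xc (P + Q) * (xc P - xc Q) ^ 2) * (xc (P - Q) * (xc P - xc Q) ^ 2) := by ring
  rw [this, h1, h2]
  linear_combination (-4 * yc Q ^ 2) * e + (-4 * (xc P ^ 3 + (-(A + B) * d) * xc P ^ 2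
    + (A * B * d ^ 2) * xc P)) * e'

theorem ra_double {P : E A B d} (hP : P ≠ 0) (hy : 2 * yc P ≠ 0) :
    P + P ≠ 0 ∧ xc (P + P) * (2 * yc P) ^ 2 = (xc P ^ 2 - A * B * d ^ 2) ^ 2 := by
  cases P with
  | zero => exact absurd rfl hP
  | some x y h1 =>
    have hne : 2 * y ≠ 0 := hy
    obtain ⟨X₃, Y₃, h₃, e1, e2, e3⟩ := tw_dbl h1 hne
    rw [e1]
    exact ⟨Point.some_ne_zero _, e2⟩

end RAgen

variable {A B d : ℝ}

theorem far_add (h : Ok A B) (hd : d ≠ 0) (R : ℝ) :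
    ∃ R' : ℝ, R ≤ R' ∧ ∀ P Q : E A B d, Far R' P → Far R' Q → Far R (P + Q) := by
  obtain ⟨α, hα⟩ : ∃ α : ℝ, α = -(A + B) * d := ⟨_, rfl⟩
  obtain ⟨β, hβ⟩ : ∃ β : ℝ, β = A * B * d ^ 2 := ⟨_, rfl⟩
  have nα : 0 ≤ |α| := abs_nonneg α
  have nβ : 0 ≤ |β| := abs_nonneg β
  have nR : 0 ≤ |R| := abs_nonneg R
  have nR' : R ≤ |R| := le_abs_self R
  refine ⟨32 * |R| + 32 * |α| + 32 * |β| + 1, by linarith, fun P Q hP hQ => ?_⟩
  have hle : R ≤ 32 * |R| + 32 * |α| + 32 * |β| + 1 := by linarith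
  by_cases hP0 : P = 0
  · rw [hP0, zero_add]; exact hQ.mono hle
  by_cases hQ0 : Q = 0
  · rw [hQ0, add_zero]; exact hP.mono hle
  by_cases hPQ : P + Q = 0
  · left; exact hPQ
  have hP' := hP.resolve_left hP0
  have hQ' := hQ.resolve_left hQ0
  right
  by_cases hx : xc P = xc Q
  · -- doubling
    have hPQ' : P = Q := by
      rcases (xc_eq_iff hP0 hQ0).1 hx with h | h
      · exact h
      · exfalso; apply hPQ; rw [h]; exact neg_add_cancel Q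
    rw [← hPQ'] at hPQ ⊢
    have hy : yc P ≠ 0 := fun h => hPQ (add_self_of_yc h)
    obtain ⟨-, h1⟩ := ra_double hP0 (mul_ne_zero two_ne_zero hy)
    have e := ra_curve P
    rw [← hα, ← hβ] at e
    rw [← hβ] at h1
    obtain ⟨a, ha⟩ : ∃ a : ℝ, a = xc P := ⟨_, rfl⟩
    obtain ⟨y, hyy⟩ : ∃ y : ℝ, y = yc P := ⟨_, rfl⟩
    obtain ⟨s, hs⟩ : ∃ s : ℝ, s = xc (P + P) := ⟨_, rfl⟩
    rw [← hs, ← hyy, ← ha] at h1
    rw [← ha] at hP'
    rw [← hyy, ← ha] at e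
    rw [← hs]
    have A1 : 1 ≤ |a| := by linarith
    have hn : |s * (2 * y) ^ 2| = |(a ^ 2 - β) ^ 2| := by rw [h1]
    have A2 : |a| ≤ |a| ^ 2 := by nlinarith
    have A3 : |a| ^ 2 ≤ |a| ^ 3 := by nlinarith [sq_nonneg |a|]
    have f1 : |s * (2 * y) ^ 2| ≤ |s| * (4 * (2 * |a| ^ 3)) := by
      have e4 : s * (2 * y) ^ 2 = s * (4 * y ^ 2) := by ring
      rw [e4, abs_mul, abs_mul]
      have h4 : |(4 : ℝ)| = 4 := by norm_num
      have hy2 : |y ^ 2| ≤ 2 * |a| ^ 3 := by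
        rw [e]
        refine (abs_add_le _ _).trans ?_
        have i1 := abs_add_le (a ^ 3) (α * a ^ 2)
        rw [abs_mul, abs_pow, abs_pow] at i1
        rw [abs_mul β a]
        have i5 : |α| ≤ 1 / 32 * |a| := by linarith
        have i5' : |β| ≤ 1 / 32 * |a| := by linarith
        have i6 : |α| * |a| ^ 2 ≤ (1 / 32 * |a|) * |a| ^ 2 := by gcongr
        have i7 : |β| * |a| ≤ (1 / 32 * |a|) * |a| := by gcongr
        nlinarith
      rw [h4]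
      gcongr
    have f2 : (3 / 4 * |a| ^ 2) ^ 2 ≤ |(a ^ 2 - β) ^ 2| := by
      rw [abs_pow]
      apply pow_le_pow_left₀ (by positivity)
      have h3 : |a ^ 2| - |β| ≤ |a ^ 2 - β| := abs_sub_abs_le_abs_sub _ _
      rw [abs_pow] at h3
      linarith
    rw [hn] at f1
    have f3 : (3 / 4 * |a| ^ 2) ^ 2 ≤ |s| * (4 * (2 * |a| ^ 3)) := f2.trans f1
    have ha3 : 0 < |a| ^ 3 := by positivity
    have f4 : 9 / 16 * |a| ≤ 8 * |s| := by
      have : (9 / 16 * |a|) * |a| ^ 3 ≤ (8 * |s|) * |a| ^ 3 := by nlinarith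
      exact le_of_mul_le_mul_right this ha3
    linarith
  · -- chord
    obtain ⟨-, h1, -⟩ := ra_xc_add hP0 hQ0 hx
    obtain ⟨-, h2⟩ := ra_xc_sub hP0 hQ0 hx
    have h3 := ra_add_sub hP0 hQ0 hx
    rw [← hα, ← hβ] at h1 h2
    rw [← hβ] at h3
    obtain ⟨a, ha⟩ : ∃ a : ℝ, a = xc P := ⟨_, rfl⟩
    obtain ⟨b, hb⟩ : ∃ b : ℝ, b = xc Q := ⟨_, rfl⟩
    obtain ⟨s, hs⟩ : ∃ s : ℝ, s = xc (P + Q) := ⟨_, rfl⟩
    obtain ⟨t, ht⟩ : ∃ t : ℝ, t = xc (P - Q) := ⟨_, rfl⟩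
    rw [← hs, ← ha, ← hb] at h1
    rw [← ht, ← ha, ← hb] at h2
    rw [← hs, ← ht, ← ha, ← hb] at h3
    rw [← ha] at hP'
    rw [← hb] at hQ'
    rw [← hs]
    by_contra hlt
    rw [not_le] at hlt
    have hR0 : 0 < R := lt_of_le_of_lt (abs_nonneg s) hlt
    rw [abs_of_pos hR0] at hP' hQ'
    have key : s * (2 * (a * b + β) * (a + b) + 4 * α * (a * b) - s * (a - b) ^ 2) =
        (a * b - β) ^ 2 := by
      have h12 : t * (a - b) ^ 2 = 2 * (a * b + β) * (a + b) + 4 * α * (a * b)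
          - s * (a - b) ^ 2 := by
        linear_combination h1 + h2
      rw [← h12, ← h3]; ring
    have hn : |s * (2 * (a * b + β) * (a + b) + 4 * α * (a * b) - s * (a - b) ^ 2)| =
        |(a * b - β) ^ 2| := by rw [key]
    have A1 : 1 ≤ |a| := by linarith
    have B1 : 1 ≤ |b| := by linarith
    have hab0 : 0 < |a| * |b| := by positivity
    have hβ2 : 32 * |β| ≤ |a| * |b| := by
      have h5 : 32 * |β| ≤ |a| := by linarith
      nlinarith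
    have i2 : |(2 : ℝ)| = 2 := by norm_num
    have i4 : |(4 : ℝ)| = 4 := by norm_num
    have g1 : (3 / 4 * (|a| * |b|)) ^ 2 ≤ |(a * b - β) ^ 2| := by
      rw [abs_pow]
      apply pow_le_pow_left₀ (by positivity)
      have h3 : |a * b| - |β| ≤ |a * b - β| := abs_sub_abs_le_abs_sub _ _
      rw [abs_mul] at h3
      linarith
    have g2 : |s * (2 * (a * b + β) * (a + b) + 4 * α * (a * b) - s * (a - b) ^ 2)| ≤
        R * (2 * (5 / 4 * (|a| * |b|)) * (|a| + |b|) + 1 / 4 * (|a| * |b|) * (|a| + |b|)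
          + R * (|a| + |b|) ^ 2) := by
      rw [abs_mul]
      have k1 : |2 * (a * b + β) * (a + b)| ≤
          2 * (5 / 4 * (|a| * |b|)) * (|a| + |b|) := by
        rw [abs_mul, abs_mul, i2]
        have h5 : |a * b + β| ≤ 5 / 4 * (|a| * |b|) := by
          refine (abs_add_le _ _).trans ?_
          rw [abs_mul]
          linarith
        have h6 := abs_add_le a b
        gcongr
      have k0 : |4 * α * (a * b)| ≤ 1 / 4 * (|a| * |b|) * (|a| + |b|) := by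
        rw [abs_mul, abs_mul, abs_mul, i4]
        have h5 : 4 * |α| ≤ 1 / 4 * (|a| + |b|) := by linarith
        have := mul_le_mul_of_nonneg_right h5 hab0.le
        linarith
      have k2 : |s * (a - b) ^ 2| ≤ R * (|a| + |b|) ^ 2 := by
        rw [abs_mul, abs_pow]
        have h6 := abs_sub a b
        gcongr
      have k3 := abs_sub (2 * (a * b + β) * (a + b) + 4 * α * (a * b)) (s * (a - b) ^ 2)
      have k3' := abs_add_le (2 * (a * b + β) * (a + b)) (4 * α * (a * b))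
      have k4 : |2 * (a * b + β) * (a + b) + 4 * α * (a * b) - s * (a - b) ^ 2| ≤
        2 * (5 / 4 * (|a| * |b|)) * (|a| + |b|) + 1 / 4 * (|a| * |b|) * (|a| + |b|)
          + R * (|a| + |b|) ^ 2 := by linarith
      gcongr
    rw [hn] at g2
    have g3 := g1.trans g2
    have r1 : 32 * R ≤ |a| := by linarith
    have r2 : 32 * R ≤ |b| := by linarith
    have g4 : R * (|a| + |b|) ≤ 1 / 16 * (|a| * |b|) := by nlinarith
    have g5 : (R * (|a| + |b|)) ^ 2 ≤ (1 / 16 * (|a| * |b|)) ^ 2 :=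
      pow_le_pow_left₀ (by positivity) g4 2
    have g6 : 0 < (|a| * |b|) ^ 2 := by positivity
    have g7 : (|a| * |b|) * (R * (|a| + |b|)) ≤ (|a| * |b|) * (1 / 16 * (|a| * |b|)) := by
      gcongr
    nlinarith

theorem ra_inv {R : ℝ} (hR : 0 < R) {F : E A B d} (hF : Far R F) (hF0 : F ≠ 0) :
    xc F ≠ 0 ∧ |(xc F)⁻¹| ≤ R⁻¹ ∧
      |yc F / xc F ^ 2| ^ 2 ≤ R⁻¹ + |-(A + B) * d| * R⁻¹ ^ 2 + |A * B * d ^ 2| * R⁻¹ ^ 3 := by
  have h := hF.resolve_left hF0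
  have hX : 0 < |xc F| := lt_of_lt_of_le hR h
  have hX0 : xc F ≠ 0 := abs_pos.1 hX
  have hu : |(xc F)⁻¹| ≤ R⁻¹ := by rw [abs_inv]; gcongr
  refine ⟨hX0, hu, ?_⟩
  have e := ra_curve F
  obtain ⟨α, hα⟩ : ∃ α : ℝ, α = -(A + B) * d := ⟨_, rfl⟩
  obtain ⟨β, hβ⟩ : ∃ β : ℝ, β = A * B * d ^ 2 := ⟨_, rfl⟩
  rw [← hα, ← hβ] at e ⊢
  have e1 : (yc F / xc F ^ 2) ^ 2 = (xc F)⁻¹ + α * (xc F)⁻¹ ^ 2 + β * (xc F)⁻¹ ^ 3 := by
    field_simp
    linear_combination e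
  rw [← abs_pow, e1]
  refine (abs_add_le _ _).trans ?_
  have h1 := abs_add_le (xc F)⁻¹ (α * (xc F)⁻¹ ^ 2)
  have h2 : |α * (xc F)⁻¹ ^ 2| = |α| * |(xc F)⁻¹| ^ 2 := by
    rw [abs_mul, abs_pow]
  have h3 : |β * (xc F)⁻¹ ^ 3| = |β| * |(xc F)⁻¹| ^ 3 := by
    rw [abs_mul, abs_pow]
  rw [h3]
  rw [h2] at h1
  have h4 : |α| * |(xc F)⁻¹| ^ 2 ≤ |α| * R⁻¹ ^ 2 := by gcongr
  have h5 : |β| * |(xc F)⁻¹| ^ 3 ≤ |β| * R⁻¹ ^ 3 := by gcongr
  linarith

theorem close_of_far (h : Ok A B) (hd : d ≠ 0) {P : E A B d} (hP : P ≠ 0) {ε : ℝ} (hε : 0 < ε) :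
    ∃ R : ℝ, ∀ F : E A B d, Far R F →
      P + F ≠ 0 ∧ |xc (P + F) - xc P| < ε ∧ |yc (P + F) - yc P| < ε := by
  obtain ⟨α, hα⟩ : ∃ α : ℝ, α = -(A + B) * d := ⟨_, rfl⟩
  obtain ⟨β, hβ⟩ : ∃ β : ℝ, β = A * B * d ^ 2 := ⟨_, rfl⟩
  obtain ⟨x, hx⟩ : ∃ x : ℝ, x = xc P := ⟨_, rfl⟩
  obtain ⟨y, hy⟩ : ∃ y : ℝ, y = yc P := ⟨_, rfl⟩
  rw [← hx, ← hy]
  -- the coordinates of `P + F` as functions of `u = 1 / X`, `w = Y / X ^ 2`
  let gx : ℝ × ℝ → ℝ := fun q => ((x + β * q.1) * (x * q.1 + 1) + 2 * α * x * q.1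
    - 2 * y * q.2) / (x * q.1 - 1) ^ 2
  let gy : ℝ × ℝ → ℝ := fun q => -y - (y * (3 * x ^ 2 * q.1 ^ 2 + β * x * q.1 ^ 3
    + β * q.1 ^ 2 + 2 * α * x * q.1 ^ 2 - 2 * y * q.2 * q.1 - x ^ 3 * q.1 ^ 3)
    - (3 * x ^ 2 * q.2 + β * x * q.2 * q.1 + β * q.2 + 2 * α * x * q.2
    - 2 * y * (1 + α * q.1 + β * q.1 ^ 2) - x ^ 3 * q.2 * q.1)) /
    (x * q.1 - 1) ^ 3
  have hden : ∀ k : ℕ, (x * ((0, 0) : ℝ × ℝ).1 - 1) ^ k ≠ 0 := fun k => by simp
  have cgx : ContinuousAt gx (0, 0) := by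
    apply ContinuousAt.div
    · fun_prop
    · fun_prop
    · exact hden 2
  have cgy : ContinuousAt gy (0, 0) := by
    apply ContinuousAt.sub continuousAt_const
    apply ContinuousAt.div
    · fun_prop
    · fun_prop
    · exact hden 3
  have vgx : gx (0, 0) = x := by simp [gx]
  have vgy : gy (0, 0) = y := by simp [gy]; ring
  have ev1 : ∀ᶠ q in 𝓝 ((0, 0) : ℝ × ℝ), |gx q - x| < ε := by
    have : ContinuousAt (fun q => |gx q - x|) (0, 0) := (cgx.sub continuousAt_const).abs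
    exact this.eventually_lt continuousAt_const (by simpa [vgx] using hε)
  have ev2 : ∀ᶠ q in 𝓝 ((0, 0) : ℝ × ℝ), |gy q - y| < ε := by
    have : ContinuousAt (fun q => |gy q - y|) (0, 0) := (cgy.sub continuousAt_const).abs
    exact this.eventually_lt continuousAt_const (by simpa [vgy] using hε)
  obtain ⟨δ, hδ, H⟩ := Metric.eventually_nhds_iff.1 (ev1.and ev2)
  -- choose `R`
  obtain ⟨R, hR0, hRx, hR1, hR2⟩ : ∃ R : ℝ, 0 < R ∧ |x| < R ∧ R⁻¹ < δ ∧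
      R⁻¹ + |α| * R⁻¹ ^ 2 + |β| * R⁻¹ ^ 3 < δ ^ 2 := by
    have t1 : Filter.Tendsto (fun R : ℝ => R⁻¹) Filter.atTop (𝓝 0) := tendsto_inv_atTop_zero
    have t2 : Filter.Tendsto (fun R : ℝ => R⁻¹ + |α| * R⁻¹ ^ 2 + |β| * R⁻¹ ^ 3) Filter.atTop
        (𝓝 0) := by
      have := (t1.add ((t1.pow 2).const_mul |α|)).add ((t1.pow 3).const_mul |β|)
      simpa using this
    have a1 := t1.eventually_lt_const hδ
    have a2 := t2.eventually_lt_const (by positivity : (0 : ℝ) < δ ^ 2)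
    obtain ⟨R, h1, h2, h3, h4⟩ := (a1.and (a2.and ((Filter.eventually_gt_atTop 0).and
      (Filter.eventually_gt_atTop |x|)))).exists
    exact ⟨R, h3, h4, h1, h2⟩
  refine ⟨R, fun F hF => ?_⟩
  by_cases hF0 : F = 0
  · rw [hF0, add_zero]
    exact ⟨hP, by simpa [hx] using hε, by simpa [hy] using hε⟩
  obtain ⟨hX0, hu, hw⟩ := ra_inv hR0 hF hF0
  have hXR := hF.resolve_left hF0
  have hne : xc P ≠ xc F := by
    intro h
    rw [← h, ← hx] at hXR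
    exact absurd hXR (not_le.2 hRx)
  obtain ⟨g1, g2, g3⟩ := ra_xc_add hP hF0 hne
  have e := ra_curve F
  rw [← hα, ← hβ] at e hw g2
  obtain ⟨X, hXdef⟩ : ∃ X : ℝ, X = xc F := ⟨_, rfl⟩
  obtain ⟨Y, hYdef⟩ : ∃ Y : ℝ, Y = yc F := ⟨_, rfl⟩
  rw [← hXdef] at hX0 hu
  rw [← hXdef, ← hYdef] at hw e
  rw [← hx, ← hy, ← hXdef, ← hYdef] at g2 g3
  rw [← hx, ← hXdef] at hne
  have hw' : |Y / X ^ 2| < δ := by
    apply lt_of_pow_lt_pow_left₀ 2 hδ.le
    exact lt_of_le_of_lt hw hR2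
  obtain ⟨H1, H2⟩ := H (y := (X⁻¹, Y / X ^ 2)) (by
    rw [Prod.dist_eq, max_lt_iff, Real.dist_eq, Real.dist_eq, sub_zero, sub_zero]
    exact ⟨lt_of_le_of_lt hu hR1, hw'⟩)
  have hxX : x - X ≠ 0 := sub_ne_zero.2 hne
  have hden' : x * X⁻¹ - 1 ≠ 0 := by
    intro h
    apply hxX
    have : (x - X) * X⁻¹ = 0 := by rw [sub_mul, mul_inv_cancel₀ hX0]; exact h
    exact (mul_eq_zero.1 this).resolve_right (inv_ne_zero hX0)
  have ex : xc (P + F) = gx (X⁻¹, Y / X ^ 2) := by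
    have : xc (P + F) = ((x * X + β) * (x + X) + 2 * α * (x * X) - 2 * y * Y) /
        (x - X) ^ 2 := by
      rw [eq_div_iff (pow_ne_zero 2 hxX)]; exact g2
    rw [this]
    simp only [gx]
    rw [div_eq_div_iff (pow_ne_zero 2 hxX) (pow_ne_zero 2 hden')]
    field_simp
    try ring
  have ey : yc (P + F) = gy (X⁻¹, Y / X ^ 2) := by
    have hyd : yc (P + F) = -y - (y - Y) * (3 * x ^ 2 * X + β * x + β * X
        + 2 * α * x * X - 2 * y * Y - x ^ 3) / (x - X) ^ 3 := by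
      have e1 : yc (P + F) = - y - (y - Y) / (x - X) * (xc (P + F) - x) := by
        field_simp
        linear_combination g3
      have e2 : xc (P + F) - x = (3 * x ^ 2 * X + β * x + β * X
        + 2 * α * x * X - 2 * y * Y - x ^ 3) / (x - X) ^ 2 := by
        rw [eq_div_iff (pow_ne_zero 2 hxX)]
        linear_combination g2
      rw [e1, e2]
      field_simp
    rw [hyd]
    simp only [gy]
    congr 1
    rw [div_eq_div_iff (pow_ne_zero 3 hxX) (pow_ne_zero 3 hden')]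
    field_simp
    linear_combination (2 * y) * e
  rw [ex, ey]
  exact ⟨g1, H1, H2⟩

theorem far_of_close (h : Ok A B) (hd : d ≠ 0) {P : E A B d} (hP : P ≠ 0) (hy : yc P ≠ 0)
    (R : ℝ) : ∃ ε : ℝ, 0 < ε ∧ ∀ P' : E A B d, P' ≠ 0 → |xc P' - xc P| < ε →
      |yc P' - yc P| < ε → Far R (P' - P) := by
  obtain ⟨α, hα⟩ : ∃ α : ℝ, α = -(A + B) * d := ⟨_, rfl⟩
  obtain ⟨β, hβ⟩ : ∃ β : ℝ, β = A * B * d ^ 2 := ⟨_, rfl⟩
  obtain ⟨x, hx⟩ : ∃ x : ℝ, x = xc P := ⟨_, rfl⟩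
  obtain ⟨y, hyd⟩ : ∃ y : ℝ, y = yc P := ⟨_, rfl⟩
  let N : ℝ × ℝ → ℝ := fun q => (q.1 * x + β) * (q.1 + x) + 2 * α * (q.1 * x)
    + 2 * q.2 * y
  have cN : Continuous N := by fun_prop
  have e := ra_curve P
  rw [← hx, ← hyd, ← hα, ← hβ] at e
  have hy' : y ≠ 0 := by rwa [hyd]
  have vN : N (x, y) = 2 ^ 2 * y ^ 2 := by
    simp only [N]; linear_combination (-2) * e
  have hNne : 0 < |(2 ^ 2 * y ^ 2 : ℝ)| := by
    rw [abs_pos]
    exact mul_ne_zero (pow_ne_zero _ two_ne_zero) (pow_ne_zero _ hy')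
  have ev1 : ∀ᶠ q in 𝓝 ((x, y) : ℝ × ℝ), |(2 ^ 2 * y ^ 2 : ℝ)| / 2 < |N q| := by
    have : ContinuousAt (fun q => |N q|) (x, y) := cN.abs.continuousAt
    apply continuousAt_const.eventually_lt this
    change |(2 ^ 2 * y ^ 2 : ℝ)| / 2 < |N (x, y)|
    rw [vN]
    exact half_lt_self hNne
  obtain ⟨δ, hδ, H⟩ := Metric.eventually_nhds_iff.1 ev1
  obtain ⟨R', hR'⟩ : ∃ R' : ℝ, R' = max R 1 := ⟨_, rfl⟩
  have hR'1 : 1 ≤ R' := by rw [hR']; exact le_max_right _ _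
  have h2y : 0 < |2 * y| := abs_pos.2 (mul_ne_zero two_ne_zero hy')
  obtain ⟨ε, hε, hε1, hε2, hε3⟩ : ∃ ε : ℝ, 0 < ε ∧ ε ≤ δ ∧ ε ≤ |2 * y| ∧
      R' * ε ^ 2 ≤ |(2 ^ 2 * y ^ 2 : ℝ)| / 2 := by
    obtain ⟨κ, hκ⟩ : ∃ κ : ℝ, κ = |(2 ^ 2 * y ^ 2 : ℝ)| / 2 / R' := ⟨_, rfl⟩
    have hκ0 : 0 < κ := by rw [hκ]; positivity
    refine ⟨min (min δ |2 * y|) (min 1 κ), ?_, ?_, ?_, ?_⟩
    · refine lt_min (lt_min hδ h2y) (lt_min one_pos hκ0)
    · exact (min_le_left _ _).trans (min_le_left _ _)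
    · exact (min_le_left _ _).trans (min_le_right _ _)
    · set ε := min (min δ |2 * y|) (min 1 κ)
      have h1 : ε ≤ 1 := (min_le_right _ _).trans (min_le_left _ _)
      have h2 : ε ≤ κ := (min_le_right _ _).trans (min_le_right _ _)
      have h3 : 0 < ε := lt_min (lt_min hδ h2y) (lt_min one_pos hκ0)
      have h4 : ε ^ 2 ≤ κ := by nlinarith
      calc R' * ε ^ 2 ≤ R' * κ := by gcongr
        _ = |(2 ^ 2 * y ^ 2 : ℝ)| / 2 := by rw [hκ]; field_simp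
  refine ⟨ε, hε, fun P' hP' hxP hyP => ?_⟩
  by_cases hxx : xc P' = xc P
  · rcases (xc_eq_iff hP' hP).1 hxx with h | h
    · left; rw [h, sub_self]
    · exfalso
      rw [h, yc_neg, ← hyd] at hyP
      have : -y - y = -(2 * y) := by ring
      rw [this, abs_neg] at hyP
      exact absurd hyP (not_lt.2 hε2)
  · obtain ⟨h3, h4⟩ := ra_xc_sub hP' hP hxx
    right
    rw [← hα, ← hβ, ← hx, ← hyd] at h4
    rw [← hx] at hxP hxx
    rw [← hyd] at hyP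
    have hN := H (y := (xc P', yc P')) (by
      rw [Prod.dist_eq, max_lt_iff, Real.dist_eq, Real.dist_eq]
      exact ⟨lt_of_lt_of_le hxP hε1, lt_of_lt_of_le hyP hε1⟩)
    have hN' : |N (xc P', yc P')| = |xc (P' - P)| * |xc P' - x| ^ 2 := by
      rw [← abs_pow, ← abs_mul, h4]
    rw [hN'] at hN
    have hpos : 0 < |xc P' - x| := abs_pos.2 (sub_ne_zero.2 hxx)
    have h5 : R' * |xc P' - x| ^ 2 < |xc (P' - P)| * |xc P' - x| ^ 2 := by
      refine lt_of_le_of_lt ?_ hN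
      refine le_trans ?_ hε3
      gcongr
    have h6 := lt_of_mul_lt_mul_right h5 (by positivity)
    have h7 : R ≤ R' := by rw [hR']; exact le_max_left _ _
    exact h7.trans h6.le

end Pool.Agent.Helper1.FT
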