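import Pool.Agent.Helper1.FT.RA

/-!
# FT: module RB (small multiples)
-/

namespace Pool.Agent.Helper1.FT

open Pool.Agent.Helper10.K3 WeierstrassCurve.Affine Classical Topology

variable {A B d : ℝ}

private theorem rb_double {P : E A B d} (hP : P ≠ 0) (hy : yc P ≠ 0) :
    xc (P + P) * (4 * yc P ^ 2) = (xc P ^ 2 - A * B * d ^ 2) ^ 2 := by
  cases P with
  | zero => exact absurd rfl hP
  | some x y hn =>
    have hy' : y ≠ 0 := hy
    obtain ⟨X₃, Y₃, h₃, e1, e2, -⟩ := tw_dbl hn (mul_ne_zero two_ne_zero hy')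
    rw [e1]
    change X₃ * (4 * y ^ 2) = (x ^ 2 - A * B * d ^ 2) ^ 2
    linear_combination e2

/-- doubles of points near a point of order two are small -/
private theorem rb_far_double (ok : Ok A B) (hd : d ≠ 0) {P₀ : E A B d} (hy : yc P₀ = 0)
    (R : ℝ) :
    ∃ ε : ℝ, 0 < ε ∧ ∀ P : E A B d, P ≠ 0 → |xc P - xc P₀| < ε → Far R (P + P) := by
  have hA := ok.hA
  have hB := ok.hB
  have hAB := ok.sub_ne
  have h0 : xc P₀ * (xc P₀ - A * d) * (xc P₀ - B * d) = 0 := by
    rw [← curve_eq P₀, hy]; ring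
  have hc : xc P₀ ^ 2 - A * B * d ^ 2 ≠ 0 := by
    rcases mul_eq_zero.1 h0 with h1 | h1
    · rcases mul_eq_zero.1 h1 with h2 | h2
      · rw [h2]
        have : (0 : ℝ) ^ 2 - A * B * d ^ 2 = -(A * B * d ^ 2) := by ring
        rw [this]
        exact neg_ne_zero.2 (mul_ne_zero (mul_ne_zero hA hB) (pow_ne_zero 2 hd))
      · rw [sub_eq_zero.1 h2]
        have : (A * d) ^ 2 - A * B * d ^ 2 = A * (A - B) * d ^ 2 := by ring
        rw [this]
        exact mul_ne_zero (mul_ne_zero hA hAB) (pow_ne_zero 2 hd)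
    · rw [sub_eq_zero.1 h1]
      have : (B * d) ^ 2 - A * B * d ^ 2 = -(B * (A - B) * d ^ 2) := by ring
      rw [this]
      exact neg_ne_zero.2 (mul_ne_zero (mul_ne_zero hB hAB) (pow_ne_zero 2 hd))
  let g : ℝ → ℝ := fun x => (x ^ 2 - A * B * d ^ 2) ^ 2 - 4 * R * (x * (x - A * d) * (x - B * d))
  have hg : Continuous g := by fun_prop
  have hg0 : 0 < g (xc P₀) := by
    show 0 < (xc P₀ ^ 2 - A * B * d ^ 2) ^ 2 -
      4 * R * (xc P₀ * (xc P₀ - A * d) * (xc P₀ - B * d))
    rw [h0]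
    have := sq_pos_of_ne_zero hc
    linarith
  obtain ⟨ε, hε, H⟩ := Metric.eventually_nhds_iff.1 (hg.continuousAt.eventually (lt_mem_nhds hg0))
  refine ⟨ε, hε, fun P hP hx => ?_⟩
  by_cases hyP : yc P = 0
  · left
    exact add_self_of_yc hyP
  · right
    have h1 := rb_double hP hyP
    have h2 : 0 < g (xc P) := H (by rw [Real.dist_eq]; exact hx)
    have h3 : 0 < (xc P ^ 2 - A * B * d ^ 2) ^ 2 -
      4 * R * (xc P * (xc P - A * d) * (xc P - B * d)) := h2
    rw [← curve_eq P, ← h1] at h3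
    have h4 : 0 < 4 * yc P ^ 2 := by positivity
    have h5 : R * (4 * yc P ^ 2) < xc (P + P) * (4 * yc P ^ 2) := by linarith
    have h6 : R < xc (P + P) := lt_of_mul_lt_mul_right h5 h4.le
    exact h6.le.trans (le_abs_self _)

theorem inf_small (h : Ok A B) (hd : d ≠ 0) (P : E A B d) (R : ℝ) :
    ∃ k : ℕ, k ≠ 0 ∧ Far R (k • P) := by
  by_contra hcon
  push Not at hcon
  have hk : ∀ k : ℕ, (k + 1) • P ≠ 0 ∧ |xc ((k + 1) • P)| < R := by
    intro k
    have h := hcon (k + 1) (Nat.succ_ne_zero k)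
    unfold Far at h
    push Not at h
    exact h
  have hR : 0 < R := lt_of_le_of_lt (abs_nonneg _) (hk 0).2
  -- a bounded sequence
  let u : ℕ → ℝ × ℝ := fun k => (xc ((k + 1) • P), yc ((k + 1) • P))
  set C : ℝ := R * (R + |A| * |d|) * (R + |B| * |d|) with hC
  have hC0 : 0 ≤ C := by positivity
  have hy : ∀ k, |yc ((k + 1) • P)| ≤ 1 + C := by
    intro k
    have h1 := congrArg abs (curve_eq ((k + 1) • P))
    rw [abs_pow] at h1
    have h2 : |xc ((k + 1) • P) * (xc ((k + 1) • P) - A * d) * (xc ((k + 1) • P) - B * d)| ≤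
        C := by
      rw [abs_mul, abs_mul, hC]
      have h3 := (hk k).2.le
      have h4 : |xc ((k + 1) • P) - A * d| ≤ R + |A| * |d| := by
        refine (abs_sub _ _).trans ?_
        rw [abs_mul]
        linarith
      have h5 : |xc ((k + 1) • P) - B * d| ≤ R + |B| * |d| := by
        refine (abs_sub _ _).trans ?_
        rw [abs_mul]
        linarith
      gcongr
    have h3 : |yc ((k + 1) • P)| ^ 2 ≤ C := by rw [h1]; exact h2
    nlinarith [abs_nonneg (yc ((k + 1) • P)), sq_nonneg (|yc ((k + 1) • P)| - 1)]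
  have hbdd : Bornology.IsBounded (Set.range u) := by
    rw [Metric.isBounded_iff_subset_closedBall 0]
    refine ⟨max R (1 + C), ?_⟩
    rintro _ ⟨k, rfl⟩
    rw [Metric.mem_closedBall, dist_zero_right, Prod.norm_def]
    exact max_le_max (hk k).2.le (hy k)
  obtain ⟨a, -, φ, hφ, hlim⟩ := tendsto_subseq_of_bounded hbdd (fun k => Set.mem_range_self k)
  -- the limit point
  have hlim1 : Filter.Tendsto (fun j => xc ((φ j + 1) • P)) Filter.atTop (𝓝 a.1) :=
    (continuous_fst.tendsto a).comp hlim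
  have hlim2 : Filter.Tendsto (fun j => yc ((φ j + 1) • P)) Filter.atTop (𝓝 a.2) :=
    (continuous_snd.tendsto a).comp hlim
  have heq : a.2 ^ 2 = a.1 * (a.1 - A * d) * (a.1 - B * d) := by
    have h1 : Filter.Tendsto (fun j => yc ((φ j + 1) • P) ^ 2) Filter.atTop (𝓝 (a.2 ^ 2)) :=
      hlim2.pow 2
    have h2 : Filter.Tendsto (fun j => xc ((φ j + 1) • P) * (xc ((φ j + 1) • P) - A * d) *
        (xc ((φ j + 1) • P) - B * d)) Filter.atTop
        (𝓝 (a.1 * (a.1 - A * d) * (a.1 - B * d))) := by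
      have hc : Continuous (fun x : ℝ => x * (x - A * d) * (x - B * d)) := by fun_prop
      exact (hc.tendsto a.1).comp hlim1
    apply tendsto_nhds_unique h1
    refine h2.congr (fun j => ?_)
    exact (curve_eq _).symm
  set Q : E A B d := mkP h hd a.1 a.2 heq with hQdef
  have hQ : Q ≠ 0 := mkP_ne h hd _ _ _
  have hQx : xc Q = a.1 := rfl
  have hQy : yc Q = a.2 := rfl
  rw [← hQx] at hlim1
  rw [← hQy] at hlim2
  by_cases hy0 : yc Q = 0
  · obtain ⟨ε, hε, H⟩ := rb_far_double h hd hy0 R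
    obtain ⟨N1, hN1⟩ := Metric.tendsto_atTop.1 hlim1 ε hε
    have h1 := hN1 N1 le_rfl
    rw [Real.dist_eq] at h1
    have h2 := H _ (hk (φ N1)).1 h1
    apply hcon ((φ N1 + 1) + (φ N1 + 1)) (by omega)
    rw [add_smul]
    exact h2
  · obtain ⟨R', hRR', hadd⟩ := far_add h hd R
    obtain ⟨ε, hε, H⟩ := far_of_close h hd hQ hy0 R'
    obtain ⟨N1, hN1⟩ := Metric.tendsto_atTop.1 hlim1 ε hε
    obtain ⟨N2, hN2⟩ := Metric.tendsto_atTop.1 hlim2 ε hε
    have hnear : ∀ j, max N1 N2 ≤ j → Far R' ((φ j + 1) • P - Q) := by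
      intro j hj
      apply H _ (hk _).1
      · have := hN1 j ((le_max_left _ _).trans hj)
        rwa [Real.dist_eq] at this
      · have := hN2 j ((le_max_right _ _).trans hj)
        rwa [Real.dist_eq] at this
    set j := max N1 N2
    have h1 := hnear j le_rfl
    have h2 := hnear (j + 1) (Nat.le_succ j)
    have h3 := hadd _ _ h2 h1.neg
    have h4 : φ j < φ (j + 1) := hφ (Nat.lt_succ_self j)
    obtain ⟨k, hkk⟩ : ∃ k, φ (j + 1) = φ j + (k + 1) := ⟨φ (j + 1) - φ j - 1, by omega⟩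
    apply hcon (k + 1) (Nat.succ_ne_zero k)
    have h5 : (φ (j + 1) + 1) • P - Q + -((φ j + 1) • P - Q) = (k + 1) • P := by
      rw [hkk, show φ j + (k + 1) + 1 = (φ j + 1) + (k + 1) by ring, add_smul (φ j + 1) (k + 1) P]
      abel
    rwa [h5] at h3

end Pool.Agent.Helper1.FT
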