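import Pool.Agent.Helper1.FT.Tr

/-!
# FT: definitions at the real place
-/

namespace Pool.Agent.Helper1.FT

open Pool.Agent.Helper10.K3 WeierstrassCurve.Affine Classical

variable {A B d : ℝ}

/-- close to zero in the group of real points -/
def Far (R : ℝ) (P : E A B d) : Prop := P = 0 ∨ R ≤ |xc P|

/-- the identity component of the group of real points -/
def Comp (P : E A B d) : Prop := P = 0 ∨ (0 ≤ xc P ∧ A * d ≤ xc P ∧ B * d ≤ xc P)

theorem Far.mono {R R' : ℝ} (h : R ≤ R') {P : E A B d} (hP : Far R' P) : Far R P :=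
  hP.imp id (fun h' => h.trans h')

theorem Far.neg {R : ℝ} {P : E A B d} (hP : Far R P) : Far R (-P) := by
  rcases hP with rfl | h
  · left
    exact WeierstrassCurve.Affine.Point.neg_zero
  · right; rwa [xc_neg]

end Pool.Agent.Helper1.FT
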