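import Pool.Agent.Helper1.FT.Curve

/-!
# FT: change of field and of twist
-/

namespace Pool.Agent.Helper1.FT

open Pool.Agent.Helper10.K3 WeierstrassCurve.Affine

section

variable {K L : Type*} [Field K] [Field L] {A B d : K}

theorem tr_eqn (φ : K →+* L) {e g : L} (hg : e = φ d * g ^ 2) {x y : K}
    (hxy : y ^ 2 = x * (x - A * d) * (x - B * d)) :
    (g ^ 3 * φ y) ^ 2 = (g ^ 2 * φ x) * (g ^ 2 * φ x - φ A * e) * (g ^ 2 * φ x - φ B * e) := by
  have h1 := congrArg φ hxy
  simp only [map_pow, map_sub, map_mul] at h1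
  rw [hg]
  linear_combination g ^ 6 * h1

/-- underlying function of `tr` -/
def trFun (φ : K →+* L) (h : Ok A B) {e g : L} (he : e ≠ 0) (hg : e = φ d * g ^ 2) :
    E A B d → E (φ A) (φ B) e
  | .zero => 0
  | .some x y hn => mkP (h.map φ) he (g ^ 2 * φ x) (g ^ 3 * φ y)
      (tr_eqn φ hg ((e_equation x y).1 hn.1))

variable [DecidableEq K] [DecidableEq L]

/-- base change followed by scaling: `(X, Y) ↦ (g² φ(X), g³ φ(Y))` -/
def tr (φ : K →+* L) (h : Ok A B) {e g : L} (he : e ≠ 0) (hg : e = φ d * g ^ 2) :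
    E A B d →+ E (φ A) (φ B) e where
  toFun := trFun φ h he hg
  map_zero' := rfl
  map_add' := by
    have hg0 : g ≠ 0 := by
      rintro rfl
      apply he
      rw [hg]; ring
    rintro (_ | ⟨X₁, Y₁, h₁⟩) (_ | ⟨X₂, Y₂, h₂⟩)
    · rfl
    · change trFun φ h he hg (0 + _) = 0 + _
      rw [zero_add, zero_add]
    · change trFun φ h he hg (_ + 0) = _ + 0
      rw [add_zero, add_zero]
    · have k₁ := (h.map φ).nonsing he (tr_eqn φ hg ((e_equation X₁ Y₁).1 h₁.1))
      have k₂ := (h.map φ).nonsing he (tr_eqn φ hg ((e_equation X₂ Y₂).1 h₂.1))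
      have q₁ := (e_equation X₁ Y₁).1 h₁.1
      have q₂ := (e_equation X₂ Y₂).1 h₂.1
      change trFun φ h he hg (Point.some X₁ Y₁ h₁ + Point.some X₂ Y₂ h₂) =
        Point.some (g ^ 2 * φ X₁) (g ^ 3 * φ Y₁) k₁ + Point.some (g ^ 2 * φ X₂) (g ^ 3 * φ Y₂) k₂
      by_cases hX : X₁ = X₂
      · subst hX
        by_cases hY : Y₁ = (TW (-(A + B)) (A * B) d).negY X₁ Y₂
        · rw [Point.add_of_Y_eq rfl hY, Point.add_of_Y_eq rfl]
          · rfl
          · rw [tw_negY] at hY ⊢
            rw [hY, map_neg]; ring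
        · rw [tw_negY] at hY
          have hYY : Y₁ = Y₂ := by
            have : (Y₁ - Y₂) * (Y₁ + Y₂) = 0 := by linear_combination q₁ - q₂
            rcases mul_eq_zero.1 this with h | h
            · exact sub_eq_zero.1 h
            · exact absurd (by linear_combination h) hY
          subst hYY
          have hY2 : 2 * Y₁ ≠ 0 := by
            intro h
            apply hY
            linear_combination h
          have hcY2 : 2 * (g ^ 3 * φ Y₁) ≠ 0 := by
            have : 2 * (g ^ 3 * φ Y₁) = g ^ 3 * φ (2 * Y₁) := by rw [map_mul, map_ofNat]; ring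
            rw [this]
            exact mul_ne_zero (pow_ne_zero 3 hg0) ((map_ne_zero φ).2 hY2)
          obtain ⟨X₃, Y₃, h₃, e1, e2, e3⟩ := tw_dbl h₁ hY2
          obtain ⟨X₃', Y₃', h₃', e1', e2', e3'⟩ := tw_dbl k₁ hcY2
          have f2 := congrArg φ e2
          have f3 := congrArg φ e3
          simp only [map_pow, map_sub, map_add, map_mul, map_ofNat, map_neg] at f2 f3
          have hX3 : X₃' = g ^ 2 * φ X₃ := by
            apply mul_right_cancel₀ (pow_ne_zero 2 hcY2)
            rw [e2', hg]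
            linear_combination (-g ^ 8) * f2
          have hY3 : Y₃' = g ^ 3 * φ Y₃ := by
            apply mul_right_cancel₀ hcY2
            rw [e3', hg, hX3]
            linear_combination (-g ^ 6) * f3
          rw [e1, e1']
          subst hX3
          subst hY3
          rfl
      · have hcX : g ^ 2 * φ X₁ ≠ g ^ 2 * φ X₂ := fun h =>
          hX (φ.injective (mul_left_cancel₀ (pow_ne_zero 2 hg0) h))
        obtain ⟨X₃, Y₃, h₃, e1, e2, e3⟩ := tw_add_X_ne h₁ h₂ hX
        obtain ⟨X₃', Y₃', h₃', e1', e2', e3'⟩ := tw_add_X_ne k₁ k₂ hcX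
        have f2 := congrArg φ e2
        have f3 := congrArg φ e3
        simp only [map_pow, map_sub, map_add, map_mul, map_neg] at f2 f3
        have hX3 : X₃' = g ^ 2 * φ X₃ := by
          apply mul_right_cancel₀ (pow_ne_zero 2 (sub_ne_zero.2 hcX))
          rw [e2', hg]
          linear_combination (-g ^ 6) * f2
        have hY3 : Y₃' = g ^ 3 * φ Y₃ := by
          apply mul_right_cancel₀ (sub_ne_zero.2 hcX)
          rw [e3', hX3]
          linear_combination (-g ^ 5) * f3
        rw [e1, e1']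
        subst hX3
        subst hY3
        rfl

variable {φ : K →+* L} {h : Ok A B} {e g : L} {he : e ≠ 0} {hg : e = φ d * g ^ 2}

theorem xc_tr (P : E A B d) : xc (tr φ h he hg P) = g ^ 2 * φ (xc P) := by
  cases P with
  | zero => change (0 : L) = g ^ 2 * φ 0; rw [map_zero, mul_zero]
  | some x y hn => rfl

theorem yc_tr (P : E A B d) : yc (tr φ h he hg P) = g ^ 3 * φ (yc P) := by
  cases P with
  | zero => change (0 : L) = g ^ 3 * φ 0; rw [map_zero, mul_zero]
  | some x y hn => rfl

theorem tr_ne {P : E A B d} (hP : P ≠ 0) : tr φ h he hg P ≠ 0 := by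
  cases P with
  | zero => exact absurd rfl hP
  | some x y hn => exact Point.some_ne_zero _

theorem tr_torP (hd : d ≠ 0) (j : J) :
    tr φ h he hg (torP h hd j) = torP (h.map φ) he j := by
  by_cases hj : j = 0
  · rw [hj, torP_zero, torP_zero, map_zero]
  apply pt_ext (tr_ne (torP_ne h hd hj)) (torP_ne _ _ hj)
  · rw [xc_tr, xc_torP _ _ hj, xc_torP _ _ hj, map_mul, hg]
    have : φ (rt A B j) = rt (φ A) (φ B) j := by
      unfold rt
      split_ifs <;> simp
    rw [this]; ring
  · rw [yc_tr, yc_torP, yc_torP, map_zero, mul_zero]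

/-- representations and change of field -/
theorem Rep.tr {u : Pt A B} {P Q : E A B d} (hr : Rep u d P Q) :
    Rep (Pt.map φ u) e (FT.tr φ h he hg P) (FT.tr φ h he hg Q) := by
  obtain ⟨hd, hP, hQ, h1, h2, h3⟩ := hr
  refine ⟨he, tr_ne hP, tr_ne hQ, ?_, ?_, ?_⟩
  · rw [xc_tr, ← h1, map_mul, hg, Pt.map_x]; ring
  · rw [xc_tr, ← h2, map_mul, hg, Pt.map_y]; ring
  · rw [yc_tr, yc_tr, hg, Pt.map_z]
    have := congrArg φ h3
    simp only [map_mul, map_pow] at this
    linear_combination g ^ 6 * this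

end

end Pool.Agent.Helper1.FT
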